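import Mathlib

set_option autoImplicit false

namespace Pool.Agent.Helper538.Cp

open Set Function Topology

/-- The set of binary sequences with the discrete topology. -/
def Cd : Type := ℕ → Bool

instance : TopologicalSpace Cd := ⊥
instance : DiscreteTopology Cd := ⟨rfl⟩

/-- The identity map. -/
def toC (c : Cd) : ℕ → Bool := c

/-- Prepend a digit. -/
def cns (b : Bool) (c : ℕ → Bool) : ℕ → Bool
  | 0 => b
  | n + 1 => c n

theorem continuous_cns (b : Bool) : Continuous (cns b) := by
  refine continuous_pi fun n => ?_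
  cases n with
  | zero => exact continuous_const
  | succ n => exact continuous_apply n

theorem cns_surj (c : ℕ → Bool) : cns (c 0) (fun n => c (n + 1)) = c := by
  funext n
  cases n <;> rfl

theorem cns_inj {b b' : Bool} {c c' : ℕ → Bool} (h : cns b c = cns b' c') : b = b' ∧ c = c' := by
  refine ⟨congrFun h 0, ?_⟩
  funext n
  exact congrFun h (n + 1)

/-- The composite of the maps along a word. -/
def word {E : Type} (s : Bool → E → E) (w : List Bool) (x : E) : E := w.foldr s x

theorem exists_word {V : Set (ℕ → Bool)} (hV : IsOpen V) {c₀ : ℕ → Bool} (h : c₀ ∈ V) :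
    ∃ w : List Bool, ∀ c, word cns w c ∈ V := by
  obtain ⟨U, ⟨x, n, rfl⟩, hxU, hUV⟩ :=
    (PiNat.isTopologicalBasis_cylinders (fun _ : ℕ => Bool)).exists_subset_of_mem_open h hV
  have key : ∀ (n : ℕ) (x : ℕ → Bool), ∃ w : List Bool, ∀ c, word cns w c ∈ PiNat.cylinder x n := by
    intro n
    induction n with
    | zero => intro x; exact ⟨[], fun c => by simp⟩
    | succ n ih =>
      intro x
      obtain ⟨w, hw⟩ := ih (fun k => x (k + 1))
      refine ⟨x 0 :: w, fun c => ?_⟩
      rw [PiNat.mem_cylinder_iff]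
      intro i hi
      cases i with
      | zero => rfl
      | succ i =>
        have := (PiNat.mem_cylinder_iff.mp (hw c)) i (by omega)
        exact this
  obtain ⟨w, hw⟩ := key n x
  exact ⟨w, fun c => hUV (hw c)⟩

theorem exists_space : ∃ (E : Type) (_ : TopologicalSpace E) (_ : CompactSpace E) (_ : T2Space E)
    (_ : ExtremallyDisconnected E) (H : E ≃ₜ (Σ _ : Bool, E)),
    (∃ ρ : E → (ℕ → Bool), Function.Surjective ρ) ∧
    ∀ O : Set E, IsOpen O → O.Nonempty → ∃ w : List Bool, ∀ x,
      word (fun b x => H.symm ⟨b, x⟩) w x ∈ O := by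
  have hC : Continuous toC := continuous_of_discreteTopology
  let π : StoneCech Cd → (ℕ → Bool) := stoneCechExtend hC
  have hπ : Continuous π := continuous_stoneCechExtend hC
  have hπs : Function.Surjective π := by
    intro c
    refine ⟨stoneCechUnit (show Cd from c), ?_⟩
    exact congrFun (stoneCechExtend_extends hC) (show Cd from c)
  obtain ⟨E, hEc, hE, hmin⟩ := exists_compact_surjective_zorn_subset hπ hπs
  let ρ : E → (ℕ → Bool) := fun e => π e
  have hρ : Continuous ρ := hπ.comp continuous_subtype_val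
  have hρs : Function.Surjective ρ := by
    intro c
    obtain ⟨d, hd, hdc⟩ := (hE ▸ mem_univ c : c ∈ π '' E)
    exact ⟨⟨d, hd⟩, hdc⟩
  have hmin' : ∀ E₀ : Set E, E₀ ≠ univ → IsClosed E₀ → ρ '' E₀ ≠ univ := hmin
  -- the retraction
  obtain ⟨r, hr, hrπ⟩ := StoneCech.projective (X := Cd) hπ hρ hρs
  have hrid : ∀ e : E, r e = e := by
    intro e
    by_contra hne
    obtain ⟨U, V, hU, hV, heU, heV, hUV⟩ := t2_separation hne
    let W : Set E := V ∩ (fun e : E => r e) ⁻¹' U
    have hW : IsOpen W := hV.inter (hU.preimage (hr.comp continuous_subtype_val))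
    have heW : e ∈ W := ⟨heV, heU⟩
    refine hmin' Wᶜ (fun h => (h ▸ mem_univ e : e ∈ Wᶜ) heW) hW.isClosed_compl ?_
    refine eq_univ_of_forall fun c => ?_
    obtain ⟨e', rfl⟩ := hρs c
    by_cases he' : e' ∈ W
    · refine ⟨r e', fun h => ?_, ?_⟩
      · exact Set.disjoint_left.mp hUV he'.2 h.1
      · exact congrFun hrπ (e' : StoneCech Cd)
    · exact ⟨e', he', rfl⟩
  have hproj : CompactT2.Projective E := by
    intro Y Z _ _ _ _ _ _ f g hf hg hgs
    obtain ⟨h, hh, hgh⟩ := StoneCech.projective (X := Cd) (hf.comp hr) hg hgs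
    refine ⟨fun e => h e, hh.comp continuous_subtype_val, ?_⟩
    funext e
    have := congrFun hgh (e : StoneCech Cd)
    simp only [Function.comp] at this ⊢
    rw [this, hrid]
  haveI hED : ExtremallyDisconnected E := hproj.extremallyDisconnected
  -- the double
  let ρ' : (Σ _ : Bool, E) → (ℕ → Bool) := fun p => cns p.1 (ρ p.2)
  have hρ' : Continuous ρ' := by
    refine continuous_sigma fun b => ?_
    exact (continuous_cns b).comp hρ
  have hρ's : Function.Surjective ρ' := by
    intro c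
    obtain ⟨e, he⟩ := hρs (fun n => c (n + 1))
    refine ⟨⟨c 0, e⟩, ?_⟩
    change cns (c 0) (ρ e) = c
    rw [he, cns_surj]
  have hmin'' : ∀ F : Set (Σ _ : Bool, E), F ≠ univ → IsClosed F → ρ' '' F ≠ univ := by
    intro F hF hFc himg
    obtain ⟨⟨b, e⟩, he⟩ := (Set.ne_univ_iff_exists_notMem F).mp hF
    let F' : Set E := {e | (⟨b, e⟩ : Σ _ : Bool, E) ∈ F}
    have h1 : F' ≠ univ := fun h => he (h ▸ mem_univ e : e ∈ F')
    have h2 : IsClosed F' := hFc.preimage (continuous_sigmaMk (σ := fun _ : Bool => E) (i := b))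
    refine hmin' F' h1 h2 ?_
    refine eq_univ_of_forall fun c => ?_
    obtain ⟨⟨b', e'⟩, he', hc⟩ := (himg ▸ mem_univ (cns b c) : cns b c ∈ ρ' '' F)
    obtain ⟨rfl, rfl⟩ := cns_inj hc
    exact ⟨e', he', rfl⟩
  obtain ⟨h, hh, hρh⟩ := hproj hρ hρ' hρ's
  have hρh' : ∀ e, ρ' (h e) = ρ e := fun e => congrFun hρh e
  have hhs : Function.Surjective h := by
    rw [← Set.range_eq_univ]
    by_contra hne
    refine hmin'' _ hne (isCompact_range hh).isClosed ?_
    refine eq_univ_of_forall fun c => ?_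
    obtain ⟨e, rfl⟩ := hρs c
    exact ⟨h e, mem_range_self e, hρh' e⟩
  have hhmin : ∀ E₀ : Set E, E₀ ≠ univ → IsClosed E₀ → h '' E₀ ≠ univ := by
    intro E₀ hne hcl himg
    refine hmin' E₀ hne hcl ?_
    refine eq_univ_of_forall fun c => ?_
    obtain ⟨p, hp⟩ := hρ's c
    obtain ⟨e, he, rfl⟩ := (himg ▸ mem_univ p : p ∈ h '' E₀)
    exact ⟨e, he, by rw [← hρh', hp]⟩
  let H := ExtremallyDisconnected.homeoCompactToT2 hh hhs hhmin
  have hH : ∀ e, H e = h e := fun e => rfl
  have hHs : ∀ b e, ρ (H.symm ⟨b, e⟩) = cns b (ρ e) := by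
    intro b e
    rw [← hρh', ← hH, Homeomorph.apply_symm_apply]
  refine ⟨E, inferInstance, hEc, inferInstance, hED, H, ?_, ?_⟩
  · exact ⟨ρ, hρs⟩
  · intro O hO hOn
    have h1 : ρ '' Oᶜ ≠ univ := by
      refine hmin' _ ?_ hO.isClosed_compl
      obtain ⟨e, he⟩ := hOn
      intro h
      exact (h ▸ mem_univ e : e ∈ Oᶜ) he
    obtain ⟨c₀, hc₀⟩ := (Set.ne_univ_iff_exists_notMem _).mp h1
    have h2 : IsOpen (ρ '' Oᶜ)ᶜ := (hO.isClosed_compl.isCompact.image hρ).isClosed.isOpen_compl
    obtain ⟨w, hw⟩ := exists_word h2 hc₀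
    refine ⟨w, fun x => ?_⟩
    have h3 : ∀ (w : List Bool) (x : E), ρ (word (fun b x => H.symm ⟨b, x⟩) w x)
        = word cns w (ρ x) := by
      intro w
      induction w with
      | nil => intro x; rfl
      | cons b w ih =>
        intro x
        change ρ (H.symm ⟨b, word (fun b x => H.symm ⟨b, x⟩) w x⟩) = cns b (word cns w (ρ x))
        rw [hHs, ih]
    by_contra hx
    refine hw (ρ x) ?_
    rw [← h3]
    exact ⟨_, hx, rfl⟩

end Pool.Agent.Helper538.Cp
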