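import Pool.Agent.Helper538.CpA

set_option autoImplicit false

namespace Pool.Agent.Helper538.Cp

open Set Function Topology Filter

section meas

variable {E : Type}

/-- Total variation of a finitely supported measure on a set. -/
noncomputable def mass (μ : E →₀ ℝ) (W : Set E) : ℝ :=
  ∑ x ∈ μ.support, W.indicator (fun x => |μ x|) x

/-- Value of a finitely supported measure on a set. -/
noncomputable def val (μ : E →₀ ℝ) (W : Set E) : ℝ :=
  ∑ x ∈ μ.support, W.indicator (fun x => μ x) x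

theorem mass_nonneg (μ : E →₀ ℝ) (W : Set E) : 0 ≤ mass μ W :=
  Finset.sum_nonneg fun _ _ => Set.indicator_nonneg (fun _ _ => abs_nonneg _) _

theorem mass_mono (μ : E →₀ ℝ) {W W' : Set E} (h : W ⊆ W') : mass μ W ≤ mass μ W' :=
  Finset.sum_le_sum fun _ _ => Set.indicator_le_indicator_of_subset h (fun _ => abs_nonneg _) _

theorem mass_union_le (μ : E →₀ ℝ) (W W' : Set E) : mass μ (W ∪ W') ≤ mass μ W + mass μ W' := by
  classical
  unfold mass
  rw [← Finset.sum_add_distrib]
  refine Finset.sum_le_sum fun x _ => ?_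
  by_cases h1 : x ∈ W <;> by_cases h2 : x ∈ W' <;> simp [Set.indicator, h1, h2]

theorem sum_mass_le (μ : E →₀ ℝ) {ι : Type} (S : Finset ι) (W : ι → Set E)
    (h : ∀ i ∈ S, ∀ j ∈ S, i ≠ j → Disjoint (W i) (W j)) :
    ∑ i ∈ S, mass μ (W i) ≤ mass μ univ := by
  classical
  unfold mass
  rw [Finset.sum_comm]
  refine Finset.sum_le_sum fun x _ => ?_
  by_cases hx : ∃ i ∈ S, x ∈ W i
  · obtain ⟨i, hi, hxi⟩ := hx
    rw [Finset.sum_eq_single_of_mem i hi]
    · exact Set.indicator_le_indicator_of_subset (Set.subset_univ _) (fun _ => abs_nonneg _) _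
    · intro j hj hji
      rw [Set.indicator_of_notMem]
      intro hxj
      exact Set.disjoint_left.mp (h j hj i hi hji) hxj hxi
  · push Not at hx
    rw [Finset.sum_eq_zero]
    · exact Set.indicator_nonneg (fun _ _ => abs_nonneg _) _
    · intro i hi
      rw [Set.indicator_of_notMem (hx i hi)]

theorem mass_biUnion_le (μ : E →₀ ℝ) {ι : Type} (S : Finset ι) (W : ι → Set E) :
    mass μ (⋃ i ∈ S, W i) ≤ ∑ i ∈ S, mass μ (W i) := by
  classical
  induction S using Finset.induction_on with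
  | empty => simp [mass]
  | insert i S hi ih =>
    rw [Finset.sum_insert hi, Finset.set_biUnion_insert]
    exact (mass_union_le _ _ _).trans (by linarith)

theorem abs_val_le (μ : E →₀ ℝ) (W : Set E) : |val μ W| ≤ mass μ W := by
  classical
  unfold val mass
  refine (Finset.abs_sum_le_sum_abs _ _).trans (Finset.sum_le_sum fun x _ => ?_)
  by_cases h : x ∈ W <;> simp [Set.indicator, h]

theorem val_union (μ : E →₀ ℝ) {W W' : Set E} (h : Disjoint W W') :
    val μ (W ∪ W') = val μ W + val μ W' := by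
  unfold val
  rw [← Finset.sum_add_distrib]
  refine Finset.sum_congr rfl fun x _ => ?_
  rw [Set.indicator_union_of_disjoint h]

theorem val_congr (μ : E →₀ ℝ) {W W' : Set E} (h : ∀ x ∈ μ.support, x ∈ W ↔ x ∈ W') :
    val μ W = val μ W' := by
  classical
  unfold val
  refine Finset.sum_congr rfl fun x hx => ?_
  by_cases h1 : x ∈ W
  · rw [Set.indicator_of_mem h1, Set.indicator_of_mem ((h x hx).mp h1)]
  · rw [Set.indicator_of_notMem h1, Set.indicator_of_notMem (fun h2 => h1 ((h x hx).mpr h2))]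

theorem mass_congr (μ : E →₀ ℝ) {W W' : Set E} (h : ∀ x ∈ μ.support, x ∈ W ↔ x ∈ W') :
    mass μ W = mass μ W' := by
  classical
  unfold mass
  refine Finset.sum_congr rfl fun x hx => ?_
  by_cases h1 : x ∈ W
  · rw [Set.indicator_of_mem h1, Set.indicator_of_mem ((h x hx).mp h1)]
  · rw [Set.indicator_of_notMem h1, Set.indicator_of_notMem (fun h2 => h1 ((h x hx).mpr h2))]

/-- One of the two sign parts carries half of the mass. -/
theorem exists_sign (μ : E →₀ ℝ) (G : Finset E) : ∃ G' ⊆ G, G' ⊆ μ.support ∧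
    mass μ G ≤ 2 * |val μ G'| := by
  classical
  let P : Finset E := G.filter fun x => 0 < μ x
  let Q : Finset E := G.filter fun x => μ x < 0
  have hP : mass μ P = val μ P := by
    unfold mass val
    refine Finset.sum_congr rfl fun x _ => ?_
    by_cases h : x ∈ (P : Set E)
    · rw [Set.indicator_of_mem h, Set.indicator_of_mem h]
      exact abs_of_pos (Finset.mem_filter.mp (Finset.mem_coe.mp h)).2
    · rw [Set.indicator_of_notMem h, Set.indicator_of_notMem h]
  have hQ : mass μ Q = - val μ Q := by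
    unfold mass val
    rw [← Finset.sum_neg_distrib]
    refine Finset.sum_congr rfl fun x _ => ?_
    by_cases h : x ∈ (Q : Set E)
    · rw [Set.indicator_of_mem h, Set.indicator_of_mem h]
      exact abs_of_neg (Finset.mem_filter.mp (Finset.mem_coe.mp h)).2
    · rw [Set.indicator_of_notMem h, Set.indicator_of_notMem h, neg_zero]
  have hG : mass μ G ≤ mass μ P + mass μ Q := by
    have h1 : mass μ G = mass μ ((P : Set E) ∪ Q) := by
      refine mass_congr μ fun x hx => ?_
      have hx' := Finsupp.mem_support_iff.mp hx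
      simp only [P, Q, Finset.coe_filter, Set.mem_union, Set.mem_ofPred_eq, Finset.mem_coe]
      constructor
      · intro h
        rcases lt_or_gt_of_ne hx' with h' | h'
        · exact Or.inr ⟨h, h'⟩
        · exact Or.inl ⟨h, h'⟩
      · rintro (h | h) <;> exact h.1
    rw [h1]
    exact mass_union_le _ _ _
  rcases le_total (mass μ P) (mass μ Q) with h | h
  · refine ⟨Q, Finset.filter_subset _ _, fun x hx => ?_, ?_⟩
    · exact Finsupp.mem_support_iff.mpr (Finset.mem_filter.mp hx).2.ne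
    · have := neg_abs_le (val μ Q)
      linarith
  · refine ⟨P, Finset.filter_subset _ _, fun x hx => ?_, ?_⟩
    · exact Finsupp.mem_support_iff.mpr (Finset.mem_filter.mp hx).2.ne'
    · have := le_abs_self (val μ P)
      linarith

end meas

section thin

/-- Dependent thinning. -/
theorem thin (Q : ℕ → ℕ → Set ℕ → Prop)
    (hmono : ∀ k m N N', N' ⊆ N → Q k m N → Q k m N')
    (hex : ∀ k (N : Set ℕ), N.Infinite → ∃ m ∈ N, ∃ N' ⊆ N, N'.Infinite ∧ (∀ n ∈ N', m < n) ∧
      Q k m N') :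
    ∃ φ : ℕ → ℕ, StrictMono φ ∧ ∀ k, Q k (φ k) (φ '' Ioi k) := by
  choose m hm N' hsub hinf hlt hQ using hex
  let st : ℕ → {N : Set ℕ // N.Infinite} := fun k =>
    Nat.rec ⟨Set.univ, Set.infinite_univ⟩ (fun k N => ⟨N' k N.1 N.2, hinf k N.1 N.2⟩) k
  let φ : ℕ → ℕ := fun k => m k (st k).1 (st k).2
  have hst : ∀ k, (st (k + 1)).1 = N' k (st k).1 (st k).2 := fun k => rfl
  have hanti : ∀ j k, j ≤ k → (st k).1 ⊆ (st j).1 := by
    intro j k hjk
    induction k, hjk using Nat.le_induction with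
    | base => exact subset_rfl
    | succ k _ ih =>
      rw [hst]
      exact (hsub _ _ _).trans ih
  have hmem : ∀ j k, k < j → φ j ∈ N' k (st k).1 (st k).2 := by
    intro j k hkj
    rw [← hst]
    exact hanti (k + 1) j hkj (hm _ _ _)
  refine ⟨φ, ?_, ?_⟩
  · intro k j hkj
    exact hlt _ _ _ _ (hmem j k hkj)
  · intro k
    refine hmono _ _ _ _ ?_ (hQ k (st k).1 (st k).2)
    rintro _ ⟨j, hj, rfl⟩
    exact hmem j k hj

theorem split_infinite {N : Set ℕ} (hN : N.Infinite) :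
    ∃ A B : Set ℕ, A ⊆ N ∧ B ⊆ N ∧ A.Infinite ∧ B.Infinite ∧ Disjoint A B := by
  have : Infinite N := hN.to_subtype
  let e : ℕ ↪ N := Infinite.natEmbedding N
  have hinj : Function.Injective fun n => (e n : ℕ) := Subtype.val_injective.comp e.injective
  refine ⟨Set.range fun n => (e (2 * n) : ℕ), Set.range fun n => (e (2 * n + 1) : ℕ), ?_, ?_,
    ?_, ?_, ?_⟩
  · rintro _ ⟨n, rfl⟩; exact (e _).2
  · rintro _ ⟨n, rfl⟩; exact (e _).2
  · exact Set.infinite_range_of_injective fun a b h => by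
      have := hinj h
      omega
  · exact Set.infinite_range_of_injective fun a b h => by
      have := hinj h
      omega
  · rw [Set.disjoint_left]
    rintro _ ⟨n, rfl⟩ ⟨m, hm⟩
    have := hinj hm
    omega

end thin

section sep

variable {E : Type} [TopologicalSpace E] [CompactSpace E] [T2Space E] [ExtremallyDisconnected E]

theorem exists_clopen_finset (F : Finset E) {O : Set E} (hO : IsOpen O) (h : (F : Set E) ⊆ O) :
    ∃ V, IsClopen V ∧ (F : Set E) ⊆ V ∧ V ⊆ O := by
  classical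
  induction F using Finset.induction_on with
  | empty => exact ⟨∅, isClopen_empty, by simp, Set.empty_subset _⟩
  | insert x F hx ih =>
    rw [Finset.coe_insert, Set.insert_subset_iff] at h
    obtain ⟨V, hV, hFV, hVO⟩ := ih h.2
    obtain ⟨V', hV', hxV', hVO'⟩ := compact_exists_isClopen_in_isOpen hO h.1
    refine ⟨V' ∪ V, hV'.union hV, ?_, Set.union_subset hVO' hVO⟩
    rw [Finset.coe_insert, Set.insert_subset_iff]
    exact ⟨Or.inl hxV', fun y hy => Or.inr (hFV hy)⟩

theorem exists_clopen_avoid (F Q : Finset E) (h : Disjoint F Q) :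
    ∃ V, IsClopen V ∧ (F : Set E) ⊆ V ∧ Disjoint V (Q : Set E) := by
  obtain ⟨V, hV, hF, hO⟩ := exists_clopen_finset F (O := (Q : Set E)ᶜ)
    (Q.finite_toSet.isClosed.isOpen_compl)
    (fun x hx hq => Finset.disjoint_left.mp h hx hq)
  exact ⟨V, hV, hF, Set.disjoint_left.mpr fun x hx => hO hx⟩

theorem exists_sep (S : Finset ℕ) (F : ℕ → Finset E) (h : ∀ m n, m ≠ n → Disjoint (F m) (F n)) :
    ∃ W : ℕ → Set E, (∀ m, IsClopen (W m)) ∧ (∀ m, (F m : Set E) ⊆ W m ∨ m ∉ S) ∧
      ∀ m ∈ S, ∀ n ∈ S, m ≠ n → Disjoint (W m) (W n) := by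
  classical
  obtain ⟨U, hU, hd⟩ := (S.biUnion F).finite_toSet.t2_separation
  have hO : ∀ m, IsOpen (⋃ x ∈ F m, U x) := fun m =>
    isOpen_biUnion fun x _ => (hU x).2
  have hF : ∀ m, (F m : Set E) ⊆ ⋃ x ∈ F m, U x := fun m x hx =>
    Set.mem_biUnion hx (hU x).1
  choose W hW hFW hWO using fun m => exists_clopen_finset (F m) (hO m) (hF m)
  refine ⟨W, hW, fun m => Or.inl (hFW m), ?_⟩
  intro m hm n hn hmn
  refine Disjoint.mono (hWO m) (hWO n) ?_
  rw [Set.disjoint_left]
  intro z hz hz'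
  obtain ⟨x, hx, hzx⟩ := Set.mem_iUnion₂.mp hz
  obtain ⟨y, hy, hzy⟩ := Set.mem_iUnion₂.mp hz'
  have hxy : x ≠ y := by
    rintro rfl
    exact Finset.disjoint_left.mp (h m n hmn) hx hy
  exact Set.disjoint_left.mp (hd (Finset.mem_coe.mpr (Finset.mem_biUnion.mpr ⟨m, hm, hx⟩))
    (Finset.mem_coe.mpr (Finset.mem_biUnion.mpr ⟨n, hn, hy⟩)) hxy) hzx hzy

/-- Among disjoint finite sets some has a neighbourhood which is small for infinitely many
measures. -/
theorem pigeon (ν : ℕ → E →₀ ℝ) (C : ℝ) (hC : ∀ n, mass (ν n) univ ≤ C)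
    (F : ℕ → Finset E) (hF : ∀ m n, m ≠ n → Disjoint (F m) (F n)) (δ : ℝ) (hδ : 0 < δ)
    (N : Set ℕ) (hN : N.Infinite) :
    ∃ m ∈ N, ∃ V, IsClopen V ∧ (F m : Set E) ⊆ V ∧ {n ∈ N | mass (ν n) V ≤ δ}.Infinite := by
  by_contra hcon
  push Not at hcon
  obtain ⟨K, hK⟩ := exists_nat_gt (C / δ)
  obtain ⟨S, hSN, hScard⟩ := hN.exists_subset_card_eq K
  obtain ⟨W, hW, hFW, hd⟩ := exists_sep S F hF
  have hfin : (⋃ m ∈ S, {n ∈ N | mass (ν n) (W m) ≤ δ}).Finite := by
    refine Set.Finite.biUnion S.finite_toSet fun m hm => ?_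
    have := hcon m (hSN hm) (W m) (hW m) ((hFW m).resolve_right (fun h => h hm))
    exact this
  obtain ⟨n, hn, hn'⟩ := (hN.sdiff hfin).nonempty
  have hbig : ∀ m ∈ S, δ < mass (ν n) (W m) := by
    intro m hm
    by_contra hle
    exact hn' (Set.mem_biUnion hm ⟨hn, not_lt.mp hle⟩)
  have h1 : (K : ℝ) * δ ≤ C := by
    calc (K : ℝ) * δ = ∑ _m ∈ S, δ := by rw [Finset.sum_const, hScard, nsmul_eq_mul]
      _ ≤ ∑ m ∈ S, mass (ν n) (W m) := Finset.sum_le_sum fun m hm => (hbig m hm).le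
      _ ≤ mass (ν n) univ := sum_mass_le _ _ _ hd
      _ ≤ C := hC n
  rw [div_lt_iff₀ hδ] at hK
  linarith

/-- Disjointification along a subsequence. -/
theorem disjointify (ν : ℕ → E →₀ ℝ) (C : ℝ) (hC : ∀ n, mass (ν n) univ ≤ C)
    (F : ℕ → Finset E) (hF : ∀ m n, m ≠ n → Disjoint (F m) (F n)) (ε : ℝ) (hε : 0 < ε) :
    ∃ φ : ℕ → ℕ, StrictMono φ ∧ ∃ W : ℕ → Set E, (∀ k, IsClopen (W k)) ∧
      (∀ j k, j ≠ k → Disjoint (W j) (W k)) ∧
      (∀ k, (F (φ k) : Set E) ⊆ W k ∪ ⋃ j ∈ Finset.range k, W j) ∧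
      ∀ k, mass (ν (φ k)) (⋃ j ∈ Finset.range k, W j) ≤ ε := by
  obtain ⟨φ, hφ, hQ⟩ := thin (fun k m N' => ∃ V : Set E, IsClopen V ∧ (F m : Set E) ⊆ V ∧
      ∀ n ∈ N', mass (ν n) V ≤ ε / 2 / 2 ^ k)
    (fun k m N N' hsub ⟨V, h1, h2, h3⟩ => ⟨V, h1, h2, fun n hn => h3 n (hsub hn)⟩)
    (fun k N hN => by
      obtain ⟨m, hm, V, hV, hFV, hinf⟩ := pigeon ν C hC F hF (ε / 2 / 2 ^ k) (by positivity) N hN
      refine ⟨m, hm, {n ∈ N | mass (ν n) V ≤ ε / 2 / 2 ^ k} \ Set.Iic m, ?_, ?_, ?_,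
        V, hV, hFV, ?_⟩
      · intro n hn; exact hn.1.1
      · exact hinf.sdiff (Set.finite_Iic m)
      · intro n hn
        exact not_le.mp hn.2
      · intro n hn; exact hn.1.2)
  choose V hV hFV hsmall using hQ
  refine ⟨φ, hφ, fun k => V k \ ⋃ j ∈ Finset.range k, V j, ?_, ?_, ?_, ?_⟩
  · intro k
    exact (hV k).diff ((Finset.range k).finite_toSet.isClopen_biUnion fun j _ => hV j)
  · have key : ∀ j k, j < k → Disjoint (V j \ ⋃ i ∈ Finset.range j, V i)
        (V k \ ⋃ i ∈ Finset.range k, V i) := by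
      intro j k hjk
      rw [Set.disjoint_left]
      rintro x hx ⟨_, hx'⟩
      exact hx' (Set.mem_biUnion (Finset.mem_coe.mpr (Finset.mem_range.mpr hjk)) hx.1)
    intro j k hjk
    rcases lt_or_gt_of_ne hjk with h | h
    · exact key j k h
    · exact (key k j h).symm
  · intro k x hx
    have hxV := hFV k hx
    by_cases h : ∃ j, j < k ∧ x ∈ V j
    · right
      classical
      have hmin := Nat.find_spec h
      refine Set.mem_biUnion (Finset.mem_coe.mpr (Finset.mem_range.mpr hmin.1)) ⟨hmin.2, ?_⟩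
      intro hx'
      obtain ⟨i, hi, hxi⟩ := Set.mem_iUnion₂.mp hx'
      exact Nat.find_min h (Finset.mem_range.mp hi) ⟨(Finset.mem_range.mp hi).trans hmin.1, hxi⟩
    · left
      refine ⟨hxV, ?_⟩
      intro hx'
      obtain ⟨i, hi, hxi⟩ := Set.mem_iUnion₂.mp hx'
      exact h ⟨i, Finset.mem_range.mp hi, hxi⟩
  · intro k
    refine (mass_biUnion_le _ _ _).trans ?_
    have h1 : ∀ j ∈ Finset.range k, mass (ν (φ k)) (V j \ ⋃ i ∈ Finset.range j, V i)
        ≤ ε / 2 / 2 ^ j := by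
      intro j hj
      exact (mass_mono _ Set.sdiff_subset).trans
        (hsmall j _ ⟨k, Finset.mem_range.mp hj, rfl⟩)
    refine (Finset.sum_le_sum h1).trans ?_
    have h2 : ∑ j ∈ Finset.range k, ε / 2 / 2 ^ j = ε / 2 * ∑ j ∈ Finset.range k, (1 / 2 : ℝ) ^ j := by
      rw [Finset.mul_sum]
      refine Finset.sum_congr rfl fun j _ => ?_
      rw [one_div, inv_pow, div_eq_mul_inv]
    rw [h2]
    have h3 := sum_geometric_two_le k
    nlinarith

/-- Thinning so that later closures miss earlier finite sets. -/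
theorem avoid_closure (W : ℕ → Set E) (hW : ∀ k, IsOpen (W k))
    (hd : ∀ j k, j ≠ k → Disjoint (W j) (W k)) (Q : ℕ → Finset E) :
    ∃ ψ : ℕ → ℕ, StrictMono ψ ∧ ∀ k, Disjoint (Q (ψ k) : Set E) (closure (⋃ j ∈ Ioi k, W (ψ j))) := by
  classical
  have hstep : ∀ (T : Finset E) (N : Set ℕ), N.Infinite → ∃ N' ⊆ N, N'.Infinite ∧
      Disjoint (T : Set E) (closure (⋃ j ∈ N', W j)) := by
    intro T
    induction T using Finset.induction_on with
    | empty => intro N hN; exact ⟨N, subset_rfl, hN, by simp⟩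
    | insert q T hq ih =>
      intro N hN
      obtain ⟨N₁, hN₁, hinf₁, hdis₁⟩ := ih N hN
      obtain ⟨A, B, hA, hB, hAi, hBi, hAB⟩ := split_infinite hinf₁
      have hdisj : Disjoint (closure (⋃ j ∈ A, W j)) (closure (⋃ j ∈ B, W j)) := by
        refine ExtremallyDisconnected.disjoint_closure_of_disjoint_isOpen ?_
          (isOpen_biUnion fun j _ => hW j) (isOpen_biUnion fun j _ => hW j)
        rw [Set.disjoint_left]
        intro x hx hx'
        obtain ⟨j, hj, hxj⟩ := Set.mem_iUnion₂.mp hx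
        obtain ⟨k, hk, hxk⟩ := Set.mem_iUnion₂.mp hx'
        have hjk : j ≠ k := by
          rintro rfl
          exact Set.disjoint_left.mp hAB hj hk
        exact Set.disjoint_left.mp (hd j k hjk) hxj hxk
      have hmono : ∀ X ⊆ N₁, Disjoint (T : Set E) (closure (⋃ j ∈ X, W j)) := fun X hX =>
        hdis₁.mono_right (closure_mono (Set.biUnion_subset_biUnion_left hX))
      by_cases hqA : q ∈ closure (⋃ j ∈ A, W j)
      · refine ⟨B, hB.trans hN₁, hBi, ?_⟩
        rw [Finset.coe_insert, Set.disjoint_insert_left]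
        exact ⟨fun h => Set.disjoint_left.mp hdisj hqA h, hmono B hB⟩
      · refine ⟨A, hA.trans hN₁, hAi, ?_⟩
        rw [Finset.coe_insert, Set.disjoint_insert_left]
        exact ⟨hqA, hmono A hA⟩
  obtain ⟨ψ, hψ, hQ⟩ := thin (fun _ m N' => Disjoint (Q m : Set E) (closure (⋃ j ∈ N', W j)))
    (fun k m N N' hsub h => h.mono_right (closure_mono (Set.biUnion_subset_biUnion_left hsub)))
    (fun k N hN => by
      obtain ⟨m, hm⟩ := hN.nonempty
      obtain ⟨N', hN', hinf, hdis⟩ := hstep (Q m) (N \ Set.Iic m) (hN.sdiff (Set.finite_Iic m))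
      exact ⟨m, hm, N', hN'.trans Set.sdiff_subset, hinf, fun n hn => not_le.mp (hN' hn).2, hdis⟩)
  refine ⟨ψ, hψ, fun k => ?_⟩
  have := hQ k
  rwa [Set.biUnion_image] at this

end sep

end Pool.Agent.Helper538.Cp
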