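import Mathlib

set_option autoImplicit false

namespace Pool.Agent.Helper538.Sync

open Cardinal Set

/-- Recursion along a well order: one value is chosen at each stage from the earlier ones. -/
theorem rec_exists {I X : Type} [LinearOrder I] [WellFoundedLT I] [Inhabited X]
    (Q : I → (I → X) → X → Prop) (h : ∀ σ prev, ∃ x, Q σ prev x) :
    ∃ g : I → X, ∀ σ, Q σ (fun τ => if τ < σ then g τ else default) (g σ) := by
  classical
  let step : (σ : I) → ((τ : I) → τ < σ → X) → X := fun σ prev =>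
    Classical.choose (h σ (fun τ => if hτ : τ < σ then prev τ hτ else default))
  let g : I → X := (wellFounded_lt (α := I)).fix step
  refine ⟨g, fun σ => ?_⟩
  have hg : g σ = step σ (fun τ _ => g τ) := (wellFounded_lt (α := I)).fix_eq step σ
  have := Classical.choose_spec
    (h σ (fun τ => if hτ : τ < σ then (fun τ _ => g τ : (τ : I) → τ < σ → X) τ hτ else default))
  rw [hg]
  simpa using this

/-- An almost disjoint family of infinite sets of naturals of size continuum. -/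
theorem ad_family : ∃ A : (ℕ → Bool) → Set ℕ, (∀ h, (A h).Infinite) ∧
    ∀ h h', h ≠ h' → (A h ∩ A h').Finite := by
  classical
  let e : (ℕ → Bool) → ℕ → ℕ := fun h n => Encodable.encode ((List.range n).map h)
  have einj : ∀ h, Function.Injective (e h) := by
    intro h m n hmn
    have := Encodable.encode_injective hmn
    have := congrArg List.length this
    simpa using this
  refine ⟨fun h => Set.range (e h), fun h => Set.infinite_range_of_injective (einj h), ?_⟩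
  intro h h' hne
  obtain ⟨k, hk⟩ := Function.ne_iff.mp hne
  refine Set.Finite.subset ((Set.finite_Iic k).image (e h)) ?_
  rintro x ⟨⟨n, rfl⟩, ⟨m, hm⟩⟩
  refine ⟨n, ?_, rfl⟩
  by_contra hlt
  simp only [Set.mem_Iic, not_le] at hlt
  have h1 := Encodable.encode_injective hm
  have hlen := congrArg List.length h1
  simp only [List.length_map, List.length_range] at hlen
  subst hlen
  have h2 := List.map_inj_left.mp h1 k (by simpa using hlt)
  exact hk h2.symm

/-- If fewer than continuum many reals are excluded, some real remains. -/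
theorem exists_real_notMem (S : Set ℝ) (hS : #S < 𝔠) : ∃ ρ, ρ ∉ S := by
  by_contra hcon
  push Not at hcon
  have : S = Set.univ := Set.eq_univ_of_forall hcon
  rw [this, Cardinal.mk_univ_real] at hS
  exact lt_irrefl _ hS

/-- The basic dichotomy: a real avoiding the relevant supremum and infimum sees both sides. -/
theorem see_side {X : Type} (T : Set X) (u : X → ℝ) (φ : X → ZMod 2) (ρ : ℝ)
    (hne : ∀ x ∈ T, u x ≠ ρ)
    (h0 : ρ ≠ sSup (u '' {x ∈ T | φ x = 0})) (h1 : ρ ≠ sInf (u '' {x ∈ T | φ x = 1}))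
    (hacc : ∀ δ > 0, ∃ x ∈ T, |u x - ρ| < δ) :
    ∃ x ∈ T, (if u x < ρ then 1 else 0) = φ x := by
  by_contra hcon
  push Not at hcon
  have hz : ∀ z : ZMod 2, z = 0 ∨ z = 1 := by decide
  have hlt : ∀ x ∈ T, φ x = 0 → u x < ρ := by
    intro x hx h
    by_contra hge
    exact hcon x hx (by rw [if_neg hge, h])
  have hgt : ∀ x ∈ T, φ x = 1 → ρ < u x := by
    intro x hx h
    by_contra hge
    have : u x < ρ := lt_of_le_of_ne (not_lt.mp hge) (hne x hx)
    exact hcon x hx (by rw [if_pos this, h])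
  by_cases hc : ∀ δ > 0, ∃ x ∈ T, φ x = 0 ∧ |u x - ρ| < δ
  · apply h0
    symm
    apply IsLUB.csSup_eq
    · constructor
      · rintro _ ⟨x, ⟨hx, hx0⟩, rfl⟩
        exact (hlt x hx hx0).le
      · intro b hb
        by_contra hlt'
        push Not at hlt'
        obtain ⟨x, hx, hx0, hd⟩ := hc (ρ - b) (by linarith)
        have : u x ≤ b := hb ⟨x, ⟨hx, hx0⟩, rfl⟩
        rw [abs_lt] at hd
        linarith [hd.1]
    · obtain ⟨x, hx, hx0, -⟩ := hc 1 one_pos
      exact ⟨_, x, ⟨hx, hx0⟩, rfl⟩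
  · push Not at hc
    obtain ⟨δ₀, hδ₀, hc⟩ := hc
    have hc' : ∀ δ > 0, ∃ x ∈ T, φ x = 1 ∧ |u x - ρ| < δ := by
      intro δ hδ
      obtain ⟨x, hx, hd⟩ := hacc (min δ δ₀) (lt_min hδ hδ₀)
      rcases hz (φ x) with h | h
      · exact absurd (hc x hx h) (not_le.mpr (lt_of_lt_of_le hd (min_le_right _ _)))
      · exact ⟨x, hx, h, lt_of_lt_of_le hd (min_le_left _ _)⟩
    apply h1
    symm
    apply IsGLB.csInf_eq
    · constructor
      · rintro _ ⟨x, ⟨hx, hx0⟩, rfl⟩
        exact (hgt x hx hx0).le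
      · intro b hb
        by_contra hlt'
        push Not at hlt'
        obtain ⟨x, hx, hx0, hd⟩ := hc' (b - ρ) (by linarith)
        have : b ≤ u x := hb ⟨x, ⟨hx, hx0⟩, rfl⟩
        rw [abs_lt] at hd
        linarith [hd.2]
    · obtain ⟨x, hx, hx0, -⟩ := hc' 1 one_pos
      exact ⟨_, x, ⟨hx, hx0⟩, rfl⟩

/-- A test: triples (finite set, distinguished element, bit), a root and a bound. -/
structure Test (I : Type) where
  T : Set (Finset I × I × ZMod 2)
  R : Finset I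
  K : ℕ

/-- The triples of the test accumulate at `ρ`, even when a finite set off the root is avoided. -/
def Hyp {I : Type} (r : I → ℝ) (ρ : ℝ) (t : Test I) : Prop :=
  ∀ F : Finset I, Disjoint F t.R → ∀ δ > 0, ∃ x ∈ t.T, Disjoint x.1 F ∧ |r x.2.1 - ρ| < δ

/-- Some triple of the test meets `C` only in the root and has the bit seen from `ρ`. -/
def Conc {I : Type} (r : I → ℝ) (ρ : ℝ) (C : Set I) (t : Test I) : Prop :=
  ∃ x ∈ t.T, (∀ γ ∈ x.1, γ ∈ C → γ ∈ t.R) ∧ (if r x.2.1 < ρ then 1 else 0) = x.2.2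

/-- Intermediate property. -/
def Rich {I : Type} (r : I → ℝ) (ρ : ℝ) (t : Test I) : Prop :=
  ∀ F : Finset I, Disjoint F t.R →
    ∃ x ∈ t.T, Disjoint x.1 F ∧ (if r x.2.1 < ρ then 1 else 0) = x.2.2

theorem Rich.conc_finite {I : Type} {r : I → ℝ} {ρ : ℝ} {t : Test I} (h : Rich r ρ t)
    (C : Finset I) : Conc r ρ (C : Set I) t := by
  classical
  obtain ⟨x, hx, hd, hb⟩ := h (C \ t.R) Finset.sdiff_disjoint
  refine ⟨x, hx, fun γ hγ hC => ?_, hb⟩
  by_contra hR
  exact (Finset.disjoint_left.mp hd hγ) (Finset.mem_sdiff.mpr ⟨by simpa using hC, hR⟩)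

/-- For a rich test only finitely many members of an almost disjoint family are bad. -/
theorem finite_bad {I Ξ : Type} {r : I → ℝ} {ρ : ℝ} {t : Test I} (h : Rich r ρ t)
    (hK : ∀ x ∈ t.T, x.1.card ≤ t.K) (C : Ξ → Set I)
    (hC : ∀ a b, a ≠ b → (C a ∩ C b).Finite) : {a | ¬ Conc r ρ (C a) t}.Finite := by
  classical
  by_contra hinf
  obtain ⟨B, hB, hBc⟩ := (show {a | ¬ Conc r ρ (C a) t}.Infinite from hinf).exists_subset_card_eq
    (t.K + 1)
  have hfin : (⋃ a ∈ B, ⋃ b ∈ B, ⋃ (_ : a ≠ b), (C a ∩ C b)).Finite := by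
    refine Set.Finite.biUnion B.finite_toSet fun a _ => ?_
    refine Set.Finite.biUnion B.finite_toSet fun b _ => ?_
    exact Set.finite_iUnion fun hab => hC a b hab
  obtain ⟨x, hx, hd, hb⟩ := h (hfin.toFinset \ t.R) Finset.sdiff_disjoint
  have hpick : ∀ a ∈ B, ∃ γ ∈ x.1, γ ∈ C a ∧ γ ∉ t.R := by
    intro a ha
    have hbad : ¬ Conc r ρ (C a) t := hB ha
    by_contra hcon
    push Not at hcon
    exact hbad ⟨x, hx, fun γ hγ hCγ => hcon γ hγ hCγ, hb⟩
  obtain ⟨a₀, ha₀⟩ : B.Nonempty := Finset.card_pos.mp (by omega)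
  have : Nonempty I := ⟨(hpick a₀ ha₀).choose⟩
  choose! p hp using hpick
  have hinj : Set.InjOn p (B : Set Ξ) := by
    intro a ha b hb' hab
    by_contra hne
    have ha' := hp a ha
    have hb'' := hp b hb'
    refine (Finset.disjoint_left.mp hd ha'.1) (Finset.mem_sdiff.mpr ⟨?_, ha'.2.2⟩)
    rw [Set.Finite.mem_toFinset]
    simp only [Set.mem_iUnion]
    exact ⟨a, ha, b, hb', hne, ha'.2.1, by rw [hab]; exact hb''.2.1⟩
  have hcard : B.card ≤ x.1.card :=
    Finset.card_le_card_of_injOn p (fun a ha => (hp a ha).1) hinj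
  have := hK x hx
  omega

/-- A set that contains no three consecutive infinite blocks. -/
def Thin {I : Type} [LinearOrder I] (C : Set I) : Prop :=
  ∀ H₀ H₁ H₂ : Set I, H₀.Infinite → H₁.Infinite → H₂.Infinite →
    (∀ a ∈ H₀, ∀ b ∈ H₁, a < b) → (∀ a ∈ H₁, ∀ b ∈ H₂, a < b) →
    ∃ γ ∈ H₀ ∪ H₁ ∪ H₂, γ ∉ C

theorem thin_finite {I : Type} [LinearOrder I] (C : Finset I) : Thin (C : Set I) := by
  intro H₀ H₁ H₂ h₀ _ _ _ _
  by_contra hcon
  push Not at hcon
  exact h₀ (C.finite_toSet.subset fun γ hγ => hcon γ (Or.inl (Or.inl hγ)))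

/-- A strictly increasing sequence has no element above infinitely many of its elements. -/
theorem strictMono_block {I : Type} [LinearOrder I] {a : ℕ → I} (ha : StrictMono a)
    {H : Set I} (hH : (H ∩ Set.range a).Infinite) {n : ℕ} (hn : ∀ x ∈ H, x < a n) : False := by
  refine hH (Set.Finite.subset ((Set.finite_Iio n).image a) ?_)
  rintro x ⟨hx, m, rfl⟩
  exact ⟨m, ha.lt_iff_lt.mp (hn _ hx), rfl⟩

theorem thin_two {I : Type} [LinearOrder I] {a b : ℕ → I} (ha : StrictMono a)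
    (hb : StrictMono b) (A : Set ℕ) : Thin (a '' A ∪ b '' A) := by
  intro H₀ H₁ H₂ h₀ h₁ h₂ h01 h12
  by_contra hcon
  push Not at hcon
  obtain ⟨x₁, hx₁⟩ := h₁.nonempty
  obtain ⟨x₂, hx₂⟩ := h₂.nonempty
  -- one of the two sequences has infinitely many elements in H₀
  have key : ∀ c d : ℕ → I, StrictMono c → StrictMono d →
      (∀ γ ∈ H₀ ∪ H₁ ∪ H₂, γ ∈ Set.range c ∨ γ ∈ Set.range d) →
      (H₀ ∩ Set.range c).Infinite → False := by
    intro c d hc hd hcd hinf
    have h1 : ∀ γ ∈ H₁ ∪ H₂, γ ∈ Set.range d := by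
      intro γ hγ
      have hγ' : γ ∈ H₀ ∪ H₁ ∪ H₂ := by
        rcases hγ with h | h
        · exact Or.inl (Or.inr h)
        · exact Or.inr h
      rcases hcd γ hγ' with ⟨n, rfl⟩ | h
      · exfalso
        refine strictMono_block hc hinf (n := n) fun x hx => ?_
        rcases hγ with h | h
        · exact h01 x hx _ h
        · exact (h01 x hx x₁ hx₁).trans (h12 x₁ hx₁ _ h)
      · exact h
    obtain ⟨n, hn⟩ := h1 x₂ (Or.inr hx₂)
    have : (H₁ ∩ Set.range d).Infinite := by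
      rwa [Set.inter_eq_left.mpr fun γ hγ => h1 γ (Or.inl hγ)]
    exact strictMono_block hd this (n := n) fun x hx => by rw [hn]; exact h12 x hx x₂ hx₂
  have hr : ∀ γ ∈ H₀ ∪ H₁ ∪ H₂, γ ∈ Set.range a ∨ γ ∈ Set.range b := by
    intro γ hγ
    rcases hcon γ hγ with ⟨n, -, rfl⟩ | ⟨n, -, rfl⟩
    · exact Or.inl ⟨n, rfl⟩
    · exact Or.inr ⟨n, rfl⟩
  by_cases hfin : (H₀ ∩ Set.range a).Finite
  · have : (H₀ ∩ Set.range b).Infinite := by
      intro hfb
      refine h₀ ((hfin.union hfb).subset fun γ hγ => ?_)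
      rcases hr γ (Or.inl (Or.inl hγ)) with h | h
      · exact Or.inl ⟨hγ, h⟩
      · exact Or.inr ⟨hγ, h⟩
    exact key b a hb ha (fun γ hγ => (hr γ hγ).symm) this
  · exact key a b ha hb hr hfin

theorem mk_finset_lt_continuum {α : Type} (h : #α < 𝔠) : #(Finset α) < 𝔠 := by
  classical
  rcases finite_or_infinite α with hα | hα
  · have : Finite (Finset α) := inferInstance
    exact (Cardinal.mk_lt_aleph0).trans Cardinal.aleph0_lt_continuum
  · rwa [Cardinal.mk_finset_of_infinite]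

theorem mk_prod_lt_continuum {α β : Type} (h : #α < 𝔠) (h' : #β < 𝔠) : #(α × β) < 𝔠 := by
  rw [Cardinal.mk_prod, Cardinal.lift_id, Cardinal.lift_id]
  exact Cardinal.mul_lt_of_lt Cardinal.aleph0_le_continuum h h'

theorem mk_sum_lt_continuum {α β : Type} (h : #α < 𝔠) (h' : #β < 𝔠) : #(α ⊕ β) < 𝔠 := by
  rw [Cardinal.mk_sum, Cardinal.lift_id, Cardinal.lift_id]
  exact Cardinal.add_lt_of_lt Cardinal.aleph0_le_continuum h h'

theorem mk_countable_lt_continuum {α : Type} [Countable α] : #α < 𝔠 :=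
  (Cardinal.mk_le_aleph0).trans_lt Cardinal.aleph0_lt_continuum

theorem choose_rho {I P : Type} [LinearOrder I] (σ : I) (hσ : #(Set.Iio σ) < 𝔠) (r : I → ℝ)
    (hP : #P < 𝔠) (t : P → Test I)
    (wf : ∀ p, ∀ x ∈ (t p).T, (∀ γ ∈ x.1, γ < σ) ∧ x.2.1 < σ) :
    ∃ ρ, (∀ γ < σ, r γ ≠ ρ) ∧ ∀ p, Hyp r ρ (t p) → Rich r ρ (t p) := by
  classical
  let Q := P × Finset (Set.Iio σ)
  let D : Q → Set (Finset I × I × ZMod 2) := fun q =>
    {x ∈ (t q.1).T | Disjoint x.1 (q.2.map (Function.Embedding.subtype _))}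
  let u : Finset I × I × ZMod 2 → ℝ := fun x => r x.2.1
  let G : (Set.Iio σ) ⊕ (Q ⊕ Q) → ℝ := fun z => match z with
    | Sum.inl γ => r γ
    | Sum.inr (Sum.inl q) => sSup (u '' {x ∈ D q | x.2.2 = 0})
    | Sum.inr (Sum.inr q) => sInf (u '' {x ∈ D q | x.2.2 = 1})
  have hQ : #Q < 𝔠 := mk_prod_lt_continuum hP (mk_finset_lt_continuum hσ)
  have hG : #(Set.range G) < 𝔠 := Cardinal.mk_range_le.trans_lt
    (mk_sum_lt_continuum hσ (mk_sum_lt_continuum hQ hQ))
  obtain ⟨ρ, hρ⟩ := exists_real_notMem _ hG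
  have hρr : ∀ γ < σ, r γ ≠ ρ := fun γ hγ h => hρ ⟨Sum.inl ⟨γ, hγ⟩, h⟩
  refine ⟨ρ, hρr, fun p hp F hF => ?_⟩
  let q : Q := (p, F.subtype (· ∈ Set.Iio σ))
  have hD : ∀ x ∈ (t p).T, (Disjoint x.1 F ↔
      Disjoint x.1 (q.2.map (Function.Embedding.subtype _))) := by
    intro x hx
    constructor
    · intro h
      rw [Finset.disjoint_left] at h ⊢
      intro a ha hq
      rw [Finset.mem_map] at hq
      obtain ⟨⟨b, hb⟩, hb', rfl⟩ := hq
      exact h ha (by simpa [q] using hb')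
    · intro h
      rw [Finset.disjoint_left] at h ⊢
      intro a ha hq
      refine h ha ?_
      rw [Finset.mem_map]
      exact ⟨⟨a, (wf p x hx).1 a ha⟩, by simpa [q] using hq, rfl⟩
  have h0 : ρ ≠ sSup (u '' {x ∈ D q | x.2.2 = 0}) := fun h =>
    hρ ⟨Sum.inr (Sum.inl q), h.symm⟩
  have h1 : ρ ≠ sInf (u '' {x ∈ D q | x.2.2 = 1}) := fun h =>
    hρ ⟨Sum.inr (Sum.inr q), h.symm⟩
  obtain ⟨x, hx, hb⟩ := see_side (D q) u (fun x => x.2.2) ρ
    (fun x hx => hρr _ (wf p x hx.1).2) h0 h1 (fun δ hδ => by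
      obtain ⟨x, hx, hd, hlt⟩ := hp F hF δ hδ
      exact ⟨x, ⟨hx, (hD x hx).mp hd⟩, hlt⟩)
  exact ⟨x, hx.1, (hD x hx.1).mpr hx.2, hb⟩

/-- Selecting a member of an almost disjoint family that is good for all rich tests. -/
theorem choose_ad {I P Ξ : Type} {r : I → ℝ} {ρ : ℝ} (hP : #P < 𝔠) (t : P → Test I)
    (hK : ∀ p, ∀ x ∈ (t p).T, x.1.card ≤ (t p).K) (hΞ : #Ξ = 𝔠) (C : Ξ → Set I)
    (hC : ∀ a b, a ≠ b → (C a ∩ C b).Finite) :
    ∃ a, ∀ p, Rich r ρ (t p) → Conc r ρ (C a) (t p) := by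
  classical
  by_contra hcon
  push Not at hcon
  have hcov : (Set.univ : Set Ξ) ⊆ ⋃ p : {p : P // Rich r ρ (t p)},
      {a | ¬ Conc r ρ (C a) (t p)} := by
    intro a _
    obtain ⟨p, hp, hn⟩ := hcon a
    exact Set.mem_iUnion.mpr ⟨⟨p, hp⟩, hn⟩
  have h1 : #(⋃ p : {p : P // Rich r ρ (t p)}, {a | ¬ Conc r ρ (C a) (t p)} : Set Ξ) < 𝔠 := by
    refine (Cardinal.mk_iUnion_le _).trans_lt ?_
    refine Cardinal.mul_lt_of_lt Cardinal.aleph0_le_continuum
      ((Cardinal.mk_subtype_le _).trans_lt hP) ?_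
    refine lt_of_le_of_lt (ciSup_le' fun p => ?_) Cardinal.aleph0_lt_continuum
    exact (Cardinal.lt_aleph0_iff_set_finite.mpr (finite_bad p.2 (hK p) C hC)).le
  have h2 := (Cardinal.mk_le_mk_of_subset hcov).trans_lt h1
  rw [Cardinal.mk_univ, hΞ] at h2
  exact lt_irrefl _ h2

section solve

variable {I : Type}

/-- Evaluation of a vector against a family of values. -/
noncomputable def ev (M : I → ZMod 2) : (I →₀ ZMod 2) →ₗ[ZMod 2] ZMod 2 :=
  Finsupp.linearCombination (ZMod 2) M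

theorem ev_apply (M : I → ZMod 2) (x : I →₀ ZMod 2) : ev M x = x.sum fun γ c => c * M γ := by
  simp [ev, Finsupp.linearCombination_apply]

theorem ev_single (M : I → ZMod 2) (γ : I) (c : ZMod 2) :
    ev M (Finsupp.single γ c) = c * M γ := by
  simp [ev]

theorem ev_add (M M' : I → ZMod 2) (x : I →₀ ZMod 2) : ev (M + M') x = ev M x + ev M' x := by
  simp only [ev_apply, Pi.add_apply, mul_add, Finsupp.sum_add]

theorem ev_congr {M M' : I → ZMod 2} {x : I →₀ ZMod 2} (h : ∀ γ ∈ x.support, M γ = M' γ) :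
    ev M x = ev M' x := by
  rw [ev_apply, ev_apply]
  exact Finsupp.sum_congr fun γ hγ => by rw [h γ hγ]

theorem ev_piSingle [DecidableEq I] (a : I) (u : ZMod 2) (x : I →₀ ZMod 2) :
    ev (Pi.single a u) x = x a * u := by
  classical
  rw [ev_apply, Finsupp.sum]
  by_cases ha : a ∈ x.support
  · rw [Finset.sum_eq_single a]
    · simp
    · intro b _ hb
      simp [hb]
    · intro h
      exact absurd ha h
  · rw [Finset.sum_eq_zero]
    · simp [Finsupp.notMem_support_iff.mp ha]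
    · intro b hb
      have : b ≠ a := fun h => ha (h ▸ hb)
      simp [this]

variable [DecidableEq I]

/-- Joint support of a pair of vectors. -/
def supp2 (p : (I →₀ ZMod 2) × (I →₀ ZMod 2)) : Finset I := p.1.support ∪ p.2.support

/-- Joint support of the first `n` pairs. -/
def supps (z : ℕ → (I →₀ ZMod 2) × (I →₀ ZMod 2)) (n : ℕ) : Finset I :=
  (Finset.range n).biUnion fun m => supp2 (z m)

theorem mem_supps {z : ℕ → (I →₀ ZMod 2) × (I →₀ ZMod 2)} {n : ℕ} {γ : I} :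
    γ ∈ supps z n ↔ ∃ m < n, γ ∈ supp2 (z m) := by
  simp [supps]

/-- The pairs are independent modulo the coordinates used before. -/
def Free (z : ℕ → (I →₀ ZMod 2) × (I →₀ ZMod 2)) : Prop :=
  ∀ n, ¬ ((z n).1.support ⊆ supps z n) ∧ ¬ ((z n).2.support ⊆ supps z n) ∧
    ¬ (((z n).1 + (z n).2).support ⊆ supps z n)

theorem zmod2_cases (z : ZMod 2) : z = 0 ∨ z = 1 := by
  revert z; decide

theorem solve2 : ∀ p q r s : ZMod 2, (p, q) ≠ (0, 0) → (r, s) ≠ (0, 0) → (p, q) ≠ (r, s) →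
    ∀ P Q : ZMod 2, ∃ u v : ZMod 2, p * u + r * v = P ∧ q * u + s * v = Q := by
  decide

theorem exists_pivot (x y : I →₀ ZMod 2) (F : Finset I) (hx : ¬ x.support ⊆ F)
    (hy : ¬ y.support ⊆ F) (hxy : ¬ (x + y).support ⊆ F) :
    ∃ a b : I, a ∉ F ∧ b ∉ F ∧ a ∈ supp2 (x, y) ∧ b ∈ supp2 (x, y) ∧ a ≠ b ∧
      ∀ P Q : ZMod 2, ∃ u v : ZMod 2, x a * u + x b * v = P ∧ y a * u + y b * v = Q := by
  obtain ⟨a, ha, haF⟩ := Finset.not_subset.mp hx
  obtain ⟨b, hb, hbF⟩ := Finset.not_subset.mp hy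
  obtain ⟨c, hc, hcF⟩ := Finset.not_subset.mp hxy
  have ha1 : x a = 1 := (zmod2_cases _).resolve_left (Finsupp.mem_support_iff.mp ha)
  have hb1 : y b = 1 := (zmod2_cases _).resolve_left (Finsupp.mem_support_iff.mp hb)
  have hc1 : x c + y c = 1 := by
    have := Finsupp.mem_support_iff.mp hc
    exact (zmod2_cases _).resolve_left (by simpa using this)
  have hsupp : ∀ γ, (x γ, y γ) ≠ ((0, 0) : ZMod 2 × ZMod 2) → γ ∈ supp2 (x, y) := by
    intro γ h
    rw [supp2, Finset.mem_union, Finsupp.mem_support_iff, Finsupp.mem_support_iff]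
    by_contra hcon
    push Not at hcon
    exact h (by rw [hcon.1, hcon.2])
  have hA : (x a, y a) ≠ ((0, 0) : ZMod 2 × ZMod 2) := by
    intro h; rw [Prod.mk.injEq] at h; rw [ha1] at h; exact one_ne_zero h.1
  have hB : (x b, y b) ≠ ((0, 0) : ZMod 2 × ZMod 2) := by
    intro h; rw [Prod.mk.injEq] at h; rw [hb1] at h; exact one_ne_zero h.2
  have hC : (x c, y c) ≠ ((0, 0) : ZMod 2 × ZMod 2) := by
    intro h; rw [Prod.mk.injEq] at h; rw [h.1, h.2] at hc1; simp at hc1
  by_cases hab : (x a, y a) = (x b, y b)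
  · have hac : (x a, y a) ≠ (x c, y c) := by
      intro h
      rw [Prod.mk.injEq] at h hab
      rw [← h.1, ← h.2, hab.2, hb1, ha1] at hc1
      revert hc1; decide
    refine ⟨a, c, haF, hcF, hsupp a hA, hsupp c hC, ?_, ?_⟩
    · rintro rfl; exact hac rfl
    · exact solve2 _ _ _ _ hA hC hac
  · refine ⟨a, b, haF, hbF, hsupp a hA, hsupp b hB, ?_, ?_⟩
    · rintro rfl; exact hab rfl
    · exact solve2 _ _ _ _ hA hB hab

/-- Pivot data for a sequence of pairs. -/
structure Pivots [LinearOrder I] (w : ℕ → (I →₀ ZMod 2) × (I →₀ ZMod 2)) (a b : ℕ → I) :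
    Prop where
  ma : StrictMono a
  mb : StrictMono b
  a_new : ∀ n, a n ∉ supps w n
  b_new : ∀ n, b n ∉ supps w n
  a_mem : ∀ n, a n ∈ supp2 (w n)
  b_mem : ∀ n, b n ∈ supp2 (w n)
  ne : ∀ n, a n ≠ b n
  sol : ∀ n, ∀ P Q : ZMod 2, ∃ u v : ZMod 2,
    (w n).1 (a n) * u + (w n).1 (b n) * v = P ∧ (w n).2 (a n) * u + (w n).2 (b n) * v = Q

end solve

theorem strictMono_subseq {I : Type} [LinearOrder I] [WellFoundedLT I] (a : ℕ → I)
    (ha : Function.Injective a) : ∃ φ : ℕ → ℕ, StrictMono φ ∧ StrictMono (a ∘ φ) := by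
  obtain ⟨g, hg | hg⟩ := exists_increasing_or_nonincreasing_subseq (· < ·) a
  · exact ⟨g, g.strictMono, fun m n hmn => hg m n hmn⟩
  · exfalso
    have hanti : ∀ m n, m < n → a (g n) < a (g m) := by
      intro m n hmn
      refine lt_of_le_of_ne (not_lt.mp (hg m n hmn)) ?_
      intro h
      have := g.injective (ha h)
      omega
    exact (RelEmbedding.natGT (fun n => a (g n)) fun n => hanti n (n + 1) (Nat.lt_succ_self n)).not_wellFounded (wellFounded_lt)

section solve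

variable {I : Type} [LinearOrder I] [WellFoundedLT I]

theorem supps_comp_subset (z : ℕ → (I →₀ ZMod 2) × (I →₀ ZMod 2)) {φ : ℕ → ℕ}
    (hφ : StrictMono φ) (n : ℕ) : supps (z ∘ φ) n ⊆ supps z (φ n) := by
  intro γ hγ
  obtain ⟨m, hm, h⟩ := mem_supps.mp hγ
  exact mem_supps.mpr ⟨φ m, hφ hm, h⟩

theorem exists_pivots (z : ℕ → (I →₀ ZMod 2) × (I →₀ ZMod 2)) (hz : Free z) :
    ∃ φ : ℕ → ℕ, StrictMono φ ∧ ∃ a b : ℕ → I, Pivots (z ∘ φ) a b := by
  have h := fun n => exists_pivot (z n).1 (z n).2 (supps z n) (hz n).1 (hz n).2.1 (hz n).2.2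
  choose a b haF hbF ha hb hne hsol using h
  have inj : ∀ c : ℕ → I, (∀ n, c n ∉ supps z n) → (∀ n, c n ∈ supp2 (z n)) →
      Function.Injective c := by
    intro c hc hc' m n hmn
    by_contra hne
    rcases lt_or_gt_of_ne hne with h | h
    · exact hc n (mem_supps.mpr ⟨m, h, hmn ▸ hc' m⟩)
    · exact hc m (mem_supps.mpr ⟨n, h, hmn ▸ hc' n⟩)
  obtain ⟨φ, hφ, haφ⟩ := strictMono_subseq a (inj a haF ha)
  obtain ⟨ψ, hψ, hbψ⟩ := strictMono_subseq (b ∘ φ) ((inj b hbF hb).comp hφ.injective)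
  refine ⟨φ ∘ ψ, hφ.comp hψ, a ∘ φ ∘ ψ, b ∘ φ ∘ ψ, ?_⟩
  have hsub := supps_comp_subset z (hφ.comp hψ)
  exact
    { ma := haφ.comp hψ
      mb := hbψ
      a_new := fun n h => haF _ (hsub n h)
      b_new := fun n h => hbF _ (hsub n h)
      a_mem := fun n => ha _
      b_mem := fun n => hb _
      ne := fun n => hne _
      sol := fun n => hsol _ }

theorem Pivots.ne' {w : ℕ → (I →₀ ZMod 2) × (I →₀ ZMod 2)} {a b : ℕ → I}
    (h : Pivots w a b) (m n : ℕ) : a m ≠ b n := by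
  intro hab
  rcases lt_trichotomy m n with hmn | rfl | hmn
  · exact h.b_new n (mem_supps.mpr ⟨m, hmn, hab ▸ h.a_mem m⟩)
  · exact h.ne m hab
  · exact h.a_new m (mem_supps.mpr ⟨n, hmn, hab ▸ h.b_mem n⟩)

theorem Pivots.inter_finite {w : ℕ → (I →₀ ZMod 2) × (I →₀ ZMod 2)} {a b : ℕ → I}
    (h : Pivots w a b) {A A' : Set ℕ} (hA : (A ∩ A').Finite) :
    ((a '' A ∪ b '' A) ∩ (a '' A' ∪ b '' A')).Finite := by
  refine Set.Finite.subset ((hA.image a).union (hA.image b)) ?_
  rintro γ ⟨h1, h2⟩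
  rcases h1 with ⟨m, hm, rfl⟩ | ⟨m, hm, rfl⟩ <;> rcases h2 with ⟨n, hn, hmn⟩ | ⟨n, hn, hmn⟩
  · have := h.ma.injective hmn
    subst this
    exact Or.inl ⟨n, ⟨hm, hn⟩, rfl⟩
  · exact absurd hmn.symm (h.ne' _ _)
  · exact absurd hmn (h.ne' _ _)
  · have := h.mb.injective hmn
    subst this
    exact Or.inr ⟨n, ⟨hm, hn⟩, rfl⟩

/-- Values off the pivots are prescribed and the values on the chosen pairs are prescribed. -/
theorem Pivots.solve {w : ℕ → (I →₀ ZMod 2) × (I →₀ ZMod 2)} {a b : ℕ → I}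
    (h : Pivots w a b) (A : Set ℕ) (base : I → ZMod 2) (P Q : ℕ → ZMod 2) :
    ∃ M : I → ZMod 2, (∀ γ, γ ∉ a '' A ∪ b '' A → M γ = base γ) ∧
      ∀ n ∈ A, ev M (w n).1 = P n ∧ ev M (w n).2 = Q n := by
  classical
  have hs : ∀ (n : ℕ) (M : I → ZMod 2), ∃ uv : ZMod 2 × ZMod 2,
      ev (M + Pi.single (a n) uv.1 + Pi.single (b n) uv.2) (w n).1 = P n ∧
      ev (M + Pi.single (a n) uv.1 + Pi.single (b n) uv.2) (w n).2 = Q n := by
    intro n M
    obtain ⟨u, v, h1, h2⟩ := h.sol n (P n - ev M (w n).1) (Q n - ev M (w n).2)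
    refine ⟨(u, v), ?_, ?_⟩
    · rw [ev_add, ev_add, ev_piSingle, ev_piSingle, add_assoc, h1]; ring
    · rw [ev_add, ev_add, ev_piSingle, ev_piSingle, add_assoc, h2]; ring
  choose uv huv using hs
  let step : ℕ → (I → ZMod 2) → (I → ZMod 2) := fun n M =>
    if n ∈ A then M + Pi.single (a n) (uv n M).1 + Pi.single (b n) (uv n M).2 else M
  let Ms : ℕ → (I → ZMod 2) := fun n => Nat.rec base (fun k M => step k M) n
  have hMs0 : Ms 0 = base := rfl
  have hMs : ∀ n, Ms (n + 1) = step n (Ms n) := fun n => rfl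
  have hstep : ∀ n M γ, (n ∈ A → a n ≠ γ ∧ b n ≠ γ) → step n M γ = M γ := by
    intro n M γ hγ
    by_cases hn : n ∈ A
    · simp only [step, if_pos hn, Pi.add_apply]
      rw [Pi.single_eq_of_ne (hγ hn).1.symm, Pi.single_eq_of_ne (hγ hn).2.symm]
      simp
    · simp only [step, if_neg hn]
  have hstable : ∀ γ j k, j ≤ k → (∀ m, j ≤ m → m < k → m ∈ A → a m ≠ γ ∧ b m ≠ γ) →
      Ms k γ = Ms j γ := by
    intro γ j k hjk
    induction k, hjk using Nat.le_induction with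
    | base => intro _; rfl
    | succ k hjk ih =>
      intro hm
      rw [hMs, hstep k (Ms k) γ (fun hk => hm k hjk (Nat.lt_succ_self k) hk)]
      exact ih fun m h1 h2 => hm m h1 (Nat.lt_succ_of_lt h2)
  let κ : I → ℕ := fun γ => if hγ : ∃ m, a m = γ ∨ b m = γ then hγ.choose + 1 else 0
  have huniq : ∀ γ m m', (a m = γ ∨ b m = γ) → (a m' = γ ∨ b m' = γ) → m = m' := by
    rintro γ m m' (h1 | h1) (h2 | h2)
    · exact h.ma.injective (h1.trans h2.symm)
    · exact absurd (h1.trans h2.symm) (h.ne' _ _)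
    · exact absurd (h2.trans h1.symm) (h.ne' _ _)
    · exact h.mb.injective (h1.trans h2.symm)
  have hκ : ∀ γ m, (a m = γ ∨ b m = γ) → κ γ = m + 1 := by
    intro γ m hm
    have hex : ∃ m, a m = γ ∨ b m = γ := ⟨m, hm⟩
    simp only [κ, dif_pos hex]
    rw [huniq γ _ _ hex.choose_spec hm]
  have hlim : ∀ γ k, κ γ ≤ k → Ms k γ = Ms (κ γ) γ := by
    intro γ k hk
    refine hstable γ _ _ hk fun m hm1 _ _ => ?_
    by_contra hcon
    have hcon' : a m = γ ∨ b m = γ := by
      by_contra hc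
      push Not at hc
      exact hcon hc
    have := hκ γ m hcon'
    omega
  refine ⟨fun γ => Ms (κ γ) γ, ?_, ?_⟩
  · intro γ hγ
    change Ms (κ γ) γ = base γ
    rw [← hMs0]
    refine hstable γ 0 (κ γ) (Nat.zero_le _) fun m _ _ hmA => ⟨?_, ?_⟩
    · rintro rfl
      exact hγ (Or.inl ⟨m, hmA, rfl⟩)
    · rintro rfl
      exact hγ (Or.inr ⟨m, hmA, rfl⟩)
  · intro n hn
    have hval : ∀ γ ∈ supp2 (w n), Ms (κ γ) γ = Ms (n + 1) γ := by
      intro γ hγ
      symm
      refine hlim γ (n + 1) ?_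
      by_cases hex : ∃ m, a m = γ ∨ b m = γ
      · obtain ⟨m, hm⟩ := hex
        rw [hκ γ m hm]
        by_contra hlt
        have hnm : n < m := by omega
        rcases hm with rfl | rfl
        · exact h.a_new m (mem_supps.mpr ⟨n, hnm, hγ⟩)
        · exact h.b_new m (mem_supps.mpr ⟨n, hnm, hγ⟩)
      · simp only [κ, dif_neg hex]
        exact Nat.zero_le _
    have e1 : ev (fun γ => Ms (κ γ) γ) (w n).1 = ev (Ms (n + 1)) (w n).1 :=
      ev_congr fun γ hγ => hval γ (Finset.mem_union_left _ hγ)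
    have e2 : ev (fun γ => Ms (κ γ) γ) (w n).2 = ev (Ms (n + 1)) (w n).2 :=
      ev_congr fun γ hγ => hval γ (Finset.mem_union_right _ hγ)
    rw [e1, e2, hMs]
    simp only [step, if_pos hn]
    exact huv n (Ms n)

end solve

/-- A sequence differing on an infinite set from fewer than continuum many given ones. -/
theorem exists_new {P : Type} (hP : #P < 𝔠) {A : Set ℕ} (hA : A.Infinite)
    (E : P → ℕ → ZMod 2) : ∃ Q : ℕ → ZMod 2, ∀ p, ∃ n ∈ A, Q n ≠ E p n := by
  classical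
  have : Infinite A := hA.to_subtype
  let e : ℕ ↪ A := Infinite.natEmbedding A
  have einj : Function.Injective (fun k => (e k : ℕ)) :=
    Subtype.val_injective.comp e.injective
  have hlt : #(Set.range fun p => fun k => E p (e k)) < 𝔠 := Cardinal.mk_range_le.trans_lt hP
  have hex : ∃ h : ℕ → ZMod 2, h ∉ Set.range fun p => fun k => E p (e k) := by
    by_contra hcon
    push Not at hcon
    have hu : (Set.range fun p => fun k => E p (e k)) = Set.univ :=
      Set.eq_univ_of_forall hcon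
    rw [hu, Cardinal.mk_univ] at hlt
    have : #(ℕ → ZMod 2) = 𝔠 := by
      have h2 : #(ZMod 2) = 2 := by
        rw [Cardinal.mk_fintype, ZMod.card]; rfl
      rw [← Cardinal.power_def, h2, Cardinal.mk_nat, Cardinal.two_power_aleph0]
    exact absurd this hlt.ne
  obtain ⟨h, hh⟩ := hex
  refine ⟨Function.extend (fun k => (e k : ℕ)) h 0, fun p => ?_⟩
  by_contra hcon
  push Not at hcon
  refine hh ⟨p, ?_⟩
  funext k
  have := hcon (e k) (e k).2
  rw [einj.extend_apply] at this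
  exact this.symm

section form

variable {I : Type} [LinearOrder I]

/-- The upper triangular form of a family of values. -/
noncomputable def b0 (N : I → I → ZMod 2) :
    (I →₀ ZMod 2) →ₗ[ZMod 2] (I →₀ ZMod 2) →ₗ[ZMod 2] ZMod 2 :=
  Finsupp.linearCombination (ZMod 2) fun α => ev fun β => if α < β then N β α else 0

/-- The quadratic form. -/
noncomputable def qf (N : I → I → ZMod 2) (x : I →₀ ZMod 2) : ZMod 2 := b0 N x x

/-- Its polar form. -/
noncomputable def bf (N : I → I → ZMod 2) (x y : I →₀ ZMod 2) : ZMod 2 := b0 N x y + b0 N y x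

theorem qf_add (N : I → I → ZMod 2) (x y : I →₀ ZMod 2) :
    qf N (x + y) = qf N x + qf N y + bf N x y := by
  simp only [qf, bf, map_add, LinearMap.add_apply]
  ring

theorem bf_comm (N : I → I → ZMod 2) (x y : I →₀ ZMod 2) : bf N x y = bf N y x := by
  simp only [bf]; ring

theorem bf_add_left (N : I → I → ZMod 2) (x y z : I →₀ ZMod 2) :
    bf N (x + y) z = bf N x z + bf N y z := by
  simp only [bf, map_add, LinearMap.add_apply]; ring

theorem bf_add_right (N : I → I → ZMod 2) (x y z : I →₀ ZMod 2) :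
    bf N x (y + z) = bf N x y + bf N x z := by
  simp only [bf, map_add, LinearMap.add_apply]; ring

theorem bf_zero_left (N : I → I → ZMod 2) (x : I →₀ ZMod 2) : bf N 0 x = 0 := by
  simp [bf]

theorem bf_zero_right (N : I → I → ZMod 2) (x : I →₀ ZMod 2) : bf N x 0 = 0 := by
  simp [bf]

theorem zmod2_add_self (z : ZMod 2) : z + z = 0 := by
  revert z; decide

theorem bf_self (N : I → I → ZMod 2) (x : I →₀ ZMod 2) : bf N x x = 0 := zmod2_add_self _

theorem qf_zero (N : I → I → ZMod 2) : qf N 0 = 0 := by simp [qf]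

theorem b0_apply (N : I → I → ZMod 2) (x y : I →₀ ZMod 2) :
    b0 N x y = x.sum fun α c => c * ev (fun β => if α < β then N β α else 0) y := by
  rw [b0, Finsupp.linearCombination_apply, Finsupp.sum, LinearMap.sum_apply]
  rfl

theorem qf_single (N : I → I → ZMod 2) (σ : I) : qf N (Finsupp.single σ 1) = 0 := by
  rw [qf, b0_apply, Finsupp.sum_single_index (by simp), ev_single]
  simp

/-- All coordinates are below `σ`. -/
def Below (σ : I) (x : I →₀ ZMod 2) : Prop := ∀ γ ∈ x.support, γ < σ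

theorem bf_single {N : I → I → ZMod 2} {σ : I} {x : I →₀ ZMod 2} (hx : Below σ x) :
    bf N x (Finsupp.single σ 1) = ev (N σ) x := by
  have h1 : b0 N x (Finsupp.single σ 1) = ev (N σ) x := by
    rw [b0_apply, ev_apply]
    refine Finsupp.sum_congr fun γ hγ => ?_
    rw [ev_single, if_pos (hx γ hγ), one_mul]
  have h2 : b0 N (Finsupp.single σ 1) x = 0 := by
    rw [b0_apply, Finsupp.sum_single_index (by simp), one_mul, ev_apply, Finsupp.sum]
    refine Finset.sum_eq_zero fun γ hγ => ?_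
    rw [if_neg (not_lt.mpr (hx γ hγ).le), mul_zero]
  rw [bf, h1, h2, add_zero]

theorem b0_congr {N N' : I → I → ZMod 2} {σ : I} (h : ∀ τ < σ, N τ = N' τ)
    {x y : I →₀ ZMod 2} (hy : Below σ y) : b0 N x y = b0 N' x y := by
  rw [b0_apply, b0_apply]
  refine Finsupp.sum_congr fun γ _ => ?_
  rw [ev_congr fun β hβ => ?_]
  rw [h β (hy β hβ)]

theorem qf_congr {N N' : I → I → ZMod 2} {σ : I} (h : ∀ τ < σ, N τ = N' τ)
    {x : I →₀ ZMod 2} (hx : Below σ x) : qf N x = qf N' x := b0_congr h hx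

theorem bf_congr {N N' : I → I → ZMod 2} {σ : I} (h : ∀ τ < σ, N τ = N' τ)
    {x y : I →₀ ZMod 2} (hx : Below σ x) (hy : Below σ y) : bf N x y = bf N' x y := by
  rw [bf, bf, b0_congr h hx, b0_congr h hy]

theorem Below.add {σ : I} {x y : I →₀ ZMod 2} (hx : Below σ x) (hy : Below σ y) :
    Below σ (x + y) := by
  classical
  intro γ hγ
  rcases Finset.mem_union.mp (Finsupp.support_add hγ) with h | h
  · exact hx γ h
  · exact hy γ h

theorem Below.mono {σ τ : I} (h : σ ≤ τ) {x : I →₀ ZMod 2} (hx : Below σ x) : Below τ x :=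
  fun γ hγ => (hx γ hγ).trans_le h

theorem eq_of_support_eq {x y : I →₀ ZMod 2} (h : x.support = y.support) : x = y := by
  ext γ
  by_cases hγ : γ ∈ x.support
  · have h1 := (zmod2_cases (x γ)).resolve_left (Finsupp.mem_support_iff.mp hγ)
    have h2 := (zmod2_cases (y γ)).resolve_left (Finsupp.mem_support_iff.mp (h ▸ hγ))
    rw [h1, h2]
  · rw [Finsupp.notMem_support_iff.mp hγ, Finsupp.notMem_support_iff.mp (h ▸ hγ)]

theorem mk_below_lt {σ : I} (hσ : #(Set.Iio σ) < 𝔠) : #{x : I →₀ ZMod 2 // Below σ x} < 𝔠 := by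
  classical
  refine lt_of_le_of_lt (Cardinal.mk_le_of_injective (f := fun x : {x : I →₀ ZMod 2 // Below σ x} =>
    x.1.support.subtype (· ∈ Set.Iio σ)) ?_) (mk_finset_lt_continuum hσ)
  intro x y hxy
  apply Subtype.ext
  apply eq_of_support_eq
  ext γ
  have h1 : γ ∈ x.1.support ↔ ∃ h : γ ∈ Set.Iio σ, (⟨γ, h⟩ : Set.Iio σ) ∈
      x.1.support.subtype (· ∈ Set.Iio σ) := by
    simp only [Finset.mem_subtype, exists_prop]
    exact ⟨fun h => ⟨x.2 γ h, h⟩, fun h => h.2⟩
  have h2 : γ ∈ y.1.support ↔ ∃ h : γ ∈ Set.Iio σ, (⟨γ, h⟩ : Set.Iio σ) ∈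
      y.1.support.subtype (· ∈ Set.Iio σ) := by
    simp only [Finset.mem_subtype, exists_prop]
    exact ⟨fun h => ⟨y.2 γ h, h⟩, fun h => h.2⟩
  rw [h1, h2]
  simp only at hxy
  rw [hxy]

end form

end Pool.Agent.Helper538.Sync
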