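import Pool.Agent.Helper538.CpB
import Pool.Agent.Helper538.SyncA

set_option autoImplicit false

namespace Pool.Agent.Helper538.Cp

open Set Function Topology Filter
open Pool.Agent.Helper538.Sync (rec_exists ad_family)

/-- A sequence of points with measures that move a fixed mass off the orbits. -/
structure Bad {E : Type} (γ : ℕ → E → E) (y : ℕ → E) (μ : ℕ → E →₀ ℝ) (G : ℕ → Finset E)
    (C η : ℝ) : Prop where
  inj : Injective y
  bdd : ∀ n, mass (μ n) univ ≤ C
  disj : ∀ m n, m ≠ n → Disjoint (G m) (G n)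
  pos : 0 < η
  big : ∀ n, η ≤ mass (μ n) (G n)
  off : ∀ i, ∃ K, ∀ n, K ≤ n → γ i (y n) ∉ G n

theorem mass_single {E : Type} (x : E) (W : Set E) :
    mass (Finsupp.single x 1) W = W.indicator 1 x := by
  classical
  unfold mass
  rw [Finsupp.support_single x one_ne_zero, Finset.sum_singleton]
  by_cases h : x ∈ W <;> simp [h]

/-- A two-colouring separating each index from its smaller image. -/
theorem exists_coloring (f : ℕ → ℕ) : ∃ c : ℕ → Bool, ∀ k, f k < k → c k = !(c (f k)) := by
  obtain ⟨c, hc⟩ := rec_exists (I := ℕ) (X := Bool)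
    (fun k prev x => f k < k → x = !(prev (f k))) (fun k prev => ⟨!(prev (f k)), fun _ => rfl⟩)
  refine ⟨c, fun k hk => ?_⟩
  have := hc k hk
  simp only [if_pos hk] at this
  exact this

section

variable {E : Type} [TopologicalSpace E] [CompactSpace E] [T2Space E] [ExtremallyDisconnected E]

/-- A prepared subsequence. -/
theorem prep {γ : ℕ → E → E} {y : ℕ → E} {μ : ℕ → E →₀ ℝ} {G : ℕ → Finset E} {C η : ℝ}
    (hB : Bad γ y μ G C η) :
    ∃ (φ : ℕ → ℕ) (W U : ℕ → Set E), StrictMono φ ∧ (∀ k, IsClopen (W k)) ∧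
      (∀ j k, j ≠ k → Disjoint (W j) (W k)) ∧ (∀ k, IsClopen (U k)) ∧
      (∀ j k, j ≠ k → Disjoint (U j) (U k)) ∧ (∀ k, y (φ k) ∈ U k) ∧
      (∀ A : Set ℕ, ∀ k ∈ A, η / 8 ≤ |val (μ (φ k)) (closure (⋃ j ∈ A, W j))|) ∧
      ∀ i, ∃ K, ∀ k, K ≤ k → γ i (y (φ k)) ∉ W k ∧
        γ i (y (φ k)) ∉ closure (⋃ j ∈ Ioi k, W j) := by
  classical
  have hη := hB.pos
  -- sign parts
  choose G' hG' hG's hG'v using fun n => exists_sign (μ n) (G n)
  have hG'd : ∀ m n, m ≠ n → Disjoint (G' m) (G' n) := fun m n h =>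
    Disjoint.mono (hG' m) (hG' n) (hB.disj m n h)
  -- points
  obtain ⟨φ₁, hφ₁, U, hU, hUd, hUF, hUm⟩ := disjointify (fun n => Finsupp.single (y n) 1) 1
    (fun n => by rw [mass_single]; simp) (fun n => {y n})
    (fun m n h => by
      rw [Finset.disjoint_singleton]
      exact fun h' => h (hB.inj h')) (1 / 2) (by norm_num)
  have hyU : ∀ k, y (φ₁ k) ∈ U k := by
    intro k
    rcases hUF k (show y (φ₁ k) ∈ (({y (φ₁ k)} : Finset E) : Set E) by simp) with h | h
    · exact h
    · exfalso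
      have := hUm k
      rw [mass_single, Set.indicator_of_mem h] at this
      norm_num at this
  -- measures
  obtain ⟨φ₂, hφ₂, V, hV, hVd, hVF, hVm⟩ := disjointify (fun n => μ (φ₁ n)) C
    (fun n => hB.bdd _) (fun n => G' (φ₁ n))
    (fun m n h => hG'd _ _ (fun h' => h (hφ₁.injective h'))) (η / 16) (by positivity)
  -- closures
  let Q : ℕ → Finset E := fun k => (μ (φ₁ (φ₂ k))).support ∪
    (Finset.range (k + 1)).image fun i => γ i (y (φ₁ (φ₂ k)))
  obtain ⟨ψ, hψ, hψQ⟩ := avoid_closure V (fun k => (hV k).isOpen) hVd Q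
  have hmono : StrictMono (fun k => φ₁ (φ₂ (ψ k))) := hφ₁.comp (hφ₂.comp hψ)
  -- shrinking
  choose D hD hGD hDQ using fun k => exists_clopen_avoid (G' (φ₁ (φ₂ (ψ k))))
    (Q (ψ k) \ G' (φ₁ (φ₂ (ψ k)))) Finset.disjoint_sdiff
  refine ⟨fun k => φ₁ (φ₂ (ψ k)), fun k => V (ψ k) ∩ D k, fun k => U (φ₂ (ψ k)), hmono, ?_, ?_,
    ?_, ?_, ?_, ?_, ?_⟩
  · exact fun k => (hV _).inter (hD k)
  · intro j k hjk
    exact (hVd _ _ fun h => hjk (hψ.injective h)).mono Set.inter_subset_left Set.inter_subset_left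
  · exact fun k => hU _
  · intro j k hjk
    exact hUd _ _ fun h => hjk (hψ.injective (hφ₂.injective h))
  · exact fun k => hyU _
  · intro A k hkA
    set n := φ₁ (φ₂ (ψ k)) with hn
    set Lo : Set E := ⋃ j ∈ {j ∈ Finset.range k | j ∈ A}, V (ψ j) ∩ D j with hLo
    -- the trace of the closure on the support
    have hval : val (μ n) (closure (⋃ j ∈ A, V (ψ j) ∩ D j)) =
        val (μ n) ((V (ψ k) ∩ D k) ∪ Lo) := by
      refine val_congr _ fun x hx => ?_
      constructor
      · intro hxc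
        have hsub : (⋃ j ∈ A, V (ψ j) ∩ D j) ⊆ ((V (ψ k) ∩ D k) ∪ Lo) ∪ ⋃ j ∈ Ioi k, V (ψ j) := by
          intro z hz
          obtain ⟨j, hj, hzj⟩ := Set.mem_iUnion₂.mp hz
          rcases lt_trichotomy j k with h | h | h
          · left; right
            exact Set.mem_biUnion (Finset.mem_coe.mpr (Finset.mem_filter.mpr
              ⟨Finset.mem_range.mpr h, hj⟩)) hzj
          · left; left; rw [← h]; exact hzj
          · right
            exact Set.mem_biUnion (Set.mem_Ioi.mpr h) hzj.1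
        have hcl := closure_mono hsub hxc
        rw [closure_union] at hcl
        rcases hcl with h | h
        · have hclosed : IsClosed ((V (ψ k) ∩ D k) ∪ Lo) := by
            refine ((hV _).inter (hD k)).isClosed.union ?_
            exact (Finset.finite_toSet _).isClosed_biUnion fun j _ => ((hV _).inter (hD j)).isClosed
          rwa [hclosed.closure_eq] at h
        · exfalso
          refine Set.disjoint_left.mp (hψQ k) ?_ h
          exact Finset.mem_coe.mpr (Finset.mem_union_left _ hx)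
      · intro h
        refine subset_closure ?_
        rcases h with h | h
        · exact Set.mem_biUnion hkA h
        · obtain ⟨j, hj, hxj⟩ := Set.mem_iUnion₂.mp h
          exact Set.mem_biUnion (Finset.mem_filter.mp (Finset.mem_coe.mp hj)).2 hxj
    have hdisj : Disjoint (V (ψ k) ∩ D k) Lo := by
      rw [Set.disjoint_left]
      intro x hx hx'
      obtain ⟨j, hj, hxj⟩ := Set.mem_iUnion₂.mp hx'
      have hjk : ψ k ≠ ψ j := by
        intro h
        have := hψ.injective h
        have := Finset.mem_range.mp (Finset.mem_filter.mp (Finset.mem_coe.mp hj)).1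
        omega
      exact Set.disjoint_left.mp (hVd _ _ hjk) hx.1 hxj.1
    have hLow : mass (μ n) (⋃ j ∈ Finset.range (ψ k), V j) ≤ η / 16 := hVm (ψ k)
    have hLo' : mass (μ n) Lo ≤ η / 16 := by
      refine (mass_mono _ ?_).trans hLow
      intro x hx
      obtain ⟨j, hj, hxj⟩ := Set.mem_iUnion₂.mp hx
      have hjk := Finset.mem_range.mp (Finset.mem_filter.mp (Finset.mem_coe.mp hj)).1
      exact Set.mem_biUnion (Finset.mem_coe.mpr (Finset.mem_range.mpr (hψ hjk))) hxj.1
    -- the main part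
    have h1 : val (μ n) (V (ψ k) ∩ D k) = val (μ n) ((G' n : Set E) ∩ V (ψ k)) := by
      refine val_congr _ fun x hx => ?_
      constructor
      · rintro ⟨h1, h2⟩
        refine ⟨?_, h1⟩
        by_contra h3
        refine Set.disjoint_left.mp (hDQ k) h2 ?_
        exact Finset.mem_coe.mpr (Finset.mem_sdiff.mpr ⟨Finset.mem_union_left _ hx, h3⟩)
      · rintro ⟨h1, h2⟩
        exact ⟨h2, hGD k h1⟩
    have h2 : val (μ n) (G' n) = val (μ n) ((G' n : Set E) ∩ V (ψ k)) +
        val (μ n) ((G' n : Set E) \ V (ψ k)) := by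
      rw [← val_union _ (Set.disjoint_left.mpr fun x hx hx' => hx'.2 hx.2)]
      rw [Set.inter_union_sdiff]
    have h3 : |val (μ n) ((G' n : Set E) \ V (ψ k))| ≤ η / 16 := by
      refine (abs_val_le _ _).trans ((mass_mono _ ?_).trans hLow)
      rintro x ⟨hx1, hx2⟩
      exact (hVF (ψ k) hx1).resolve_left hx2
    have h4 : η ≤ 2 * |val (μ n) (G' n)| := (hB.big n).trans (hG'v n)
    rw [hval, val_union _ hdisj, h1]
    have h5 := abs_val_le (μ n) Lo
    have h6 := abs_add_le (val (μ n) ((G' n : Set E) ∩ V (ψ k)))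
      (val (μ n) ((G' n : Set E) \ V (ψ k)))
    rw [← h2] at h6
    have h7 := abs_sub_abs_le_abs_sub (val (μ n) ((G' n : Set E) ∩ V (ψ k))) (-val (μ n) Lo)
    rw [abs_neg, sub_neg_eq_add] at h7
    linarith
  · intro i
    obtain ⟨K, hK⟩ := hB.off i
    refine ⟨max i K, fun k hk => ?_⟩
    have hik : i ≤ ψ k := (le_max_left _ _).trans (hk.trans (hψ.id_le k))
    have hmem : γ i (y (φ₁ (φ₂ (ψ k)))) ∈ Q (ψ k) :=
      Finset.mem_union_right _ (Finset.mem_image.mpr ⟨i, Finset.mem_range.mpr (by omega), rfl⟩)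
    have hnG : γ i (y (φ₁ (φ₂ (ψ k)))) ∉ G' (φ₁ (φ₂ (ψ k))) := fun h =>
      hK _ ((le_max_right _ _).trans (hk.trans (hmono.id_le k))) (hG' _ h)
    constructor
    · intro h
      exact Set.disjoint_left.mp (hDQ k) h.2
        (Finset.mem_coe.mpr (Finset.mem_sdiff.mpr ⟨hmem, hnG⟩))
    · intro h
      refine Set.disjoint_left.mp (hψQ k) (Finset.mem_coe.mpr hmem) ?_
      refine closure_mono ?_ h
      exact Set.iUnion₂_mono fun j _ => Set.inter_subset_left

/-- The functional limit of the measures along `p` is the measure `lam`. -/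
def Rep (p : Ultrafilter ℕ) (μ : ℕ → E →₀ ℝ) (lam : E →₀ ℝ) : Prop :=
  ∀ V, IsClopen V → Tendsto (fun n => val (μ n) V) p (𝓝 (val lam V))

theorem disjoint_closures {W : ℕ → Set E} (hW : ∀ k, IsClopen (W k))
    (hd : ∀ j k, j ≠ k → Disjoint (W j) (W k)) {A B : Set ℕ} (hAB : Disjoint A B) :
    Disjoint (closure (⋃ j ∈ A, W j)) (closure (⋃ j ∈ B, W j)) := by
  refine ExtremallyDisconnected.disjoint_closure_of_disjoint_isOpen ?_
    (isOpen_biUnion fun j _ => (hW j).isOpen) (isOpen_biUnion fun j _ => (hW j).isOpen)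
  rw [Set.disjoint_left]
  intro x hx hx'
  obtain ⟨j, hj, hxj⟩ := Set.mem_iUnion₂.mp hx
  obtain ⟨k, hk, hxk⟩ := Set.mem_iUnion₂.mp hx'
  have hjk : j ≠ k := by
    rintro rfl
    exact Set.disjoint_left.mp hAB hj hk
  exact Set.disjoint_left.mp (hd j k hjk) hxj hxk

theorem main_lemma {γ : ℕ → E → E} (hγ : ∀ i, Continuous (γ i)) {y : ℕ → E} {μ : ℕ → E →₀ ℝ}
    {G : ℕ → Finset E} {C η : ℝ} (hB : Bad γ y μ G C η) :
    ∃ (p : (ℕ → Bool) → Ultrafilter ℕ) (z : (ℕ → Bool) → E) (R : (ℕ → Bool) → Set E),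
      (∀ h, (p h : Filter ℕ) ≤ cofinite) ∧ (∀ h, Tendsto y (p h) (𝓝 (z h))) ∧ Injective z ∧
      (∀ h h', h ≠ h' → Disjoint (R h) (R h')) ∧
      ∀ h (lam : E →₀ ℝ), Rep (p h) μ lam → ∃ x ∈ lam.support, x ∈ R h ∧ ∀ i, γ i (z h) ≠ x := by
  classical
  obtain ⟨φ, W, U, hφ, hW, hWd, hU, hUd, hyU, hlow, hoff⟩ := prep hB
  obtain ⟨A, hA, hAd⟩ := ad_family
  have hp : ∀ h, ∃ p : Ultrafilter ℕ, (p : Filter ℕ) ≤ cofinite ∧ A h ∈ p := by
    intro h
    haveI := (hA h).cofinite_inf_principal_neBot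
    refine ⟨Ultrafilter.of (cofinite ⊓ 𝓟 (A h)), ?_, ?_⟩
    · exact (Ultrafilter.of_le _).trans inf_le_left
    · exact (Ultrafilter.of_le _) (mem_inf_of_right (mem_principal_self _))
  choose p hpc hpA using hp
  have hdiff : ∀ h h', h ≠ h' → A h \ A h' ∈ p h := by
    intro h h' hne
    have h1 : (A h ∩ A h')ᶜ ∈ p h := hpc h (hAd h h' hne).compl_mem_cofinite
    filter_upwards [hpA h, h1] with n hn hn'
    exact ⟨hn, fun h2 => hn' ⟨hn, h2⟩⟩
  have hz : ∀ h, ∃ z, Tendsto (fun k => y (φ k)) (p h) (𝓝 z) := by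
    intro h
    obtain ⟨z, -, hz⟩ := isCompact_univ.ultrafilter_le_nhds ((p h).map fun k => y (φ k))
      (by simp)
    exact ⟨z, hz⟩
  choose z hz using hz
  refine ⟨fun h => (p h).map φ, z, fun h => ⋂ B ∈ (p h : Filter ℕ), closure (⋃ j ∈ B, W j),
    ?_, ?_, ?_, ?_, ?_⟩
  · intro h
    exact (Filter.map_mono (hpc h)).trans hφ.injective.tendsto_cofinite
  · intro h
    exact hz h
  · intro h h' hzz
    by_contra hne
    have key : ∀ h h', h ≠ h' → z h ∈ closure (⋃ j ∈ A h \ A h', U j) := by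
      intro h h' hne
      refine mem_closure_of_tendsto (hz h) ?_
      filter_upwards [hdiff h h' hne] with k hk
      exact Set.mem_biUnion hk (hyU k)
    refine Set.disjoint_left.mp (disjoint_closures hU hUd (A := A h \ A h') (B := A h' \ A h)
      (Set.disjoint_left.mpr fun n hn hn' => hn.2 hn'.1)) (key h h' hne) ?_
    rw [hzz]
    exact key h' h (Ne.symm hne)
  · intro h h' hne
    refine (disjoint_closures hW hWd (A := A h \ A h') (B := A h' \ A h)
      (Set.disjoint_left.mpr fun n hn hn' => hn.2 hn'.1)).mono ?_ ?_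
    · exact Set.biInter_subset_of_mem (hdiff h h' hne)
    · exact Set.biInter_subset_of_mem (hdiff h' h (Ne.symm hne))
  · intro h lam hrep
    have hclopen : ∀ B : Set ℕ, IsClopen (closure (⋃ j ∈ B, W j)) := fun B =>
      ⟨isClosed_closure, ExtremallyDisconnected.open_closure _
        (isOpen_biUnion fun j _ => (hW j).isOpen)⟩
    have hx : ∃ x ∈ lam.support, x ∈ ⋂ B ∈ (p h : Filter ℕ), closure (⋃ j ∈ B, W j) := by
      by_contra hcon
      push Not at hcon
      have h1 : ∀ x ∈ lam.support, ∃ B ∈ (p h : Filter ℕ), x ∉ closure (⋃ j ∈ B, W j) := by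
        intro x hx
        have := hcon x hx
        rw [Set.mem_iInter₂] at this
        push Not at this
        exact this
      choose! B hBm hxB using h1
      have hBB : (⋂ x ∈ lam.support, B x) ∈ (p h : Filter ℕ) :=
        (Filter.biInter_finset_mem _).mpr hBm
      set V := closure (⋃ j ∈ ⋂ x ∈ lam.support, B x, W j) with hV
      have hval : val lam V = 0 := by
        unfold val
        refine Finset.sum_eq_zero fun x hx => ?_
        rw [Set.indicator_of_notMem]
        intro hxV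
        refine hxB x hx (closure_mono ?_ hxV)
        exact Set.biUnion_subset_biUnion_left (Set.biInter_subset_of_mem hx)
      have ht := (hrep V (hclopen _)).abs
      rw [hval, abs_zero] at ht
      have hge : η / 8 ≤ 0 := by
        refine ge_of_tendsto ht ?_
        change ∀ᶠ n in Filter.map φ (p h : Filter ℕ), _
        rw [Filter.eventually_map]
        filter_upwards [hBB] with k hk
        exact hlow _ k hk
      have := hB.pos
      linarith
    obtain ⟨x, hxs, hxR⟩ := hx
    refine ⟨x, hxs, hxR, fun i hix => ?_⟩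
    obtain ⟨K, hK⟩ := hoff i
    let f : ℕ → ℕ := fun k => if hk : ∃ j, j < k ∧ γ i (y (φ k)) ∈ W j then Nat.find hk else k
    obtain ⟨c, hc⟩ := exists_coloring f
    have hcol : ∀ k j, j < k → γ i (y (φ k)) ∈ W j → c k ≠ c j := by
      intro k j hjk hj
      have hk : ∃ j, j < k ∧ γ i (y (φ k)) ∈ W j := ⟨j, hjk, hj⟩
      have hfk : f k = Nat.find hk := dif_pos hk
      have hspec := Nat.find_spec hk
      have hjf : f k = j := by
        rw [hfk]
        by_contra hne
        exact Set.disjoint_left.mp (hWd _ _ hne) hspec.2 hj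
      have := hc k (by rw [hjf]; exact hjk)
      rw [hjf] at this
      rw [this]
      cases c j <;> simp
    obtain ⟨b, hb⟩ : ∃ b, {k | c k = b} ∈ p h := by
      rcases (p h).mem_or_compl_mem {k | c k = true} with h1 | h1
      · exact ⟨true, h1⟩
      · refine ⟨false, ?_⟩
        filter_upwards [h1] with k hk
        simpa using hk
    have hKmem : Ici K ∈ (p h : Filter ℕ) := by
      refine hpc h ?_
      rw [Nat.cofinite_eq_atTop]
      exact Ici_mem_atTop K
    have hS : {k | c k = b} ∩ Ici K ∈ (p h : Filter ℕ) := inter_mem hb hKmem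
    have hxV : x ∈ closure (⋃ j ∈ {k | c k = b} ∩ Ici K, W j) := by
      rw [Set.mem_iInter₂] at hxR
      exact hxR _ hS
    have hout : ∀ k ∈ {k | c k = b} ∩ Ici K, γ i (y (φ k)) ∈
        (closure (⋃ j ∈ {k | c k = b} ∩ Ici K, W j))ᶜ := by
      rintro k ⟨hkb, hkK⟩ hmem
      have hsub : (⋃ j ∈ {k | c k = b} ∩ Ici K, W j) ⊆
          ((⋃ j ∈ {j ∈ Finset.range k | c j = b}, W j) ∪ W k) ∪ ⋃ j ∈ Ioi k, W j := by
        intro u hu
        obtain ⟨j, hj, huj⟩ := Set.mem_iUnion₂.mp hu
        rcases lt_trichotomy j k with h | h | h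
        · left; left
          exact Set.mem_biUnion (Finset.mem_coe.mpr (Finset.mem_filter.mpr
            ⟨Finset.mem_range.mpr h, hj.1⟩)) huj
        · left; right; rw [← h]; exact huj
        · right; exact Set.mem_biUnion (Set.mem_Ioi.mpr h) huj
      have hcl := closure_mono hsub hmem
      rw [closure_union] at hcl
      rcases hcl with h1 | h1
      · have hclosed : IsClosed ((⋃ j ∈ {j ∈ Finset.range k | c j = b}, W j) ∪ W k) :=
          ((Finset.finite_toSet _).isClosed_biUnion fun j _ => (hW j).isClosed).union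
            (hW k).isClosed
        rw [hclosed.closure_eq] at h1
        rcases h1 with h2 | h2
        · obtain ⟨j, hj, hjW⟩ := Set.mem_iUnion₂.mp h2
          have hj' := Finset.mem_filter.mp (Finset.mem_coe.mp hj)
          exact hcol k j (Finset.mem_range.mp hj'.1) hjW (hkb.trans hj'.2.symm)
        · exact (hK k hkK).1 h2
      · exact (hK k hkK).2 h1
    have hlim : Tendsto (fun k => γ i (y (φ k))) (p h) (𝓝 x) := by
      rw [← hix]
      exact ((hγ i).tendsto _).comp (hz h)
    have := (hclopen _).compl.isClosed.mem_of_tendsto hlim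
      (by filter_upwards [hS] with k hk; exact hout k hk)
    exact this hxV

end

end Pool.Agent.Helper538.Cp
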