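import Pool.Agent.Helper538.CpC

set_option autoImplicit false

namespace Pool.Agent.Helper538.Cp

open Set Function Topology Filter Cardinal
open Pool.Agent.Helper538.Sync (rec_exists mk_prod_lt_continuum mk_countable_lt_continuum)

/-- A space with a decomposition into two copies of itself and small cylinders. -/
structure Sys (E : Type) [TopologicalSpace E] where
  H : E ≃ₜ (Σ _ : Bool, E)
  base : ∀ O : Set E, IsOpen O → O.Nonempty → ∃ w : List Bool, ∀ x,
    word (fun b x => H.symm ⟨b, x⟩) w x ∈ O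

namespace Sys

variable {E : Type} [TopologicalSpace E] (S : Sys E)

/-- The two embeddings. -/
def s (b : Bool) (x : E) : E := S.H.symm ⟨b, x⟩

/-- The shift. -/
def sh (x : E) : E := (S.H x).2

theorem sh_s (b : Bool) (x : E) : S.sh (S.s b x) = x := by
  simp [sh, s]

theorem s_sh (x : E) : S.s (S.H x).1 (S.sh x) = x := by
  simp [sh, s]

theorem continuous_s (b : Bool) : Continuous (S.s b) :=
  S.H.symm.continuous.comp continuous_sigmaMk

theorem continuous_sh : Continuous S.sh := by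
  have h : Continuous (fun p : (Σ _ : Bool, E) => p.2) := continuous_sigma fun b => continuous_id
  exact h.comp S.H.continuous

/-- The orbit relation. -/
def rel (x y : E) : Prop := ∃ n m : ℕ, S.sh^[n] x = S.sh^[m] y

theorem rel_refl (x : E) : S.rel x x := ⟨0, 0, rfl⟩

theorem rel_symm {x y : E} (h : S.rel x y) : S.rel y x := by
  obtain ⟨n, m, h⟩ := h
  exact ⟨m, n, h.symm⟩

theorem rel_trans {x y z : E} (h : S.rel x y) (h' : S.rel y z) : S.rel x z := by
  obtain ⟨n, m, h⟩ := h
  obtain ⟨k, l, h'⟩ := h'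
  refine ⟨k + n, m + l, ?_⟩
  rw [Function.iterate_add_apply, h, ← Function.iterate_add_apply, add_comm k m,
    Function.iterate_add_apply, h', ← Function.iterate_add_apply]

theorem rel_s (b : Bool) (x : E) : S.rel (S.s b x) x := ⟨1, 0, S.sh_s b x⟩

theorem rel_sh (x : E) : S.rel x (S.sh x) := ⟨1, 0, rfl⟩

theorem sh_word (w : List Bool) (x : E) : S.sh^[w.length] (word S.s w x) = x := by
  induction w with
  | nil => rfl
  | cons b w ih =>
    change S.sh^[w.length + 1] (S.s b (word S.s w x)) = x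
    rw [Function.iterate_succ_apply, sh_s, ih]

theorem exists_word_eq (m : ℕ) (x : E) : ∃ w : List Bool, word S.s w (S.sh^[m] x) = x := by
  induction m generalizing x with
  | zero => exact ⟨[], rfl⟩
  | succ m ih =>
    obtain ⟨w, hw⟩ := ih (S.sh x)
    refine ⟨(S.H x).1 :: w, ?_⟩
    change S.s (S.H x).1 (word S.s w (S.sh^[m + 1] x)) = x
    rw [Function.iterate_succ_apply, hw, s_sh]

/-- Enumeration of the maps generating the orbit relation. -/
noncomputable def γ (i : ℕ) (x : E) : E :=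
  match (Encodable.decode i : Option (List Bool × ℕ)) with
  | some p => word S.s p.1 (S.sh^[p.2] x)
  | none => x

theorem γ_encode (w : List Bool) (n : ℕ) (x : E) :
    S.γ (Encodable.encode (w, n)) x = word S.s w (S.sh^[n] x) := by
  unfold γ
  rw [Encodable.encodek]

theorem rel_γ (i : ℕ) (x : E) : S.rel x (S.γ i x) := by
  unfold γ
  rcases (Encodable.decode i : Option (List Bool × ℕ)) with _ | p
  · exact S.rel_refl x
  · exact ⟨p.2, p.1.length, (S.sh_word _ _).symm⟩

theorem rel_iff {x y : E} : S.rel x y ↔ ∃ i, S.γ i x = y := by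
  constructor
  · rintro ⟨n, m, h⟩
    obtain ⟨w, hw⟩ := S.exists_word_eq m y
    exact ⟨Encodable.encode (w, n), by rw [γ_encode, h, hw]⟩
  · rintro ⟨i, rfl⟩
    exact S.rel_γ i x

theorem continuous_word (w : List Bool) : Continuous (word S.s w) := by
  induction w with
  | nil => exact continuous_id
  | cons b w ih => exact (S.continuous_s b).comp ih

theorem continuous_γ (i : ℕ) : Continuous (S.γ i) := by
  unfold γ
  rcases (Encodable.decode i : Option (List Bool × ℕ)) with _ | p
  · exact continuous_id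
  · exact (S.continuous_word _).comp (S.continuous_sh.iterate _)

theorem exists_rel_mem (x : E) {O : Set E} (hO : IsOpen O) (hn : O.Nonempty) :
    ∃ y ∈ O, S.rel x y := by
  obtain ⟨w, hw⟩ := S.base O hO hn
  exact ⟨word S.s w x, hw x, ⟨0, w.length, (S.sh_word w x).symm⟩⟩

end Sys

theorem val_eq_apply {E : Type} (μ : E →₀ ℝ) {V : Set E} {x : E} (hx : x ∈ V)
    (h : ∀ u ∈ μ.support, u ≠ x → u ∉ V) : val μ V = μ x := by
  classical
  unfold val
  by_cases hxs : x ∈ μ.support
  · rw [Finset.sum_eq_single_of_mem x hxs, Set.indicator_of_mem hx]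
    intro u hu hux
    exact Set.indicator_of_notMem (h u hu hux) _
  · rw [Finsupp.notMem_support_iff.mp hxs]
    refine Finset.sum_eq_zero fun u hu => ?_
    exact Set.indicator_of_notMem (h u hu (fun h' => hxs (h' ▸ hu))) _

theorem rep_unique {E : Type} [TopologicalSpace E] [CompactSpace E] [T2Space E]
    [ExtremallyDisconnected E] {p : Ultrafilter ℕ} {μ : ℕ → E →₀ ℝ} {lam lam' : E →₀ ℝ}
    (h : Rep p μ lam) (h' : Rep p μ lam') : lam = lam' := by
  classical
  ext x
  obtain ⟨V, hV, hxV, hd⟩ := exists_clopen_avoid {x} ((lam.support ∪ lam'.support) \ {x})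
    Finset.disjoint_sdiff
  have hxV' : x ∈ V := hxV (by simp)
  have h1 : val lam V = lam x := val_eq_apply _ hxV' fun u hu hux huV =>
    Set.disjoint_left.mp hd huV (by simp [hux, Finsupp.mem_support_iff.mp hu])
  have h2 : val lam' V = lam' x := val_eq_apply _ hxV' fun u hu hux huV =>
    Set.disjoint_left.mp hd huV (by simp [hux, Finsupp.mem_support_iff.mp hu])
  rw [← h1, ← h2]
  exact tendsto_nhds_unique (h V hV) (h' V hV)

theorem mk_seq_bool : #(ℕ → Bool) = 𝔠 := by
  rw [← Cardinal.power_def, Cardinal.mk_bool, Cardinal.mk_nat, Cardinal.two_power_aleph0]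

section stage

variable {E : Type} [TopologicalSpace E] [CompactSpace E] [T2Space E] [ExtremallyDisconnected E]
  (S : Sys E)

/-- The union of fewer than continuum many orbits is small. -/
theorem mk_orbits {I : Type} [LinearOrder I] {σ : I} (hσ : #(Set.Iio σ) < 𝔠) (f : I → E) :
    #{w : E | ∃ τ < σ, S.rel (f τ) w} < 𝔠 := by
  have hsub : {w : E | ∃ τ < σ, S.rel (f τ) w} ⊆
      Set.range (fun q : Set.Iio σ × ℕ => S.γ q.2 (f q.1)) := by
    rintro w ⟨τ, hτ, hrel⟩
    obtain ⟨i, hi⟩ := S.rel_iff.mp hrel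
    exact ⟨(⟨τ, hτ⟩, i), hi⟩
  exact (Cardinal.mk_le_mk_of_subset hsub).trans_lt
    (Cardinal.mk_range_le.trans_lt (mk_prod_lt_continuum hσ mk_countable_lt_continuum))

/-- One stage of the construction: a new point and a forbidden point. -/
theorem stage {I : Type} [LinearOrder I] {σ : I} (hσ : #(Set.Iio σ) < 𝔠)
    (hE : ∃ ρ : E → (ℕ → Bool), Function.Surjective ρ) (zp xp : I → E) (y : ℕ → E)
    (μ : ℕ → E →₀ ℝ) (G : ℕ → Finset E) :
    ∃ z x : E, (∀ τ < σ, ¬ S.rel (zp τ) z) ∧ (∀ τ < σ, ¬ S.rel (xp τ) z) ∧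
      (∀ τ < σ, ¬ S.rel (zp τ) x) ∧ ¬ S.rel z x ∧
      ((∃ C η, Bad S.γ y μ G C η) → ∃ p : Ultrafilter ℕ, (p : Filter ℕ) ≤ cofinite ∧
        Tendsto y p (𝓝 z) ∧ ∀ lam, Rep p μ lam → x ∈ lam.support) := by
  classical
  have hEc : 𝔠 ≤ #E := by
    obtain ⟨ρ, hρ⟩ := hE
    rw [← mk_seq_bool]
    exact Cardinal.mk_le_of_surjective hρ
  -- a point outside a small set
  have hout : ∀ A : Set E, #A < 𝔠 → ∃ w, w ∉ A := by
    intro A hA
    by_contra hcon
    push Not at hcon
    have : A = Set.univ := Set.eq_univ_of_forall hcon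
    rw [this, Cardinal.mk_univ] at hA
    exact absurd hEc (not_le.mpr hA)
  have hZ := mk_orbits S hσ zp
  have hX := mk_orbits S hσ xp
  have hunion : ∀ A B : Set E, #A < 𝔠 → #B < 𝔠 → #(A ∪ B : Set E) < 𝔠 := fun A B hA hB =>
    (Cardinal.mk_union_le _ _).trans_lt
      (Cardinal.add_lt_of_lt Cardinal.aleph0_le_continuum hA hB)
  have horb : ∀ z : E, #{w : E | S.rel z w} < 𝔠 := by
    intro z
    have : {w : E | S.rel z w} ⊆ Set.range (fun i : ℕ => S.γ i z) := fun w hw => S.rel_iff.mp hw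
    exact (Cardinal.mk_le_mk_of_subset this).trans_lt
      (Cardinal.mk_range_le.trans_lt mk_countable_lt_continuum)
  by_cases hbad : ∃ C η, Bad S.γ y μ G C η
  · obtain ⟨C, η, hB⟩ := hbad
    obtain ⟨p, z, R, hpc, hpz, hzinj, hRd, hlam⟩ := main_lemma S.continuous_γ hB
    -- bad parameters
    have h1 : #{h | z h ∈ {w : E | ∃ τ < σ, S.rel (zp τ) w} ∪ {w : E | ∃ τ < σ, S.rel (xp τ) w}}
        < 𝔠 := by
      refine lt_of_le_of_lt ?_ (hunion _ _ hZ hX)
      exact Cardinal.mk_le_of_injective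
        (f := fun h : {h | z h ∈ {w : E | ∃ τ < σ, S.rel (zp τ) w} ∪
          {w : E | ∃ τ < σ, S.rel (xp τ) w}} => (⟨z h.1, h.2⟩ :
          ({w : E | ∃ τ < σ, S.rel (zp τ) w} ∪ {w : E | ∃ τ < σ, S.rel (xp τ) w} : Set E)))
        (fun a b hab => Subtype.ext (hzinj (congrArg Subtype.val hab)))
    have h2 : #{h | (R h ∩ {w : E | ∃ τ < σ, S.rel (zp τ) w}).Nonempty} < 𝔠 := by
      refine lt_of_le_of_lt ?_ hZ
      choose r hr using fun h : {h | (R h ∩ {w : E | ∃ τ < σ, S.rel (zp τ) w}).Nonempty} => h.2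
      exact Cardinal.mk_le_of_injective
        (f := fun h : {h | (R h ∩ {w : E | ∃ τ < σ, S.rel (zp τ) w}).Nonempty} =>
          (⟨r h, (hr h).2⟩ : {w : E | ∃ τ < σ, S.rel (zp τ) w}))
        (fun a b hab => by
          by_contra hne
          have hab' : r a = r b := congrArg Subtype.val hab
          refine Set.disjoint_left.mp (hRd a.1 b.1 fun h => hne (Subtype.ext h))
            (hr a).1 ?_
          rw [hab']
          exact (hr b).1)
    have h3 : ∃ h, h ∉ {h | z h ∈ {w : E | ∃ τ < σ, S.rel (zp τ) w} ∪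
        {w : E | ∃ τ < σ, S.rel (xp τ) w}} ∪
        {h | (R h ∩ {w : E | ∃ τ < σ, S.rel (zp τ) w}).Nonempty} := by
      by_contra hcon
      push Not at hcon
      have hu := Set.eq_univ_of_forall hcon
      have h4 := (Cardinal.mk_union_le _ _).trans_lt
        (Cardinal.add_lt_of_lt Cardinal.aleph0_le_continuum h1 h2)
      rw [hu, Cardinal.mk_univ, mk_seq_bool] at h4
      exact lt_irrefl _ h4
    obtain ⟨h, hh⟩ := h3
    simp only [Set.mem_union, Set.mem_ofPred_eq, not_or, not_exists, not_and] at hh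
    obtain ⟨⟨hh1, hh2⟩, hh3⟩ := hh
    by_cases hrep : ∃ lam, Rep (p h) μ lam
    · obtain ⟨lam, hrep⟩ := hrep
      obtain ⟨x, hxs, hxR, hxγ⟩ := hlam h lam hrep
      refine ⟨z h, x, hh1, hh2, ?_, ?_, fun _ => ⟨p h, hpc h, hpz h, ?_⟩⟩
      · intro τ hτ hrel
        exact hh3 ⟨x, hxR, τ, hτ, hrel⟩
      · intro hrel
        obtain ⟨i, hi⟩ := S.rel_iff.mp hrel
        exact hxγ i hi
      · intro lam' hlam'
        rw [← rep_unique hrep hlam']
        exact hxs
    · obtain ⟨x, hx⟩ := hout _ (hunion _ _ hZ (horb (z h)))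
      simp only [Set.mem_union, Set.mem_ofPred_eq, not_or, not_exists, not_and] at hx
      exact ⟨z h, x, hh1, hh2, hx.1, hx.2, fun _ => ⟨p h, hpc h, hpz h,
        fun lam hl => absurd ⟨lam, hl⟩ hrep⟩⟩
  · obtain ⟨z, hz⟩ := hout _ (hunion _ _ hZ hX)
    obtain ⟨x, hx⟩ := hout _ (hunion _ _ hZ (horb z))
    simp only [Set.mem_union, Set.mem_ofPred_eq, not_or, not_exists, not_and] at hz hx
    exact ⟨z, x, hz.1, hz.2, hx.1, hx.2, fun h => absurd h hbad⟩

end stage

end Pool.Agent.Helper538.Cp
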