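import Pool.Agent.Helper538.CpD

set_option autoImplicit false

namespace Pool.Agent.Helper538.Cp

open Set Function Topology Filter Cardinal
open Pool.Agent.Helper538.Sync (rec_exists mk_prod_lt_continuum mk_countable_lt_continuum)

section index

variable {I : Type} [LinearOrder I] (hI : #I = 𝔠) (hsmall : ∀ σ : I, #(Set.Iio σ) < 𝔠)

include hI hsmall in
theorem bounded_of {A : Set I} (hA : A.Countable) : ∃ δ, ∀ s ∈ A, s < δ := by
  by_contra hcon
  push Not at hcon
  have hcov : (Set.univ : Set I) ⊆ ⋃ s : A, Set.Iic (s : I) := by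
    intro x _
    obtain ⟨s, hs, hle⟩ := hcon x
    exact Set.mem_iUnion.mpr ⟨⟨s, hs⟩, hle⟩
  have hsm : ∀ s : A, #(Set.Iic (s : I)) < 𝔠 := by
    intro s
    have : Set.Iic (s : I) = Set.Iio (s : I) ∪ {(s : I)} := by
      ext x; simp [le_iff_lt_or_eq]
    rw [this]
    refine (Cardinal.mk_union_le _ _).trans_lt
      (Cardinal.add_lt_of_lt Cardinal.aleph0_le_continuum (hsmall s) ?_)
    rw [Cardinal.mk_singleton]
    exact Cardinal.one_lt_aleph0.trans Cardinal.aleph0_lt_continuum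
  have h1 : #I ≤ Cardinal.sum fun s : A => #(Set.Iic (s : I)) := by
    rw [← Cardinal.mk_univ]
    exact (Cardinal.mk_le_mk_of_subset hcov).trans (Cardinal.mk_iUnion_le_sum_mk)
  have h2 := Cardinal.sum_lt_prod (fun s : A => #(Set.Iic (s : I))) (fun _ => 𝔠) hsm
  have h3 : Cardinal.prod (fun _ : A => 𝔠) ≤ 𝔠 := by
    rw [Cardinal.prod_const', ← Cardinal.continuum_power_aleph0]
    rw [Cardinal.continuum_power_aleph0]
    calc 𝔠 ^ #A ≤ 𝔠 ^ ℵ₀ := Cardinal.power_le_power_left Cardinal.continuum_ne_zero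
          (Cardinal.mk_le_aleph0_iff.mpr hA.to_subtype)
      _ = 𝔠 := Cardinal.continuum_power_aleph0
  have h4 := h1.trans_lt (h2.trans_le h3)
  rw [hI] at h4
  exact lt_irrefl _ h4

end index

/-- Codes of sequences of points, measures and finite sets. -/
abbrev Tsk (I : Type) : Type := ℕ → (I × ℕ) × ((I × ℕ) →₀ ℝ) × Finset (I × ℕ)

theorem mk_tsk {I : Type} (hI : #I = 𝔠) : #(Tsk I) = 𝔠 := by
  have : Infinite I := by
    rw [← Cardinal.aleph0_le_mk_iff, hI]
    exact Cardinal.aleph0_le_continuum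
  have h1 : #(I × ℕ) = 𝔠 := by
    rw [Cardinal.mk_prod, Cardinal.lift_id, Cardinal.lift_id, hI, Cardinal.mk_nat]
    exact Cardinal.continuum_mul_aleph0
  have h2 : #((I × ℕ) →₀ ℝ) = 𝔠 := by
    rw [Cardinal.mk_finsupp_of_infinite, h1, Cardinal.mk_real, max_self]
  have h3 : #(Finset (I × ℕ)) = 𝔠 := by
    rw [Cardinal.mk_finset_of_infinite, h1]
  have hp : ∀ {X Y : Type}, #X = 𝔠 → #Y = 𝔠 → #(X × Y) = 𝔠 := by
    intro X Y hX hY
    rw [Cardinal.mk_prod, Cardinal.lift_id, Cardinal.lift_id, hX, hY, Cardinal.continuum_mul_self]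
  have h4 : #((I × ℕ) × ((I × ℕ) →₀ ℝ) × Finset (I × ℕ)) = 𝔠 := hp h1 (hp h2 h3)
  rw [Tsk, ← Cardinal.power_def, h4, Cardinal.mk_nat, Cardinal.continuum_power_aleph0]

variable {E : Type} [TopologicalSpace E]

/-- The point with a given code. -/
noncomputable def real (S : Sys E) {I : Type} (z : I → E) (c : I × ℕ) : E := S.γ c.2 (z c.1)

theorem exists_Y [CompactSpace E] [T2Space E] [ExtremallyDisconnected E] (S : Sys E)
    (hE : ∃ ρ : E → (ℕ → Bool), Function.Surjective ρ)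
    {I : Type} [LinearOrder I] [WellFoundedLT I] (hI : #I = 𝔠)
    (hsmall : ∀ σ : I, #(Set.Iio σ) < 𝔠) :
    ∃ Y : Set E, (∀ x y, S.rel x y → x ∈ Y → y ∈ Y) ∧
      (∀ A : Set E, A.Countable → ∃ y ∈ Y, ∀ a ∈ A, ¬ S.rel a y) ∧
      ∀ (y : ℕ → E) (μ : ℕ → E →₀ ℝ) (G : ℕ → Finset E) (C η : ℝ), Bad S.γ y μ G C η →
        (∀ n, y n ∈ Y) → (∀ n, ((μ n).support : Set E) ⊆ Y) → (∀ n, (G n : Set E) ⊆ Y) →
        ∃ z ∈ Y, ∃ p : Ultrafilter ℕ, (p : Filter ℕ) ≤ cofinite ∧ Tendsto y p (𝓝 z) ∧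
          ∀ lam : E →₀ ℝ, Rep p μ lam → ¬ (lam.support : Set E) ⊆ Y := by
  classical
  -- tasks
  have htask : #I = #(Tsk I × I) := by
    rw [Cardinal.mk_prod, Cardinal.lift_id, Cardinal.lift_id, mk_tsk hI, hI,
      Cardinal.continuum_mul_self]
  obtain ⟨et⟩ := Cardinal.eq.mp htask
  let task : I → Tsk I := fun σ => (et σ).1
  have hgt : ∀ (t : Tsk I) (δ : I), ∃ σ, task σ = t ∧ δ ≤ σ := by
    intro t δ
    by_contra hcon
    push Not at hcon
    have hle : #I ≤ #(Set.Iio δ) :=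
      Cardinal.mk_le_of_injective (f := fun i : I => (⟨et.symm (t, i), hcon _ (by
        simp [task])⟩ : Set.Iio δ))
        (fun a b h => by
          have := congrArg Subtype.val h
          simpa using this)
    rw [hI] at hle
    exact absurd (hsmall δ) (not_lt.mpr hle)
  obtain ⟨e₀⟩ : Nonempty E := by
    obtain ⟨ρ, hρ⟩ := hE
    obtain ⟨e, -⟩ := hρ (fun _ => true)
    exact ⟨e⟩
  haveI : Inhabited (E × E) := ⟨(e₀, e₀)⟩
  -- recursion
  obtain ⟨g, hg⟩ := rec_exists (I := I) (X := E × E)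
    (fun σ prev zx => (∀ τ < σ, ¬ S.rel (prev τ).1 zx.1) ∧ (∀ τ < σ, ¬ S.rel (prev τ).2 zx.1) ∧
      (∀ τ < σ, ¬ S.rel (prev τ).1 zx.2) ∧ ¬ S.rel zx.1 zx.2 ∧
      ((∃ C η, Bad S.γ (fun n => real S (fun τ => (prev τ).1) (task σ n).1)
        (fun n => (task σ n).2.1.mapDomain (real S fun τ => (prev τ).1))
        (fun n => (task σ n).2.2.image (real S fun τ => (prev τ).1)) C η) →
        ∃ p : Ultrafilter ℕ, (p : Filter ℕ) ≤ cofinite ∧
          Tendsto (fun n => real S (fun τ => (prev τ).1) (task σ n).1) p (𝓝 zx.1) ∧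
          ∀ lam, Rep p (fun n => (task σ n).2.1.mapDomain (real S fun τ => (prev τ).1)) lam →
            zx.2 ∈ lam.support))
    (fun σ prev => by
      obtain ⟨z, x, h⟩ := stage S (hsmall σ) hE (fun τ => (prev τ).1) (fun τ => (prev τ).2)
        (fun n => real S (fun τ => (prev τ).1) (task σ n).1)
        (fun n => (task σ n).2.1.mapDomain (real S fun τ => (prev τ).1))
        (fun n => (task σ n).2.2.image (real S fun τ => (prev τ).1))
      exact ⟨(z, x), h⟩)
  let z : I → E := fun σ => (g σ).1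
  let x : I → E := fun σ => (g σ).2
  have hzz : ∀ τ σ, τ < σ → ¬ S.rel (z τ) (z σ) := by
    intro τ σ h
    have := (hg σ).1 τ h
    simp only [if_pos h] at this
    exact this
  have hxz : ∀ τ σ, τ < σ → ¬ S.rel (x τ) (z σ) := by
    intro τ σ h
    have := (hg σ).2.1 τ h
    simp only [if_pos h] at this
    exact this
  have hzx : ∀ τ σ, τ < σ → ¬ S.rel (z τ) (x σ) := by
    intro τ σ h
    have := (hg σ).2.2.1 τ h
    simp only [if_pos h] at this
    exact this
  have hzx' : ∀ σ, ¬ S.rel (z σ) (x σ) := fun σ => (hg σ).2.2.2.1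
  have hxY : ∀ σ τ, ¬ S.rel (z τ) (x σ) := by
    intro σ τ h
    rcases lt_trichotomy τ σ with h' | h' | h'
    · exact hzx τ σ h' h
    · rw [h'] at h
      exact hzx' σ h
    · exact hxz σ τ h' (S.rel_symm h)
  refine ⟨{w | ∃ σ, S.rel (z σ) w}, ?_, ?_, ?_⟩
  · rintro u v huv ⟨σ, hσ⟩
    exact ⟨σ, S.rel_trans hσ huv⟩
  · intro A hA
    by_contra hcon
    push Not at hcon
    choose a ha hrel using fun σ => hcon (z σ) ⟨σ, S.rel_refl _⟩
    have hinj : Function.Injective (fun σ => (⟨a σ, ha σ⟩ : A)) := by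
      intro σ τ hστ
      by_contra hne
      have h1 : a σ = a τ := congrArg Subtype.val hστ
      have h2 : S.rel (z σ) (z τ) := S.rel_trans (S.rel_symm (hrel σ)) (h1 ▸ hrel τ)
      rcases lt_or_gt_of_ne hne with h | h
      · exact hzz σ τ h h2
      · exact hzz τ σ h (S.rel_symm h2)
    have h3 := Cardinal.mk_le_of_injective hinj
    rw [hI] at h3
    have h4 : #A ≤ ℵ₀ := Cardinal.mk_le_aleph0_iff.mpr hA.to_subtype
    exact absurd (h3.trans h4) (not_le.mpr Cardinal.aleph0_lt_continuum)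
  · intro y μ G C η hB hy hμ hG
    have hcode : ∀ w : E, ∃ c : I × ℕ, (∃ σ, S.rel (z σ) w) → real S z c = w := by
      intro w
      by_cases h : ∃ σ, S.rel (z σ) w
      · obtain ⟨σ, hσ⟩ := h
        obtain ⟨i, hi⟩ := S.rel_iff.mp hσ
        exact ⟨(σ, i), fun _ => hi⟩
      · obtain ⟨δ, -⟩ := bounded_of hI hsmall Set.countable_empty
        exact ⟨(δ, 0), fun h' => absurd h' h⟩
    choose κ hκ using hcode
    let t : Tsk I := fun n => (κ (y n), (μ n).mapDomain κ, (G n).image κ)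
    -- all codes are bounded
    obtain ⟨δ, hδ⟩ := bounded_of hI hsmall (A := ⋃ n, ({(t n).1.1} ∪
        ((fun c : I × ℕ => c.1) '' ((t n).2.1.support : Set (I × ℕ))) ∪
        ((fun c : I × ℕ => c.1) '' ((t n).2.2 : Set (I × ℕ))))) (by
      refine Set.countable_iUnion fun n => ?_
      exact ((Set.countable_singleton _).union
        ((Finset.finite_toSet _).image _).countable).union
        ((Finset.finite_toSet _).image _).countable)
    obtain ⟨σ, hσt, hσδ⟩ := hgt t δ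
    have hc1 : ∀ n, (t n).1.1 < σ := fun n =>
      (hδ _ (Set.mem_iUnion.mpr ⟨n, Or.inl (Or.inl rfl)⟩)).trans_le hσδ
    have hc2 : ∀ n, ∀ c ∈ (t n).2.1.support, c.1 < σ := fun n c hc =>
      (hδ _ (Set.mem_iUnion.mpr ⟨n, Or.inl (Or.inr ⟨c, hc, rfl⟩)⟩)).trans_le hσδ
    have hc3 : ∀ n, ∀ c ∈ (t n).2.2, c.1 < σ := fun n c hc =>
      (hδ _ (Set.mem_iUnion.mpr ⟨n, Or.inr ⟨c, hc, rfl⟩⟩)).trans_le hσδ
    obtain ⟨zp, hzp⟩ : ∃ zp : I → E, zp = fun τ => (if τ < σ then g τ else default).1 := ⟨_, rfl⟩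
    have hreal : ∀ c : I × ℕ, c.1 < σ → real S zp c = real S z c := by
      intro c hc
      unfold real
      rw [hzp]
      simp only [if_pos hc]
      rfl
    have e1 : (fun n => real S zp (task σ n).1) = y := by
      funext n
      rw [hσt, hreal _ (hc1 n)]
      exact hκ _ (hy n)
    have e2 : (fun n => (task σ n).2.1.mapDomain (real S zp)) = μ := by
      funext n
      rw [hσt]
      have h1 : (t n).2.1.mapDomain (real S zp) = (t n).2.1.mapDomain (real S z) :=
        Finsupp.mapDomain_congr fun c hc => hreal c (hc2 n c hc)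
      rw [h1]
      change ((μ n).mapDomain κ).mapDomain (real S z) = μ n
      rw [← Finsupp.mapDomain_comp]
      conv_rhs => rw [← Finsupp.mapDomain_id (v := μ n)]
      exact Finsupp.mapDomain_congr fun w hw => hκ w (hμ n (Finset.mem_coe.mpr hw))
    have e3 : (fun n => (task σ n).2.2.image (real S zp)) = G := by
      funext n
      rw [hσt]
      ext w
      rw [Finset.mem_image]
      constructor
      · rintro ⟨c, hc, rfl⟩
        rw [hreal c (hc3 n c hc)]
        obtain ⟨u, hu, rfl⟩ := Finset.mem_image.mp hc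
        rw [hκ u (hG n (Finset.mem_coe.mpr hu))]
        exact hu
      · intro hw
        have hc : κ w ∈ (t n).2.2 := Finset.mem_image_of_mem κ hw
        exact ⟨κ w, hc, by rw [hreal _ (hc3 n _ hc)]; exact hκ w (hG n (Finset.mem_coe.mpr hw))⟩
    have h5 := (hg σ).2.2.2.2
    rw [← hzp] at h5
    simp only [e1, e2, e3] at h5
    obtain ⟨p, hp, hpt, hlam⟩ := h5 ⟨C, η, hB⟩
    refine ⟨z σ, ⟨σ, S.rel_refl _⟩, p, hp, hpt, ?_⟩
    intro lam hrep hsub
    obtain ⟨τ, hτ⟩ := hsub (hlam lam hrep)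
    exact hxY σ τ hτ

end Pool.Agent.Helper538.Cp
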