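import Pool.Agent.Helper538.CpE

set_option autoImplicit false

namespace Pool.Agent.Helper538.Cp

open Set Function Topology Filter

variable {E : Type} [TopologicalSpace E]

/-- Bounded continuous functions on a dense subset of an extremally disconnected space extend. -/
theorem exists_extension [ExtremallyDisconnected E] {D : Set E} (hD : Dense D) (f : E → ℝ)
    (hf : ContinuousOn f D) (C : ℝ) (hC : ∀ d ∈ D, |f d| ≤ C) :
    ∃ F : E → ℝ, Continuous F ∧ ∀ d ∈ D, F d = f d := by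
  refine ⟨extendFrom D f, continuous_extendFrom hD fun e => ?_, extendFrom_extends hf⟩
  have hne : (𝓝[D] e).NeBot := mem_closure_iff_nhdsWithin_neBot.mp (hD e)
  have hmem : Icc (-C) C ∈ map f (𝓝[D] e) := by
    refine mem_map.mpr (mem_of_superset self_mem_nhdsWithin fun d hd => ?_)
    exact abs_le.mp (hC d hd)
  obtain ⟨c, -, hc⟩ := isCompact_Icc.exists_clusterPt (f := map f (𝓝[D] e))
    (le_principal_iff.mpr hmem)
  have key : ∀ a b : ℝ, ClusterPt a (map f (𝓝[D] e)) → ClusterPt b (map f (𝓝[D] e)) → ¬ a < b := by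
    intro a b ha hb hab
    obtain ⟨r, har, hrb⟩ := exists_between hab
    obtain ⟨O, hO, hOD⟩ := continuousOn_iff'.mp hf (Iio r) isOpen_Iio
    obtain ⟨O', hO', hOD'⟩ := continuousOn_iff'.mp hf (Ioi r) isOpen_Ioi
    have hdisj : Disjoint O O' := by
      rw [Set.disjoint_iff_inter_eq_empty]
      by_contra hne'
      obtain ⟨d, hd, hdD⟩ := hD.inter_open_nonempty _ (hO.inter hO')
        (Set.nonempty_iff_ne_empty.mpr hne')
      have h1 : d ∈ f ⁻¹' Iio r ∩ D := hOD ▸ ⟨hd.1, hdD⟩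
      have h2 : d ∈ f ⁻¹' Ioi r ∩ D := hOD' ▸ ⟨hd.2, hdD⟩
      exact lt_asymm (show f d < r from h1.1) (show r < f d from h2.1)
    have hcl := ExtremallyDisconnected.disjoint_closure_of_disjoint_isOpen hdisj hO hO'
    have side : ∀ (u : ℝ) (J : Set ℝ) (P : Set E), ClusterPt u (map f (𝓝[D] e)) → J ∈ 𝓝 u →
        f ⁻¹' J ∩ D = P ∩ D → e ∈ closure P := by
      intro u J P hu hJ hP
      rw [mem_closure_iff_nhds]
      intro N hN
      have h1 : f '' (N ∩ D) ∈ map f (𝓝[D] e) :=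
        image_mem_map (inter_mem (mem_nhdsWithin_of_mem_nhds hN) self_mem_nhdsWithin)
      obtain ⟨v, hvJ, d, hd, rfl⟩ := (clusterPt_iff_nonempty.mp hu) hJ h1
      have : d ∈ P ∩ D := hP ▸ ⟨hvJ, hd.2⟩
      exact ⟨d, hd.1, this.1⟩
    exact Set.disjoint_left.mp hcl (side a (Iio r) O ha (Iio_mem_nhds har) hOD)
      (side b (Ioi r) O' hb (Ioi_mem_nhds hrb) hOD')
  refine ⟨c, isCompact_Icc.le_nhds_of_unique_clusterPt hmem fun x _ hx => ?_⟩
  exact le_antisymm (not_lt.mp (key c x hc hx)) (not_lt.mp (key x c hx hc))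

/-- The properties of the constructed set of points. -/
structure GoodSet (S : Sys E) (Y : Set E) : Prop where
  inv : ∀ x y, S.rel x y → x ∈ Y → y ∈ Y
  many : ∀ A : Set E, A.Countable → ∃ y ∈ Y, ∀ a ∈ A, ¬ S.rel a y
  kill : ∀ (y : ℕ → E) (μ : ℕ → E →₀ ℝ) (G : ℕ → Finset E) (C η : ℝ), Bad S.γ y μ G C η →
        (∀ n, y n ∈ Y) → (∀ n, ((μ n).support : Set E) ⊆ Y) → (∀ n, (G n : Set E) ⊆ Y) →
        ∃ z ∈ Y, ∃ p : Ultrafilter ℕ, (p : Filter ℕ) ≤ cofinite ∧ Tendsto y p (𝓝 z) ∧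
          ∀ lam : E →₀ ℝ, Rep p μ lam → ¬ (lam.support : Set E) ⊆ Y

/-- The orbit of a point. -/
def orb (S : Sys E) (x : E) : Set E := {w | S.rel x w}

theorem GoodSet.dense_diff {S : Sys E} {Y : Set E} (hY : GoodSet S Y) (A : Set E)
    (hA : A.Countable) : Dense (Y \ {w | ∃ a ∈ A, S.rel a w}) := by
  obtain ⟨y, hy, hya⟩ := hY.many A hA
  rw [dense_iff_inter_open]
  intro O hO hOn
  obtain ⟨w, hw, hrel⟩ := S.exists_rel_mem y hO hOn
  refine ⟨w, hw, hY.inv _ _ hrel hy, ?_⟩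
  rintro ⟨a, ha, haw⟩
  exact hya a ha (S.rel_trans haw (S.rel_symm hrel))

theorem GoodSet.dense_orb {S : Sys E} {Y : Set E} (hY : GoodSet S Y) (x : E) :
    Dense (Y \ orb S x) := by
  refine (hY.dense_diff {x} (Set.countable_singleton x)).mono ?_
  rintro w ⟨hw, hw'⟩
  exact ⟨hw, fun h => hw' ⟨x, rfl, h⟩⟩

theorem GoodSet.dense {S : Sys E} {Y : Set E} (hY : GoodSet S Y) : Dense Y :=
  (hY.dense_diff ∅ Set.countable_empty).mono Set.sdiff_subset

/-- A bounded family of measures on `Y`, continuous on clopen sets. -/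
structure Ker (Y : Set E) (m : E → E →₀ ℝ) (C : ℝ) : Prop where
  supp : ∀ y ∈ Y, ((m y).support : Set E) ⊆ Y
  bdd : ∀ y ∈ Y, mass (m y) univ ≤ C
  cont : ∀ V, IsClopen V → ContinuousOn (fun y => val (m y) V) Y

variable [CompactSpace E] [T2Space E] [ExtremallyDisconnected E]

/-- No bad sequence for a continuous family. -/
theorem GoodSet.no_bad {S : Sys E} {Y : Set E} (hY : GoodSet S Y) {m : E → E →₀ ℝ} {C : ℝ}
    (hm : Ker Y m C) (y : ℕ → E) (hy : ∀ n, y n ∈ Y) (G : ℕ → Finset E)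
    (hG : ∀ n, G n ⊆ (m (y n)).support) (η : ℝ) : ¬ Bad S.γ y (fun n => m (y n)) G C η := by
  intro hB
  obtain ⟨z, hz, p, hp, hpz, hlam⟩ := hY.kill y _ G C η hB hy (fun n => hm.supp _ (hy n))
    (fun n x hx => hm.supp _ (hy n) (Finset.mem_coe.mpr (hG n (Finset.mem_coe.mp hx))))
  refine hlam (m z) ?_ (hm.supp z hz)
  intro V hV
  have h1 : Tendsto (fun y => val (m y) V) (𝓝[Y] z) (𝓝 (val (m z) V)) := hm.cont V hV z hz
  refine h1.comp ?_
  rw [tendsto_nhdsWithin_iff]
  exact ⟨hpz, Eventually.of_forall hy⟩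

theorem mass_filter {μ : E →₀ ℝ} {W : Set E} [DecidablePred (· ∈ W)] :
    mass μ (μ.support.filter (· ∈ W) : Finset E) = mass μ W := by
  refine mass_congr μ fun x hx => ?_
  simp only [Finset.coe_filter, Set.mem_ofPred_eq]
  exact ⟨fun h => h.2, fun h => ⟨hx, h⟩⟩

/-- Uniform tightness off the orbits. -/
theorem GoodSet.tight {S : Sys E} {Y : Set E} (hY : GoodSet S Y) {m : E → E →₀ ℝ} {C : ℝ}
    (hm : Ker Y m C) (η : ℝ) (hη : 0 < η) :
    ∃ X : Finset E, (X : Set E) ⊆ Y ∧ ∀ y ∈ Y, mass (m y) ((X : Set E) ∪ orb S y)ᶜ ≤ η := by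
  classical
  by_contra hcon
  push Not at hcon
  have hcon' : ∀ X : {X : Finset E // (X : Set E) ⊆ Y}, ∃ y ∈ Y,
      η < mass (m y) ((X.1 : Set E) ∪ orb S y)ᶜ := fun X => hcon X.1 X.2
  choose q hq hqm using hcon'
  let st : ℕ → {X : Finset E // (X : Set E) ⊆ Y} := fun n =>
    Nat.rec ⟨∅, by simp⟩ (fun _ X => ⟨X.1 ∪ (m (q X)).support, by
      rw [Finset.coe_union]
      exact Set.union_subset X.2 (hm.supp _ (hq X))⟩) n
  have hst : ∀ n, (st (n + 1)).1 = (st n).1 ∪ (m (q (st n))).support := fun n => rfl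
  have hmono : ∀ j k, j ≤ k → (st j).1 ⊆ (st k).1 := by
    intro j k hjk
    induction k, hjk using Nat.le_induction with
    | base => exact subset_rfl
    | succ k _ ih => rw [hst]; exact ih.trans Finset.subset_union_left
  have hsub : ∀ j k, j < k → (m (q (st j))).support ⊆ (st k).1 := fun j k hjk => by
    have := hmono (j + 1) k hjk
    rw [hst] at this
    exact Finset.subset_union_right.trans this
  let y : ℕ → E := fun n => q (st n)
  let G : ℕ → Finset E := fun n =>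
    (m (y n)).support.filter (· ∈ (((st n).1 : Set E) ∪ orb S (y n))ᶜ)
  have hGm : ∀ n, η < mass (m (y n)) (G n) := by
    intro n
    rw [mass_filter]
    exact hqm (st n)
  have hGne : ∀ n, (G n).Nonempty := by
    intro n
    by_contra hne
    rw [Finset.not_nonempty_iff_eq_empty] at hne
    have := hGm n
    rw [hne] at this
    simp only [Finset.coe_empty, mass, Set.indicator_empty, Finset.sum_const_zero] at this
    linarith
  have hGmem : ∀ n, ∀ x ∈ G n, x ∈ (m (y n)).support ∧ x ∉ (st n).1 ∧ ¬ S.rel (y n) x := by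
    intro n x hx
    obtain ⟨h1, h2⟩ := Finset.mem_filter.mp hx
    simp only [Set.mem_compl_iff, Set.mem_union, not_or, Finset.mem_coe] at h2
    exact ⟨h1, h2.1, h2.2⟩
  refine hY.no_bad hm y (fun n => hq _) G (fun n => Finset.filter_subset _ _) η ?_
  refine ⟨?_, fun n => hm.bdd _ (hq _), ?_, hη, fun n => (hGm n).le, ?_⟩
  · have key : ∀ j k, j < k → y j ≠ y k := by
      intro j k hjk hne
      obtain ⟨x, hx⟩ := hGne k
      have h1 := hGmem k x hx
      refine h1.2.1 (hsub j k hjk ?_)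
      change x ∈ (m (y j)).support
      rw [hne]
      exact h1.1
    intro j k hjk
    by_contra hne
    rcases lt_or_gt_of_ne hne with h | h
    · exact key j k h hjk
    · exact key k j h hjk.symm
  · have key : ∀ j k, j < k → Disjoint (G j) (G k) := by
      intro j k hjk
      rw [Finset.disjoint_left]
      intro x hx hx'
      exact (hGmem k x hx').2.1 (hsub j k hjk (hGmem j x hx).1)
    intro j k hjk
    rcases lt_or_gt_of_ne hjk with h | h
    · exact key j k h
    · exact (key k j h).symm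
  · intro i
    refine ⟨0, fun n _ h => ?_⟩
    exact (hGmem n _ h).2.2 (S.rel_γ i (y n))

/-- The orbit part is small near points off the orbit. -/
theorem GoodSet.local_small {S : Sys E} {Y : Set E} (hY : GoodSet S Y) {m : E → E →₀ ℝ} {C : ℝ}
    (hm : Ker Y m C) (x y₀ : E) (hxy : ¬ S.rel x y₀) (ε : ℝ) (hε : 0 < ε) :
    ∃ W U : Set E, IsOpen W ∧ x ∈ W ∧ IsOpen U ∧ y₀ ∈ U ∧
      ∀ y ∈ U, y ∈ Y → ¬ S.rel x y → mass (m y) (orb S y ∩ W) ≤ ε := by
  classical
  by_contra hcon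
  push Not at hcon
  -- neighbourhoods separating the images
  have hsep : ∀ (n : ℕ) (X : Finset E), ∃ W U : Set E, IsOpen W ∧ x ∈ W ∧ IsOpen U ∧ y₀ ∈ U ∧
      (∀ i ≤ n, ∀ u ∈ U, S.γ i u ∉ W) ∧ ∀ u ∈ X, u ∈ W → u = x := by
    intro n X
    have h1 : ∀ i : ℕ, ∃ W U : Set E, IsOpen W ∧ x ∈ W ∧ IsOpen U ∧ y₀ ∈ U ∧
        ∀ u ∈ U, S.γ i u ∉ W := by
      intro i
      have hne : S.γ i y₀ ≠ x := by
        intro h
        exact hxy (S.rel_symm (h ▸ S.rel_γ i y₀))
      obtain ⟨O, O', hO, hO', h1, h2, hd⟩ := t2_separation hne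
      exact ⟨O', (S.γ i) ⁻¹' O, hO', h2, hO.preimage (S.continuous_γ i), h1,
        fun u hu h => Set.disjoint_left.mp hd hu h⟩
    choose W U hW hxW hU hyU hWU using h1
    refine ⟨(⋂ i ∈ Finset.range (n + 1), W i) ∩ ((X \ {x} : Finset E) : Set E)ᶜ,
      ⋂ i ∈ Finset.range (n + 1), U i, ?_, ?_, ?_, ?_, ?_, ?_⟩
    · exact (isOpen_biInter_finset fun i _ => hW i).inter
        (Finset.finite_toSet _).isClosed.isOpen_compl
    · refine ⟨Set.mem_iInter₂.mpr fun i _ => hxW i, ?_⟩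
      simp
    · exact isOpen_biInter_finset fun i _ => hU i
    · exact Set.mem_iInter₂.mpr fun i _ => hyU i
    · intro i hi u hu hγ
      exact hWU i u (Set.mem_iInter₂.mp hu i (Finset.mem_range.mpr (by omega)))
        (Set.mem_iInter₂.mp hγ.1 i (Finset.mem_range.mpr (by omega)))
    · intro u hu huW
      by_contra hne
      exact huW.2 (by simp [hu, hne])
  choose W U hW hxW hU hyU hWU hWX using hsep
  choose q hqU hqY hqx hqm using fun (n : ℕ) (X : Finset E) =>
    hcon (W n X) (U n X) (hW n X) (hxW n X) (hU n X) (hyU n X)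
  let st : ℕ → Finset E := fun n =>
    Nat.rec ∅ (fun n X => X ∪ (m (q n X)).support) n
  have hst : ∀ n, st (n + 1) = st n ∪ (m (q n (st n))).support := fun n => rfl
  have hmono : ∀ j k, j ≤ k → st j ⊆ st k := by
    intro j k hjk
    induction k, hjk using Nat.le_induction with
    | base => exact subset_rfl
    | succ k _ ih => rw [hst]; exact ih.trans Finset.subset_union_left
  have hsub : ∀ j k, j < k → (m (q j (st j))).support ⊆ st k := fun j k hjk => by
    have := hmono (j + 1) k hjk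
    rw [hst] at this
    exact Finset.subset_union_right.trans this
  let y : ℕ → E := fun n => q n (st n)
  let G : ℕ → Finset E := fun n =>
    (m (y n)).support.filter (· ∈ orb S (y n) ∩ W n (st n))
  have hGm : ∀ n, ε < mass (m (y n)) (G n) := by
    intro n
    rw [mass_filter]
    exact hqm n (st n)
  have hGne : ∀ n, (G n).Nonempty := by
    intro n
    by_contra hne
    rw [Finset.not_nonempty_iff_eq_empty] at hne
    have := hGm n
    rw [hne] at this
    simp only [Finset.coe_empty, mass, Set.indicator_empty, Finset.sum_const_zero] at this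
    linarith
  have hGmem : ∀ n, ∀ u ∈ G n, u ∈ (m (y n)).support ∧ S.rel (y n) u ∧ u ∈ W n (st n) ∧ u ≠ x := by
    intro n u hu
    obtain ⟨h1, h2, h3⟩ := Finset.mem_filter.mp hu
    refine ⟨h1, h2, h3, ?_⟩
    rintro rfl
    exact hqx n (st n) (S.rel_symm h2)
  refine hY.no_bad hm y (fun n => hqY _ _) G (fun n => Finset.filter_subset _ _) ε ?_
  have hout : ∀ j k, j < k → ∀ u ∈ (m (y j)).support, u ∉ G k := by
    intro j k hjk u hu huG
    have h1 := hGmem k u huG
    exact h1.2.2.2 (hWX k (st k) u (hsub j k hjk hu) h1.2.2.1)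
  refine ⟨?_, fun n => hm.bdd _ (hqY _ _), ?_, hε, fun n => (hGm n).le, ?_⟩
  · have key : ∀ j k, j < k → y j ≠ y k := by
      intro j k hjk hne
      obtain ⟨u, hu⟩ := hGne k
      refine hout j k hjk u ?_ hu
      rw [hne]
      exact (hGmem k u hu).1
    intro j k hjk
    by_contra hne
    rcases lt_or_gt_of_ne hne with h | h
    · exact key j k h hjk
    · exact key k j h hjk.symm
  · have key : ∀ j k, j < k → Disjoint (G j) (G k) := by
      intro j k hjk
      rw [Finset.disjoint_left]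
      intro u hu hu'
      exact hout j k hjk u (hGmem j u hu).1 hu'
    intro j k hjk
    rcases lt_or_gt_of_ne hjk with h | h
    · exact key j k h
    · exact (key k j h).symm
  · intro i
    refine ⟨i, fun n hn h => ?_⟩
    exact hWU n (st n) i hn (y n) (hqU n (st n)) (hGmem n _ h).2.2.1

/-- The coefficient at `x` is continuous off the orbit of `x`. -/
theorem GoodSet.cont_coeff {S : Sys E} {Y : Set E} (hY : GoodSet S Y) {m : E → E →₀ ℝ} {C : ℝ}
    (hm : Ker Y m C) (x : E) : ContinuousOn (fun y => m y x) (Y \ orb S x) := by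
  classical
  rintro y₀ ⟨hy₀, hxy₀⟩
  rw [ContinuousWithinAt, Metric.tendsto_nhds]
  intro ε hε
  obtain ⟨X, -, hX⟩ := hY.tight hm (ε / 4) (by positivity)
  obtain ⟨W, U, hW, hxW, hU, hyU, hsm⟩ := hY.local_small hm x y₀ hxy₀ (ε / 4) (by positivity)
  obtain ⟨V₁, hV₁, hxV₁, hV₁W⟩ := compact_exists_isClopen_in_isOpen hW hxW
  obtain ⟨V₂, hV₂, hxV₂, hV₂d⟩ := exists_clopen_avoid {x} ((X ∪ (m y₀).support) \ {x})
    Finset.disjoint_sdiff
  have hV : IsClopen (V₁ ∩ V₂) := hV₁.inter hV₂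
  have hxV : x ∈ V₁ ∩ V₂ := ⟨hxV₁, hxV₂ (by simp)⟩
  have havoid : ∀ u ∈ X ∪ (m y₀).support, u ≠ x → u ∉ V₁ ∩ V₂ := by
    intro u hu hux huV
    refine Set.disjoint_left.mp hV₂d huV.2 ?_
    rw [Finset.mem_coe, Finset.mem_sdiff]
    exact ⟨hu, by simpa using hux⟩
  have h0 : val (m y₀) (V₁ ∩ V₂) = m y₀ x := val_eq_apply _ hxV fun u hu hux =>
    havoid u (Finset.mem_union_right _ hu) hux
  have hcont : ∀ᶠ y in 𝓝[Y] y₀, dist (val (m y) (V₁ ∩ V₂)) (val (m y₀) (V₁ ∩ V₂)) < ε / 4 :=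
    (Metric.tendsto_nhds.mp (hm.cont _ hV y₀ hy₀)) (ε / 4) (by positivity)
  have hcont' := nhdsWithin_mono y₀ (Set.sdiff_subset (s := Y) (t := orb S x)) hcont
  have hU' : U ∈ 𝓝[Y \ orb S x] y₀ := mem_nhdsWithin_of_mem_nhds (hU.mem_nhds hyU)
  filter_upwards [hcont', hU', self_mem_nhdsWithin] with y hy1 hy2 hy3
  obtain ⟨hyY, hyx⟩ := hy3
  have hyx' : ¬ S.rel x y := hyx
  -- split the clopen set
  have hsplit : V₁ ∩ V₂ = {x} ∪ ((V₁ ∩ V₂) \ {x}) := by
    ext u
    by_cases h : u = x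
    · subst h; simp [hxV.1, hxV.2]
    · simp [h]
  have h1 : val (m y) (V₁ ∩ V₂) = m y x + val (m y) ((V₁ ∩ V₂) \ {x}) := by
    conv_lhs => rw [hsplit]
    rw [val_union _ (Set.disjoint_left.mpr fun u hu hu' => hu'.2 hu)]
    congr 1
    exact val_eq_apply _ (by simp) (fun u _ hux => by simpa using hux)
  have h2 : |val (m y) ((V₁ ∩ V₂) \ {x})| ≤ ε / 4 + ε / 4 := by
    refine (abs_val_le _ _).trans ?_
    have hsub : (V₁ ∩ V₂) \ {x} ⊆ (orb S y ∩ W) ∪ ((X : Set E) ∪ orb S y)ᶜ := by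
      rintro u ⟨hu, hux⟩
      by_cases h : u ∈ orb S y
      · exact Or.inl ⟨h, hV₁W hu.1⟩
      · right
        simp only [Set.mem_compl_iff, Set.mem_union, not_or]
        exact ⟨fun hX' => havoid u (Finset.mem_union_left _ hX') hux hu, h⟩
    refine (mass_mono _ hsub).trans ((mass_union_le _ _ _).trans ?_)
    exact add_le_add (hsm y hy2 hyY hyx') (hX y hyY)
  rw [h0, h1, Real.dist_eq] at hy1
  rw [Real.dist_eq]
  have h3 : m y x - m y₀ x = (m y x + val (m y) ((V₁ ∩ V₂) \ {x}) - m y₀ x) -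
      val (m y) ((V₁ ∩ V₂) \ {x}) := by ring
  rw [h3]
  refine (abs_sub _ _).trans_lt ?_
  linarith

end Pool.Agent.Helper538.Cp
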