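import Mathlib

set_option autoImplicit false

namespace Pool.Agent.Helper538.Cp

open Set Function Topology Filter

/-- Absolutely summable real families. -/
abbrev L1 (T : Type) := lp (fun _ : T => ℝ) 1

variable {T : Type}

theorem summable_abs (v : L1 T) : Summable fun x => |v x| := by
  have := (lp.memℓp v).summable (by simp)
  simpa using this

theorem norm_eq (v : L1 T) : ‖v‖ = ∑' x, |v x| := by
  rw [lp.norm_eq_tsum_rpow (by simp)]
  simp

/-- Unit vectors. -/
noncomputable def bs (y : T) : L1 T := by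
  classical
  exact lp.single 1 y (1 : ℝ)

theorem bs_self (y : T) : (bs y : L1 T) y = 1 := by
  classical
  simp [bs]

theorem bs_ne {x y : T} (h : x ≠ y) : (bs y : L1 T) x = 0 := by
  classical
  unfold bs
  exact lp.single_apply_ne (E := fun _ : T => ℝ) 1 y (1 : ℝ) h

theorem norm_bs (y : T) : ‖(bs y : L1 T)‖ = 1 := by
  classical
  unfold bs
  rw [lp.norm_single (by simp)]
  simp

theorem hasSum_bs (v : L1 T) : HasSum (fun y => v y • (bs y : L1 T)) v := by
  classical
  have h := lp.hasSum_single (by simp) v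
  convert h using 2 with y
  unfold bs
  rw [← lp.single_smul]
  simp

section lift

variable {F : Type} [NormedAddCommGroup F] [NormedSpace ℝ F] [CompleteSpace F]

theorem summable_lift {m : T → F} {C : ℝ} (h : ∀ y, ‖m y‖ ≤ C) (v : L1 T) :
    Summable fun y => ‖v y • m y‖ := by
  refine Summable.of_nonneg_of_le (fun y => norm_nonneg _) (fun y => ?_)
    ((summable_abs v).mul_right C)
  rw [norm_smul, Real.norm_eq_abs]
  exact mul_le_mul_of_nonneg_left (h y) (abs_nonneg _)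

/-- Extension of a bounded family to a continuous linear map. -/
noncomputable def lift (m : T → F) (C : ℝ) (h : ∀ y, ‖m y‖ ≤ C) : L1 T →L[ℝ] F :=
  LinearMap.mkContinuous
    { toFun := fun v => ∑' y, v y • m y
      map_add' := by
        intro v w
        rw [← Summable.tsum_add (summable_lift h v).of_norm (summable_lift h w).of_norm]
        refine tsum_congr fun y => ?_
        rw [lp.coeFn_add, Pi.add_apply, add_smul]
      map_smul' := by
        intro c v
        rw [RingHom.id_apply, ← (summable_lift h v).of_norm.tsum_const_smul c]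
        refine tsum_congr fun y => ?_
        rw [lp.coeFn_smul, Pi.smul_apply, smul_eq_mul, mul_smul] } C
    (by
      intro v
      change ‖∑' y, v y • m y‖ ≤ C * ‖v‖
      refine (norm_tsum_le_tsum_norm (summable_lift h v)).trans ?_
      rw [norm_eq, ← tsum_mul_left]
      refine Summable.tsum_le_tsum (fun y => ?_) (summable_lift h v) ((summable_abs v).mul_left C)
      rw [norm_smul, Real.norm_eq_abs, mul_comm]
      exact mul_le_mul_of_nonneg_right (h y) (abs_nonneg _))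

theorem lift_apply (m : T → F) (C : ℝ) (h : ∀ y, ‖m y‖ ≤ C) (v : L1 T) :
    lift m C h v = ∑' y, v y • m y := rfl

theorem lift_bs (m : T → F) (C : ℝ) (h : ∀ y, ‖m y‖ ≤ C) (y : T) : lift m C h (bs y) = m y := by
  rw [lift_apply, tsum_eq_single y, bs_self, one_smul]
  intro x hx
  rw [bs_ne hx, zero_smul]

theorem ext_bs {A B : L1 T →L[ℝ] F} (h : ∀ y, A (bs y) = B (bs y)) : A = B := by
  ext1 v
  have h1 := (hasSum_bs v).mapL A
  have h2 := (hasSum_bs v).mapL B
  simp only [map_smul, h] at h1 h2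
  exact h1.unique h2

theorem norm_le_of_bs {A : L1 T →L[ℝ] F} {C : ℝ} (hC : 0 ≤ C) (h : ∀ y, ‖A (bs y)‖ ≤ C) :
    ‖A‖ ≤ C := by
  have hA : A = lift (fun y => A (bs y)) C h := ext_bs fun y => by rw [lift_bs]
  rw [hA]
  exact LinearMap.mkContinuous_norm_le _ hC _

end lift

/-- Pairing with a bounded function. -/
noncomputable def pr (f : T → ℝ) (v : L1 T) : ℝ := ∑' x, v x * f x

theorem pr_eq_lift {f : T → ℝ} {M : ℝ} (hf : ∀ x, |f x| ≤ M) (v : L1 T) :
    pr f v = lift f M hf v := by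
  rw [lift_apply]
  rfl

theorem abs_pr_le {f : T → ℝ} {M : ℝ} (hM : 0 ≤ M) (hf : ∀ x, |f x| ≤ M) (v : L1 T) :
    |pr f v| ≤ M * ‖v‖ := by
  rw [pr_eq_lift hf]
  refine ((lift f M hf).le_opNorm v).trans ?_
  exact mul_le_mul_of_nonneg_right (LinearMap.mkContinuous_norm_le _ hM _) (norm_nonneg _)

theorem pr_bs {f : T → ℝ} (y : T) : pr f (bs y) = f y := by
  unfold pr
  rw [tsum_eq_single y, bs_self, one_mul]
  intro x hx
  rw [bs_ne hx, zero_mul]

/-- Removal of finitely many coordinates. -/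
noncomputable def cut (X : Finset T) : L1 T →L[ℝ] L1 T :=
  ContinuousLinearMap.id ℝ (L1 T) -
    ∑ x ∈ X, (lp.evalCLM ℝ (fun _ : T => ℝ) (p := 1) x).smulRight (bs x : L1 T)

theorem cut_apply (X : Finset T) (v : L1 T) : cut X v = v - ∑ x ∈ X, v x • (bs x : L1 T) := by
  simp only [cut, ContinuousLinearMap.sub_apply, ContinuousLinearMap.id_apply,
    ContinuousLinearMap.sum_apply, ContinuousLinearMap.smulRight_apply]
  rfl

theorem coe_sum_bs (X : Finset T) (c : T → ℝ) (u : T) :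
    (∑ x ∈ X, c x • (bs x : L1 T) : L1 T) u = ∑ x ∈ X, c x * (bs x : L1 T) u := by
  rw [lp.coeFn_sum, Finset.sum_apply]
  refine Finset.sum_congr rfl fun x _ => ?_
  rw [lp.coeFn_smul, Pi.smul_apply, smul_eq_mul]

theorem cut_mem {X : Finset T} {u : T} (h : u ∈ X) (v : L1 T) : cut X v u = 0 := by
  classical
  rw [cut_apply, lp.coeFn_sub, Pi.sub_apply, coe_sum_bs, Finset.sum_eq_single_of_mem u h, bs_self,
    mul_one, sub_self]
  intro x _ hx
  rw [bs_ne hx.symm, mul_zero]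

theorem cut_notMem {X : Finset T} {u : T} (h : u ∉ X) (v : L1 T) : cut X v u = v u := by
  classical
  rw [cut_apply, lp.coeFn_sub, Pi.sub_apply, coe_sum_bs, Finset.sum_eq_zero, sub_zero]
  intro x hx
  have hux : u ≠ x := fun h' => h (h' ▸ hx)
  rw [bs_ne hux, mul_zero]

theorem norm_cut_le (X : Finset T) (v : L1 T) : ‖cut X v‖ ≤ ‖v‖ := by
  rw [norm_eq, norm_eq]
  refine Summable.tsum_le_tsum (fun u => ?_) (summable_abs _) (summable_abs _)
  by_cases h : u ∈ X
  · rw [cut_mem h, abs_zero]; exact abs_nonneg _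
  · rw [cut_notMem h]

theorem cut_cut {X X' : Finset T} (h : X ⊆ X') (v : L1 T) : cut X' (cut X v) = cut X' v := by
  apply lp.ext
  funext u
  by_cases hu : u ∈ X'
  · rw [cut_mem hu, cut_mem hu]
  · rw [cut_notMem hu, cut_notMem hu, cut_notMem fun h' => hu (h h')]

theorem cut_eq_self {X : Finset T} {v : L1 T} (h : ∀ x ∈ X, v x = 0) : cut X v = v := by
  rw [cut_apply, Finset.sum_eq_zero, sub_zero]
  intro x hx
  rw [h x hx, zero_smul]

theorem tendsto_cut (v : L1 T) : Tendsto (fun X => cut X v) atTop (𝓝 0) := by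
  have h := hasSum_bs v
  have h2 : Tendsto (fun X : Finset T => v - ∑ x ∈ X, v x • (bs x : L1 T)) atTop (𝓝 (v - v)) :=
    tendsto_const_nhds.sub h
  rw [sub_self] at h2
  refine h2.congr fun X => ?_
  rw [cut_apply]

/-- Uniform tightness. -/
def Tight (A : L1 T →L[ℝ] L1 T) : Prop := ∀ η > 0, ∃ X : Finset T, ∀ y, ‖cut X (A (bs y))‖ ≤ η

theorem Tight.norm {A : L1 T →L[ℝ] L1 T} (h : Tight A) (η : ℝ) (hη : 0 < η) :
    ∃ X : Finset T, ‖(cut X).comp A‖ ≤ η := by
  obtain ⟨X, hX⟩ := h η hη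
  exact ⟨X, norm_le_of_bs hη.le fun y => hX y⟩

theorem Tight.mono {A : L1 T →L[ℝ] L1 T} {η : ℝ} {X X' : Finset T} (h : X ⊆ X')
    (hX : ∀ y, ‖cut X (A (bs y))‖ ≤ η) (y : T) : ‖cut X' (A (bs y))‖ ≤ η := by
  rw [← cut_cut h]
  exact (norm_cut_le _ _).trans (hX y)

theorem Tight.add {A B : L1 T →L[ℝ] L1 T} (hA : Tight A) (hB : Tight B) : Tight (A + B) := by
  classical
  intro η hη
  obtain ⟨X, hX⟩ := hA (η / 2) (by positivity)
  obtain ⟨X', hX'⟩ := hB (η / 2) (by positivity)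
  refine ⟨X ∪ X', fun y => ?_⟩
  rw [ContinuousLinearMap.add_apply, map_add]
  refine (norm_add_le _ _).trans ?_
  have h1 := Tight.mono (Finset.subset_union_left (s₂ := X')) hX y
  have h2 := Tight.mono (Finset.subset_union_right (s₁ := X)) hX' y
  linarith

theorem Tight.neg {A : L1 T →L[ℝ] L1 T} (hA : Tight A) : Tight (-A) := by
  intro η hη
  obtain ⟨X, hX⟩ := hA η hη
  refine ⟨X, fun y => ?_⟩
  rw [ContinuousLinearMap.neg_apply, map_neg, norm_neg]
  exact hX y

theorem Tight.comp_right {A : L1 T →L[ℝ] L1 T} (hA : Tight A) (B : L1 T →L[ℝ] L1 T) :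
    Tight (A.comp B) := by
  intro η hη
  obtain ⟨X, hX⟩ := hA.norm (η / (‖B‖ + 1)) (by positivity)
  refine ⟨X, fun y => ?_⟩
  have h1 := ((cut X).comp A).le_opNorm (B (bs y))
  have h2 := B.le_opNorm (bs y)
  rw [norm_bs, mul_one] at h2
  calc ‖cut X (A (B (bs y)))‖ ≤ ‖(cut X).comp A‖ * ‖B (bs y)‖ := h1
    _ ≤ η / (‖B‖ + 1) * (‖B‖ + 1) := by
        refine mul_le_mul hX (h2.trans (by linarith)) (norm_nonneg _) (by positivity)
    _ = η := by field_simp

theorem Tight.comp_left {A : L1 T →L[ℝ] L1 T} (hA : Tight A) (B : L1 T →L[ℝ] L1 T) :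
    Tight (B.comp A) := by
  classical
  intro η hη
  obtain ⟨X, hX⟩ := hA (η / 2 / (‖B‖ + 1)) (by positivity)
  -- finitely many vectors are almost cut simultaneously
  have hev : ∀ᶠ X' : Finset T in atTop, ∀ x ∈ X, ‖cut X' (B (bs x))‖ ≤ η / 2 / (‖A‖ + 1) := by
    rw [Finset.eventually_all]
    intro x _
    have h := (tendsto_cut (B (bs x))).norm
    rw [norm_zero] at h
    exact (h.eventually (gt_mem_nhds (by positivity : (0 : ℝ) < η / 2 / (‖A‖ + 1)))).mono
      fun X' h' => le_of_lt h'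
  obtain ⟨X', hX'⟩ := hev.exists
  refine ⟨X', fun y => ?_⟩
  have hsplit : A (bs y) = cut X (A (bs y)) + ∑ x ∈ X, (A (bs y)) x • (bs x : L1 T) := by
    rw [cut_apply]; abel
  have h1 : ‖cut X' (B (cut X (A (bs y))))‖ ≤ η / 2 := by
    refine (norm_cut_le _ _).trans ((B.le_opNorm _).trans ?_)
    calc ‖B‖ * ‖cut X (A (bs y))‖ ≤ (‖B‖ + 1) * (η / 2 / (‖B‖ + 1)) :=
          mul_le_mul (by linarith) (hX y) (norm_nonneg _) (by positivity)
      _ = η / 2 := by field_simp
  have h2 : ‖cut X' (B (∑ x ∈ X, (A (bs y)) x • (bs x : L1 T)))‖ ≤ η / 2 := by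
    rw [map_sum, map_sum]
    refine (norm_sum_le _ _).trans ?_
    have h3 : ∀ x ∈ X, ‖cut X' (B ((A (bs y)) x • (bs x : L1 T)))‖ ≤
        |(A (bs y)) x| * (η / 2 / (‖A‖ + 1)) := by
      intro x hx
      rw [map_smul, map_smul, norm_smul, Real.norm_eq_abs]
      exact mul_le_mul_of_nonneg_left (hX' x hx) (abs_nonneg _)
    refine (Finset.sum_le_sum h3).trans ?_
    rw [← Finset.sum_mul]
    have h4 : ∑ x ∈ X, |(A (bs y)) x| ≤ ‖A‖ := by
      refine ((summable_abs (A (bs y))).sum_le_tsum X fun x _ => abs_nonneg _).trans ?_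
      rw [← norm_eq]
      have := A.le_opNorm (bs y)
      rwa [norm_bs, mul_one] at this
    calc (∑ x ∈ X, |(A (bs y)) x|) * (η / 2 / (‖A‖ + 1)) ≤ (‖A‖ + 1) * (η / 2 / (‖A‖ + 1)) :=
          mul_le_mul_of_nonneg_right (by linarith) (by positivity)
      _ = η / 2 := by field_simp
  change ‖cut X' (B (A (bs y)))‖ ≤ η
  rw [hsplit, map_add, map_add]
  refine (norm_add_le _ _).trans ?_
  linarith

/-- Support inside a relation. -/
def Loc (r : T → T → Prop) (A : L1 T →L[ℝ] L1 T) : Prop := ∀ y x, ¬ r y x → A (bs y) x = 0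

theorem Loc.comp {r : T → T → Prop} (hr : ∀ x y z, r x y → r y z → r x z)
    {A B : L1 T →L[ℝ] L1 T} (hA : Loc r A) (hB : Loc r B) : Loc r (A.comp B) := by
  intro y x hyx
  have h1 := (((hasSum_bs (B (bs y))).mapL A).mapL (lp.evalCLM ℝ (fun _ : T => ℝ) (p := 1) x))
  have h2 : (fun u => (lp.evalCLM ℝ (fun _ : T => ℝ) (p := 1) x)
      (A ((B (bs y)) u • (bs u : L1 T)))) = fun _ => (0 : ℝ) := by
    funext u
    rw [map_smul]
    change ((B (bs y)) u • A (bs u) : L1 T) x = 0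
    rw [lp.coeFn_smul, Pi.smul_apply, smul_eq_mul]
    by_cases hyu : r y u
    · rw [hA u x fun h => hyx (hr y u x hyu h), mul_zero]
    · rw [hB y u hyu, zero_mul]
  rw [h2] at h1
  exact (h1.unique hasSum_zero)

theorem Loc.one {r : T → T → Prop} (hr : ∀ x, r x x) : Loc r (ContinuousLinearMap.id ℝ (L1 T)) := by
  intro y x hyx
  rw [ContinuousLinearMap.id_apply, bs_ne]
  rintro rfl
  exact hyx (hr _)

theorem Loc.sub {r : T → T → Prop} {A B : L1 T →L[ℝ] L1 T} (hA : Loc r A) (hB : Loc r B) :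
    Loc r (A - B) := by
  intro y x hyx
  rw [ContinuousLinearMap.sub_apply, lp.coeFn_sub, Pi.sub_apply, hA y x hyx, hB y x hyx, sub_zero]

section top

variable [TopologicalSpace T]

/-- Weak continuity. -/
def WC (A : L1 T →L[ℝ] L1 T) : Prop := ∀ (f : T → ℝ) (M : ℝ), Continuous f → (∀ x, |f x| ≤ M) →
  Continuous fun y => pr f (A (bs y))

theorem WC.comp {A B : L1 T →L[ℝ] L1 T} (hA : WC A) (hB : WC B) : WC (A.comp B) := by
  intro f M hf hM
  by_cases hT : Nonempty T
  swap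
  · exact continuous_of_const fun x => absurd ⟨x⟩ hT
  have hM0 : 0 ≤ M := (abs_nonneg _).trans (hM (Classical.arbitrary T))
  let g : T → ℝ := fun x => pr f (A (bs x))
  have hg : Continuous g := hA f M hf hM
  have hgM : ∀ x, |g x| ≤ M * ‖A‖ := by
    intro x
    refine (abs_pr_le hM0 hM _).trans (mul_le_mul_of_nonneg_left ?_ hM0)
    have := A.le_opNorm (bs x)
    rwa [norm_bs, mul_one] at this
  have hkey : (lift f M hM).comp A = lift g (M * ‖A‖) hgM := by
    refine ext_bs fun y => ?_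
    rw [lift_bs, ContinuousLinearMap.comp_apply, ← pr_eq_lift]
  have h2 : (fun y => pr f ((A.comp B) (bs y))) = fun y => pr g (B (bs y)) := by
    funext y
    rw [pr_eq_lift hM, pr_eq_lift hgM, ← hkey]
    rfl
  rw [h2]
  exact hB g _ hg hgM

theorem pr_add {f : T → ℝ} {M : ℝ} (hM : ∀ x, |f x| ≤ M) (v w : L1 T) :
    pr f (v + w) = pr f v + pr f w := by
  rw [pr_eq_lift hM, pr_eq_lift hM, pr_eq_lift hM, map_add]

theorem pr_sub {f : T → ℝ} {M : ℝ} (hM : ∀ x, |f x| ≤ M) (v w : L1 T) :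
    pr f (v - w) = pr f v - pr f w := by
  rw [pr_eq_lift hM, pr_eq_lift hM, pr_eq_lift hM, map_sub]

theorem WC.sub {A B : L1 T →L[ℝ] L1 T} (hA : WC A) (hB : WC B) : WC (A - B) := by
  intro f M hf hM
  have : (fun y => pr f ((A - B) (bs y))) = fun y => pr f (A (bs y)) - pr f (B (bs y)) := by
    funext y
    rw [ContinuousLinearMap.sub_apply, pr_sub hM]
  rw [this]
  exact (hA f M hf hM).sub (hB f M hf hM)

theorem WC.one : WC (ContinuousLinearMap.id ℝ (L1 T)) := by
  intro f M hf hM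
  have : (fun y => pr f ((ContinuousLinearMap.id ℝ (L1 T)) (bs y))) = f := by
    funext y
    rw [ContinuousLinearMap.id_apply, pr_bs]
  rw [this]
  exact hf

/-- Local and tight operators vanish. -/
theorem eq_zero_of {r : T → T → Prop}
    (hd : ∀ X : Finset T, Dense {y | ∀ x ∈ X, ¬ r y x})
    (hsep : ∀ (X : Finset T) (x : T), x ∉ X → ∃ f : T → ℝ, Continuous f ∧ (∀ u, |f u| ≤ 1) ∧
      f x = 1 ∧ ∀ u ∈ X, f u = 0)
    {A : L1 T →L[ℝ] L1 T} (hW : WC A) (hL : Loc r A) (hT : Tight A) : A = 0 := by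
  classical
  refine ext_bs fun y₀ => ?_
  rw [ContinuousLinearMap.zero_apply]
  apply lp.ext
  funext x₀
  rw [lp.coeFn_zero, Pi.zero_apply]
  by_contra hc
  set v := A (bs y₀) with hv
  set c := v x₀ with hcdef
  have hcpos : 0 < |c| := abs_pos.mpr hc
  obtain ⟨X₁, hX₁⟩ : ∃ X₁ : Finset T, ‖cut X₁ v‖ < |c| / 4 := by
    have h := (tendsto_cut v).norm
    rw [norm_zero] at h
    exact (h.eventually (gt_mem_nhds (by positivity : (0 : ℝ) < |c| / 4))).exists
  obtain ⟨f, hf, hf1, hfx, hfX⟩ := hsep (X₁.erase x₀) x₀ (Finset.notMem_erase _ _)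
  have hX₂ : ‖cut (insert x₀ X₁) v‖ < |c| / 4 := by
    rw [← cut_cut (Finset.subset_insert x₀ X₁)]
    exact (norm_cut_le _ _).trans_lt hX₁
  have h1 : pr f v = c + pr f (cut (insert x₀ X₁) v) := by
    have hs : v = (∑ x ∈ insert x₀ X₁, v x • (bs x : L1 T)) + cut (insert x₀ X₁) v := by
      rw [cut_apply]; abel
    conv_lhs => rw [hs]
    rw [pr_add hf1]
    congr 1
    rw [pr_eq_lift hf1, map_sum, Finset.sum_eq_single x₀]
    · rw [map_smul, lift_bs, hfx, smul_eq_mul, mul_one]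
    · intro u hu hux
      rw [map_smul, lift_bs, hfX u (Finset.mem_erase.mpr ⟨hux, (Finset.mem_insert.mp hu).resolve_left hux⟩),
        smul_zero]
    · intro h; exact absurd (Finset.mem_insert_self _ _) h
  have h2 : |c| / 2 < |pr f v| := by
    rw [h1]
    have h3 := abs_pr_le zero_le_one hf1 (cut (insert x₀ X₁) v)
    have h4 : |c| ≤ |c + pr f (cut (insert x₀ X₁) v)| + |pr f (cut (insert x₀ X₁) v)| := by
      have := abs_sub (c + pr f (cut (insert x₀ X₁) v)) (pr f (cut (insert x₀ X₁) v))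
      rwa [add_sub_cancel_right] at this
    linarith
  have hopen : IsOpen {y | |c| / 2 < |pr f (A (bs y))|} :=
    isOpen_lt continuous_const (hW f 1 hf hf1).abs
  obtain ⟨X, hX⟩ := hT (|c| / 4) (by positivity)
  obtain ⟨y, hy, hyX⟩ := (hd X).inter_open_nonempty _ hopen ⟨y₀, h2⟩
  have h5 : cut X (A (bs y)) = A (bs y) := cut_eq_self fun x hx => hL y x (hyX x hx)
  have h6 := hX y
  rw [h5] at h6
  have h7 := abs_pr_le zero_le_one hf1 (A (bs y))
  have h8 : |c| / 2 < |pr f (A (bs y))| := hy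
  linarith

end top

/-- A surjective finite-rank perturbation of the identity is injective. -/
theorem injective_of_finite_rank {V : Type} [AddCommGroup V] [Module ℝ V] (F : V →ₗ[ℝ] V)
    [FiniteDimensional ℝ (LinearMap.range F)]
    (hs : Function.Surjective ((LinearMap.id : V →ₗ[ℝ] V) + F)) :
    Function.Injective ((LinearMap.id : V →ₗ[ℝ] V) + F) := by
  let R := LinearMap.range F
  have hmap : ∀ v ∈ R, ((LinearMap.id : V →ₗ[ℝ] V) + F) v ∈ R := fun v hv =>
    R.add_mem hv (LinearMap.mem_range_self F v)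
  let G : R →ₗ[ℝ] R := ((LinearMap.id : V →ₗ[ℝ] V) + F).restrict hmap
  have hG : Function.Surjective G := by
    rintro ⟨r, hr⟩
    obtain ⟨v, hv⟩ := hs r
    have hvR : v ∈ R := by
      have : v = r - F v := by
        rw [← hv]; simp
      rw [this]
      exact R.sub_mem hr (LinearMap.mem_range_self F v)
    exact ⟨⟨v, hvR⟩, Subtype.ext hv⟩
  have hGi : Function.Injective G := LinearMap.injective_iff_surjective.mpr hG
  rw [← LinearMap.ker_eq_bot, LinearMap.ker_eq_bot']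
  intro v hv
  have hvR : v ∈ R := by
    have h1 : v + F v = 0 := hv
    have : v = -F v := eq_neg_of_add_eq_zero_left h1
    rw [this]
    exact R.neg_mem (LinearMap.mem_range_self F v)
  have : G ⟨v, hvR⟩ = 0 := Subtype.ext hv
  have h2 := (map_eq_zero_iff G hGi).mp this
  exact congrArg Subtype.val h2

/-- The index argument. -/
theorem index_zero {a b k : L1 T →L[ℝ] L1 T} (hab : a.comp b = ContinuousLinearMap.id ℝ (L1 T))
    (hba : b.comp a = ContinuousLinearMap.id ℝ (L1 T)) (hk : Tight k)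
    (hs : Function.Surjective (a + k)) : Function.Injective (a + k) := by
  classical
  by_cases hT : Nonempty T
  swap
  · haveI : IsEmpty T := not_nonempty_iff.mp hT
    intro x y _
    rw [lp.eq_zero' x, lp.eq_zero' y]
  let au : (L1 T →L[ℝ] L1 T)ˣ := ⟨a, b, hab, hba⟩
  haveI : Nontrivial (L1 T) := by
    refine ⟨⟨bs (Classical.arbitrary T), 0, fun h => ?_⟩⟩
    have := norm_bs (Classical.arbitrary T)
    rw [h, norm_zero] at this
    exact zero_ne_one this
  have hpos : 0 < ‖(↑au⁻¹ : L1 T →L[ℝ] L1 T)‖⁻¹ := by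
    refine inv_pos.mpr (norm_pos_iff.mpr (Units.ne_zero _))
  obtain ⟨X, hX⟩ := hk.norm (‖(↑au⁻¹ : L1 T →L[ℝ] L1 T)‖⁻¹ / 2) (by positivity)
  let u : (L1 T →L[ℝ] L1 T)ˣ := au.add ((cut X).comp k) (by linarith)
  have hu : (u : L1 T →L[ℝ] L1 T) = a + (cut X).comp k := rfl
  -- the finite rank part
  let P : L1 T →L[ℝ] L1 T := k - (cut X).comp k
  have hP : ∀ v, P v = ∑ x ∈ X, (k v) x • (bs x : L1 T) := by
    intro v
    change k v - cut X (k v) = _
    rw [cut_apply]; abel
  let F : L1 T →L[ℝ] L1 T := (↑u⁻¹ : L1 T →L[ℝ] L1 T).comp P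
  have hfin : FiniteDimensional ℝ (LinearMap.range (F : L1 T →ₗ[ℝ] L1 T)) := by
    have hle : LinearMap.range (F : L1 T →ₗ[ℝ] L1 T) ≤
        Submodule.span ℝ ((X.image fun x => (↑u⁻¹ : L1 T →L[ℝ] L1 T) (bs x) : Finset (L1 T)) :
          Set (L1 T)) := by
      rintro _ ⟨v, rfl⟩
      change (↑u⁻¹ : L1 T →L[ℝ] L1 T) (P v) ∈ _
      rw [hP, map_sum]
      refine Submodule.sum_mem _ fun x hx => ?_
      rw [map_smul]
      exact Submodule.smul_mem _ _ (Submodule.subset_span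
        (Finset.mem_coe.mpr (Finset.mem_image_of_mem _ hx)))
    haveI := FiniteDimensional.span_finset ℝ
      (X.image fun x => (↑u⁻¹ : L1 T →L[ℝ] L1 T) (bs x))
    exact Submodule.finiteDimensional_of_le hle
  have hfact : ∀ v, (a + k) v =
      (u : L1 T →L[ℝ] L1 T) (((LinearMap.id : L1 T →ₗ[ℝ] L1 T) + (F : L1 T →ₗ[ℝ] L1 T)) v) := by
    intro v
    have h1 : (u : L1 T →L[ℝ] L1 T) ((↑u⁻¹ : L1 T →L[ℝ] L1 T) (P v)) = P v := by
      have := congrArg (fun A : L1 T →L[ℝ] L1 T => A (P v)) u.mul_inv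
      exact this
    change a v + k v = (u : L1 T →L[ℝ] L1 T) (v + (↑u⁻¹ : L1 T →L[ℝ] L1 T) (P v))
    rw [map_add, h1, hu]
    change a v + k v = (a v + cut X (k v)) + (k v - cut X (k v))
    abel
  have hinv : ∀ w, (↑u⁻¹ : L1 T →L[ℝ] L1 T) ((u : L1 T →L[ℝ] L1 T) w) = w := fun w =>
    congrArg (fun A : L1 T →L[ℝ] L1 T => A w) u.inv_mul
  have hs' : Function.Surjective ((LinearMap.id : L1 T →ₗ[ℝ] L1 T) + (F : L1 T →ₗ[ℝ] L1 T)) := by
    intro w
    obtain ⟨v, hv⟩ := hs ((u : L1 T →L[ℝ] L1 T) w)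
    refine ⟨v, ?_⟩
    rw [hfact] at hv
    have := congrArg (fun t => (↑u⁻¹ : L1 T →L[ℝ] L1 T) t) hv
    simp only [hinv] at this
    exact this
  have hi := injective_of_finite_rank (F : L1 T →ₗ[ℝ] L1 T) hs'
  intro v w hvw
  rw [hfact, hfact] at hvw
  have := congrArg (fun t => (↑u⁻¹ : L1 T →L[ℝ] L1 T) t) hvw
  simp only [hinv] at this
  exact hi this

end Pool.Agent.Helper538.Cp
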