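import Pool.Agent.Helper538.CpF
import Pool.Agent.Helper538.CpG

set_option autoImplicit false

namespace Pool.Agent.Helper538.Cp

open Set Function Topology Filter

section fs

variable {T : Type}

/-- Finitely supported vectors. -/
noncomputable def toL1 (T : Type) : (T →₀ ℝ) →ₗ[ℝ] L1 T :=
  Finsupp.linearCombination ℝ (bs : T → L1 T)

theorem toL1_single (y : T) : toL1 T (Finsupp.single y 1) = bs y := by
  unfold toL1
  rw [Finsupp.linearCombination_single, one_smul]

theorem toL1_apply (κ : T →₀ ℝ) (x : T) : (toL1 T κ) x = κ x := by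
  classical
  unfold toL1
  rw [Finsupp.linearCombination_apply, Finsupp.sum, coe_sum_bs]
  rw [Finset.sum_eq_single x]
  · rw [bs_self, mul_one]
  · intro u _ hux
    rw [bs_ne hux.symm, mul_zero]
  · intro h
    rw [Finsupp.notMem_support_iff.mp h, zero_mul]

theorem pr_toL1 (f : T → ℝ) (κ : T →₀ ℝ) :
    pr f (toL1 T κ) = Finsupp.linearCombination ℝ f κ := by
  unfold pr
  rw [tsum_eq_sum (s := κ.support), Finsupp.linearCombination_apply, Finsupp.sum]
  · refine Finset.sum_congr rfl fun x _ => ?_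
    rw [toL1_apply, smul_eq_mul]
  · intro x hx
    rw [toL1_apply, Finsupp.notMem_support_iff.mp hx, zero_mul]

theorem norm_toL1 (κ : T →₀ ℝ) : ‖toL1 T κ‖ = ∑ x ∈ κ.support, |κ x| := by
  rw [norm_eq, tsum_eq_sum (s := κ.support)]
  · refine Finset.sum_congr rfl fun x _ => ?_
    rw [toL1_apply]
  · intro x hx
    rw [toL1_apply, Finsupp.notMem_support_iff.mp hx, abs_zero]

theorem toL1_injective : Function.Injective (toL1 T) := by
  intro κ κ' h
  ext x
  rw [← toL1_apply, h, toL1_apply]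

theorem lift_toL1 (μ : T → T →₀ ℝ) (C : ℝ) (hC : ∀ y, ‖toL1 T (μ y)‖ ≤ C) (κ : T →₀ ℝ) :
    lift (fun y => toL1 T (μ y)) C hC (toL1 T κ) =
      toL1 T (Finsupp.linearCombination ℝ μ κ) := by
  have h1 : lift (fun y => toL1 T (μ y)) C hC (toL1 T κ) =
      Finsupp.linearCombination ℝ (fun y => toL1 T (μ y)) κ := by
    change lift (fun y => toL1 T (μ y)) C hC (Finsupp.linearCombination ℝ (bs : T → L1 T) κ) = _
    rw [Finsupp.linearCombination_apply, Finsupp.linearCombination_apply, Finsupp.sum, Finsupp.sum,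
      map_sum]
    refine Finset.sum_congr rfl fun x _ => ?_
    rw [map_smul, lift_bs]
  rw [h1, Finsupp.linearCombination_apply, Finsupp.linearCombination_apply, Finsupp.sum,
    Finsupp.sum, map_sum]
  refine Finset.sum_congr rfl fun x _ => ?_
  rw [map_smul]

end fs

theorem sum_abs_le_mass {E : Type} (μ : E →₀ ℝ) (B : Finset E) {W : Set E} (h : (B : Set E) ⊆ W) :
    ∑ x ∈ B, |μ x| ≤ mass μ W := by
  classical
  have h1 : ∑ x ∈ B, |μ x| = ∑ x ∈ B.filter (· ∈ μ.support), |μ x| := by
    refine (Finset.sum_filter_of_ne fun x _ hx => ?_).symm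
    rw [Finsupp.mem_support_iff]
    intro h0
    rw [h0, abs_zero] at hx
    exact hx rfl
  rw [h1]
  unfold mass
  have h2 : ∑ x ∈ B.filter (· ∈ μ.support), |μ x| =
      ∑ x ∈ B.filter (· ∈ μ.support), W.indicator (fun x => |μ x|) x := by
    refine Finset.sum_congr rfl fun x hx => ?_
    rw [Set.indicator_of_mem (h (Finset.mem_coe.mpr (Finset.mem_filter.mp hx).1))]
  rw [h2]
  refine Finset.sum_le_sum_of_subset_of_nonneg ?_ fun x _ _ =>
    Set.indicator_nonneg (fun _ _ => abs_nonneg _) _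
  intro x hx
  exact (Finset.mem_filter.mp hx).2

variable {E : Type} [TopologicalSpace E]

open Classical in
/-- A family of measures on a subset, seen in the space. -/
noncomputable def up (Y : Set E) (M : Y → (Y →₀ ℝ)) (y : E) : E →₀ ℝ :=
  if h : y ∈ Y then (M ⟨y, h⟩).mapDomain Subtype.val else 0

theorem up_eq {Y : Set E} (M : Y → (Y →₀ ℝ)) (y : Y) :
    up Y M y = (M y).mapDomain Subtype.val := by
  unfold up
  rw [dif_pos y.2]

theorem up_apply {Y : Set E} (M : Y → (Y →₀ ℝ)) (y x : Y) : up Y M y x = M y x := by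
  rw [up_eq, Finsupp.mapDomain_apply Subtype.val_injective]

theorem ker_up {Y : Set E} {M : Y → (Y →₀ ℝ)} {C : ℝ}
    (hC : ∀ y, ‖toL1 Y (M y)‖ ≤ C)
    (hW : ∀ (f : Y → ℝ) (N : ℝ), Continuous f → (∀ x, |f x| ≤ N) →
      Continuous fun y => Finsupp.linearCombination ℝ f (M y)) : Ker Y (up Y M) C := by
  classical
  have hsupp : ∀ y : Y, (up Y M y).support = (M y).support.image Subtype.val := fun y => by
    rw [up_eq, Finsupp.mapDomain_support_of_injective Subtype.val_injective]
  refine ⟨?_, ?_, ?_⟩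
  · intro y hy x hx
    rw [Finset.mem_coe, hsupp ⟨y, hy⟩] at hx
    obtain ⟨u, -, rfl⟩ := Finset.mem_image.mp hx
    exact u.2
  · intro y hy
    refine le_trans (le_of_eq ?_) (hC ⟨y, hy⟩)
    rw [norm_toL1]
    unfold mass
    rw [hsupp ⟨y, hy⟩, Finset.sum_image fun _ _ _ _ h => Subtype.val_injective h]
    refine Finset.sum_congr rfl fun x _ => ?_
    rw [Set.indicator_univ]
    exact congrArg _ (up_apply M ⟨y, hy⟩ x)
  · intro V hV
    rw [continuousOn_iff_continuous_restrict]
    have hf : Continuous (fun x : Y => V.indicator (fun _ => (1 : ℝ)) (x : E)) := by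
      have h0 : Continuous (V.indicator (fun _ : E => (1 : ℝ))) :=
        Continuous.indicator (by simp [hV.frontier_eq]) continuous_const
      exact h0.comp continuous_subtype_val
    have h1 := hW _ 1 hf (fun x => by
      by_cases h : (x : E) ∈ V
      · rw [Set.indicator_of_mem h]; simp
      · rw [Set.indicator_of_notMem h]; simp)
    refine h1.congr fun y => ?_
    rw [Set.restrict_apply, Finsupp.linearCombination_apply, Finsupp.sum]
    unfold val
    rw [hsupp y, Finset.sum_image fun _ _ _ _ h => Subtype.val_injective h]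
    refine Finset.sum_congr rfl fun x _ => ?_
    by_cases h : (x : E) ∈ V
    · rw [Set.indicator_of_mem h, Set.indicator_of_mem h, smul_eq_mul, mul_one, up_apply]
    · rw [Set.indicator_of_notMem h, Set.indicator_of_notMem h, smul_zero]

variable [CompactSpace E] [T2Space E] [ExtremallyDisconnected E]

/-- Every bounded continuous family splits as local plus tight. -/
theorem GoodSet.decomp {S : Sys E} {Y : Set E} (hY : GoodSet S Y) {M : Y → (Y →₀ ℝ)} {C : ℝ}
    (hC : ∀ y, ‖toL1 Y (M y)‖ ≤ C)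
    (hW : ∀ (f : Y → ℝ) (N : ℝ), Continuous f → (∀ x, |f x| ≤ N) →
      Continuous fun y => Finsupp.linearCombination ℝ f (M y)) :
    ∃ a k : L1 Y →L[ℝ] L1 Y, WC a ∧ Loc (fun y x : Y => S.rel y x) a ∧ Tight k ∧
      lift (fun y => toL1 Y (M y)) C hC = a + k := by
  classical
  have hm : Ker Y (up Y M) C := ker_up hC hW
  have hb : ∀ x : Y, ∃ b : E → ℝ, Continuous b ∧ ∀ y ∈ Y \ orb S x, b y = up Y M y x := by
    intro x
    refine exists_extension (hY.dense_orb x) _ (hY.cont_coeff hm x) C ?_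
    rintro y ⟨hy, -⟩
    have h := sum_abs_le_mass (up Y M y) {(x : E)} (Set.subset_univ _)
    rw [Finset.sum_singleton] at h
    exact h.trans (hm.bdd y hy)
  choose b hbc hbe using hb
  have claim : ∀ (A : Finset Y) (R : ℝ), (∀ y ∈ Y, (∀ x ∈ A, ¬ S.rel x y) →
      ∑ x ∈ A, |up Y M y x| ≤ R) → ∀ e, ∑ x ∈ A, |b x e| ≤ R := by
    intro A R hA e
    have hcl : IsClosed {e | ∑ x ∈ A, |b x e| ≤ R} :=
      isClosed_le (continuous_finset_sum _ fun x _ => (hbc x).abs) continuous_const
    have hdense := hY.dense_diff (Subtype.val '' (A : Set Y)) (A.finite_toSet.image _).countable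
    have hsub : (Y \ {w | ∃ a ∈ Subtype.val '' (A : Set Y), S.rel a w}) ⊆
        {e | ∑ x ∈ A, |b x e| ≤ R} := by
      rintro y ⟨hy, hyA⟩
      have hyA' : ∀ x ∈ A, ¬ S.rel x y := fun x hx h => hyA ⟨x, ⟨x, hx, rfl⟩, h⟩
      refine le_trans (le_of_eq ?_) (hA y hy hyA')
      refine Finset.sum_congr rfl fun x hx => ?_
      rw [hbe x y ⟨hy, hyA' x hx⟩]
    have h1 := closure_minimal hsub hcl
    rw [hdense.closure_eq] at h1
    exact h1 (Set.mem_univ e)
  have hmapsum : ∀ (A : Finset Y) (y : E), ∑ x ∈ A, |up Y M y x| =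
      ∑ u ∈ A.image Subtype.val, |up Y M y u| := by
    intro A y
    rw [Finset.sum_image fun _ _ _ _ h => Subtype.val_injective h]
  have c1 : ∀ (A : Finset Y) (e : E), ∑ x ∈ A, |b x e| ≤ C := by
    intro A e
    refine claim A C (fun y hy _ => ?_) e
    rw [hmapsum]
    exact (sum_abs_le_mass _ _ (Set.subset_univ _)).trans (hm.bdd y hy)
  have c2 : ∀ η > 0, ∃ X : Finset Y, ∀ A : Finset Y, Disjoint A X → ∀ e, ∑ x ∈ A, |b x e| ≤ η := by
    intro η hη
    obtain ⟨X₀, -, hX₀⟩ := hY.tight hm η hη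
    refine ⟨X₀.subtype (· ∈ Y), fun A hA e => ?_⟩
    refine claim A η (fun y hy hyA => ?_) e
    rw [hmapsum]
    refine (sum_abs_le_mass _ _ ?_).trans (hX₀ y hy)
    intro u hu
    obtain ⟨x, hx, rfl⟩ := Finset.mem_image.mp (Finset.mem_coe.mp hu)
    simp only [Set.mem_compl_iff, Set.mem_union, not_or, Finset.mem_coe]
    refine ⟨fun h => Finset.disjoint_left.mp hA hx (Finset.mem_subtype.mpr h), fun h => ?_⟩
    exact hyA x hx (S.rel_symm h)
  -- the tight part
  have hmem : ∀ y : Y, Memℓp (fun x : Y => b x y) 1 := by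
    intro y
    refine memℓp_gen' (C := C) fun A => ?_
    simp only [Real.norm_eq_abs, ENNReal.toReal_one, Real.rpow_one]
    exact c1 A y
  let kk : Y → L1 Y := fun y => ⟨fun x => b x y, hmem y⟩
  have hkk : ∀ y x, kk y x = b x y := fun y x => rfl
  have hkC : ∀ y, ‖kk y‖ ≤ C := by
    intro y
    rw [norm_eq]
    exact (summable_abs (kk y)).tsum_le_of_sum_le fun A => c1 A y
  have hcut : ∀ η > 0, ∃ X : Finset Y, ∀ y, ‖cut X (kk y)‖ ≤ η := by
    intro η hη
    obtain ⟨X, hX⟩ := c2 η hη
    refine ⟨X, fun y => ?_⟩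
    rw [norm_eq]
    refine (summable_abs _).tsum_le_of_sum_le fun A => ?_
    refine le_trans (le_of_eq ?_) (hX (A \ X) Finset.sdiff_disjoint y)
    rw [← Finset.sum_sdiff (Finset.inter_subset_left (s₁ := A) (s₂ := X)),
      Finset.sdiff_inter_self_left]
    rw [Finset.sum_eq_zero (s := A ∩ X), add_zero]
    · refine Finset.sum_congr rfl fun x hx => ?_
      rw [cut_notMem (Finset.mem_sdiff.mp hx).2]
    · intro x hx
      rw [cut_mem (Finset.mem_inter.mp hx).2, abs_zero]
  let k : L1 Y →L[ℝ] L1 Y := lift kk C hkC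
  have hk : ∀ y, k (bs y) = kk y := fun y => lift_bs _ _ _ _
  have hkT : Tight k := by
    intro η hη
    obtain ⟨X, hX⟩ := hcut η hη
    exact ⟨X, fun y => by rw [hk]; exact hX y⟩
  have hkW : WC k := by
    intro f N hf hN
    have e1 : (fun y => pr f (k (bs y))) = fun y => pr f (kk y) := by
      funext y; rw [hk]
    rw [e1]
    refine continuous_of_uniform_approx_of_continuous fun u hu => ?_
    obtain ⟨ε, hε, hεu⟩ := Metric.mem_uniformity_dist.mp hu
    obtain ⟨X, hX⟩ := hcut (ε / 2 / (|N| + 1)) (by positivity)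
    refine ⟨fun y => ∑ x ∈ X, b x y * f x, ?_, fun y => hεu ?_⟩
    · exact continuous_finset_sum _ fun x _ =>
        ((hbc x).comp continuous_subtype_val).mul continuous_const
    · rw [Real.dist_eq]
      have hN' : ∀ x, |f x| ≤ |N| := fun x => (hN x).trans (le_abs_self N)
      have h1 : pr f (kk y) - ∑ x ∈ X, b x y * f x = pr f (cut X (kk y)) := by
        rw [cut_apply, pr_sub hN]
        congr 1
        rw [pr_eq_lift hN, map_sum]
        refine Finset.sum_congr rfl fun x _ => ?_
        rw [map_smul, lift_bs, smul_eq_mul, hkk]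
      rw [h1]
      refine (abs_pr_le (abs_nonneg N) hN' _).trans_lt ?_
      calc |N| * ‖cut X (kk y)‖ ≤ (|N| + 1) * (ε / 2 / (|N| + 1)) :=
            mul_le_mul (by linarith) (hX y) (norm_nonneg _) (by positivity)
        _ = ε / 2 := by field_simp
        _ < ε := by linarith
  have hτ : ∀ y, lift (fun y => toL1 Y (M y)) C hC (bs y) = toL1 Y (M y) := fun y => lift_bs _ _ _ _
  have hτW : WC (lift (fun y => toL1 Y (M y)) C hC) := by
    intro f N hf hN
    refine (hW f N hf hN).congr fun y => ?_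
    rw [hτ, pr_toL1]
  refine ⟨lift (fun y => toL1 Y (M y)) C hC - k, k, hτW.sub hkW, ?_, hkT, by abel⟩
  intro y x hyx
  rw [ContinuousLinearMap.sub_apply, lp.coeFn_sub, Pi.sub_apply, hτ, hk, hkk, toL1_apply,
    hbe x y ⟨y.2, fun h => hyx (S.rel_symm h)⟩, up_apply, sub_self]

end Pool.Agent.Helper538.Cp
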