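import Pool.Agent.Helper538.CpH

set_option autoImplicit false

namespace Pool.Agent.Helper538.Cp

open Set Function Topology Filter

variable {E : Type} [TopologicalSpace E]

theorem GoodSet.dense_sub {S : Sys E} {Y : Set E} (hY : GoodSet S Y) (X : Finset Y) :
    Dense {y : Y | ∀ x ∈ X, ¬ S.rel y x} := by
  rw [dense_iff_inter_open]
  rintro O hO ⟨o, ho⟩
  obtain ⟨O', hO', rfl⟩ := isOpen_induced_iff.mp hO
  have hd := hY.dense_diff (Subtype.val '' (X : Set Y)) (X.finite_toSet.image _).countable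
  obtain ⟨e, he, heY, hex⟩ := hd.inter_open_nonempty O' hO' ⟨o, ho⟩
  refine ⟨⟨e, heY⟩, he, ?_⟩
  intro x hx h
  exact hex ⟨x, ⟨x, hx, rfl⟩, S.rel_symm h⟩

variable [CompactSpace E] [T2Space E] [ExtremallyDisconnected E]

theorem exists_sep_fun (Y : Set E) (P N : Finset Y) (h : Disjoint P N) :
    ∃ f : Y → ℝ, Continuous f ∧ (∀ u, |f u| ≤ 1) ∧ (∀ u ∈ P, f u = 1) ∧ ∀ u ∈ N, f u = -1 := by
  classical
  have hd : Disjoint (P.image Subtype.val) (N.image Subtype.val) := by
    rw [Finset.disjoint_image Subtype.val_injective]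
    exact h
  obtain ⟨V, hV, hPV, hVN⟩ := exists_clopen_avoid (P.image Subtype.val) (N.image Subtype.val) hd
  have h0 : Continuous (V.indicator (fun _ : E => (1 : ℝ))) :=
    Continuous.indicator (by simp [hV.frontier_eq]) continuous_const
  refine ⟨fun u => 2 * V.indicator (fun _ : E => (1 : ℝ)) u - 1,
    (continuous_const.mul (h0.comp continuous_subtype_val)).sub continuous_const, ?_, ?_, ?_⟩
  · intro u
    beta_reduce
    by_cases hu : (u : E) ∈ V
    · rw [Set.indicator_of_mem hu]; norm_num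
    · rw [Set.indicator_of_notMem hu]; norm_num
  · intro u hu
    have : (u : E) ∈ V := hPV (Finset.mem_coe.mpr (Finset.mem_image_of_mem _ hu))
    beta_reduce
    rw [Set.indicator_of_mem this]; norm_num
  · intro u hu
    have : (u : E) ∉ V := fun hV' => Set.disjoint_left.mp hVN hV'
      (Finset.mem_coe.mpr (Finset.mem_image_of_mem _ hu))
    beta_reduce
    rw [Set.indicator_of_notMem this]; norm_num

/-- There is no invertible system of kernels with a one-dimensional defect. -/
theorem GoodSet.no_iso {S : Sys E} {Y : Set E} (hY : GoodSet S Y)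
    (hsep : ∀ (X : Finset Y) (x : Y), x ∉ X → ∃ f : Y → ℝ, Continuous f ∧ (∀ u, |f u| ≤ 1) ∧
      f x = 1 ∧ ∀ u ∈ X, f u = 0)
    (μ ρ : Y → (Y →₀ ℝ)) (ν : Y → ℝ) (w : Y →₀ ℝ) (C : ℝ)
    (hμ : ∀ y, ‖toL1 Y (μ y)‖ ≤ C) (hρ : ∀ y, ‖toL1 Y (ρ y)‖ ≤ C)
    (hμW : ∀ (f : Y → ℝ) (N : ℝ), Continuous f → (∀ x, |f x| ≤ N) →
      Continuous fun y => Finsupp.linearCombination ℝ f (μ y))
    (hρW : ∀ (f : Y → ℝ) (N : ℝ), Continuous f → (∀ x, |f x| ≤ N) →
      Continuous fun y => Finsupp.linearCombination ℝ f (ρ y))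
    (h1 : ∀ y, Finsupp.linearCombination ℝ ρ (μ y) + ν y • w = Finsupp.single y 1)
    (h2 : ∀ y, Finsupp.linearCombination ℝ μ (ρ y) = Finsupp.single y 1)
    (h3 : Finsupp.linearCombination ℝ μ w = 0) (h4 : w ≠ 0) : False := by
  classical
  obtain ⟨a, k, haW, haL, hkT, hτ⟩ := hY.decomp hμ hμW
  obtain ⟨b, l, hbW, hbL, hlT, hσ⟩ := hY.decomp hρ hρW
  have e1 : (a + k).comp (b + l) = ContinuousLinearMap.id ℝ (L1 Y) := by
    refine ext_bs fun y => ?_
    rw [← hτ, ← hσ, ContinuousLinearMap.comp_apply, lift_bs, lift_toL1, h2, toL1_single,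
      ContinuousLinearMap.id_apply]
  have e2 : ∀ y, (b + l) ((a + k) (bs y)) = bs y - ν y • toL1 Y w := by
    intro y
    rw [← hτ, ← hσ, lift_bs, lift_toL1]
    have : Finsupp.linearCombination ℝ ρ (μ y) = Finsupp.single y 1 - ν y • w := by
      rw [← h1 y]; abel
    rw [this, map_sub, toL1_single, map_smul]
  have rt : ∀ x y z : Y, S.rel x y → S.rel y z → S.rel x z := fun x y z h h' => S.rel_trans h h'
  have rr : ∀ x : Y, S.rel x x := fun x => S.rel_refl x
  have hab : a.comp b = ContinuousLinearMap.id ℝ (L1 Y) := by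
    have hz : a.comp b - ContinuousLinearMap.id ℝ (L1 Y) = 0 := by
      refine eq_zero_of (r := fun y x : Y => S.rel y x) hY.dense_sub hsep
        ((haW.comp hbW).sub WC.one) ((Loc.comp rt haL hbL).sub (Loc.one rr)) ?_
      have : a.comp b - ContinuousLinearMap.id ℝ (L1 Y) =
          -(a.comp l + k.comp b + k.comp l) := by
        rw [← e1, ContinuousLinearMap.add_comp, ContinuousLinearMap.comp_add,
          ContinuousLinearMap.comp_add]
        abel
      rw [this]
      exact (((hlT.comp_left a).add (hkT.comp_right b)).add (hkT.comp_right l)).neg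
    exact sub_eq_zero.mp hz
  have hP : Tight ((b + l).comp (a + k) - ContinuousLinearMap.id ℝ (L1 Y)) := by
    intro η hη
    refine ⟨w.support, fun y => ?_⟩
    have h5 : ((b + l).comp (a + k) - ContinuousLinearMap.id ℝ (L1 Y)) (bs y) =
        -(ν y • toL1 Y w) := by
      rw [ContinuousLinearMap.sub_apply, ContinuousLinearMap.comp_apply, e2,
        ContinuousLinearMap.id_apply]
      abel
    have h6 : cut w.support (toL1 Y w) = 0 := by
      apply lp.ext
      funext x
      rw [lp.coeFn_zero, Pi.zero_apply]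
      by_cases hx : x ∈ w.support
      · exact cut_mem hx _
      · rw [cut_notMem hx, toL1_apply]
        exact Finsupp.notMem_support_iff.mp hx
    rw [h5, map_neg, map_smul, h6, smul_zero, neg_zero, norm_zero]
    exact hη.le
  have hba : b.comp a = ContinuousLinearMap.id ℝ (L1 Y) := by
    have hz : b.comp a - ContinuousLinearMap.id ℝ (L1 Y) = 0 := by
      refine eq_zero_of (r := fun y x : Y => S.rel y x) hY.dense_sub hsep
        ((hbW.comp haW).sub WC.one) ((Loc.comp rt hbL haL).sub (Loc.one rr)) ?_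
      have : b.comp a - ContinuousLinearMap.id ℝ (L1 Y) =
          ((b + l).comp (a + k) - ContinuousLinearMap.id ℝ (L1 Y)) +
            -(b.comp k + l.comp a + l.comp k) := by
        rw [ContinuousLinearMap.add_comp, ContinuousLinearMap.comp_add,
          ContinuousLinearMap.comp_add]
        abel
      rw [this]
      exact hP.add (((hkT.comp_left b).add (hlT.comp_right a)).add (hlT.comp_right k)).neg
    exact sub_eq_zero.mp hz
  have hinj := index_zero hab hba hkT (fun v => ⟨(b + l) v, by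
    have := congrArg (fun A : L1 Y →L[ℝ] L1 Y => A v) e1
    exact this⟩)
  have h7 : (a + k) (toL1 Y w) = (a + k) 0 := by
    rw [← hτ, lift_toL1, h3, map_zero, map_zero]
  have h8 := hinj h7
  exact h4 (toL1_injective (by rw [h8, map_zero]))

end Pool.Agent.Helper538.Cp
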