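import Pool.Agent.Helper538.CpI

set_option autoImplicit false

namespace Pool.Agent.Helper538.Cp

open Set Function Topology Filter

section functional

variable {X : Type} [TopologicalSpace X]

theorem sep_of_sep (hsep : ∀ P N : Finset X, Disjoint P N → ∃ f : X → ℝ, Continuous f ∧
      (∀ u, |f u| ≤ 1) ∧ (∀ u ∈ P, f u = 1) ∧ ∀ u ∈ N, f u = -1) (A : Finset X) (x : X)
    (hx : x ∉ A) : ∃ f : X → ℝ, Continuous f ∧ (∀ u, |f u| ≤ 1) ∧ f x = 1 ∧ ∀ u ∈ A, f u = 0 := by
  obtain ⟨f, hf, hf1, hfP, hfN⟩ := hsep {x} A (Finset.disjoint_singleton_left.mpr hx)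
  refine ⟨fun u => (f u + 1) / 2, by fun_prop, ?_, ?_, ?_⟩
  · intro u
    have := abs_le.mp (hf1 u)
    rw [abs_le]
    constructor <;> linarith [this.1, this.2]
  · have := hfP x (Finset.mem_singleton_self x)
    simp only [this]; norm_num
  · intro u hu
    have := hfN u hu
    simp only [this]; norm_num

/-- Continuous functionals for the pointwise topology are finitely supported. -/
theorem exists_repr (hsep : ∀ (A : Finset X) (x : X), x ∉ A → ∃ f : X → ℝ, Continuous f ∧
      (∀ u, |f u| ≤ 1) ∧ f x = 1 ∧ ∀ u ∈ A, f u = 0)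
    (φ : (X → ℝ) → ℝ)
    (hlin : ∀ (a : ℝ) (f₁ f₂ : X → ℝ), Continuous f₁ → Continuous f₂ →
      φ (a • f₁ + f₂) = a * φ f₁ + φ f₂)
    (hc : ContinuousWithinAt φ {f | Continuous f} 0) :
    ∃ κ : X →₀ ℝ, ∀ f, Continuous f → φ f = Finsupp.linearCombination ℝ f κ := by
  classical
  have h0 : φ 0 = 0 := by
    have := hlin 1 0 0 continuous_zero continuous_zero
    rw [smul_zero, add_zero] at this
    linarith
  have hsm : ∀ (a : ℝ) (f : X → ℝ), Continuous f → φ (a • f) = a * φ f := by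
    intro a f hf
    have := hlin a f 0 hf continuous_zero
    rwa [add_zero, h0, add_zero] at this
  have hadd : ∀ (f g : X → ℝ), Continuous f → Continuous g → φ (f + g) = φ f + φ g := by
    intro f g hf hg
    have := hlin 1 f g hf hg
    rwa [one_smul, one_mul] at this
  -- a finite set determining the functional
  obtain ⟨I, hI⟩ : ∃ I : Finset X, ∀ f, Continuous f → (∀ x ∈ I, f x = 0) → φ f = 0 := by
    have h1 : {g | |φ g| < 1} ∈ 𝓝[{f | Continuous f}] (0 : X → ℝ) := by
      have h2 : Metric.ball (0 : ℝ) 1 ∈ 𝓝 (φ 0) := by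
        rw [h0]; exact Metric.ball_mem_nhds 0 one_pos
      refine mem_of_superset (hc h2) ?_
      intro g hg
      have h3 : φ g ∈ Metric.ball (0 : ℝ) 1 := hg
      rw [mem_ball_zero_iff, Real.norm_eq_abs] at h3
      exact h3
    obtain ⟨O, hO, h0O, hOs⟩ := mem_nhdsWithin.mp h1
    obtain ⟨I, u, hu, hIu⟩ := isOpen_pi_iff.mp hO 0 h0O
    refine ⟨I, fun f hf hfI => ?_⟩
    by_contra hne
    have hpos : 0 < |φ f| := abs_pos.mpr hne
    have h4 : ((2 / |φ f|) • f) ∈ O ∩ {f | Continuous f} := by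
      refine ⟨hIu ?_, hf.const_smul _⟩
      intro x hx
      have h5 : ((2 / |φ f|) • f) x = (0 : X → ℝ) x := by
        rw [Pi.smul_apply, hfI x hx, smul_zero, Pi.zero_apply]
      rw [h5]
      exact (hu x hx).2
    have h6 : |φ ((2 / |φ f|) • f)| < 1 := hOs h4
    rw [hsm _ _ hf, abs_mul, abs_of_pos (by positivity), div_mul_cancel₀ _ hpos.ne'] at h6
    norm_num at h6
  -- dual functions
  have hex : ∀ x : X, ∃ e : X → ℝ, Continuous e ∧ e x = 1 ∧ ∀ u ∈ I.erase x, e u = 0 := by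
    intro x
    obtain ⟨e, h1, -, h2, h3⟩ := hsep (I.erase x) x (Finset.notMem_erase _ _)
    exact ⟨e, h1, h2, h3⟩
  choose e he hex1 hex0 using hex
  have hsum : ∀ (c : X → ℝ) (J : Finset X), Continuous (∑ x ∈ J, c x • e x) ∧
      φ (∑ x ∈ J, c x • e x) = ∑ x ∈ J, c x * φ (e x) := by
    intro c J
    induction J using Finset.induction_on with
    | empty => exact ⟨by simpa using continuous_zero, by simp [h0]⟩
    | insert x J hx ih =>
      rw [Finset.sum_insert hx, Finset.sum_insert hx]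
      refine ⟨((he x).const_smul _).add ih.1, ?_⟩
      rw [hadd _ _ ((he x).const_smul _) ih.1, hsm _ _ (he x), ih.2]
  refine ⟨∑ x ∈ I, Finsupp.single x (φ (e x)), fun f hf => ?_⟩
  obtain ⟨hg, hφg⟩ := hsum f I
  have h7 : φ (f - ∑ x ∈ I, f x • e x) = 0 := by
    refine hI _ (hf.sub hg) fun x hx => ?_
    rw [Pi.sub_apply, Finset.sum_apply, Finset.sum_eq_single_of_mem x hx]
    · rw [Pi.smul_apply, hex1, smul_eq_mul, mul_one, sub_self]
    · intro u _ hux
      rw [Pi.smul_apply, hex0 u x (Finset.mem_erase.mpr ⟨hux.symm, hx⟩), smul_zero]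
  have h8 : φ f = φ (f - ∑ x ∈ I, f x • e x) + φ (∑ x ∈ I, f x • e x) := by
    rw [← hadd _ _ (hf.sub hg) hg, sub_add_cancel]
  rw [h8, h7, zero_add, hφg, map_sum]
  refine Finset.sum_congr rfl fun x _ => ?_
  rw [Finsupp.linearCombination_single, smul_eq_mul, mul_comm]

theorem lc_ext (hsep : ∀ (A : Finset X) (x : X), x ∉ A → ∃ f : X → ℝ, Continuous f ∧
      (∀ u, |f u| ≤ 1) ∧ f x = 1 ∧ ∀ u ∈ A, f u = 0) {κ κ' : X →₀ ℝ}
    (h : ∀ f : X → ℝ, Continuous f →
      Finsupp.linearCombination ℝ f κ = Finsupp.linearCombination ℝ f κ') : κ = κ' := by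
  classical
  rw [← sub_eq_zero]
  set δ := κ - κ' with hδ
  ext x
  rw [Finsupp.zero_apply]
  obtain ⟨f, hf, -, hfx, hfA⟩ := hsep (δ.support.erase x) x (Finset.notMem_erase _ _)
  have h1 : Finsupp.linearCombination ℝ f δ = 0 := by
    rw [hδ, map_sub, h f hf, sub_self]
  rw [Finsupp.linearCombination_apply, Finsupp.sum, Finset.sum_eq_single x] at h1
  · rwa [hfx, smul_eq_mul, mul_one] at h1
  · intro u hu hux
    rw [hfA u (Finset.mem_erase.mpr ⟨hux, hu⟩), smul_zero]
  · intro hx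
    rw [Finsupp.notMem_support_iff.mp hx, zero_smul]

/-- Pointwise bounded families of finitely supported measures are uniformly bounded. -/
theorem uniform_bound (hsep : ∀ P N : Finset X, Disjoint P N → ∃ f : X → ℝ, Continuous f ∧
      (∀ u, |f u| ≤ 1) ∧ (∀ u ∈ P, f u = 1) ∧ ∀ u ∈ N, f u = -1)
    {ι : Type} (κ : ι → X →₀ ℝ)
    (h : ∀ f : X → ℝ, Continuous f → ∃ B, ∀ i, |Finsupp.linearCombination ℝ f (κ i)| ≤ B) :
    ∃ C, ∀ i, ‖toL1 X (κ i)‖ ≤ C := by
  classical
  let g : ι → (BoundedContinuousFunction X ℝ →L[ℝ] ℝ) := fun i =>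
    ∑ x ∈ (κ i).support, (κ i x) • BoundedContinuousFunction.evalCLM ℝ x
  have hg : ∀ i (f : BoundedContinuousFunction X ℝ), g i f =
      Finsupp.linearCombination ℝ (f : X → ℝ) (κ i) := by
    intro i f
    rw [Finsupp.linearCombination_apply, Finsupp.sum]
    simp only [g, ContinuousLinearMap.sum_apply]
    rfl
  obtain ⟨C, hC⟩ := banach_steinhaus (g := g) (fun f => by
    obtain ⟨B, hB⟩ := h f f.continuous
    exact ⟨B, fun i => by rw [hg, Real.norm_eq_abs]; exact hB i⟩)
  refine ⟨C, fun i => ?_⟩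
  obtain ⟨f, hf, hf1, hfP, hfN⟩ := hsep ((κ i).support.filter fun x => 0 < κ i x)
    ((κ i).support.filter fun x => ¬ 0 < κ i x) (Finset.disjoint_filter_filter_not _ _ _)
  let F : BoundedContinuousFunction X ℝ :=
    BoundedContinuousFunction.ofNormedAddCommGroup f hf 1 (fun x => by
      rw [Real.norm_eq_abs]; exact hf1 x)
  have hF1 : ‖F‖ ≤ 1 := BoundedContinuousFunction.norm_ofNormedAddCommGroup_le _ zero_le_one _
  have h1 : g i F = ‖toL1 X (κ i)‖ := by
    rw [hg, norm_toL1, Finsupp.linearCombination_apply, Finsupp.sum]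
    refine Finset.sum_congr rfl fun x hx => ?_
    change κ i x • f x = |κ i x|
    by_cases hpos : 0 < κ i x
    · rw [hfP x (Finset.mem_filter.mpr ⟨hx, hpos⟩), smul_eq_mul, mul_one, abs_of_pos hpos]
    · rw [hfN x (Finset.mem_filter.mpr ⟨hx, hpos⟩), smul_eq_mul, abs_of_nonpos (not_lt.mp hpos)]
      ring
  have h2 := (g i).le_opNorm F
  rw [h1, Real.norm_eq_abs, abs_of_nonneg (norm_nonneg _)] at h2
  calc ‖toL1 X (κ i)‖ ≤ ‖g i‖ * ‖F‖ := h2
    _ ≤ ‖g i‖ * 1 := mul_le_mul_of_nonneg_left hF1 (ContinuousLinearMap.opNorm_nonneg _)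
    _ ≤ C := by rw [mul_one]; exact hC i

end functional

variable {E : Type} [TopologicalSpace E]

/-- Sequences in the set have limit points in the set. -/
theorem GoodSet.exists_limit {S : Sys E} {Y : Set E} (hY : GoodSet S Y) (y : ℕ → E)
    (hy : ∀ n, y n ∈ Y) (hinj : Function.Injective y) :
    ∃ z ∈ Y, ∃ p : Ultrafilter ℕ, (p : Filter ℕ) ≤ cofinite ∧ Tendsto y p (𝓝 z) := by
  classical
  have hinf : {v | v ∈ Y ∧ ∀ n, ¬ S.rel (y n) v}.Infinite := by
    intro hfin
    obtain ⟨v, hv, hva⟩ := hY.many (Set.range y ∪ {v | v ∈ Y ∧ ∀ n, ¬ S.rel (y n) v})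
      ((Set.countable_range y).union hfin.countable)
    exact hva v (Or.inr ⟨hv, fun n => hva _ (Or.inl ⟨n, rfl⟩)⟩) (S.rel_refl v)
  let emb := Set.Infinite.natEmbedding _ hinf
  let v : ℕ → E := fun n => (emb n).1
  have hv : ∀ n, v n ∈ Y ∧ ∀ m, ¬ S.rel (y m) (v n) := fun n => (emb n).2
  have hvi : Function.Injective v := Subtype.val_injective.comp emb.injective
  have hB : Bad S.γ y (fun n => Finsupp.single (v n) 1) (fun n => {v n}) 1 1 := by
    refine ⟨hinj, fun n => ?_, fun m n hmn => ?_, one_pos, fun n => ?_, fun i => ⟨0, fun n _ h => ?_⟩⟩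
    · rw [mass_single]; simp
    · rw [Finset.disjoint_singleton]
      exact fun h => hmn (hvi h)
    · rw [mass_single]; simp
    · rw [Finset.mem_singleton] at h
      exact (hv n).2 n (h ▸ S.rel_γ i (y n))
  obtain ⟨z, hz, p, hp, hpz, -⟩ := hY.kill y _ _ 1 1 hB hy (fun n x hx => by
    rw [Finsupp.support_single _ one_ne_zero] at hx
    simp only [Finset.coe_singleton, Set.mem_singleton_iff] at hx
    rw [hx]; exact (hv n).1) (fun n x hx => by
    simp only [Finset.coe_singleton, Set.mem_singleton_iff] at hx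
    rw [hx]; exact (hv n).1)
  exact ⟨z, hz, p, hp, hpz⟩

theorem GoodSet.pseudocompact {S : Sys E} {Y : Set E} (hY : GoodSet S Y) (f : Y → ℝ)
    (hf : Continuous f) : ∃ B, ∀ y, |f y| ≤ B := by
  classical
  by_contra hcon
  push Not at hcon
  choose q hq using hcon
  let st : ℕ → Y := fun n => Nat.rec (q 0) (fun n y => q (|f y| + 1)) n
  have hst : ∀ n, |f (st n)| + 1 < |f (st (n + 1))| := fun n => hq _
  have hmono : StrictMono fun n => |f (st n)| := strictMono_nat_of_lt_succ fun n => by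
    have := hst n; linarith
  have hn : ∀ n : ℕ, (n : ℝ) ≤ |f (st n)| := by
    intro n
    induction n with
    | zero => simp
    | succ n ih => have := hst n; push_cast; linarith
  have hsti : Function.Injective (fun n => (st n).1) := fun a b h => hmono.injective (by
    have : st a = st b := Subtype.ext h
    simp only [this])
  obtain ⟨z, hz, p, hp, hpz⟩ := hY.exists_limit (fun n => (st n).1) (fun n => (st n).2) hsti
  have h1 : Tendsto st p (𝓝 (⟨z, hz⟩ : Y)) := by
    rw [tendsto_subtype_rng]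
    exact hpz
  have h2 : Tendsto (fun n => |f (st n)|) p (𝓝 |f ⟨z, hz⟩|) := (hf.abs.tendsto _).comp h1
  have h3 : Tendsto (fun n => |f (st n)|) p atTop := by
    refine tendsto_atTop_mono hn ?_
    refine tendsto_natCast_atTop_atTop.mono_left ?_
    rw [← Nat.cofinite_eq_atTop]
    exact hp
  exact not_tendsto_nhds_of_tendsto_atTop h3 _ h2

end Pool.Agent.Helper538.Cp
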