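import Pool.Agent.Helper538.CpJ

set_option autoImplicit false

namespace Pool.Agent.Helper538.Cp

open Set Function Topology Filter Cardinal

variable {E : Type} [TopologicalSpace E]

theorem GoodSet.no_map [CompactSpace E] [T2Space E] [ExtremallyDisconnected E]
    {S : Sys E} {Y : Set E} (hY : GoodSet S Y)
    (T : (Y → ℝ) × ℝ → (Y → ℝ)) (R : (Y → ℝ) → (Y → ℝ) × ℝ)
    (hT : ∀ p : (Y → ℝ) × ℝ, Continuous p.1 → Continuous (T p))
    (hR : ∀ g : Y → ℝ, Continuous g → Continuous (R g).1)
    (hRT : ∀ p : (Y → ℝ) × ℝ, Continuous p.1 → R (T p) = p)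
    (hTR : ∀ g : Y → ℝ, Continuous g → T (R g) = g)
    (hlin : ∀ (a : ℝ) (p q : (Y → ℝ) × ℝ), Continuous p.1 → Continuous q.1 →
        T (a • p + q) = a • T p + T q)
    (hTc : ContinuousOn T {p : (Y → ℝ) × ℝ | Continuous p.1})
    (hRc : ContinuousOn R {g : Y → ℝ | Continuous g}) : False := by
  classical
  have hsep2 := exists_sep_fun Y
  have hsep := sep_of_sep hsep2
  have hRlin : ∀ (a : ℝ) (f g : Y → ℝ), Continuous f → Continuous g →
      R (a • f + g) = a • R f + R g := by
    intro a f g hf hg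
    have h1 : T (a • R f + R g) = a • f + g := by
      rw [hlin a _ _ (hR f hf) (hR g hg), hTR f hf, hTR g hg]
    rw [← h1]
    refine hRT _ ?_
    exact ((hR f hf).const_smul a).add (hR g hg)
  have hμ : ∀ y : Y, ∃ κ : Y →₀ ℝ, ∀ f, Continuous f →
      T (f, 0) y = Finsupp.linearCombination ℝ f κ := by
    intro y
    refine exists_repr hsep (fun f => T (f, 0) y) ?_ ?_
    · intro a f g hf hg
      have h1 := hlin a (f, 0) (g, 0) hf hg
      have e : (a • ((f, 0) : (Y → ℝ) × ℝ) + (g, 0)) = (a • f + g, 0) := by simp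
      rw [e] at h1
      change T (a • f + g, 0) y = _
      rw [h1]
      rfl
    · have h1 : ContinuousWithinAt T {p | Continuous p.1} ((0 : Y → ℝ), (0 : ℝ)) :=
        hTc _ continuous_zero
      have h2 : ContinuousWithinAt (fun f : Y → ℝ => ((f, 0) : (Y → ℝ) × ℝ))
          {f | Continuous f} 0 := by
        apply Continuous.continuousWithinAt
        fun_prop
      have h3 : ContinuousWithinAt (T ∘ fun f : Y → ℝ => ((f, 0) : (Y → ℝ) × ℝ))
          {f | Continuous f} 0 :=
        ContinuousWithinAt.comp (t := {p : (Y → ℝ) × ℝ | Continuous p.1}) h1 h2 (fun f hf => hf)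
      exact (continuous_apply y).continuousAt.comp_continuousWithinAt h3
  have hρ : ∀ y : Y, ∃ κ : Y →₀ ℝ, ∀ f, Continuous f →
      (R f).1 y = Finsupp.linearCombination ℝ f κ := by
    intro y
    refine exists_repr hsep (fun f => (R f).1 y) ?_ ?_
    · intro a f g hf hg
      change (R (a • f + g)).1 y = _
      rw [hRlin a f g hf hg]
      rfl
    · have h1 : ContinuousWithinAt R {f | Continuous f} 0 := hRc _ continuous_zero
      exact ((continuous_apply y).comp continuous_fst).continuousAt.comp_continuousWithinAt h1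
  have hw : ∃ κ : Y →₀ ℝ, ∀ f, Continuous f → (R f).2 = Finsupp.linearCombination ℝ f κ := by
    refine exists_repr hsep (fun f => (R f).2) ?_ ?_
    · intro a f g hf hg
      change (R (a • f + g)).2 = _
      rw [hRlin a f g hf hg]
      rfl
    · have h1 : ContinuousWithinAt R {f | Continuous f} 0 := hRc _ continuous_zero
      exact continuous_snd.continuousAt.comp_continuousWithinAt h1
  choose μ hμ using hμ
  choose ρ hρ using hρ
  obtain ⟨w, hw⟩ := hw
  have hTval : ∀ (f : Y → ℝ) (c : ℝ) (y : Y), Continuous f →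
      T (f, c) y = Finsupp.linearCombination ℝ f (μ y) + c * T (0, 1) y := by
    intro f c y hf
    have h1 := hlin c (0, 1) (f, 0) continuous_zero hf
    have e : (c • ((0, 1) : (Y → ℝ) × ℝ) + (f, 0)) = (f, c) := by simp
    rw [e] at h1
    rw [h1, Pi.add_apply, Pi.smul_apply, hμ y f hf, smul_eq_mul, add_comm]
  obtain ⟨C₁, hC₁⟩ := uniform_bound hsep2 μ (fun f hf => by
    obtain ⟨B, hB⟩ := hY.pseudocompact (T (f, 0)) (hT (f, 0) hf)
    exact ⟨B, fun y => by rw [← hμ y f hf]; exact hB y⟩)
  obtain ⟨C₂, hC₂⟩ := uniform_bound hsep2 ρ (fun f hf => by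
    obtain ⟨B, hB⟩ := hY.pseudocompact (R f).1 (hR f hf)
    exact ⟨B, fun y => by rw [← hρ y f hf]; exact hB y⟩)
  have hlc : ∀ (f : Y → ℝ) (κ : Y → (Y →₀ ℝ)) (v : Y →₀ ℝ),
      Finsupp.linearCombination ℝ f (Finsupp.linearCombination ℝ κ v) =
        Finsupp.linearCombination ℝ (fun x => Finsupp.linearCombination ℝ f (κ x)) v := by
    intro f κ v
    rw [Finsupp.apply_linearCombination]
    rfl
  refine hY.no_iso hsep μ ρ (T (0, 1)) w (max C₁ C₂) (fun y => (hC₁ y).trans (le_max_left _ _))
    (fun y => (hC₂ y).trans (le_max_right _ _)) ?_ ?_ ?_ ?_ ?_ ?_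
  · intro f N hf _
    exact (hT (f, 0) hf).congr fun y => hμ y f hf
  · intro f N hf _
    exact (hR f hf).congr fun y => hρ y f hf
  · intro y
    refine lc_ext hsep fun f hf => ?_
    rw [map_add, map_smul, hlc, Finsupp.linearCombination_single, one_smul, ← hw f hf]
    have e : (fun x => Finsupp.linearCombination ℝ f (ρ x)) = (R f).1 := by
      funext x
      rw [hρ x f hf]
    rw [e]
    have h1 := hTval (R f).1 (R f).2 y (hR f hf)
    rw [Prod.mk.eta, hTR f hf] at h1
    rw [h1, smul_eq_mul, mul_comm (T (0, 1) y)]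
  · intro y
    refine lc_ext hsep fun f hf => ?_
    rw [hlc, Finsupp.linearCombination_single, one_smul]
    have e : (fun x => Finsupp.linearCombination ℝ f (μ x)) = T (f, 0) := by
      funext x
      rw [hμ x f hf]
    rw [e, ← hρ y _ (hT (f, 0) hf), hRT (f, 0) hf]
  · refine lc_ext hsep fun f hf => ?_
    rw [hlc, map_zero]
    have e : (fun x => Finsupp.linearCombination ℝ f (μ x)) = T (f, 0) := by
      funext x
      rw [hμ x f hf]
    rw [e, ← hw _ (hT (f, 0) hf), hRT (f, 0) hf]
  · intro h0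
    have h1 := hw (T (0, 1)) (hT (0, 1) continuous_zero)
    rw [hRT (0, 1) continuous_zero, h0, map_zero] at h1
    exact one_ne_zero h1

theorem GoodSet.sum_maps {S : Sys E} {Y : Set E} (hY : GoodSet S Y) :
    ∃ (T : (Y ⊕ Y → ℝ) → (Y → ℝ)) (R : (Y → ℝ) → (Y ⊕ Y → ℝ)),
      (∀ f : Y ⊕ Y → ℝ, Continuous f → Continuous (T f)) ∧
      (∀ g : Y → ℝ, Continuous g → Continuous (R g)) ∧
      (∀ f : Y ⊕ Y → ℝ, Continuous f → R (T f) = f) ∧
      (∀ g : Y → ℝ, Continuous g → T (R g) = g) ∧
      (∀ (a : ℝ) (f₁ f₂ : Y ⊕ Y → ℝ), Continuous f₁ → Continuous f₂ →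
        T (a • f₁ + f₂) = a • T f₁ + T f₂) ∧
      ContinuousOn T {f : Y ⊕ Y → ℝ | Continuous f} ∧
      ContinuousOn R {g : Y → ℝ | Continuous g} := by
  classical
  let i : Bool → Y → Y := fun b y => ⟨S.s b y, hY.inv _ _ (S.rel_symm (S.rel_s b y)) y.2⟩
  let q : Y → Y := fun y => ⟨S.sh y, hY.inv _ _ (S.rel_sh y) y.2⟩
  have hi : ∀ b, Continuous (i b) := fun b =>
    ((S.continuous_s b).comp continuous_subtype_val).subtype_mk _
  have hq : Continuous q := (S.continuous_sh.comp continuous_subtype_val).subtype_mk _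
  let h : Y ⊕ Y → Y := Sum.elim (i false) (i true)
  let g : Y → Y ⊕ Y := fun y => if (S.H y).1 = false then Sum.inl (q y) else Sum.inr (q y)
  have hh : Continuous h := (hi false).sumElim (hi true)
  have hfst : Continuous (fun y : Y => (S.H y).1) := by
    have h1 : Continuous (fun p : (Σ _ : Bool, E) => p.1) :=
      continuous_sigma fun b => continuous_const
    exact h1.comp (S.H.continuous.comp continuous_subtype_val)
  have hg : Continuous g := by
    rw [continuous_iff_continuousAt]
    intro y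
    have hev : ∀ᶠ u : Y in 𝓝 y, (S.H (u : E)).1 = (S.H (y : E)).1 :=
      (hfst.tendsto y).eventually (IsOpen.mem_nhds (isOpen_discrete {(S.H (y : E)).1}) rfl)
    by_cases hy : (S.H (y : E)).1 = false
    · refine ContinuousAt.congr (f := fun u => Sum.inl (q u)) ?_ ?_
      · exact (continuous_inl.comp hq).continuousAt
      · filter_upwards [hev] with u hu
        rw [hy] at hu
        simp only [g, hu, if_true]
    · refine ContinuousAt.congr (f := fun u => Sum.inr (q u)) ?_ ?_
      · exact (continuous_inr.comp hq).continuousAt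
      · filter_upwards [hev] with u hu
        simp only [g, hu, if_neg hy]
  have hhg : ∀ y, h (g y) = y := by
    intro y
    by_cases hy : (S.H (y : E)).1 = false
    · simp only [g, hy, if_true, h, Sum.elim_inl]
      apply Subtype.ext
      change S.s false (S.sh y) = y
      rw [← hy, S.s_sh]
    · simp only [g, if_neg hy, h, Sum.elim_inr]
      apply Subtype.ext
      change S.s true (S.sh y) = y
      rw [← Bool.eq_true_of_not_eq_false hy, S.s_sh]
  have hHs : ∀ (b : Bool) (x : E), (S.H (S.s b x)).1 = b := by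
    intro b x
    unfold Sys.s
    rw [Homeomorph.apply_symm_apply]
  have hgh : ∀ u, g (h u) = u := by
    rintro (y | y)
    · have h1 : (S.H ((h (Sum.inl y) : Y) : E)).1 = false := hHs false y
      simp only [g, h1, if_true]
      congr 1
      apply Subtype.ext
      exact S.sh_s false y
    · have h1 : (S.H ((h (Sum.inr y) : Y) : E)).1 = true := hHs true y
      simp only [g, h1]
      simp only [Bool.true_eq_false, if_false]
      congr 1
      apply Subtype.ext
      exact S.sh_s true y
  refine ⟨fun f => f ∘ g, fun f => f ∘ h, fun f hf => hf.comp hg, fun f hf => hf.comp hh, ?_, ?_,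
    fun a f₁ f₂ _ _ => rfl, ?_, ?_⟩
  · intro f _
    funext u
    simp only [Function.comp_apply, hgh]
  · intro f _
    funext u
    simp only [Function.comp_apply, hhg]
  · exact (continuous_pi fun y => continuous_apply (g y)).continuousOn
  · exact (continuous_pi fun y => continuous_apply (h y)).continuousOn

theorem exists_good : ∃ (E : Type) (_ : TopologicalSpace E) (_ : CompactSpace E) (_ : T2Space E)
    (_ : ExtremallyDisconnected E) (S : Sys E) (Y : Set E), GoodSet S Y := by
  obtain ⟨E, _, _, _, _, H, hρ, hb⟩ := exists_space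
  let S : Sys E := ⟨H, hb⟩
  have hI : #(𝔠 : Cardinal.{0}).ord.ToType = 𝔠 := Cardinal.mk_ord_toType _
  have hsmall : ∀ σ : (𝔠 : Cardinal.{0}).ord.ToType, #(Set.Iio σ) < 𝔠 := by
    intro σ
    have := Cardinal.mk_Iio_lt σ (by rw [hI]; simp)
    rwa [hI] at this
  obtain ⟨Y, h1, h2, h3⟩ := exists_Y S hρ hI hsmall
  exact ⟨E, _, ‹_›, ‹_›, ‹_›, S, Y, ⟨h1, h2, h3⟩⟩

end Pool.Agent.Helper538.Cp
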