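import Mathlib

/-!
Helper file for S02672 (MP_17c3bf_an): a strictly convex (Day type) function on bounded
functions with finite level sets.
-/

set_option autoImplicit false

namespace Pool.Agent.Helper538.Rem

open scoped BigOperators

variable {ι : Type*}

/-- `Sn n u = sup` of `∑ x ∈ F, u x ^ 2` over finite sets `F` with at most `n` elements. -/
noncomputable def Sn (n : ℕ) (u : ι → ℝ) : ℝ :=
  ⨆ F : {F : Finset ι // F.card ≤ n}, ∑ x ∈ F.1, (u x) ^ 2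

/-- The Day type function. -/
noncomputable def E (u : ι → ℝ) : ℝ := ∑' n : ℕ, (1 / 8 : ℝ) ^ n * Sn n u

lemma sum_le_of_bdd {u : ι → ℝ} {M : ℝ} (hM : ∀ x, |u x| ≤ M) {n : ℕ} {F : Finset ι}
    (hF : F.card ≤ n) : ∑ x ∈ F, (u x) ^ 2 ≤ n * M ^ 2 := by
  calc ∑ x ∈ F, (u x) ^ 2 ≤ ∑ x ∈ F, M ^ 2 := by
        refine Finset.sum_le_sum fun x _ => ?_
        have := hM x
        rw [← sq_abs]
        exact pow_le_pow_left₀ (abs_nonneg _) this 2
    _ = F.card * M ^ 2 := by rw [Finset.sum_const, nsmul_eq_mul]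
    _ ≤ n * M ^ 2 := by
        have : (F.card : ℝ) ≤ n := by exact_mod_cast hF
        exact mul_le_mul_of_nonneg_right this (sq_nonneg M)

lemma bddAbove_Sn {u : ι → ℝ} {M : ℝ} (hM : ∀ x, |u x| ≤ M) (n : ℕ) :
    BddAbove (Set.range fun F : {F : Finset ι // F.card ≤ n} => ∑ x ∈ F.1, (u x) ^ 2) := by
  refine ⟨n * M ^ 2, ?_⟩
  rintro _ ⟨F, rfl⟩
  exact sum_le_of_bdd hM F.2

instance (n : ℕ) : Nonempty {F : Finset ι // F.card ≤ n} := ⟨⟨∅, by simp⟩⟩

lemma le_Sn {u : ι → ℝ} {M : ℝ} (hM : ∀ x, |u x| ≤ M) {n : ℕ} {F : Finset ι}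
    (hF : F.card ≤ n) : ∑ x ∈ F, (u x) ^ 2 ≤ Sn n u :=
  le_ciSup (bddAbove_Sn hM n) (⟨F, hF⟩ : {F : Finset ι // F.card ≤ n})

lemma Sn_le {u : ι → ℝ} {n : ℕ} {C : ℝ}
    (h : ∀ F : Finset ι, F.card ≤ n → ∑ x ∈ F, (u x) ^ 2 ≤ C) : Sn n u ≤ C :=
  ciSup_le fun F => h F.1 F.2

lemma Sn_nonneg {u : ι → ℝ} {M : ℝ} (hM : ∀ x, |u x| ≤ M) (n : ℕ) : 0 ≤ Sn n u := by
  have := le_Sn hM (n := n) (F := ∅) (by simp)
  simpa using this

lemma Sn_le_bdd {u : ι → ℝ} {M : ℝ} (hM : ∀ x, |u x| ≤ M) (n : ℕ) : Sn n u ≤ n * M ^ 2 :=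
  Sn_le fun _ hF => sum_le_of_bdd hM hF

lemma Sn_mono {u v : ι → ℝ} {M : ℝ} (hM : ∀ x, |v x| ≤ M) (huv : ∀ x, |u x| ≤ |v x|) (n : ℕ) :
    Sn n u ≤ Sn n v := by
  refine Sn_le fun F hF => le_trans ?_ (le_Sn hM hF)
  refine Finset.sum_le_sum fun x _ => ?_
  exact sq_le_sq.mpr (huv x)

lemma Sn_convex {u v : ι → ℝ} {M M' : ℝ} (hu : ∀ x, |u x| ≤ M) (hv : ∀ x, |v x| ≤ M')
    {s t : ℝ} (hs : 0 ≤ s) (ht : 0 ≤ t) (hst : s + t = 1) (n : ℕ) :
    Sn n (fun x => s * u x + t * v x) ≤ s * Sn n u + t * Sn n v := by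
  refine Sn_le fun F hF => ?_
  calc ∑ x ∈ F, (s * u x + t * v x) ^ 2 ≤ ∑ x ∈ F, (s * (u x) ^ 2 + t * (v x) ^ 2) := by
        refine Finset.sum_le_sum fun x _ => ?_
        have h1 : t = 1 - s := by linarith
        subst h1
        nlinarith [mul_nonneg hs ht, sq_nonneg (u x - v x),
          mul_nonneg (mul_nonneg hs ht) (sq_nonneg (u x - v x))]
    _ = s * ∑ x ∈ F, (u x) ^ 2 + t * ∑ x ∈ F, (v x) ^ 2 := by
        rw [Finset.sum_add_distrib, Finset.mul_sum, Finset.mul_sum]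
    _ ≤ s * Sn n u + t * Sn n v := by
        exact add_le_add (mul_le_mul_of_nonneg_left (le_Sn hu hF) hs)
          (mul_le_mul_of_nonneg_left (le_Sn hv hF) ht)

lemma Sn_smul_le {u : ι → ℝ} {M : ℝ} (hu : ∀ x, |u x| ≤ M) (c : ℝ) (n : ℕ) :
    Sn n (fun x => c * u x) ≤ c ^ 2 * Sn n u := by
  refine Sn_le fun F hF => ?_
  calc ∑ x ∈ F, (c * u x) ^ 2 = c ^ 2 * ∑ x ∈ F, (u x) ^ 2 := by
        rw [Finset.mul_sum]
        exact Finset.sum_congr rfl fun x _ => by ring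
    _ ≤ c ^ 2 * Sn n u := mul_le_mul_of_nonneg_left (le_Sn hu hF) (sq_nonneg c)

lemma summable_E {u : ι → ℝ} {M : ℝ} (hM : ∀ x, |u x| ≤ M) :
    Summable fun n : ℕ => (1 / 8 : ℝ) ^ n * Sn n u := by
  have h0 : Summable fun n : ℕ => ((n : ℝ) * (1 / 8 : ℝ) ^ n) * M ^ 2 :=
    ((hasSum_coe_mul_geometric_of_norm_lt_one (r := (1 / 8 : ℝ)) (by norm_num)).summable).mul_right
      (M ^ 2)
  refine Summable.of_nonneg_of_le (fun n => ?_) (fun n => ?_) h0
  · exact mul_nonneg (by positivity) (Sn_nonneg hM n)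
  · calc (1 / 8 : ℝ) ^ n * Sn n u ≤ (1 / 8 : ℝ) ^ n * (n * M ^ 2) :=
          mul_le_mul_of_nonneg_left (Sn_le_bdd hM n) (by positivity)
      _ = ((n : ℝ) * (1 / 8 : ℝ) ^ n) * M ^ 2 := by ring

lemma E_nonneg {u : ι → ℝ} {M : ℝ} (hM : ∀ x, |u x| ≤ M) : 0 ≤ E u :=
  tsum_nonneg fun n => mul_nonneg (by positivity) (Sn_nonneg hM n)

lemma E_le_bdd {u : ι → ℝ} {M : ℝ} (hM : ∀ x, |u x| ≤ M) : E u ≤ 8 / 49 * M ^ 2 := by
  have h0 := (hasSum_coe_mul_geometric_of_norm_lt_one (r := (1 / 8 : ℝ)) (by norm_num)).mul_right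
      (M ^ 2)
  have h1 : E u ≤ ∑' n : ℕ, ((n : ℝ) * (1 / 8 : ℝ) ^ n) * M ^ 2 := by
    refine (summable_E hM).tsum_le_tsum (fun n => ?_) h0.summable
    calc (1 / 8 : ℝ) ^ n * Sn n u ≤ (1 / 8 : ℝ) ^ n * (n * M ^ 2) :=
          mul_le_mul_of_nonneg_left (Sn_le_bdd hM n) (by positivity)
      _ = ((n : ℝ) * (1 / 8 : ℝ) ^ n) * M ^ 2 := by ring
  rw [h0.tsum_eq] at h1
  refine h1.trans (le_of_eq ?_)
  norm_num

lemma E_mono {u v : ι → ℝ} {M : ℝ} (hM : ∀ x, |v x| ≤ M) (huv : ∀ x, |u x| ≤ |v x|) :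
    E u ≤ E v := by
  have hu : ∀ x, |u x| ≤ M := fun x => (huv x).trans (hM x)
  exact (summable_E hu).tsum_le_tsum
    (fun n => mul_le_mul_of_nonneg_left (Sn_mono hM huv n) (by positivity)) (summable_E hM)

lemma E_convex {u v : ι → ℝ} {M M' : ℝ} (hu : ∀ x, |u x| ≤ M) (hv : ∀ x, |v x| ≤ M')
    {s t : ℝ} (hs : 0 ≤ s) (ht : 0 ≤ t) (hst : s + t = 1) :
    E (fun x => s * u x + t * v x) ≤ s * E u + t * E v := by
  have hb : ∀ x, |s * u x + t * v x| ≤ s * M + t * M' := by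
    intro x
    calc |s * u x + t * v x| ≤ |s * u x| + |t * v x| := abs_add_le _ _
      _ = s * |u x| + t * |v x| := by rw [abs_mul, abs_mul, abs_of_nonneg hs, abs_of_nonneg ht]
      _ ≤ s * M + t * M' := add_le_add (mul_le_mul_of_nonneg_left (hu x) hs)
          (mul_le_mul_of_nonneg_left (hv x) ht)
  have h1 : s * E u + t * E v
      = ∑' n : ℕ, (s * ((1 / 8 : ℝ) ^ n * Sn n u) + t * ((1 / 8 : ℝ) ^ n * Sn n v)) := by
    rw [Summable.tsum_add ((summable_E hu).mul_left s) ((summable_E hv).mul_left t),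
      tsum_mul_left, tsum_mul_left]
    rfl
  rw [h1]
  refine (summable_E hb).tsum_le_tsum (fun n => ?_)
    (((summable_E hu).mul_left s).add ((summable_E hv).mul_left t))
  calc (1 / 8 : ℝ) ^ n * Sn n (fun x => s * u x + t * v x)
      ≤ (1 / 8 : ℝ) ^ n * (s * Sn n u + t * Sn n v) :=
        mul_le_mul_of_nonneg_left (Sn_convex hu hv hs ht hst n) (by positivity)
    _ = _ := by ring

lemma E_smul_le {u : ι → ℝ} {M : ℝ} (hu : ∀ x, |u x| ≤ M) (c : ℝ) :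
    E (fun x => c * u x) ≤ c ^ 2 * E u := by
  have hb : ∀ x, |c * u x| ≤ |c| * M := by
    intro x
    rw [abs_mul]
    exact mul_le_mul_of_nonneg_left (hu x) (abs_nonneg c)
  have h1 : c ^ 2 * E u = ∑' n : ℕ, c ^ 2 * ((1 / 8 : ℝ) ^ n * Sn n u) := by
    rw [tsum_mul_left]
    rfl
  rw [h1]
  refine (summable_E hb).tsum_le_tsum (fun n => ?_) ((summable_E hu).mul_left _)
  calc (1 / 8 : ℝ) ^ n * Sn n (fun x => c * u x)
      ≤ (1 / 8 : ℝ) ^ n * (c ^ 2 * Sn n u) :=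
        mul_le_mul_of_nonneg_left (Sn_smul_le hu c n) (by positivity)
    _ = _ := by ring

lemma E_smul {u : ι → ℝ} {M : ℝ} (hu : ∀ x, |u x| ≤ M) (c : ℝ) :
    E (fun x => c * u x) = c ^ 2 * E u := by
  refine le_antisymm (E_smul_le hu c) ?_
  rcases eq_or_ne c 0 with rfl | hc
  · have hb : ∀ x, |(0 : ℝ) * u x| ≤ 0 := by simp
    have := E_nonneg hb
    simpa using this
  · have hb : ∀ x, |c * u x| ≤ |c| * M := by
      intro x
      rw [abs_mul]
      exact mul_le_mul_of_nonneg_left (hu x) (abs_nonneg c)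
    have h1 := E_smul_le hb c⁻¹
    have h2 : (fun x => c⁻¹ * (c * u x)) = u := by
      funext x
      field_simp
    rw [h2] at h1
    have h3 : c ^ 2 * E u ≤ c ^ 2 * (c⁻¹ ^ 2 * E (fun x => c * u x)) :=
      mul_le_mul_of_nonneg_left h1 (sq_nonneg c)
    have h4 : c ^ 2 * (c⁻¹ ^ 2 * E (fun x => c * u x)) = E (fun x => c * u x) := by
      field_simp
    linarith

/-- Equality in the midpoint inequality for `E` gives equality for each `Sn`. -/
lemma Sn_eq_of_E_eq {u v : ι → ℝ} {M M' : ℝ} (hu : ∀ x, |u x| ≤ M) (hv : ∀ x, |v x| ≤ M')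
    (h : E (fun x => 1 / 2 * u x + 1 / 2 * v x) = 1 / 2 * E u + 1 / 2 * E v) (n : ℕ) :
    Sn n (fun x => 1 / 2 * u x + 1 / 2 * v x) = 1 / 2 * Sn n u + 1 / 2 * Sn n v := by
  by_contra hne
  have hc : ∀ n, Sn n (fun x => 1 / 2 * u x + 1 / 2 * v x) ≤ 1 / 2 * Sn n u + 1 / 2 * Sn n v :=
    fun n => Sn_convex hu hv (by norm_num) (by norm_num) (by norm_num) n
  have hlt : Sn n (fun x => 1 / 2 * u x + 1 / 2 * v x) < 1 / 2 * Sn n u + 1 / 2 * Sn n v :=
    lt_of_le_of_ne (hc n) hne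
  have hb : ∀ x, |1 / 2 * u x + 1 / 2 * v x| ≤ 1 / 2 * M + 1 / 2 * M' := by
    intro x
    calc |1 / 2 * u x + 1 / 2 * v x| ≤ |1 / 2 * u x| + |1 / 2 * v x| := abs_add_le _ _
      _ = 1 / 2 * |u x| + 1 / 2 * |v x| := by
          rw [abs_mul, abs_mul, abs_of_nonneg (by norm_num : (0 : ℝ) ≤ 1 / 2)]
      _ ≤ 1 / 2 * M + 1 / 2 * M' := by
          have := hu x
          have := hv x
          linarith
  have h1 : 1 / 2 * E u + 1 / 2 * E v
      = ∑' n : ℕ, (1 / 2 * ((1 / 8 : ℝ) ^ n * Sn n u) + 1 / 2 * ((1 / 8 : ℝ) ^ n * Sn n v)) := by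
    rw [Summable.tsum_add ((summable_E hu).mul_left _) ((summable_E hv).mul_left _),
      tsum_mul_left, tsum_mul_left]
    rfl
  have h2 : E (fun x => 1 / 2 * u x + 1 / 2 * v x) < 1 / 2 * E u + 1 / 2 * E v := by
    rw [h1]
    refine Summable.tsum_lt_tsum (i := n) (fun k => ?_) ?_ (summable_E hb)
      (((summable_E hu).mul_left _).add ((summable_E hv).mul_left _))
    · calc (1 / 8 : ℝ) ^ k * Sn k (fun x => 1 / 2 * u x + 1 / 2 * v x)
          ≤ (1 / 8 : ℝ) ^ k * (1 / 2 * Sn k u + 1 / 2 * Sn k v) :=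
            mul_le_mul_of_nonneg_left (hc k) (by positivity)
        _ = _ := by ring
    · calc (1 / 8 : ℝ) ^ n * Sn n (fun x => 1 / 2 * u x + 1 / 2 * v x)
          < (1 / 8 : ℝ) ^ n * (1 / 2 * Sn n u + 1 / 2 * Sn n v) :=
            mul_lt_mul_of_pos_left hlt (by positivity)
        _ = _ := by ring
  exact absurd h (ne_of_lt h2)

lemma strict_aux {u v : ι → ℝ} {M M' : ℝ} (hu : ∀ x, |u x| ≤ M) (hv : ∀ x, |v x| ≤ M')
    (hfin : ∀ ε > 0, {x | ε ≤ |u x|}.Finite)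
    (h : ∀ n, Sn n (fun x => 1 / 2 * u x + 1 / 2 * v x) = 1 / 2 * Sn n u + 1 / 2 * Sn n v)
    (x : ι) (hx : u x ≠ 0) : u x = v x := by
  classical
  by_contra hne
  set η := |u x| with hη
  have hη0 : 0 < η := abs_pos.mpr hx
  set d := (u x - v x) ^ 2 with hd
  have hd0 : 0 < d := by
    have : u x - v x ≠ 0 := sub_ne_zero.mpr hne
    positivity
  -- choose ε
  set ε := min (η ^ 2 / 4) (d / 8) with hε
  have hε0 : 0 < ε := lt_min (by positivity) (by positivity)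
  have hfin' := hfin (η / 2) (by positivity)
  set A := hfin'.toFinset with hA
  set n := A.card + 1 with hn
  have hb : ∀ x, |1 / 2 * u x + 1 / 2 * v x| ≤ 1 / 2 * M + 1 / 2 * M' := by
    intro x
    calc |1 / 2 * u x + 1 / 2 * v x| ≤ |1 / 2 * u x| + |1 / 2 * v x| := abs_add_le _ _
      _ = 1 / 2 * |u x| + 1 / 2 * |v x| := by
          rw [abs_mul, abs_mul, abs_of_nonneg (by norm_num : (0 : ℝ) ≤ 1 / 2)]
      _ ≤ 1 / 2 * M + 1 / 2 * M' := by
          have := hu x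
          have := hv x
          linarith
  obtain ⟨⟨F, hFn⟩, hF⟩ := exists_lt_of_lt_ciSup
    (show Sn n (fun x => 1 / 2 * u x + 1 / 2 * v x) - ε
      < ⨆ F : {F : Finset ι // F.card ≤ n}, ∑ x ∈ F.1, (1 / 2 * u x + 1 / 2 * v x) ^ 2 from by
        change Sn n (fun x => 1 / 2 * u x + 1 / 2 * v x) - ε <
          Sn n (fun x => 1 / 2 * u x + 1 / 2 * v x)
        linarith)
  simp only at hF
  -- parallelogram
  have hpar : ∑ y ∈ F, (1 / 2 * u y + 1 / 2 * v y) ^ 2 + ∑ y ∈ F, (u y - v y) ^ 2 / 4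
      = 1 / 2 * ∑ y ∈ F, (u y) ^ 2 + 1 / 2 * ∑ y ∈ F, (v y) ^ 2 := by
    rw [Finset.mul_sum, Finset.mul_sum, ← Finset.sum_add_distrib, ← Finset.sum_add_distrib]
    exact Finset.sum_congr rfl fun y _ => by ring
  have h1 := le_Sn hu hFn
  have h2 := le_Sn hv hFn
  have h3 := h n
  have hdiff0 : 0 ≤ ∑ y ∈ F, (u y - v y) ^ 2 / 4 :=
    Finset.sum_nonneg fun y _ => by positivity
  have hq : ∑ y ∈ F, (u y - v y) ^ 2 / 4 ≤ ε := by linarith
  have hqu : Sn n u - 2 * ε ≤ ∑ y ∈ F, (u y) ^ 2 := by linarith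
  have h4 : 2 * ε ≤ η ^ 2 / 2 := by
    have := min_le_left (η ^ 2 / 4) (d / 8)
    linarith
  have h5 : ε ≤ d / 8 := min_le_right _ _
  by_cases hxF : x ∈ F
  · have h6 : (u x - v x) ^ 2 / 4 ≤ ∑ y ∈ F, (u y - v y) ^ 2 / 4 :=
      Finset.single_le_sum (f := fun y => (u y - v y) ^ 2 / 4) (fun y _ => by positivity) hxF
    linarith
  · -- there is room
    have hsq : (u x) ^ 2 = η ^ 2 := (sq_abs _).symm
    by_cases hcard : F.card < n
    · have h7 : (insert x F).card ≤ n := by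
        rw [Finset.card_insert_of_notMem hxF]
        omega
      have h8 := le_Sn hu h7
      rw [Finset.sum_insert hxF] at h8
      have : 0 < η ^ 2 := by positivity
      linarith
    · have hcard' : F.card = n := le_antisymm hFn (not_lt.mp hcard)
      have hex : ∃ y ∈ F, y ∉ A := by
        by_contra hcon
        push_neg at hcon
        have : F.card ≤ A.card := Finset.card_le_card hcon
        omega
      obtain ⟨y, hyF, hyA⟩ := hex
      have hylt : |u y| < η / 2 := by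
        by_contra hge
        exact hyA (by rw [hA, Set.Finite.mem_toFinset]; exact not_lt.mp hge)
      have hysq : (u y) ^ 2 ≤ η ^ 2 / 4 := by
        rw [← sq_abs]
        nlinarith [abs_nonneg (u y)]
      have h7 : (insert x (F.erase y)).card ≤ n := by
        rw [Finset.card_insert_of_notMem (fun hh => hxF (Finset.mem_of_mem_erase hh)),
          Finset.card_erase_of_mem hyF]
        omega
      have h8 := le_Sn hu h7
      rw [Finset.sum_insert (fun hh => hxF (Finset.mem_of_mem_erase hh))] at h8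
      have h9 := Finset.add_sum_erase F (fun y => (u y) ^ 2) hyF
      have : 0 < η ^ 2 := by positivity
      linarith

/-- Strict convexity. -/
theorem E_strict {u v : ι → ℝ} {M M' : ℝ} (hu : ∀ x, |u x| ≤ M) (hv : ∀ x, |v x| ≤ M')
    (hfu : ∀ ε > 0, {x | ε ≤ |u x|}.Finite) (hfv : ∀ ε > 0, {x | ε ≤ |v x|}.Finite)
    (h : E (fun x => 1 / 2 * u x + 1 / 2 * v x) = 1 / 2 * E u + 1 / 2 * E v) : u = v := by
  have h1 := Sn_eq_of_E_eq hu hv h
  funext x
  by_cases hx : u x = 0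
  · by_cases hx' : v x = 0
    · rw [hx, hx']
    · have h2 : ∀ n, Sn n (fun x => 1 / 2 * v x + 1 / 2 * u x)
          = 1 / 2 * Sn n v + 1 / 2 * Sn n u := by
        intro n
        rw [show (fun x => 1 / 2 * v x + 1 / 2 * u x) = (fun x => 1 / 2 * u x + 1 / 2 * v x) from
          funext fun x => by ring, h1 n]
        ring
      exact (strict_aux hv hu hfv h2 x hx').symm
  · exact strict_aux hu hv hfu h1 x hx

end Pool.Agent.Helper538.Rem
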