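import Mathlib
import Pool.Agent.Helper538.RemA

/-!
Helper file for S02672 (MP_17c3bf_an): the quadratic functionals `Rf β` and `Qf` on `C(K, ℝ)`,
`K` a compact well-ordered space.
-/

set_option autoImplicit false

namespace Pool.Agent.Helper538.Rem

open Set Topology Filter

variable {K : Type*} [LinearOrder K] [WellFoundedLT K] [SuccOrder K] [BoundedOrder K]
  [TopologicalSpace K] [OrderTopology K] [CompactSpace K]

/-- The jump of `g` at `x`. -/
def jump (g : K → ℝ) (x : K) : ℝ := g (Order.succ x) - g x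

/-- The jumps at the points strictly below `β`. -/
def jb (β : K) (g : K → ℝ) (x : K) : ℝ := if x < β then jump g x else 0

omit [TopologicalSpace K] [OrderTopology K] [CompactSpace K] in
lemma succ_le_of_lt' {x β : K} (h : x < β) : Order.succ x ≤ β := Order.succ_le_of_lt h

lemma level_finite_aux (g : C(K, ℝ)) {ε : ℝ} (hε : 0 < ε) (p : K) :
    ({x | ε ≤ |jump g x|} ∩ Iic p).Finite := by
  induction p using WellFoundedLT.induction with
  | ind p ih =>
    by_cases hp : p = ⊥
    · subst hp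
      refine (Set.finite_singleton (⊥ : K)).subset ?_
      intro x hx
      exact le_bot_iff.mp hx.2
    · have hbp : (⊥ : K) < p := bot_lt_iff_ne_bot.mpr hp
      have hU : {y | |g y - g p| < ε / 2} ∈ 𝓝 p := by
        have hc : ContinuousAt (fun y => |g y - g p|) p := by fun_prop
        have : Tendsto (fun y => |g y - g p|) (𝓝 p) (𝓝 0) := by
          have h2 := hc.tendsto
          simpa using h2
        exact this.eventually (gt_mem_nhds (by positivity))
      obtain ⟨a, ha, haU⟩ := exists_Ioc_subset_of_mem_nhds hU ⟨⊥, hbp⟩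
      refine ((ih a ha).union (Set.finite_singleton p)).subset ?_
      rintro x ⟨hx1, hx2⟩
      by_cases hxa : x ≤ a
      · exact Or.inl ⟨hx1, hxa⟩
      · right
        rw [mem_singleton_iff]
        by_contra hxp
        have hxp' : x < p := lt_of_le_of_ne hx2 hxp
        have hax : a < x := not_le.mp hxa
        have h1 : |g x - g p| < ε / 2 := haU ⟨hax, hx2⟩
        have h2 : |g (Order.succ x) - g p| < ε / 2 :=
          haU ⟨hax.trans_le (Order.le_succ x), succ_le_of_lt' hxp'⟩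
        have h3 : ε ≤ |g (Order.succ x) - g x| := hx1
        have h4 : |g (Order.succ x) - g x| ≤ |g (Order.succ x) - g p| + |g x - g p| := by
          rw [show g (Order.succ x) - g x = (g (Order.succ x) - g p) - (g x - g p) by ring]
          exact abs_sub _ _
        linarith

lemma level_finite (g : C(K, ℝ)) {ε : ℝ} (hε : 0 < ε) : {x | ε ≤ |jump g x|}.Finite := by
  have := level_finite_aux g hε ⊤
  simpa using this

lemma eq_bot_of_jump (g : C(K, ℝ)) (p : K) (h : ∀ x < p, jump g x = 0) : g p = g ⊥ := by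
  induction p using WellFoundedLT.induction with
  | ind p ih =>
    by_cases hp : p = ⊥
    · rw [hp]
    · have hbp : (⊥ : K) < p := bot_lt_iff_ne_bot.mpr hp
      by_contra hne
      have hε : 0 < |g ⊥ - g p| := abs_pos.mpr (sub_ne_zero.mpr (Ne.symm hne))
      have hU : {y | |g y - g p| < |g ⊥ - g p|} ∈ 𝓝 p := by
        have hc : ContinuousAt (fun y => |g y - g p|) p := by fun_prop
        have : Tendsto (fun y => |g y - g p|) (𝓝 p) (𝓝 0) := by
          have h2 := hc.tendsto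
          simpa using h2
        exact this.eventually (gt_mem_nhds hε)
      obtain ⟨a, ha, haU⟩ := exists_Ioc_subset_of_mem_nhds hU ⟨⊥, hbp⟩
      have iha : g a = g ⊥ := ih a ha fun x hx => h x (hx.trans ha)
      have hs : g (Order.succ a) = g ⊥ := by
        have := h a ha
        unfold jump at this
        linarith
      have hlt : a < Order.succ a := Order.lt_succ_of_not_isMax (not_isMax_of_lt ha)
      have h3 : |g (Order.succ a) - g p| < |g ⊥ - g p| := haU ⟨hlt, succ_le_of_lt' ha⟩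
      rw [hs] at h3
      exact lt_irrefl _ h3

/-- If the jumps of `y` and `z` below `β` agree and `y β = z β` then `y = z` on `Iic β`. -/
lemma agree_of_jb (y z : C(K, ℝ)) (β : K) (h : jb β y = jb β z) (hβ : y β = z β) :
    ∀ x ≤ β, y x = z x := by
  have h1 : ∀ x < β, jump (y - z : C(K, ℝ)) x = 0 := by
    intro x hx
    have h2 := congrFun h x
    simp only [jb, if_pos hx, jump] at h2
    simp only [jump, ContinuousMap.sub_apply]
    linarith
  have h2 : ∀ x ≤ β, (y - z : C(K, ℝ)) x = (y - z : C(K, ℝ)) ⊥ := fun x hx =>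
    eq_bot_of_jump (y - z) x fun x' hx' => h1 x' (hx'.trans_le hx)
  intro x hx
  have h3 := h2 x hx
  have h4 := h2 β le_rfl
  simp only [ContinuousMap.sub_apply] at h3 h4
  linarith

omit [WellFoundedLT K] [OrderTopology K] in
lemma abs_jb_le (β : K) (g : C(K, ℝ)) (x : K) : |jb β g x| ≤ 2 * ‖g‖ := by
  unfold jb
  split_ifs
  · unfold jump
    have h1 := g.norm_coe_le_norm (Order.succ x)
    have h2 := g.norm_coe_le_norm x
    rw [Real.norm_eq_abs] at h1 h2
    calc |g (Order.succ x) - g x| ≤ |g (Order.succ x)| + |g x| := abs_sub _ _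
      _ ≤ 2 * ‖g‖ := by linarith
  · rw [abs_zero]
    positivity

lemma jb_level_finite (β : K) (g : C(K, ℝ)) : ∀ ε > 0, {x | ε ≤ |jb β g x|}.Finite := by
  intro ε hε
  refine (level_finite g hε).subset ?_
  intro x hx
  simp only [mem_setOf_eq, jb] at hx ⊢
  split_ifs at hx with h
  · exact hx
  · rw [abs_zero] at hx
    linarith

/-- The quadratic type functional at `β`. -/
noncomputable def Rf (β : K) (g : C(K, ℝ)) : ℝ := (g β) ^ 2 + E (jb β g)

/-- The supremum of the `Rf β`. -/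
noncomputable def Qf (g : C(K, ℝ)) : ℝ := ⨆ β : K, Rf β g

omit [WellFoundedLT K] [OrderTopology K] in
lemma E_jb_nonneg (β : K) (g : C(K, ℝ)) : 0 ≤ E (jb β g) := E_nonneg (abs_jb_le β g)

omit [WellFoundedLT K] [OrderTopology K] in
lemma E_jb_mono {γ β : K} (h : γ ≤ β) (g : C(K, ℝ)) : E (jb γ g) ≤ E (jb β g) := by
  refine E_mono (abs_jb_le β g) fun x => ?_
  unfold jb
  by_cases hx : x < γ
  · rw [if_pos hx, if_pos (hx.trans_le h)]
  · rw [if_neg hx, abs_zero]
    exact abs_nonneg _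

omit [WellFoundedLT K] [OrderTopology K] in
lemma E_jb_le (β : K) (g : C(K, ℝ)) : E (jb β g) ≤ 32 / 49 * ‖g‖ ^ 2 := by
  have := E_le_bdd (abs_jb_le β g)
  linarith [this, show 8 / 49 * (2 * ‖g‖) ^ 2 = 32 / 49 * ‖g‖ ^ 2 by ring]

omit [WellFoundedLT K] [OrderTopology K] in
lemma Rf_le (β : K) (g : C(K, ℝ)) : Rf β g ≤ 2 * ‖g‖ ^ 2 := by
  unfold Rf
  have h1 := E_jb_le β g
  have h2 := g.norm_coe_le_norm β
  rw [Real.norm_eq_abs] at h2
  have h3 : (g β) ^ 2 ≤ ‖g‖ ^ 2 := by
    rw [← sq_abs]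
    exact pow_le_pow_left₀ (abs_nonneg _) h2 2
  nlinarith [sq_nonneg ‖g‖]

omit [WellFoundedLT K] [OrderTopology K] in
lemma bdd_Rf (g : C(K, ℝ)) : BddAbove (range fun β : K => Rf β g) := by
  refine ⟨2 * ‖g‖ ^ 2, ?_⟩
  rintro _ ⟨β, rfl⟩
  exact Rf_le β g

omit [WellFoundedLT K] [OrderTopology K] in
lemma Rf_le_Qf (β : K) (g : C(K, ℝ)) : Rf β g ≤ Qf g := le_ciSup (bdd_Rf g) β

omit [WellFoundedLT K] [OrderTopology K] in
lemma Qf_le (g : C(K, ℝ)) {C : ℝ} (h : ∀ β : K, Rf β g ≤ C) : Qf g ≤ C :=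
  ciSup_le h

omit [WellFoundedLT K] [OrderTopology K] in
lemma sq_le_Qf (β : K) (g : C(K, ℝ)) : (g β) ^ 2 ≤ Qf g := by
  have h1 := Rf_le_Qf β g
  have h2 := E_jb_nonneg β g
  unfold Rf at h1
  linarith

omit [WellFoundedLT K] [OrderTopology K] in
lemma Qf_nonneg (g : C(K, ℝ)) : 0 ≤ Qf g := (sq_nonneg _).trans (sq_le_Qf ⊥ g)

omit [WellFoundedLT K] [OrderTopology K] in
lemma Qf_le_norm (g : C(K, ℝ)) : Qf g ≤ 2 * ‖g‖ ^ 2 := Qf_le g fun β => Rf_le β g

omit [WellFoundedLT K] [OrderTopology K] in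
lemma norm_sq_le_Qf (g : C(K, ℝ)) : ‖g‖ ≤ √(Qf g) := by
  rw [ContinuousMap.norm_le _ (Real.sqrt_nonneg _)]
  intro x
  rw [Real.norm_eq_abs]
  exact Real.abs_le_sqrt (sq_le_Qf x g)

omit [WellFoundedLT K] [OrderTopology K] in
lemma Rf_convex (β : K) (g h : C(K, ℝ)) {s t : ℝ} (hs : 0 ≤ s) (ht : 0 ≤ t) (hst : s + t = 1) :
    Rf β (s • g + t • h) ≤ s * Rf β g + t * Rf β h := by
  have h1 : jb β (s • g + t • h : C(K, ℝ)) = fun x => s * jb β g x + t * jb β h x := by
    funext x
    simp only [jb, jump]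
    split_ifs
    · simp only [ContinuousMap.add_apply, ContinuousMap.smul_apply, smul_eq_mul]
      ring
    · ring
  have h2 := E_convex (abs_jb_le β g) (abs_jb_le β h) hs ht hst
  have h3 : ((s • g + t • h : C(K, ℝ)) β) ^ 2 ≤ s * (g β) ^ 2 + t * (h β) ^ 2 := by
    simp only [ContinuousMap.add_apply, ContinuousMap.smul_apply, smul_eq_mul]
    have h1 : t = 1 - s := by linarith
    subst h1
    nlinarith [mul_nonneg (mul_nonneg hs ht) (sq_nonneg (g β - h β))]
  unfold Rf
  rw [h1]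
  linarith

omit [WellFoundedLT K] [OrderTopology K] in
lemma Rf_smul (β : K) (g : C(K, ℝ)) (c : ℝ) : Rf β (c • g) = c ^ 2 * Rf β g := by
  have h1 : jb β (c • g : C(K, ℝ)) = fun x => c * jb β g x := by
    funext x
    simp only [jb, jump]
    split_ifs
    · simp only [ContinuousMap.smul_apply, smul_eq_mul]
      ring
    · ring
  unfold Rf
  rw [h1, E_smul (abs_jb_le β g)]
  simp only [ContinuousMap.smul_apply, smul_eq_mul]
  ring

omit [WellFoundedLT K] [OrderTopology K] in
lemma Qf_convex (g h : C(K, ℝ)) {s t : ℝ} (hs : 0 ≤ s) (ht : 0 ≤ t) (hst : s + t = 1) :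
    Qf (s • g + t • h) ≤ s * Qf g + t * Qf h := by
  refine Qf_le _ fun β => (Rf_convex β g h hs ht hst).trans ?_
  exact add_le_add (mul_le_mul_of_nonneg_left (Rf_le_Qf β g) hs)
    (mul_le_mul_of_nonneg_left (Rf_le_Qf β h) ht)

omit [WellFoundedLT K] [OrderTopology K] in
lemma Qf_smul (g : C(K, ℝ)) (c : ℝ) : Qf (c • g) = c ^ 2 * Qf g := by
  unfold Qf
  rw [Real.mul_iSup_of_nonneg (sq_nonneg c)]
  congr 1
  funext β
  exact Rf_smul β g c

omit [WellFoundedLT K] [OrderTopology K] in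
lemma Qf_eq_zero {g : C(K, ℝ)} (h : Qf g = 0) : g = 0 := by
  have h1 := norm_sq_le_Qf g
  rw [h, Real.sqrt_zero] at h1
  exact norm_le_zero_iff.mp h1

omit [WellFoundedLT K] [OrderTopology K] in
lemma Qf_zero : Qf (0 : C(K, ℝ)) = 0 := by
  have := Qf_smul (0 : C(K, ℝ)) 0
  simpa using this

omit [WellFoundedLT K] [OrderTopology K] in
/-- Triangle inequality. -/
lemma sqrt_Qf_add_le (g h : C(K, ℝ)) : √(Qf (g + h)) ≤ √(Qf g) + √(Qf h) := by
  rcases (Qf_nonneg g).eq_or_lt with hg | hg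
  · have : g = 0 := Qf_eq_zero hg.symm
    subst this
    simp [Qf_zero]
  rcases (Qf_nonneg h).eq_or_lt with hh | hh
  · have : h = 0 := Qf_eq_zero hh.symm
    subst this
    simp [Qf_zero]
  set a := √(Qf g) with ha
  set b := √(Qf h) with hb
  have ha0 : 0 < a := Real.sqrt_pos.mpr hg
  have hb0 : 0 < b := Real.sqrt_pos.mpr hh
  have ha2 : a ^ 2 = Qf g := Real.sq_sqrt hg.le
  have hb2 : b ^ 2 = Qf h := Real.sq_sqrt hh.le
  have h1 : g + h = (a + b) • ((a / (a + b)) • (a⁻¹ • g) + (b / (a + b)) • (b⁻¹ • h)) := by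
    ext x
    simp only [ContinuousMap.add_apply, ContinuousMap.smul_apply, smul_eq_mul]
    field_simp
  have h2 := Qf_convex (a⁻¹ • g) (b⁻¹ • h) (s := a / (a + b)) (t := b / (a + b))
    (by positivity) (by positivity) (by field_simp)
  rw [Qf_smul, Qf_smul, ← ha2, ← hb2] at h2
  have h3 : a / (a + b) * (a⁻¹ ^ 2 * a ^ 2) + b / (a + b) * (b⁻¹ ^ 2 * b ^ 2) = 1 := by
    field_simp
  rw [h3] at h2
  have h4 : Qf (g + h) ≤ (a + b) ^ 2 := by
    rw [h1, Qf_smul]
    nlinarith [sq_nonneg (a + b)]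
  calc √(Qf (g + h)) ≤ √((a + b) ^ 2) := Real.sqrt_le_sqrt h4
    _ = a + b := Real.sqrt_sq (by positivity)

omit [WellFoundedLT K] [OrderTopology K] in
lemma sqrt_Qf_smul (g : C(K, ℝ)) (c : ℝ) : √(Qf (c • g)) = |c| * √(Qf g) := by
  rw [Qf_smul, Real.sqrt_mul (sq_nonneg c), Real.sqrt_sq_eq_abs]

/-- The supremum is attained. -/
lemma exists_Rf_eq_Qf (g : C(K, ℝ)) : ∃ β : K, Rf β g = Qf g := by
  have husc : UpperSemicontinuousOn (fun β : K => Rf β g) univ := by
    intro p _ y hy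
    rw [nhdsWithin_univ]
    by_cases hp : p = ⊥
    · subst hp
      -- near ⊥ : use openness of {⊥}
      by_cases htop : (⊥ : K) = ⊤
      · have : ∀ x : K, x = ⊥ := fun x => le_bot_iff.mp (htop ▸ le_top)
        filter_upwards with x
        rw [this x]
        exact hy
      · have hlt : (⊥ : K) < ⊤ := bot_lt_iff_ne_bot.mpr (Ne.symm htop)
        have hss : (⊥ : K) < Order.succ ⊥ := Order.lt_succ_of_not_isMax (not_isMax_of_lt hlt)
        have hopen : Iio (Order.succ (⊥ : K)) ∈ 𝓝 (⊥ : K) := Iio_mem_nhds hss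
        filter_upwards [hopen] with x hx
        have : x = ⊥ := by
          have := Order.le_of_lt_succ hx
          exact le_bot_iff.mp this
        rw [this]
        exact hy
    · have hbp : (⊥ : K) < p := bot_lt_iff_ne_bot.mpr hp
      have hc : ContinuousAt (fun x => (g x) ^ 2) p := by fun_prop
      have hy' : (g p) ^ 2 < y - E (jb p g) := by
        unfold Rf at hy
        linarith
      have hU : {x | (g x) ^ 2 < y - E (jb p g)} ∈ 𝓝 p := hc.tendsto.eventually (gt_mem_nhds hy')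
      have hV : Iic p ∈ 𝓝 p := by
        by_cases htop : p = ⊤
        · rw [htop, Iic_top]
          exact Filter.univ_mem
        · have hlt : p < Order.succ p :=
            Order.lt_succ_of_not_isMax (fun hm => htop (isMax_iff_eq_top.mp hm))
          refine Filter.mem_of_superset (Iio_mem_nhds hlt) fun x hx => Order.le_of_lt_succ hx
      filter_upwards [hU, hV] with x hx hxp
      have h1 := E_jb_mono hxp g
      change (g x) ^ 2 + E (jb x g) < y
      linarith
  obtain ⟨β, _, hβ⟩ := husc.exists_isMaxOn ⟨⊥, mem_univ _⟩ isCompact_univ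
  refine ⟨β, le_antisymm (Rf_le_Qf β g) (Qf_le g fun γ => hβ (mem_univ γ))⟩

omit [WellFoundedLT K] [OrderTopology K] in
/-- `Rf γ` depends only on the restriction to `Iic γ`. -/
lemma Rf_congr {y z : C(K, ℝ)} {γ : K} (h : ∀ x ≤ γ, y x = z x) : Rf γ y = Rf γ z := by
  have h1 : jb γ y = jb γ z := by
    funext x
    unfold jb
    split_ifs with hx
    · unfold jump
      rw [h x hx.le, h _ (Order.succ_le_of_lt hx)]
    · rfl
  unfold Rf
  rw [h1, h γ le_rfl]

/-- Key lemma: adjacency of unit vectors. -/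
theorem adj {y z : C(K, ℝ)} (hy : Qf y = 1) (hz : Qf z = 1)
    (hyz : Qf ((1 / 2 : ℝ) • y + (1 / 2 : ℝ) • z) = 1) :
    ∃ β : K, (∀ x ≤ β, y x = z x) ∧ Rf β y = 1 ∧ Rf β z = 1 := by
  obtain ⟨β, hβ⟩ := exists_Rf_eq_Qf ((1 / 2 : ℝ) • y + (1 / 2 : ℝ) • z)
  rw [hyz] at hβ
  have hy1 := Rf_le_Qf β y
  have hz1 := Rf_le_Qf β z
  rw [hy] at hy1
  rw [hz] at hz1
  have h1 : jb β ((1 / 2 : ℝ) • y + (1 / 2 : ℝ) • z : C(K, ℝ))
      = fun x => 1 / 2 * jb β y x + 1 / 2 * jb β z x := by
    funext x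
    simp only [jb, jump]
    split_ifs
    · simp only [ContinuousMap.add_apply, ContinuousMap.smul_apply, smul_eq_mul]
      ring
    · ring
  have h2 := E_convex (abs_jb_le β y) (abs_jb_le β z) (s := 1 / 2) (t := 1 / 2)
    (by norm_num) (by norm_num) (by norm_num)
  have hβ' : (1 / 2 * y β + 1 / 2 * z β) ^ 2
      + E (fun x => 1 / 2 * jb β y x + 1 / 2 * jb β z x) = 1 := by
    rw [Rf, h1] at hβ
    simpa only [ContinuousMap.add_apply, ContinuousMap.smul_apply, smul_eq_mul] using hβ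
  have h3 : (1 / 2 * y β + 1 / 2 * z β) ^ 2
      = 1 / 2 * (y β) ^ 2 + 1 / 2 * (z β) ^ 2 - (y β - z β) ^ 2 / 4 := by ring
  unfold Rf at hy1 hz1
  have h4 : (y β - z β) ^ 2 / 4 ≤ 0 := by linarith
  have h5 : y β = z β := by
    have : (y β - z β) ^ 2 = 0 := le_antisymm (by linarith) (sq_nonneg _)
    have := pow_eq_zero_iff (two_ne_zero) |>.mp this
    linarith
  have h6 : (y β - z β) ^ 2 / 4 = 0 := by rw [h5]; ring
  have h7 : E (fun x => 1 / 2 * jb β y x + 1 / 2 * jb β z x)
      = 1 / 2 * E (jb β y) + 1 / 2 * E (jb β z) := by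
    refine le_antisymm h2 ?_
    linarith
  have h8 : jb β y = jb β z :=
    E_strict (abs_jb_le β y) (abs_jb_le β z) (jb_level_finite β y) (jb_level_finite β z) h7
  have h9 := agree_of_jb y z β h8 h5
  have h10 : Rf β y = Rf β z := Rf_congr h9
  have h11 : 1 ≤ 1 / 2 * Rf β y + 1 / 2 * Rf β z := by
    unfold Rf
    linarith
  have h12 : Rf β y ≤ 1 := by unfold Rf; exact hy1
  refine ⟨β, h9, by linarith, by linarith⟩

end Pool.Agent.Helper538.Rem
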