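import Mathlib
import Pool.Agent.Helper538.RemB

/-!
Helper file for S02672 (MP_17c3bf_an): the set `W` of representatives of the faces.
-/

set_option autoImplicit false

namespace Pool.Agent.Helper538.Rem

open Set Topology Filter

variable {K : Type*} [LinearOrder K] [WellFoundedLT K] [SuccOrder K] [BoundedOrder K]
  [TopologicalSpace K] [OrderTopology K] [CompactSpace K]

/-- The cofinality assumption. -/
def Cof (K : Type*) [LinearOrder K] [BoundedOrder K] : Prop :=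
  ∀ f : ℕ → K, (∀ n, f n < ⊤) → ∃ β < (⊤ : K), ∀ n, f n < β

omit [WellFoundedLT K] [SuccOrder K] [CompactSpace K] in
lemma eventually_const (hbt : (⊥ : K) < ⊤) (hC : Cof K) (g : C(K, ℝ)) :
    ∃ β < (⊤ : K), ∀ x, β ≤ x → g x = g ⊤ := by
  have h1 : ∀ n : ℕ, ∃ a < (⊤ : K), Ioc a ⊤ ⊆ {x | |g x - g ⊤| < 1 / ((n : ℝ) + 1)} := by
    intro n
    have hU : {x | |g x - g ⊤| < 1 / ((n : ℝ) + 1)} ∈ 𝓝 (⊤ : K) := by
      have hc : ContinuousAt (fun y => |g y - g ⊤|) (⊤ : K) := by fun_prop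
      have : Tendsto (fun y => |g y - g ⊤|) (𝓝 (⊤ : K)) (𝓝 0) := by
        have h2 := hc.tendsto
        simpa using h2
      exact this.eventually (gt_mem_nhds (by positivity))
    exact exists_Ioc_subset_of_mem_nhds hU ⟨⊥, hbt⟩
  choose a ha haU using h1
  obtain ⟨β, hβ, hβa⟩ := hC a ha
  refine ⟨β, hβ, fun x hx => ?_⟩
  by_contra hne
  have hpos : 0 < |g x - g ⊤| := abs_pos.mpr (sub_ne_zero.mpr hne)
  obtain ⟨n, hn⟩ := exists_nat_one_div_lt hpos
  have h2 : |g x - g ⊤| < 1 / ((n : ℝ) + 1) := haU n ⟨(hβa n).trans_le hx, le_top⟩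
  exact absurd hn (not_lt.mpr h2.le)

/-- The least tight point of a unit vector. -/
lemma exists_tight (hbt : (⊥ : K) < ⊤) (hC : Cof K) (y : C(K, ℝ)) (hy : Qf y = 1) :
    ∃ β < (⊤ : K), Rf β y = 1 ∧ ∀ γ < β, Rf γ y < 1 := by
  obtain ⟨β₁, hβ₁, hconst⟩ := eventually_const hbt hC y
  have hex : ∃ β < (⊤ : K), Rf β y = 1 := by
    obtain ⟨β₀, hβ₀⟩ := exists_Rf_eq_Qf y
    rw [hy] at hβ₀
    by_cases htop : β₀ = ⊤
    · subst htop
      refine ⟨β₁, hβ₁, ?_⟩
      rw [← hβ₀]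
      unfold Rf
      have h1 : jb β₁ y = jb ⊤ y := by
        funext x
        unfold jb
        by_cases hx : x < β₁
        · rw [if_pos hx, if_pos (hx.trans hβ₁)]
        · rw [if_neg hx]
          have hx' : β₁ ≤ x := not_lt.mp hx
          split_ifs
          · unfold jump
            rw [hconst x hx', hconst _ (hx'.trans (Order.le_succ x)), sub_self]
          · rfl
      rw [h1, hconst β₁ le_rfl]
    · exact ⟨β₀, lt_top_iff_ne_top.mpr htop, hβ₀⟩
  obtain ⟨β₂, hβ₂, hβ₂'⟩ := hex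
  have hne : {β : K | Rf β y = 1}.Nonempty := ⟨β₂, hβ₂'⟩
  set β := (wellFounded_lt (α := K)).min {β : K | Rf β y = 1} hne with hβ
  have hmem : Rf β y = 1 := (wellFounded_lt (α := K)).min_mem _ hne
  have hmin : ∀ γ, Rf γ y = 1 → ¬ γ < β := fun γ hγ =>
    (wellFounded_lt (α := K)).not_lt_min _ (show γ ∈ {β : K | Rf β y = 1} from hγ)
  refine ⟨β, lt_of_le_of_lt (not_lt.mp (hmin β₂ hβ₂')) hβ₂, hmem, fun γ hγ => ?_⟩
  have h1 := Rf_le_Qf γ y
  rw [hy] at h1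
  exact lt_of_le_of_ne h1 fun h2 => hmin γ h2 hγ

omit [WellFoundedLT K] [CompactSpace K] in
lemma exists_cut (y : C(K, ℝ)) (β : K) (hβ : β < ⊤) :
    ∃ w : C(K, ℝ), (∀ x ≤ β, w x = y x) ∧ ∀ x, β < x → w x = -1 / 2 := by
  have hclopen : IsClopen (Iic β) := by
    refine ⟨isClosed_Iic, ?_⟩
    rw [← Order.Iio_succ_of_not_isMax (not_isMax_of_lt hβ)]
    exact isOpen_Iio
  refine ⟨⟨fun x => if x ≤ β then y x else -1 / 2, ?_⟩, fun x hx => ?_, fun x hx => ?_⟩
  · refine Continuous.if (fun a ha => ?_) y.continuous continuous_const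
    have : frontier {x | x ≤ β} = ∅ := hclopen.frontier_eq
    rw [this] at ha
    exact absurd ha (notMem_empty a)
  · simp [hx]
  · simp [not_le.mpr hx]

/-- The set of representatives. -/
def W (K : Type*) [LinearOrder K] [SuccOrder K] [BoundedOrder K]
    [TopologicalSpace K] [CompactSpace K] : Set C(K, ℝ) :=
  {w | Qf w = 1 ∧ ∃ β < (⊤ : K), Rf β w = 1 ∧ (∀ γ < β, Rf γ w < 1) ∧ ∀ x, β < x → w x = -1 / 2}

theorem exists_unique_W (hbt : (⊥ : K) < ⊤) (hC : Cof K) (y : C(K, ℝ)) (hy : Qf y = 1) :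
    ∃ w ∈ W K, w ⊥ = y ⊥ ∧ Qf ((1 / 2 : ℝ) • y + (1 / 2 : ℝ) • w) = 1 ∧
      ∀ w' ∈ W K, Qf ((1 / 2 : ℝ) • y + (1 / 2 : ℝ) • w') = 1 → w' = w := by
  obtain ⟨β, hβ, hβ1, hβ2⟩ := exists_tight hbt hC y hy
  obtain ⟨w, hw1, hw2⟩ := exists_cut y β hβ
  have hyle : ∀ x, |y x| ≤ 1 := by
    intro x
    have h1 := sq_le_Qf x y
    rw [hy] at h1
    exact (sq_le_one_iff_abs_le_one _).mp h1
  have hwle : ‖w‖ ≤ 1 := by
    rw [ContinuousMap.norm_le _ zero_le_one]
    intro x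
    rw [Real.norm_eq_abs]
    by_cases hx : x ≤ β
    · rw [hw1 x hx]
      exact hyle x
    · rw [hw2 x (not_le.mp hx)]
      norm_num [abs_le]
  have hRle : ∀ γ ≤ β, Rf γ w = Rf γ y := fun γ hγ =>
    Rf_congr fun x hx => hw1 x (hx.trans hγ)
  have hRgt : ∀ γ, β < γ → Rf γ w ≤ 1 := by
    intro γ hγ
    have h1 := E_jb_le γ w
    have h2 : ‖w‖ ^ 2 ≤ 1 := pow_le_one₀ (norm_nonneg _) hwle
    unfold Rf
    rw [hw2 γ hγ]
    nlinarith
  have hQw : Qf w = 1 := by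
    refine le_antisymm (Qf_le w fun γ => ?_) ?_
    · by_cases hγ : γ ≤ β
      · rw [hRle γ hγ, ← hy]
        exact Rf_le_Qf γ y
      · exact hRgt γ (not_le.mp hγ)
    · rw [← hβ1, ← hRle β le_rfl]
      exact Rf_le_Qf β w
  have hwW : w ∈ W K := by
    refine ⟨hQw, β, hβ, ?_, fun γ hγ => ?_, hw2⟩
    · rw [hRle β le_rfl, hβ1]
    · rw [hRle γ hγ.le]
      exact hβ2 γ hγ
  refine ⟨w, hwW, hw1 ⊥ bot_le, ?_, ?_⟩
  · refine le_antisymm ?_ ?_
    · have := Qf_convex y w (s := 1 / 2) (t := 1 / 2) (by norm_num) (by norm_num) (by norm_num)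
      rw [hy, hQw] at this
      linarith
    · have h1 : Rf β ((1 / 2 : ℝ) • y + (1 / 2 : ℝ) • w) = Rf β y := by
        refine Rf_congr fun x hx => ?_
        simp only [ContinuousMap.add_apply, ContinuousMap.smul_apply, smul_eq_mul]
        rw [hw1 x hx]
        ring
      have h2 := Rf_le_Qf β ((1 / 2 : ℝ) • y + (1 / 2 : ℝ) • w)
      linarith
  · rintro w' ⟨hQ', δ, hδ, hδ1, hδ2, hδ3⟩ hadj
    obtain ⟨β', hagree, hy', hw'⟩ := adj hy hQ' hadj
    have hββ' : β ≤ β' := by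
      by_contra hlt
      exact absurd hy' (ne_of_lt (hβ2 β' (not_le.mp hlt)))
    have hδβ' : δ ≤ β' := by
      by_contra hlt
      exact absurd hw' (ne_of_lt (hδ2 β' (not_le.mp hlt)))
    have h1 : Rf β w' = 1 := by
      rw [← hβ1]
      exact (Rf_congr fun x hx => hagree x (hx.trans hββ')).symm
    have h2 : Rf δ y = 1 := by
      rw [← hδ1]
      exact Rf_congr fun x hx => hagree x (hx.trans hδβ')
    have h3 : δ ≤ β := by
      by_contra hlt
      exact absurd h1 (ne_of_lt (hδ2 β (not_le.mp hlt)))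
    have h4 : β ≤ δ := by
      by_contra hlt
      exact absurd h2 (ne_of_lt (hβ2 δ (not_le.mp hlt)))
    have h5 : δ = β := le_antisymm h3 h4
    subst h5
    ext x
    by_cases hx : x ≤ δ
    · rw [hw1 x hx, ← hagree x (hx.trans hδβ')]
    · rw [hw2 x (not_le.mp hx), hδ3 x (not_le.mp hx)]

end Pool.Agent.Helper538.Rem
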