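import Mathlib
import Pool.Agent.Helper538.RemC

/-!
Helper file for S02672 (MP_17c3bf_an): the renormed space, the uniquely remotal set.
-/

set_option autoImplicit false

namespace Pool.Agent.Helper538.Rem

open Set Topology Filter

/-- Type synonym for `C(K, ℝ)` with the norm `√Qf`. -/
def YN (K : Type*) [TopologicalSpace K] : Type _ := C(K, ℝ)

section
variable {K : Type*} [TopologicalSpace K]

noncomputable instance : AddCommGroup (YN K) := inferInstanceAs (AddCommGroup C(K, ℝ))
noncomputable instance : Module ℝ (YN K) := inferInstanceAs (Module ℝ C(K, ℝ))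
end

section
variable {K : Type*} [LinearOrder K] [SuccOrder K] [BoundedOrder K]
  [TopologicalSpace K] [CompactSpace K]

noncomputable instance : Norm (YN K) := ⟨fun g => √(Qf (K := K) g)⟩

lemma YN.norm_def (g : YN K) : ‖g‖ = √(Qf (K := K) g) := rfl

/-- The identity as a linear equivalence. -/
noncomputable def toC (K : Type*) [TopologicalSpace K] : YN K ≃ₗ[ℝ] C(K, ℝ) :=
  LinearEquiv.refl ℝ C(K, ℝ)

theorem YN.core : NormedSpace.Core ℝ (YN K) where
  norm_nonneg g := Real.sqrt_nonneg _
  norm_smul c g := by
    rw [YN.norm_def, YN.norm_def, Real.norm_eq_abs]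
    exact sqrt_Qf_smul (K := K) g c
  norm_triangle g h := sqrt_Qf_add_le (K := K) g h
  norm_eq_zero_iff g := by
    constructor
    · intro h
      rw [YN.norm_def, Real.sqrt_eq_zero (Qf_nonneg (K := K) g)] at h
      exact Qf_eq_zero (K := K) h
    · rintro rfl
      rw [YN.norm_def]
      have : Qf (K := K) (0 : C(K, ℝ)) = 0 := Qf_zero
      change √(Qf (K := K) (0 : C(K, ℝ))) = 0
      rw [this, Real.sqrt_zero]

noncomputable instance : NormedAddCommGroup (YN K) := NormedAddCommGroup.ofCore YN.core
noncomputable instance : NormedSpace ℝ (YN K) := NormedSpace.ofCore YN.core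

/-- The identity as a continuous linear equivalence. -/
noncomputable def toCL (K : Type*) [LinearOrder K] [SuccOrder K] [BoundedOrder K]
    [TopologicalSpace K] [CompactSpace K] : YN K ≃L[ℝ] C(K, ℝ) :=
  (toC K).toContinuousLinearEquivOfBounds 1 (√2)
    (fun g => by
      rw [one_mul]
      exact norm_sq_le_Qf (K := K) (toC K g))
    (fun g => by
      have h1 := Qf_le_norm (K := K) g
      change √(Qf (K := K) g) ≤ √2 * ‖g‖
      calc √(Qf (K := K) g) ≤ √(2 * ‖g‖ ^ 2) := Real.sqrt_le_sqrt h1
        _ = √2 * ‖g‖ := by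
            rw [Real.sqrt_mul (by norm_num), Real.sqrt_sq (norm_nonneg _)])

instance : CompleteSpace (YN K) := by
  have h := (toCL K).symm.toContinuousLinearMap
  exact (completeSpace_congr (e := (toCL K).toEquiv) (toCL K).isUniformEmbedding).mpr inferInstance

/-- Evaluation at the top. -/
noncomputable def evTop (K : Type*) [LinearOrder K] [SuccOrder K] [BoundedOrder K]
    [TopologicalSpace K] [CompactSpace K] : YN K →L[ℝ] ℝ :=
  (ContinuousMap.evalCLM ℝ (⊤ : K)).comp (toCL K).toContinuousLinearMap

lemma evTop_apply (g : YN K) : evTop K g = (toC K g) ⊤ := rfl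

end

end Pool.Agent.Helper538.Rem
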