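import Mathlib
import Pool.Agent.Helper538.RemD

/-!
Helper file for S02672 (MP_17c3bf_an): the main theorem for an abstract well-ordered compact `K`.
-/

set_option autoImplicit false

namespace Pool.Agent.Helper538.Rem

open Set Topology Filter

/-- Additivity of the norm passes to positive multiples. -/
lemma norm_add_smul {V : Type*} [NormedAddCommGroup V] [NormedSpace ℝ V] {u v : V}
    (h : ‖u + v‖ = ‖u‖ + ‖v‖) {s t : ℝ} (hs : 0 ≤ s) (ht : 0 ≤ t) :
    ‖s • u + t • v‖ = s * ‖u‖ + t * ‖v‖ := by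
  refine le_antisymm ?_ ?_
  · calc ‖s • u + t • v‖ ≤ ‖s • u‖ + ‖t • v‖ := norm_add_le _ _
      _ = s * ‖u‖ + t * ‖v‖ := by
        rw [norm_smul, norm_smul, Real.norm_of_nonneg hs, Real.norm_of_nonneg ht]
  · rcases le_total t s with hts | hts
    · have h1 : s • (u + v) = (s • u + t • v) + (s - t) • v := by
        rw [sub_smul, smul_add]
        abel
      have h2 : ‖s • (u + v)‖ ≤ ‖s • u + t • v‖ + ‖(s - t) • v‖ := by
        rw [h1]
        exact norm_add_le _ _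
      rw [norm_smul, norm_smul, Real.norm_of_nonneg hs, Real.norm_of_nonneg (sub_nonneg.mpr hts),
        h] at h2
      linarith
    · have h1 : t • (u + v) = (s • u + t • v) + (t - s) • u := by
        rw [sub_smul, smul_add]
        abel
      have h2 : ‖t • (u + v)‖ ≤ ‖s • u + t • v‖ + ‖(t - s) • u‖ := by
        rw [h1]
        exact norm_add_le _ _
      rw [norm_smul, norm_smul, Real.norm_of_nonneg ht, Real.norm_of_nonneg (sub_nonneg.mpr hts),
        h] at h2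
      linarith

section
variable {K : Type*} [LinearOrder K] [WellFoundedLT K] [SuccOrder K] [BoundedOrder K]
  [TopologicalSpace K] [OrderTopology K] [CompactSpace K]

omit [WellFoundedLT K] [CompactSpace K] in
lemma exists_ind (β : K) (hβ : β < ⊤) :
    ∃ w : C(K, ℝ), (∀ x ≤ β, w x = 1) ∧ ∀ x, β < x → w x = 0 := by
  have hclopen : IsClopen (Iic β) := by
    refine ⟨isClosed_Iic, ?_⟩
    rw [← Order.Iio_succ_of_not_isMax (not_isMax_of_lt hβ)]
    exact isOpen_Iio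
  refine ⟨⟨fun x => if x ≤ β then 1 else 0, ?_⟩, fun x hx => ?_, fun x hx => ?_⟩
  · refine Continuous.if (fun a ha => ?_) continuous_const continuous_const
    have : frontier {x | x ≤ β} = ∅ := hclopen.frontier_eq
    rw [this] at ha
    exact absurd ha (notMem_empty a)
  · simp [hx]
  · simp [not_le.mpr hx]

theorem not_finiteDimensional (hbt : (⊥ : K) < ⊤) (hC : Cof K) :
    ¬ FiniteDimensional ℝ (LinearMap.ker (evTop K : YN K →ₗ[ℝ] ℝ)) := by
  intro hfd
  have hne : Nonempty {x : K // x < ⊤} := ⟨⟨⊥, hbt⟩⟩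
  have hnm : NoMaxOrder {x : K // x < ⊤} := by
    refine ⟨fun a => ?_⟩
    obtain ⟨β, hβ, h⟩ := hC (fun _ => a.1) (fun _ => a.2)
    exact ⟨⟨β, hβ⟩, h 0⟩
  obtain ⟨f, hf⟩ := Nat.exists_strictMono {x : K // x < ⊤}
  choose u hu1 hu0 using fun (b : {x : K // x < ⊤}) => exists_ind b.1 b.2
  let e : ℕ → LinearMap.ker (evTop K : YN K →ₗ[ℝ] ℝ) := fun n =>
    ⟨(toC K).symm (u (f (n + 1)) - u (f n)), by
      rw [LinearMap.mem_ker]
      change (u (f (n + 1)) - u (f n) : C(K, ℝ)) ⊤ = 0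
      rw [ContinuousMap.sub_apply, hu0 _ _ (f (n + 1)).2, hu0 _ _ (f n).2, sub_self]⟩
  have heval : ∀ n m : ℕ, (toC K (e n).1) (f (m + 1)).1 = if n = m then 1 else 0 := by
    intro n m
    change (u (f (n + 1)) - u (f n) : C(K, ℝ)) (f (m + 1)).1 = _
    rw [ContinuousMap.sub_apply]
    rcases lt_trichotomy n m with h | h | h
    · have h1 : (f (n + 1)).1 < (f (m + 1)).1 := hf (by omega)
      have h2 : (f n).1 < (f (m + 1)).1 := hf (by omega)
      rw [hu0 _ _ h1, hu0 _ _ h2, if_neg h.ne, sub_self]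
    · subst h
      have h2 : (f n).1 < (f (n + 1)).1 := hf (by omega)
      rw [hu1 _ _ le_rfl, hu0 _ _ h2, if_pos rfl, sub_zero]
    · have h1 : (f (m + 1)).1 ≤ (f (n + 1)).1 := hf.monotone (by omega)
      have h2 : (f (m + 1)).1 ≤ (f n).1 := hf.monotone (by omega)
      rw [hu1 _ _ h1, hu1 _ _ h2, if_neg h.ne', sub_self]
  have hli : LinearIndependent ℝ e := by
    rw [linearIndependent_iff']
    intro s g hg i hi
    have h1 : (toC K ((∑ j ∈ s, g j • e j : LinearMap.ker (evTop K : YN K →ₗ[ℝ] ℝ)) : YN K))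
        (f (i + 1)).1 = 0 := by
      rw [hg]
      rfl
    have h2 : (toC K ((∑ j ∈ s, g j • e j : LinearMap.ker (evTop K : YN K →ₗ[ℝ] ℝ)) : YN K))
        (f (i + 1)).1 = ∑ j ∈ s, g j * (toC K (e j).1) (f (i + 1)).1 := by
      rw [Submodule.coe_sum, map_sum, ContinuousMap.coe_sum, Finset.sum_apply]
      refine Finset.sum_congr rfl fun j _ => ?_
      rw [Submodule.coe_smul, map_smul, ContinuousMap.smul_apply, smul_eq_mul]
    rw [h2] at h1
    simp only [heval, mul_ite, mul_one, mul_zero, Finset.sum_ite_eq', hi, if_true] at h1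
    exact h1
  have := hli.finite
  exact not_finite ℕ

end

theorem main (K : Type) [LinearOrder K] [WellFoundedLT K] [SuccOrder K] [BoundedOrder K]
    [TopologicalSpace K] [OrderTopology K] [CompactSpace K] (hbt : (⊥ : K) < ⊤) (hC : Cof K) :
    ¬ (∀ (X : Type) [NormedAddCommGroup X] [NormedSpace ℝ X] [CompleteSpace X],
      ¬ FiniteDimensional ℝ X →
      ∀ S : Set X,
        (∀ x : X, ∃! y : X, y ∈ S ∧ ∀ z ∈ S, dist x z ≤ dist x y) →
        ∃ a : X, S = {a}) := by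
  intro hall
  let X : Submodule ℝ (YN K) := LinearMap.ker (evTop K : YN K →ₗ[ℝ] ℝ)
  have hclosed : IsClosed (X : Set (YN K)) := (evTop K).isClosed_ker
  haveI : CompleteSpace X := hclosed.completeSpace_coe
  let one : YN K := (toC K).symm 1
  have hone : ∀ x, (toC K one) x = 1 := fun x => rfl
  let S : Set X := {x | ∃ w : YN K, toC K w ∈ W K ∧ (x : YN K) = -((2 : ℝ) • w) - one}
  -- facts on W
  have hnormW : ∀ w : YN K, toC K w ∈ W K → ‖w‖ = 1 := by
    intro w hw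
    change √(Qf (toC K w)) = 1
    rw [hw.1, Real.sqrt_one]
  have hWtop : ∀ w : YN K, toC K w ∈ W K → evTop K w = -1 / 2 := by
    rintro w ⟨_, β, hβ, _, _, hw⟩
    exact hw ⊤ hβ
  have hmemX : ∀ w : YN K, toC K w ∈ W K → -((2 : ℝ) • w) - one ∈ X := by
    intro w hw
    change evTop K (-((2 : ℝ) • w) - one) = 0
    have h1 : evTop K one = 1 := rfl
    rw [map_sub, map_neg, map_smul, hWtop w hw, h1, smul_eq_mul]
    norm_num
  have hQ1 : ∀ y : YN K, ‖y‖ = 1 → Qf (toC K y) = 1 := by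
    intro y hy
    change √(Qf (toC K y)) = 1 at hy
    exact Real.sqrt_eq_one.mp hy
  -- unit vector analysis
  have hkey : ∀ y : YN K, y ≠ 0 → ∃ w : YN K, toC K w ∈ W K ∧
      (toC K w) ⊥ = ‖y‖⁻¹ * (toC K y) ⊥ ∧ ‖y + (2 : ℝ) • w‖ = ‖y‖ + 2 ∧
      ∀ w' : YN K, toC K w' ∈ W K → ‖y + (2 : ℝ) • w'‖ = ‖y‖ + 2 → w' = w := by
    intro y hy0
    have hN : 0 < ‖y‖ := norm_pos_iff.mpr hy0
    set y' : YN K := ‖y‖⁻¹ • y with hy'
    have hy'1 : ‖y'‖ = 1 := by
      rw [hy', norm_smul, norm_inv, norm_norm, inv_mul_cancel₀ hN.ne']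
    have hyy' : y = ‖y‖ • y' := by
      rw [hy', smul_smul, mul_inv_cancel₀ hN.ne', one_smul]
    obtain ⟨w, hwW, hw0, hwadj, hwuniq⟩ := exists_unique_W hbt hC (toC K y') (hQ1 y' hy'1)
    refine ⟨(toC K).symm w, hwW, ?_, ?_, ?_⟩
    · change w ⊥ = _
      rw [hw0, hy', map_smul, ContinuousMap.smul_apply, smul_eq_mul]
    · have h1 : ‖y' + (toC K).symm w‖ = ‖y'‖ + ‖(toC K).symm w‖ := by
        have h2 : ‖(1 / 2 : ℝ) • y' + (1 / 2 : ℝ) • (toC K).symm w‖ = 1 := by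
          change √(Qf ((1 / 2 : ℝ) • toC K y' + (1 / 2 : ℝ) • w)) = 1
          rw [hwadj, Real.sqrt_one]
        rw [← smul_add, norm_smul] at h2
        rw [hy'1, hnormW ((toC K).symm w) hwW]
        norm_num at h2
        linarith
      have h3 := norm_add_smul h1 hN.le (zero_le_two (α := ℝ))
      rw [← hyy', hy'1, hnormW ((toC K).symm w) hwW] at h3
      linarith
    · intro w' hw' hadj'
      have h1 : ‖y + (2 : ℝ) • w'‖ = ‖y‖ + ‖(2 : ℝ) • w'‖ := by
        rw [hadj', norm_smul, hnormW w' hw']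
        norm_num
      have h2 := norm_add_smul h1 (s := 1 / 2 * ‖y‖⁻¹) (t := 1 / 4) (by positivity) (by norm_num)
      rw [norm_smul (2 : ℝ) w', hnormW w' hw'] at h2
      have h3 : (1 / 2 * ‖y‖⁻¹) • y + (1 / 4 : ℝ) • (2 : ℝ) • w'
          = (1 / 2 : ℝ) • y' + (1 / 2 : ℝ) • w' := by
        rw [hy', smul_smul, smul_smul]
        norm_num
      rw [h3] at h2
      have h4 : ‖(1 / 2 : ℝ) • y' + (1 / 2 : ℝ) • w'‖ = 1 := by
        rw [h2, mul_assoc, inv_mul_cancel₀ hN.ne']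
        norm_num
      have h5 := hQ1 _ h4
      have h6 := hwuniq (toC K w') hw' h5
      rw [← h6]
      rfl
  have hdist : ∀ (x z : X) (w : YN K), (z : YN K) = -((2 : ℝ) • w) - one →
      dist x z = ‖((x : YN K) + one) + (2 : ℝ) • w‖ := by
    intro x z w hz
    rw [dist_eq_norm]
    change ‖(x : YN K) - (z : YN K)‖ = _
    rw [hz]
    congr 1
    abel
  have hx1 : ∀ x : X, (x : YN K) + one ≠ 0 := by
    intro x hx
    have h1 : evTop K ((x : YN K) + one) = 1 := by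
      rw [map_add]
      have h2 : evTop K (x : YN K) = 0 := x.2
      have h3 : evTop K one = 1 := rfl
      rw [h2, h3, zero_add]
    rw [hx, map_zero] at h1
    exact zero_ne_one h1
  have huniq : ∀ x : X, ∃! y : X, y ∈ S ∧ ∀ z ∈ S, dist x z ≤ dist x y := by
    intro x
    obtain ⟨w, hwW, _, hw1, hw2⟩ := hkey _ (hx1 x)
    refine ⟨⟨-((2 : ℝ) • w) - one, hmemX w hwW⟩, ⟨⟨w, hwW, rfl⟩, ?_⟩, ?_⟩
    · rintro z ⟨w', hw', hz⟩
      rw [hdist x z w' hz, hdist x _ w rfl, hw1]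
      calc ‖((x : YN K) + one) + (2 : ℝ) • w'‖ ≤ ‖(x : YN K) + one‖ + ‖(2 : ℝ) • w'‖ :=
            norm_add_le _ _
        _ = ‖(x : YN K) + one‖ + 2 := by
            rw [norm_smul, hnormW w' hw']
            norm_num
    · rintro z ⟨⟨w', hw', hz⟩, hfar⟩
      have h1 := hfar ⟨-((2 : ℝ) • w) - one, hmemX w hwW⟩ ⟨w, hwW, rfl⟩
      rw [hdist x z w' hz, hdist x _ w rfl, hw1] at h1
      have h2 : ‖((x : YN K) + one) + (2 : ℝ) • w'‖ ≤ ‖(x : YN K) + one‖ + 2 := by
        calc ‖((x : YN K) + one) + (2 : ℝ) • w'‖ ≤ ‖(x : YN K) + one‖ + ‖(2 : ℝ) • w'‖ :=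
              norm_add_le _ _
          _ = ‖(x : YN K) + one‖ + 2 := by
              rw [norm_smul, hnormW w' hw']
              norm_num
      have h3 := hw2 w' hw' (le_antisymm h2 h1)
      subst h3
      exact Subtype.ext hz
  obtain ⟨a, ha⟩ := hall X (not_finiteDimensional hbt hC) S huniq
  -- two distinct points
  have hone0 : one ≠ 0 := by
    intro h
    have h1 : (toC K one) ⊥ = 1 := rfl
    rw [h, map_zero] at h1
    exact zero_ne_one h1
  have hN : 0 < ‖one‖ := norm_pos_iff.mpr hone0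
  obtain ⟨w₁, hw₁, hw₁b, _⟩ := hkey one hone0
  obtain ⟨w₂, hw₂, hw₂b, _⟩ := hkey (-one) (neg_ne_zero.mpr hone0)
  have h1 : (⟨-((2 : ℝ) • w₁) - one, hmemX w₁ hw₁⟩ : X) ∈ S := ⟨w₁, hw₁, rfl⟩
  have h2 : (⟨-((2 : ℝ) • w₂) - one, hmemX w₂ hw₂⟩ : X) ∈ S := ⟨w₂, hw₂, rfl⟩
  rw [ha, mem_singleton_iff] at h1 h2
  have h3 : -((2 : ℝ) • w₁) - one = -((2 : ℝ) • w₂) - one :=
    (Subtype.ext_iff.mp h1).trans (Subtype.ext_iff.mp h2).symm
  have h4 : w₁ = w₂ := by
    have h5 : (2 : ℝ) • w₁ = (2 : ℝ) • w₂ := neg_injective (sub_left_injective h3)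
    exact smul_right_injective _ (two_ne_zero (α := ℝ)) h5
  rw [h4, hw₂b, norm_neg, map_neg, ContinuousMap.neg_apply, hone] at hw₁b
  have h6 : 0 < ‖one‖⁻¹ := inv_pos.mpr hN
  linarith

end Pool.Agent.Helper538.Rem
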