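import Mathlib
import Pool.Agent.Helper538.RemE

/-!
Helper file for S02672 (MP_17c3bf_an): the space `[0, ω₁]` as a type in `Type`.
-/

set_option autoImplicit false

namespace Pool.Agent.Helper538.Rem

open Set Ordinal

/-- The countable ordinals, as a type in `Type`. -/
abbrev Om : Type := (Ordinal.omega 1 : Ordinal.{0}).ToType

lemma om_cof (f : ℕ → Om) : ∃ b : Om, ∀ n, f n < b := by
  have h1 : ∀ n, (ToType.toOrd (f n) : Ordinal.{0}) < Ordinal.omega 1 := fun n =>
    (ToType.toOrd (f n)).2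
  have h2 : (⨆ n, (ToType.toOrd (f n) : Ordinal.{0})) < Ordinal.omega 1 :=
    Ordinal.iSup_lt_omega_one h1
  have h3 : Order.succ (⨆ n, (ToType.toOrd (f n) : Ordinal.{0})) < Ordinal.omega 1 :=
    (Cardinal.isSuccLimit_omega 1).succ_lt h2
  refine ⟨ToType.mk ⟨_, h3⟩, fun n => ?_⟩
  have h4 : (ToType.toOrd (f n)) < (⟨_, h3⟩ : Set.Iio (Ordinal.omega 1 : Ordinal.{0})) := by
    rw [Subtype.mk_lt_mk.symm.symm]
    change (ToType.toOrd (f n) : Ordinal.{0}) < _
    exact Order.lt_succ_of_le (Ordinal.le_iSup (fun n => (ToType.toOrd (f n) : Ordinal.{0})) n)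
  have h5 := ToType.mk.strictMono h4
  simpa [ToType.toOrd] using h5

end Pool.Agent.Helper538.Rem
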