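import Pool.Agent.Helper538.SyncA

set_option autoImplicit false

namespace Pool.Agent.Helper538.Sync

open Cardinal Set

/-- Countably many rational parameters: three intervals, a parity and a size. -/
structure CP where
  a : ℚ
  b : ℚ
  a1 : ℚ
  b1 : ℚ
  a2 : ℚ
  b2 : ℚ
  k : ZMod 2
  K : ℕ

instance : Countable CP := by
  have : Function.Injective (fun c : CP => (c.a, c.b, c.a1, c.b1, c.a2, c.b2, c.k, c.K)) := by
    rintro ⟨⟩ ⟨⟩ h
    simp only [Prod.mk.injEq] at h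
    obtain ⟨h1, h2, h3, h4, h5, h6, h7, h8⟩ := h
    subst h1 h2 h3 h4 h5 h6 h7 h8
    rfl
  exact this.countable

section

variable {I : Type} [LinearOrder I]

/-- The point `i` and the finite set `s` satisfy the rational conditions `c`. -/
def InU (r : I → ℝ) (c : CP) (i : I) (s : Finset I) : Prop :=
  (c.a : ℝ) < r i ∧ r i < c.b ∧ s.card = c.K ∧
    ((s.filter fun γ => r γ ≤ c.a2).card : ZMod 2) = c.k ∧
    ∃ γ ∈ s, (c.a1 : ℝ) < r γ ∧ r γ < c.b1 ∧ (c.a2 : ℝ) < r γ ∧ r γ < c.b2 ∧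
      ∀ γ' ∈ s, (c.a2 : ℝ) < r γ' → r γ' < c.b2 → γ' = γ

/-- Everything in the pair is below `σ`. -/
def Guard (σ : I) (p : I × (I →₀ ZMod 2)) : Prop := p.1 < σ ∧ Below σ p.2

variable (code : I → ℕ → I × (I →₀ ZMod 2))

/-- Parameters of the tests at stage `σ`. -/
abbrev Par (σ : I) : Type :=
  (Set.Iio σ × CP × ZMod 2) ⊕
  ((Set.Iio σ × {v : I →₀ ZMod 2 // Below σ v} × ZMod 2) ⊕
   (Set.Iio σ × CP × Finset (Set.Iio σ) × Option (Set.Iio σ) ×
      {v : I →₀ ZMod 2 // Below σ v} × ZMod 2 × ZMod 2))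

/-- First kind: single points satisfying rational conditions. -/
def test1 (σ : I) (r : I → ℝ) (ξ : I) (c : CP) (ε : ZMod 2) : Test I where
  T := {x | ∃ n, Guard σ (code ξ n) ∧ InU r c (code ξ n).1 (code ξ n).2.support ∧
    x = ({(code ξ n).1}, (code ξ n).1, ε)}
  R := ∅
  K := 1

/-- Second kind: single points whose vectors are not adjacent to `v`. -/
def test2 (σ : I) (N : I → I → ZMod 2) (ξ : I) (v : I →₀ ZMod 2) (ε : ZMod 2) : Test I where
  T := {x | ∃ n, Guard σ (code ξ n) ∧ ¬ ((code ξ n).2 ≠ v ∧ qf N ((code ξ n).2 + v) = ε) ∧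
    x = ({(code ξ n).1}, (code ξ n).1, ε)}
  R := ∅
  K := 1

/-- Third kind: supports satisfying rational conditions and containing the root. -/
def test3 (σ : I) (r : I → ℝ) (N : I → I → ZMod 2) (ξ : I) (c : CP) (R : Finset I)
    (b : Option I) (v : I →₀ ZMod 2) (bit ε : ZMod 2) : Test I where
  T := {x | ∃ n, Guard σ (code ξ n) ∧ InU r c (code ξ n).1 (code ξ n).2.support ∧
    R ⊆ (code ξ n).2.support ∧ (∀ τ ∈ b, N τ (code ξ n).1 = ε) ∧
    x.1 = (code ξ n).2.support ∧ x.2.1 ∈ x.1 ∧ (c.a2 : ℝ) < r x.2.1 ∧ r x.2.1 < c.b2 ∧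
    x.2.2 = qf N (code ξ n).2 + bf N (code ξ n).2 v + bit}
  R := R
  K := c.K

/-- The tests at stage `σ`. -/
def tests (σ : I) (r : I → ℝ) (N : I → I → ZMod 2) : Par σ → Test I
  | Sum.inl (ξ, c, ε) => test1 code σ r ξ c ε
  | Sum.inr (Sum.inl (ξ, v, ε)) => test2 code σ N ξ v ε
  | Sum.inr (Sum.inr (ξ, c, R, b, v, bit, ε)) =>
      test3 code σ r N ξ c (R.map (Function.Embedding.subtype _)) (b.map Subtype.val) v bit ε

theorem mk_par_lt (σ : I) (hσ : #(Set.Iio σ) < 𝔠) : #(Par σ) < 𝔠 := by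
  have hB : #{v : I →₀ ZMod 2 // Below σ v} < 𝔠 := mk_below_lt hσ
  have hF : #(Finset (Set.Iio σ)) < 𝔠 := mk_finset_lt_continuum hσ
  have hO : #(Option (Set.Iio σ)) < 𝔠 := by
    rw [Cardinal.mk_option]
    exact Cardinal.add_lt_of_lt Cardinal.aleph0_le_continuum hσ
      (Cardinal.one_lt_aleph0.trans Cardinal.aleph0_lt_continuum)
  have hC : #CP < 𝔠 := mk_countable_lt_continuum
  have hZ : #(ZMod 2) < 𝔠 := mk_countable_lt_continuum
  refine mk_sum_lt_continuum (mk_prod_lt_continuum hσ (mk_prod_lt_continuum hC hZ))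
    (mk_sum_lt_continuum (mk_prod_lt_continuum hσ (mk_prod_lt_continuum hB hZ))
      (mk_prod_lt_continuum hσ (mk_prod_lt_continuum hC (mk_prod_lt_continuum hF
        (mk_prod_lt_continuum hO (mk_prod_lt_continuum hB (mk_prod_lt_continuum hZ hZ)))))))

theorem tests_wf (σ : I) (r : I → ℝ) (N : I → I → ZMod 2) (p : Par σ) :
    ∀ x ∈ (tests code σ r N p).T, (∀ γ ∈ x.1, γ < σ) ∧ x.2.1 < σ := by
  rcases p with ⟨ξ, c, ε⟩ | ⟨ξ, v, ε⟩ | ⟨ξ, c, R, b, v, bit, ε⟩
  · rintro x ⟨n, hg, -, rfl⟩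
    refine ⟨fun γ hγ => ?_, hg.1⟩
    rw [Finset.mem_singleton.mp hγ]
    exact hg.1
  · rintro x ⟨n, hg, -, rfl⟩
    refine ⟨fun γ hγ => ?_, hg.1⟩
    rw [Finset.mem_singleton.mp hγ]
    exact hg.1
  · rintro x ⟨n, hg, -, -, -, hx1, hx2, -, -, -⟩
    rw [hx1] at hx2 ⊢
    exact ⟨hg.2, hg.2 _ hx2⟩

theorem tests_card (σ : I) (r : I → ℝ) (N : I → I → ZMod 2) (p : Par σ) :
    ∀ x ∈ (tests code σ r N p).T, x.1.card ≤ (tests code σ r N p).K := by
  rcases p with ⟨ξ, c, ε⟩ | ⟨ξ, v, ε⟩ | ⟨ξ, c, R, b, v, bit, ε⟩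
  · rintro x ⟨n, hg, -, rfl⟩
    simp [tests, test1]
  · rintro x ⟨n, hg, -, rfl⟩
    simp [tests, test2]
  · rintro x ⟨n, hg, hU, -, -, hx1, -⟩
    rw [hx1]
    exact hU.2.2.1.le

/-- Tasks: finite prescriptions, or a sequence of pairs with a value. -/
abbrev TaskT (I : Type) : Type :=
  (Finset I × Finset I) ⊕ ((ℕ → (I →₀ ZMod 2) × (I →₀ ZMod 2)) × ZMod 2)

/-- The task is fulfilled by the values `M` at `σ`. -/
def TaskOK (σ : I) (N : I → I → ZMod 2) (M : I → ZMod 2) : TaskT I → Prop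
  | Sum.inl (G, G1) => ∀ γ ∈ G, M γ = if γ ∈ G1 then 1 else 0
  | Sum.inr (z, ε) => Free z → (∀ n, Below σ (z n).1 ∧ Below σ (z n).2) →
      ∃ A : Set ℕ, (∀ n ∈ A, ev M (z n).1 = ε + qf N (z n).1) ∧
        ∀ w, Below σ w → ∀ bit : ZMod 2,
          ∃ n ∈ A, ev M (z n).2 ≠ bf N w (z n).2 + qf N (z n).2 + bit

/-- The requirement at stage `σ`. -/
def Good (task : I → TaskT I) (σ : I) (r : I → ℝ) (N : I → I → ZMod 2) (ρ : ℝ)
    (M : I → ZMod 2) : Prop :=
  (∀ γ < σ, r γ ≠ ρ) ∧ TaskOK σ N M (task σ) ∧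
  ∃ C : Set I, Thin C ∧ (∀ γ, γ ∉ C → M γ = if r γ < ρ then 1 else 0) ∧
    ∀ p : Par σ, Hyp r ρ (tests code σ r N p) → Conc r ρ C (tests code σ r N p)

end

theorem exists_good {I : Type} [LinearOrder I] [WellFoundedLT I]
    (code : I → ℕ → I × (I →₀ ZMod 2)) (task : I → TaskT I) (σ : I)
    (hσ : #(Set.Iio σ) < 𝔠) (r : I → ℝ) (N : I → I → ZMod 2) :
    ∃ ρ M, Good code task σ r N ρ M := by
  classical
  obtain ⟨ρ, hρ, hrich⟩ := choose_rho σ hσ r (mk_par_lt σ hσ) (tests code σ r N)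
    (tests_wf code σ r N)
  have base : ∀ C : Finset I, ∀ M : I → ZMod 2, (∀ γ, γ ∉ C → M γ = if r γ < ρ then 1 else 0) →
      TaskOK σ N M (task σ) → Good code task σ r N ρ M := fun C M hM ht =>
    ⟨hρ, ht, (C : Set I), thin_finite C, fun γ hγ => hM γ (by simpa using hγ),
      fun p hp => (hrich p hp).conc_finite C⟩
  rcases htask : task σ with ⟨G, G1⟩ | ⟨z, ε⟩
  · refine ⟨ρ, fun γ => if γ ∈ G then (if γ ∈ G1 then 1 else 0) else
      (if r γ < ρ then 1 else 0), base G _ (fun γ hγ => if_neg hγ) ?_⟩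
    rw [htask]
    intro γ hγ
    exact if_pos hγ
  · by_cases hfree : Free z
    · obtain ⟨φ, hφ, a, b, hpiv⟩ := exists_pivots z hfree
      obtain ⟨A, hAinf, hAd⟩ := ad_family
      have hΞ : #(ℕ → Bool) = 𝔠 := by
        rw [← Cardinal.power_def, Cardinal.mk_bool, Cardinal.mk_nat,
          Cardinal.two_power_aleph0]
      obtain ⟨h, hh⟩ := choose_ad (r := r) (ρ := ρ) (mk_par_lt σ hσ) (tests code σ r N)
        (tests_card code σ r N) hΞ (fun h => a '' A h ∪ b '' A h)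
        (fun h h' hne => hpiv.inter_finite (hAd h h' hne))
      have hPnew : #({w : I →₀ ZMod 2 // Below σ w} × ZMod 2) < 𝔠 :=
        mk_prod_lt_continuum (mk_below_lt hσ) mk_countable_lt_continuum
      obtain ⟨Q, hQ⟩ := exists_new hPnew (hAinf h) (fun p n =>
        bf N p.1.1 (z (φ n)).2 + qf N (z (φ n)).2 + p.2)
      obtain ⟨M, hM1, hM2⟩ := hpiv.solve (A h) (fun γ => if r γ < ρ then 1 else 0)
        (fun n => ε + qf N (z (φ n)).1) Q
      refine ⟨ρ, M, hρ, ?_, a '' A h ∪ b '' A h, thin_two hpiv.ma hpiv.mb _, hM1,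
        fun p hp => hh p (hrich p hp)⟩
      rw [htask]
      intro _ _
      refine ⟨φ '' A h, ?_, ?_⟩
      · rintro _ ⟨n, hn, rfl⟩
        exact (hM2 n hn).1
      · intro w hw bit
        obtain ⟨n, hn, hne⟩ := hQ (⟨w, hw⟩, bit)
        refine ⟨φ n, ⟨n, hn, rfl⟩, ?_⟩
        have := (hM2 n hn).2
        simp only [Function.comp] at this
        rw [this]
        exact hne
    · refine ⟨ρ, fun γ => if r γ < ρ then 1 else 0, base ∅ _ (fun γ _ => rfl) ?_⟩
      rw [htask]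
      intro hf
      exact absurd hf hfree

/-- Truncation below `σ`. -/
noncomputable def trc {I X : Type} [LinearOrder I] [Inhabited X] (σ : I) (g : I → X) : I → X :=
  fun τ => if τ < σ then g τ else default

theorem trc_eq {I X : Type} [LinearOrder I] [Inhabited X] {σ τ : I} (g : I → X) (h : τ < σ) :
    trc σ g τ = g τ := if_pos h

theorem exists_structure {I : Type} [LinearOrder I] [WellFoundedLT I]
    (code : I → ℕ → I × (I →₀ ZMod 2)) (task : I → TaskT I)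
    (hI : ∀ σ : I, #(Set.Iio σ) < 𝔠) :
    ∃ (r : I → ℝ) (N : I → I → ZMod 2), ∀ σ,
      Good code task σ (trc σ r) (trc σ N) (r σ) (N σ) := by
  obtain ⟨g, hg⟩ := rec_exists (X := ℝ × (I → ZMod 2))
    (fun σ prev x => Good code task σ (fun τ => (prev τ).1) (fun τ => (prev τ).2) x.1 x.2)
    (fun σ prev => by
      obtain ⟨ρ, M, h⟩ := exists_good code task σ (hI σ) (fun τ => (prev τ).1)
        (fun τ => (prev τ).2)
      exact ⟨(ρ, M), h⟩)
  refine ⟨fun σ => (g σ).1, fun σ => (g σ).2, fun σ => ?_⟩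
  have h := hg σ
  have e1 : (fun τ => (if τ < σ then g τ else default).1) = trc σ (fun σ => (g σ).1) := by
    funext τ
    unfold trc
    split_ifs <;> rfl
  have e2 : (fun τ => (if τ < σ then g τ else default).2) = trc σ (fun σ => (g σ).2) := by
    funext τ
    unfold trc
    split_ifs <;> rfl
  rw [e1, e2] at h
  exact h

end Pool.Agent.Helper538.Sync
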