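import Pool.Agent.Helper538.SyncB

set_option autoImplicit false

namespace Pool.Agent.Helper538.Sync

open Cardinal Set

/-- All the data of the construction. -/
structure Setup (I : Type) [LinearOrder I] [WellFoundedLT I] where
  code : I → ℕ → I × (I →₀ ZMod 2)
  task : I → TaskT I
  r : I → ℝ
  N : I → I → ZMod 2
  small : ∀ σ : I, #(Set.Iio σ) < 𝔠
  card : #I = 𝔠
  code_surj : Function.Surjective code
  task_big : ∀ t, #{σ // task σ = t} = 𝔠
  good : ∀ σ, Good code task σ (trc σ r) (trc σ N) (r σ) (N σ)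

namespace Setup

variable {I : Type} [LinearOrder I] [WellFoundedLT I] (S : Setup I)

theorem r_inj : Function.Injective S.r := by
  intro a b hab
  by_contra hne
  rcases lt_or_gt_of_ne hne with h | h
  · exact (S.good b).1 a h (by rw [trc_eq _ h, hab])
  · exact (S.good a).1 b h (by rw [trc_eq _ h, hab])

include S in
theorem bounded {A : Set I} (hA : A.Countable) : ∃ δ, ∀ s ∈ A, s < δ := by
  by_contra hcon
  push Not at hcon
  have hcov : (Set.univ : Set I) ⊆ ⋃ s : A, Set.Iic (s : I) := by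
    intro x _
    obtain ⟨s, hs, hle⟩ := hcon x
    exact Set.mem_iUnion.mpr ⟨⟨s, hs⟩, hle⟩
  have hsmall : ∀ s : A, #(Set.Iic (s : I)) < 𝔠 := by
    intro s
    have : Set.Iic (s : I) = Set.Iio (s : I) ∪ {(s : I)} := by
      ext x; simp [le_iff_lt_or_eq]
    rw [this]
    refine (Cardinal.mk_union_le _ _).trans_lt
      (Cardinal.add_lt_of_lt Cardinal.aleph0_le_continuum (S.small s) ?_)
    rw [Cardinal.mk_singleton]
    exact Cardinal.one_lt_aleph0.trans Cardinal.aleph0_lt_continuum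
  have h1 : #I ≤ Cardinal.sum fun s : A => #(Set.Iic (s : I)) := by
    rw [← Cardinal.mk_univ]
    exact (Cardinal.mk_le_mk_of_subset hcov).trans (Cardinal.mk_iUnion_le_sum_mk)
  have h2 := Cardinal.sum_lt_prod (fun s : A => #(Set.Iic (s : I))) (fun _ => 𝔠) hsmall
  have h3 : Cardinal.prod (fun _ : A => 𝔠) ≤ 𝔠 := by
    rw [Cardinal.prod_const', ← Cardinal.continuum_power_aleph0]
    rw [Cardinal.continuum_power_aleph0]
    calc 𝔠 ^ #A ≤ 𝔠 ^ ℵ₀ := Cardinal.power_le_power_left Cardinal.continuum_ne_zero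
          (Cardinal.mk_le_aleph0_iff.mpr hA.to_subtype)
      _ = 𝔠 := Cardinal.continuum_power_aleph0
  have h4 := h1.trans_lt (h2.trans_le h3)
  rw [S.card] at h4
  exact lt_irrefl _ h4

theorem exists_task_gt (t : TaskT I) (B : Set I) (hB : #B < 𝔠) :
    ∃ σ, S.task σ = t ∧ σ ∉ B := by
  by_contra hcon
  push Not at hcon
  have hle : #{σ // S.task σ = t} ≤ #B :=
    Cardinal.mk_le_of_injective (f := fun σ : {σ // S.task σ = t} => (⟨σ.1, hcon σ.1 σ.2⟩ : B))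
      (fun a b h => Subtype.ext (congrArg (fun z : B => z.1) h))
  rw [S.task_big t] at hle
  exact absurd hB (not_lt.mpr hle)

theorem finite_task (G G1 : Finset I) :
    ∃ σ, (∀ γ ∈ G, γ < σ) ∧ ∀ γ ∈ G, S.N σ γ = if γ ∈ G1 then 1 else 0 := by
  obtain ⟨δ, hδ⟩ := S.bounded (G.finite_toSet.countable)
  obtain ⟨σ, hσ, hσδ⟩ := S.exists_task_gt (Sum.inl (G, G1)) (Set.Iio δ) (S.small δ)
  have hδσ : δ ≤ σ := not_lt.mp hσδ
  refine ⟨σ, fun γ hγ => (hδ γ (by simpa using hγ)).trans_le hδσ, fun γ hγ => ?_⟩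
  have h := (S.good σ).2.1
  rw [hσ] at h
  exact h γ hγ

/-- Uncountable sets of indices realise both values. -/
theorem uncountable_pair (P : Set I) (hP : ¬ P.Countable) (ε : ZMod 2) :
    ∃ α ∈ P, ∃ β ∈ P, α < β ∧ S.N β α = ε := by
  classical
  -- a subset with countable initial segments
  obtain ⟨P', hP'P, hP', hini⟩ : ∃ P' ⊆ P, ¬ P'.Countable ∧
      ∀ p ∈ P', (P' ∩ Set.Iio p).Countable := by
    by_cases h : ∀ p ∈ P, (P ∩ Set.Iio p).Countable
    · exact ⟨P, subset_rfl, hP, h⟩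
    · push Not at h
      let Z : Set I := {p | p ∈ P ∧ ¬ (P ∩ Set.Iio p).Countable}
      have hZ : Z.Nonempty := h
      let p₀ := (wellFounded_lt (α := I)).min Z hZ
      have hp₀ : p₀ ∈ Z := (wellFounded_lt (α := I)).min_mem Z hZ
      refine ⟨P ∩ Set.Iio p₀, Set.inter_subset_left, hp₀.2, ?_⟩
      intro p hp
      by_contra hc
      have hpZ : p ∈ Z := ⟨hp.1, fun hc' => hc
        (Set.Countable.mono (fun x hx => (⟨hx.1.1, hx.2⟩ : x ∈ P ∩ Set.Iio p)) hc')⟩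
      exact (wellFounded_lt (α := I)).not_lt_min Z hpZ hp.2
  -- a rational with uncountably many points on both sides
  obtain ⟨q, hlo, hhi⟩ : ∃ q : ℚ, ¬ {p ∈ P' | S.r p < q}.Countable ∧
      ¬ {p ∈ P' | (q : ℝ) < S.r p}.Countable := by
    by_contra hcon
    push Not at hcon
    let L : Set ℚ := {q | {p ∈ P' | S.r p < q}.Countable}
    have hU0 : (⋃ q ∈ L, {p ∈ P' | S.r p < q}).Countable :=
      Set.Countable.biUnion (Set.to_countable L) fun q hq => hq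
    have hU1 : (⋃ q ∈ Lᶜ, {p ∈ P' | (q : ℝ) < S.r p}).Countable :=
      Set.Countable.biUnion (Set.to_countable _) fun q hq => hcon q hq
    have hsub : (P' \ ((⋃ q ∈ L, {p ∈ P' | S.r p < q}) ∪
        (⋃ q ∈ Lᶜ, {p ∈ P' | (q : ℝ) < S.r p}))).Subsingleton := by
      have key : ∀ p p', p ∈ P' → p' ∈ P' →
          p ∉ (⋃ q ∈ L, {p ∈ P' | S.r p < q}) →
          p' ∉ (⋃ q ∈ Lᶜ, {p ∈ P' | (q : ℝ) < S.r p}) → ¬ S.r p < S.r p' := by
        intro p p' hp hp' h1 h2 hlt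
        obtain ⟨q, hq1, hq2⟩ := exists_rat_btwn hlt
        by_cases hq : q ∈ L
        · exact h1 (Set.mem_biUnion hq ⟨hp, hq1⟩)
        · exact h2 (Set.mem_biUnion hq ⟨hp', hq2⟩)
      intro p hp p' hp'
      apply S.r_inj
      apply le_antisymm
      · exact not_lt.mp (key p' p hp'.1 hp.1 (fun h => hp'.2 (Or.inl h))
          (fun h => hp.2 (Or.inr h)))
      · exact not_lt.mp (key p p' hp.1 hp'.1 (fun h => hp.2 (Or.inl h))
          (fun h => hp'.2 (Or.inr h)))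
    refine hP' (((hU0.union hU1).union hsub.finite.countable).mono fun p hp => ?_)
    by_cases h : p ∈ (⋃ q ∈ L, {p ∈ P' | S.r p < q}) ∪
        (⋃ q ∈ Lᶜ, {p ∈ P' | (q : ℝ) < S.r p})
    · exact Or.inl h
    · exact Or.inr ⟨hp, h⟩
  -- elements above a countable set
  have above : ∀ Z ⊆ P', ¬ Z.Countable → ∀ H ⊆ P', H.Countable → ∃ y ∈ Z, ∀ h ∈ H, h < y := by
    intro Z hZP hZ H hHP hH
    by_contra hcon
    push Not at hcon
    refine hZ (Set.Countable.mono (s₂ := (⋃ h ∈ H, (P' ∩ Set.Iio h)) ∪ H) ?_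
      ((Set.Countable.biUnion hH fun h hh => hini h (hHP hh)).union hH))
    intro y hy
    obtain ⟨h, hh, hle⟩ := hcon y hy
    rcases hle.lt_or_eq with hlt | heq
    · exact Or.inl (Set.mem_biUnion hh ⟨hZP hy, hlt⟩)
    · exact Or.inr (heq ▸ hh)
  have infsub : ∀ Z : Set I, ¬ Z.Countable → ∃ H ⊆ Z, H.Infinite ∧ H.Countable := by
    intro Z hZ
    have hinf : Z.Infinite := fun h => hZ h.countable
    have : Infinite Z := hinf.to_subtype
    let e : ℕ ↪ Z := Infinite.natEmbedding Z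
    refine ⟨Set.range fun n => (e n : I), ?_, ?_, Set.countable_range _⟩
    · rintro _ ⟨n, rfl⟩; exact (e n).2
    · exact Set.infinite_range_of_injective (Subtype.val_injective.comp e.injective)
  have tail : ∀ Z ⊆ P', ¬ Z.Countable → ∀ p ∈ P', ¬ (Z ∩ Set.Ioi p).Countable := by
    intro Z hZP hZ p hp hc
    refine hZ ((((hini p hp).union (Set.countable_singleton p)).union hc).mono fun z hz => ?_)
    rcases lt_trichotomy z p with h | h | h
    · exact Or.inl (Or.inl ⟨hZP hz, h⟩)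
    · exact Or.inl (Or.inr h)
    · exact Or.inr ⟨hz, h⟩
  have main : ∀ X ⊆ P', ∀ Y ⊆ P', ¬ X.Countable → ¬ Y.Countable →
      ∃ α ∈ X, ∃ β ∈ Y, α < β ∧ S.N β α = if S.r α < S.r β then 1 else 0 := by
    intro X hX Y hY hXc hYc
    obtain ⟨H₀, hH₀, hi₀, hc₀⟩ := infsub X hXc
    obtain ⟨p₁, hp₁, hlt₁⟩ := above X hX hXc H₀ (hH₀.trans hX) hc₀
    obtain ⟨H₁, hH₁, hi₁, hc₁⟩ := infsub _ (tail X hX hXc p₁ (hX hp₁))
    obtain ⟨p₂, hp₂, hlt₂⟩ := above X hX hXc H₁ (fun x hx => hX (hH₁ hx).1) hc₁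
    obtain ⟨H₂, hH₂, hi₂, hc₂⟩ := infsub _ (tail X hX hXc p₂ (hX hp₂))
    obtain ⟨β, hβ, hlt⟩ := above Y hY hYc H₂ (fun x hx => hX (hH₂ hx).1) hc₂
    obtain ⟨x₂, hx₂⟩ := hi₂.nonempty
    have h2β : p₂ < β := (hH₂ hx₂).2.trans (hlt x₂ hx₂)
    obtain ⟨x₁, hx₁⟩ := hi₁.nonempty
    have h1β : p₁ < β := ((hH₁ hx₁).2.trans (hlt₂ x₁ hx₁)).trans h2β
    obtain ⟨-, -, C, hthin, hM, -⟩ := S.good β
    obtain ⟨γ, hγ, hγC⟩ := hthin H₀ H₁ H₂ hi₀ hi₁ hi₂
      (fun a ha b hb => (hlt₁ a ha).trans (hH₁ hb).2)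
      (fun a ha b hb => (hlt₂ a ha).trans (hH₂ hb).2)
    have hγβ : γ < β ∧ γ ∈ X := by
      rcases hγ with (h | h) | h
      · exact ⟨(hlt₁ γ h).trans h1β, hH₀ h⟩
      · exact ⟨(hlt₂ γ h).trans h2β, (hH₁ h).1⟩
      · exact ⟨hlt γ h, (hH₂ h).1⟩
    refine ⟨γ, hγβ.2, β, hβ, hγβ.1, ?_⟩
    rw [hM γ hγC, trc_eq _ hγβ.1]
  rcases zmod2_cases ε with rfl | rfl
  · obtain ⟨α, hα, β, hβ, hlt, hN⟩ := main _ (Set.sep_subset _ _) _ (Set.sep_subset _ _) hhi hlo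
    refine ⟨α, hP'P hα.1, β, hP'P hβ.1, hlt, ?_⟩
    rw [hN, if_neg]
    exact not_lt.mpr (hβ.2.trans hα.2).le
  · obtain ⟨α, hα, β, hβ, hlt, hN⟩ := main _ (Set.sep_subset _ _) _ (Set.sep_subset _ _) hlo hhi
    refine ⟨α, hP'P hα.1, β, hP'P hβ.1, hlt, ?_⟩
    rw [hN, if_pos (hα.2.trans hβ.2)]

end Setup

end Pool.Agent.Helper538.Sync
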