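import Pool.Agent.Helper538.SyncC

set_option autoImplicit false

namespace Pool.Agent.Helper538.Sync

open Cardinal Set

theorem ev_eq_sum {I : Type} (M : I → ZMod 2) (x : I →₀ ZMod 2) :
    ev M x = ∑ γ ∈ x.support, M γ := by
  rw [ev_apply, Finsupp.sum]
  refine Finset.sum_congr rfl fun γ hγ => ?_
  rw [(zmod2_cases (x γ)).resolve_left (Finsupp.mem_support_iff.mp hγ), one_mul]

theorem InU.mono {I : Type} {r : I → ℝ} {c c' : CP} {i : I} {s : Finset I}
    (h : InU r c i s) (ha : c'.a ≤ c.a) (hb : c.b ≤ c'.b) (ha1 : c'.a1 ≤ c.a1)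
    (hb1 : c.b1 ≤ c'.b1) (ha2 : c'.a2 = c.a2) (hb2 : c'.b2 = c.b2) (hk : c'.k = c.k)
    (hK : c'.K = c.K) : InU r c' i s := by
  obtain ⟨h1, h2, h3, h4, γ, h5, h6, h7, h8, h9, h10⟩ := h
  refine ⟨lt_of_le_of_lt (by exact_mod_cast ha) h1, lt_of_lt_of_le h2 (by exact_mod_cast hb),
    by rw [hK]; exact h3, by rw [ha2, hk]; exact h4, γ, h5,
    lt_of_le_of_lt (by exact_mod_cast ha1) h6, lt_of_lt_of_le h7 (by exact_mod_cast hb1),
    by rw [ha2]; exact h8, by rw [hb2]; exact h9, ?_⟩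
  rw [ha2, hb2]
  exact h10

theorem InU.congr {I : Type} {r r' : I → ℝ} {c : CP} {i : I} {s : Finset I}
    (h : InU r c i s) (hi : r i = r' i) (hs : ∀ γ ∈ s, r γ = r' γ) : InU r' c i s := by
  obtain ⟨h1, h2, h3, h4, γ, h5, h6, h7, h8, h9, h10⟩ := h
  refine ⟨hi ▸ h1, hi ▸ h2, h3, ?_, γ, h5, hs γ h5 ▸ h6, hs γ h5 ▸ h7, hs γ h5 ▸ h8,
    hs γ h5 ▸ h9, fun γ' hγ' => by rw [← hs γ' hγ']; exact h10 γ' hγ'⟩
  rw [← h4]
  congr 2
  refine Finset.filter_congr fun γ' hγ' => ?_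
  rw [hs γ' hγ']

namespace Setup

variable {I : Type} [LinearOrder I] [WellFoundedLT I] (S : Setup I)

/-- The core contradiction: a vector whose top coordinate is generic cannot be adjacent to a
whole accumulating part of the coded dense family. -/
theorem final_contra (ε : ZMod 2) (σ β : I) (y : I →₀ ZMod 2) (hσ : σ ∈ y.support)
    (hbelow : ∀ γ ∈ y.support, γ ≠ σ → γ < σ) (ξ : I) (hξ : ξ < σ)
    (hguard : ∀ n, Guard σ (S.code ξ n)) (b' : Option I) (hb' : ∀ τ ∈ b', τ < σ)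
    (a2 b2 : ℚ) (h2a : (a2 : ℝ) < S.r σ) (h2b : S.r σ < b2)
    (k : ZMod 2) (K : ℕ)
    (H1 : ∀ a b a1 b1 : ℚ, (a : ℝ) < S.r β → S.r β < b → (a1 : ℝ) < S.r σ → S.r σ < b1 →
      ∃ n, (∀ τ ∈ b', S.N τ (S.code ξ n).1 = ε) ∧
        InU S.r ⟨a, b, a1, b1, a2, b2, k, K⟩ (S.code ξ n).1 (S.code ξ n).2.support)
    (a0 b0' : ℚ) (h0a : (a0 : ℝ) < S.r β) (h0b : S.r β < b0')
    (H2 : ∀ n, (∀ τ ∈ b', S.N τ (S.code ξ n).1 = ε) → (a0 : ℝ) < S.r (S.code ξ n).1 →
      S.r (S.code ξ n).1 < b0' → qf S.N ((S.code ξ n).2 + y) = ε) : False := by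
  classical
  set d := S.code ξ with hd
  -- rich roots
  let Rt : Finset I → Prop := fun R => ∀ a b a1 b1 : ℚ, (a : ℝ) < S.r β → S.r β < b →
    (a1 : ℝ) < S.r σ → S.r σ < b1 → ∃ n, (∀ τ ∈ b', S.N τ (d n).1 = ε) ∧
      InU S.r ⟨a, b, a1, b1, a2, b2, k, K⟩ (d n).1 (d n).2.support ∧ R ⊆ (d n).2.support
  have hRt0 : Rt ∅ := by
    intro a b a1 b1 h1 h2 h3 h4
    obtain ⟨n, hn, hU⟩ := H1 a b a1 b1 h1 h2 h3 h4
    exact ⟨n, hn, hU, Finset.empty_subset _⟩
  obtain ⟨aβ, haβ⟩ := exists_rat_lt (S.r β)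
  obtain ⟨bβ, hbβ⟩ := exists_rat_gt (S.r β)
  obtain ⟨aσ, haσ⟩ := exists_rat_lt (S.r σ)
  obtain ⟨bσ, hbσ⟩ := exists_rat_gt (S.r σ)
  have hcardR : ∀ R, Rt R → R.card ≤ K := by
    intro R hR
    obtain ⟨n, -, hU, hsub⟩ := hR aβ bβ aσ bσ haβ hbβ haσ hbσ
    have := Finset.card_le_card hsub
    rw [hU.2.2.1] at this
    exact this
  obtain ⟨R, hR, hRmax⟩ : ∃ R, Rt R ∧ ∀ l, l ∉ R → ¬ Rt (insert l R) := by
    have : ∀ m : ℕ, ∀ R, Rt R → K - R.card = m → ∃ R', Rt R' ∧ ∀ l, l ∉ R' → ¬ Rt (insert l R') := by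
      intro m
      induction m using Nat.strong_induction_on with
      | _ m ih =>
        intro R hR hm
        by_cases hmax : ∀ l, l ∉ R → ¬ Rt (insert l R)
        · exact ⟨R, hR, hmax⟩
        · push Not at hmax
          obtain ⟨l, hl, hlR⟩ := hmax
          have h1 := hcardR _ hlR
          rw [Finset.card_insert_of_notMem hl] at h1
          exact ih (K - (insert l R).card)
            (by rw [Finset.card_insert_of_notMem hl]; omega) _ hlR rfl
    exact this _ ∅ hRt0 rfl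
  have hRσ : ∀ l ∈ R, l < σ := by
    obtain ⟨n, -, -, hsub⟩ := hR aβ bβ aσ bσ haβ hbβ haσ hbσ
    exact fun l hl => (hguard n).2 l (hsub hl)
  -- shrink the inner interval to avoid the root
  obtain ⟨δ, hδ, hδR⟩ : ∃ δ > 0, ∀ l ∈ R, δ ≤ |S.r l - S.r σ| := by
    by_cases hne : R.Nonempty
    · refine ⟨R.inf' hne fun l => |S.r l - S.r σ|, ?_, fun l hl => Finset.inf'_le _ hl⟩
      rw [gt_iff_lt, Finset.lt_inf'_iff]
      intro l hl
      rw [abs_pos, sub_ne_zero]
      exact fun h => (hRσ l hl).ne (S.r_inj h)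
    · exact ⟨1, one_pos, fun l hl => absurd ⟨l, hl⟩ hne⟩
  obtain ⟨a1, ha1, ha1'⟩ := exists_rat_btwn (show S.r σ - δ < S.r σ by linarith)
  obtain ⟨b1, hb1, hb1'⟩ := exists_rat_btwn (show S.r σ < S.r σ + δ by linarith)
  have havoid : ∀ l ∈ R, ¬ ((a1 : ℝ) < S.r l ∧ S.r l < b1) := by
    rintro l hl ⟨h1, h2⟩
    have := hδR l hl
    have h3 : |S.r l - S.r σ| < δ := by
      rw [abs_lt]; constructor <;> linarith
    linarith
  have hbad : ∀ l, l ∉ R → ∃ q : ℚ × ℚ × ℚ × ℚ, (q.1 : ℝ) < S.r β ∧ S.r β < q.2.1 ∧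
      (q.2.2.1 : ℝ) < S.r σ ∧ S.r σ < q.2.2.2 ∧ ∀ n, (∀ τ ∈ b', S.N τ (d n).1 = ε) →
      InU S.r ⟨q.1, q.2.1, q.2.2.1, q.2.2.2, a2, b2, k, K⟩ (d n).1 (d n).2.support →
      ¬ (insert l R ⊆ (d n).2.support) := by
    intro l hl
    have h := hRmax l hl
    by_contra hcon
    apply h
    intro a b a1 b1 h1 h2 h3 h4
    by_contra hcon2
    exact hcon ⟨(a, b, a1, b1), h1, h2, h3, h4, fun n hn hU hsub =>
      hcon2 ⟨n, hn, hU, hsub⟩⟩
  choose! q hq1 hq2 hq3 hq4 hq5 using hbad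
  obtain ⟨-, -, C, -, hM, htests⟩ := S.good σ
  have htr : ∀ γ < σ, trc σ S.r γ = S.r γ := fun γ hγ => trc_eq _ hγ
  have htN : ∀ γ < σ, trc σ S.N γ = S.N γ := fun γ hγ => trc_eq _ hγ
  let le2 : I → ZMod 2 := fun γ => if S.r γ ≤ a2 then 1 else 0
  let m : ZMod 2 := ∑ γ ∈ R.filter (· ∈ C), (S.N σ γ + le2 γ)
  let v : I →₀ ZMod 2 := y + Finsupp.single σ 1
  have hyσ : y σ = 1 := (zmod2_cases _).resolve_left (Finsupp.mem_support_iff.mp hσ)
  have hv : Below σ v := by
    intro γ hγ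
    by_cases hγσ : γ = σ
    · exfalso
      rw [hγσ, Finsupp.mem_support_iff] at hγ
      apply hγ
      rw [Finsupp.add_apply, hyσ, Finsupp.single_eq_same]
      exact zmod2_add_self 1
    · apply hbelow γ _ hγσ
      rw [Finsupp.mem_support_iff] at hγ ⊢
      rwa [Finsupp.add_apply, Finsupp.single_eq_of_ne hγσ, add_zero] at hγ
  let bit : ZMod 2 := ε + qf S.N y + k + m + 1
  let c : CP := ⟨a0, b0', a1, b1, a2, b2, k, K⟩
  let R0 : Finset (Set.Iio σ) := R.subtype (· ∈ Set.Iio σ)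
  have hR0 : R0.map (Function.Embedding.subtype _) = R := by
    ext l
    simp only [R0, Finset.subtype_map, Finset.mem_filter, Set.mem_Iio]
    exact ⟨fun h => h.1, fun h => ⟨h, hRσ l h⟩⟩
  obtain ⟨b0o, hb0o⟩ : ∃ b0o : Option (Set.Iio σ), b0o.map Subtype.val = b' := by
    cases b' with
    | none => exact ⟨none, rfl⟩
    | some τ => exact ⟨some ⟨τ, hb' τ rfl⟩, rfl⟩
  let p : Par σ := Sum.inr (Sum.inr (⟨ξ, hξ⟩, c, R0, b0o, ⟨v, hv⟩, bit, ε))
  have htest : tests S.code σ (trc σ S.r) (trc σ S.N) p =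
      test3 S.code σ (trc σ S.r) (trc σ S.N) ξ c R b' v bit ε := by
    simp only [tests, p]
    rw [hR0, hb0o]
  have hconv : ∀ n, InU S.r c (d n).1 (d n).2.support →
      InU (trc σ S.r) c (d n).1 (d n).2.support := fun n hU =>
    hU.congr (htr _ (hguard n).1).symm fun γ hγ => (htr _ ((hguard n).2 γ hγ)).symm
  have hhyp : Hyp (trc σ S.r) (S.r σ) (tests S.code σ (trc σ S.r) (trc σ S.N) p) := by
    rw [htest]
    intro F hF δ' hδ'
    have hFR : ∀ l ∈ F, l ∉ R := fun l hl hlR => Finset.disjoint_left.mp hF hl hlR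
    obtain ⟨ac, hac, hac'⟩ := exists_rat_btwn (show S.r σ - δ' < S.r σ by linarith)
    obtain ⟨bc, hbc, hbc'⟩ := exists_rat_btwn (show S.r σ < S.r σ + δ' by linarith)
    -- combined rationals
    obtain ⟨A, hA, hA0, hAF⟩ : ∃ A : ℚ, (A : ℝ) < S.r β ∧ a0 ≤ A ∧ ∀ l ∈ F, (q l).1 ≤ A := by
      refine ⟨(insert a0 (F.image fun l => (q l).1)).max' (Finset.insert_nonempty _ _), ?_, ?_, ?_⟩
      · have hmem := Finset.max'_mem (insert a0 (F.image fun l => (q l).1))
          (Finset.insert_nonempty _ _)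
        rcases Finset.mem_insert.mp hmem with h | h
        · rw [h]; exact h0a
        · obtain ⟨l, hl, hl'⟩ := Finset.mem_image.mp h
          rw [← hl']
          exact hq1 l (hFR l hl)
      · exact Finset.le_max' _ _ (Finset.mem_insert_self _ _)
      · intro l hl
        exact Finset.le_max' _ _ (Finset.mem_insert_of_mem
          (Finset.mem_image_of_mem (fun l => (q l).1) hl))
    obtain ⟨B, hB, hB0, hBF⟩ : ∃ B : ℚ, S.r β < B ∧ B ≤ b0' ∧ ∀ l ∈ F, B ≤ (q l).2.1 := by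
      refine ⟨(insert b0' (F.image fun l => (q l).2.1)).min' (Finset.insert_nonempty _ _),
        ?_, ?_, ?_⟩
      · have hmem := Finset.min'_mem (insert b0' (F.image fun l => (q l).2.1))
          (Finset.insert_nonempty _ _)
        rcases Finset.mem_insert.mp hmem with h | h
        · rw [h]; exact h0b
        · obtain ⟨l, hl, hl'⟩ := Finset.mem_image.mp h
          rw [← hl']
          exact hq2 l (hFR l hl)
      · exact Finset.min'_le _ _ (Finset.mem_insert_self _ _)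
      · intro l hl
        exact Finset.min'_le _ _ (Finset.mem_insert_of_mem
          (Finset.mem_image_of_mem (fun l => (q l).2.1) hl))
    obtain ⟨A1, hA1, hA1c, hA10, hA1F⟩ : ∃ A : ℚ, (A : ℝ) < S.r σ ∧ ac ≤ A ∧ a1 ≤ A ∧
        ∀ l ∈ F, (q l).2.2.1 ≤ A := by
      refine ⟨(insert ac (insert a1 (F.image fun l => (q l).2.2.1))).max'
        (Finset.insert_nonempty _ _), ?_, ?_, ?_, ?_⟩
      · have hmem := Finset.max'_mem (insert ac (insert a1 (F.image fun l => (q l).2.2.1)))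
          (Finset.insert_nonempty _ _)
        rcases Finset.mem_insert.mp hmem with h | h
        · rw [h]; exact hac'
        · rcases Finset.mem_insert.mp h with h | h
          · rw [h]; exact ha1'
          · obtain ⟨l, hl, hl'⟩ := Finset.mem_image.mp h
            rw [← hl']
            exact hq3 l (hFR l hl)
      · exact Finset.le_max' _ _ (Finset.mem_insert_self _ _)
      · exact Finset.le_max' _ _ (Finset.mem_insert_of_mem (Finset.mem_insert_self _ _))
      · intro l hl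
        exact Finset.le_max' _ _ (Finset.mem_insert_of_mem (Finset.mem_insert_of_mem
          (Finset.mem_image_of_mem (fun l => (q l).2.2.1) hl)))
    obtain ⟨B1, hB1, hB1c, hB10, hB1F⟩ : ∃ B : ℚ, S.r σ < B ∧ B ≤ bc ∧ B ≤ b1 ∧
        ∀ l ∈ F, B ≤ (q l).2.2.2 := by
      refine ⟨(insert bc (insert b1 (F.image fun l => (q l).2.2.2))).min'
        (Finset.insert_nonempty _ _), ?_, ?_, ?_, ?_⟩
      · have hmem := Finset.min'_mem (insert bc (insert b1 (F.image fun l => (q l).2.2.2)))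
          (Finset.insert_nonempty _ _)
        rcases Finset.mem_insert.mp hmem with h | h
        · rw [h]; exact hbc
        · rcases Finset.mem_insert.mp h with h | h
          · rw [h]; exact hb1
          · obtain ⟨l, hl, hl'⟩ := Finset.mem_image.mp h
            rw [← hl']
            exact hq4 l (hFR l hl)
      · exact Finset.min'_le _ _ (Finset.mem_insert_self _ _)
      · exact Finset.min'_le _ _ (Finset.mem_insert_of_mem (Finset.mem_insert_self _ _))
      · intro l hl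
        exact Finset.min'_le _ _ (Finset.mem_insert_of_mem (Finset.mem_insert_of_mem
          (Finset.mem_image_of_mem (fun l => (q l).2.2.2) hl)))
    obtain ⟨n, hn, hU, hsub⟩ := hR A B A1 B1 hA hB hA1 hB1
    have hU0 := hU
    obtain ⟨-, -, -, -, γ, hγs, hγ1, hγ2, hγ3, hγ4, hγ5⟩ := hU0
    have hγσ : γ < σ := (hguard n).2 γ hγs
    refine ⟨((d n).2.support, γ, qf (trc σ S.N) (d n).2 + bf (trc σ S.N) (d n).2 v + bit),
      ⟨n, hguard n, hconv n (hU.mono hA0 hB0 hA10 hB10 rfl rfl rfl rfl), hsub, ?_, rfl, hγs,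
        ?_, ?_, rfl⟩, ?_, ?_⟩
    · intro τ hτ
      rw [htN τ (hb' τ hτ)]
      exact hn τ hτ
    · rw [htr γ hγσ]; exact hγ3
    · rw [htr γ hγσ]; exact hγ4
    · rw [Finset.disjoint_left]
      intro l hl hlF
      exact hq5 l (hFR l hlF) n hn (hU.mono (hAF l hlF) (hBF l hlF) (hA1F l hlF)
        (hB1F l hlF) rfl rfl rfl rfl) (Finset.insert_subset hl hsub)
    · have e1 : (ac : ℝ) ≤ A1 := by exact_mod_cast hA1c
      have e2 : (B1 : ℝ) ≤ bc := by exact_mod_cast hB1c
      change |trc σ S.r γ - S.r σ| < δ'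
      rw [htr γ hγσ, abs_lt]
      constructor
      · have : (A1 : ℝ) < S.r γ := hγ1
        linarith
      · have : S.r γ < (B1 : ℝ) := hγ2
        linarith
  have hconc := htests p hhyp
  rw [htest] at hconc
  obtain ⟨⟨s, γ, φ⟩, ⟨n, -, hU, hsub, hcond, hs, hγs, hγa, hγb, hφ⟩, hroot, hside⟩ := hconc
  simp only at hs hγs hγa hγb hφ hroot hside
  subst hs
  have hγσ : γ < σ := (hguard n).2 γ hγs
  have hUr : InU S.r c (d n).1 (d n).2.support :=
    hU.congr (htr _ (hguard n).1) fun γ hγ => htr _ ((hguard n).2 γ hγ)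
  rw [htr γ hγσ] at hγa hγb hside
  have hcond' : ∀ τ ∈ b', S.N τ (d n).1 = ε := by
    intro τ hτ
    rw [← htN τ (hb' τ hτ)]
    exact hcond τ hτ
  obtain ⟨hua, hub, -, hpar, γ', hγ's, hγ'1, hγ'2, -, -, huniq⟩ := hUr
  have hγγ' : γ = γ' := huniq γ hγs hγa hγb
  subst hγγ'
  have hγR : γ ∉ R := fun h => havoid γ h ⟨hγ'1, hγ'2⟩
  have hγC : γ ∉ C := fun h => hγR (hroot γ hγs h)
  have hq' : qf (trc σ S.N) (d n).2 = qf S.N (d n).2 := qf_congr htN (hguard n).2
  have hbv : bf (trc σ S.N) (d n).2 v = bf S.N (d n).2 v := bf_congr htN (hguard n).2 hv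
  rw [hq', hbv] at hφ
  have hE := H2 n hcond' hua hub
  have hy : y = v + Finsupp.single σ 1 := by
    simp only [v]
    rw [add_assoc, ← Finsupp.single_add, zmod2_add_self, Finsupp.single_zero, add_zero]
  rw [qf_add] at hE
  have hbf : bf S.N (d n).2 y = bf S.N (d n).2 v + ev (S.N σ) (d n).2 := by
    conv_lhs => rw [hy]
    rw [bf_add_right, bf_single (hguard n).2]
  rw [hbf] at hE
  -- the sum over the support
  have hsum : ev (S.N σ) (d n).2 = (if S.r γ < S.r σ then 1 else 0) + k + m := by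
    rw [ev_eq_sum]
    have hsplit : ∀ x ∈ (d n).2.support, S.N σ x =
        (if x = γ then (if S.r γ < S.r σ then 1 else 0) else 0) + le2 x +
          (if x ∈ C then S.N σ x + le2 x else 0) := by
      intro x hx
      have hxσ : x < σ := (hguard n).2 x hx
      by_cases hxγ : x = γ
      · subst hxγ
        rw [if_pos rfl, if_neg hγC, add_zero]
        have : le2 x = 0 := if_neg (not_le.mpr hγa)
        rw [this, add_zero, hM x hγC, htr x hxσ]
      · rw [if_neg hxγ, zero_add]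
        by_cases hxC : x ∈ C
        · rw [if_pos hxC, add_comm (S.N σ x), ← add_assoc, zmod2_add_self, zero_add]
        · rw [if_neg hxC, add_zero, hM x hxC, htr x hxσ]
          by_cases hle : S.r x ≤ a2
          · have h1 : le2 x = 1 := if_pos hle
            rw [h1, if_pos (lt_of_le_of_lt hle h2a)]
          · have h1 : le2 x = 0 := if_neg hle
            rw [h1, if_neg]
            intro hlt
            exact hxγ (huniq x hx (not_le.mp hle) (hlt.trans h2b))
    rw [Finset.sum_congr rfl hsplit, Finset.sum_add_distrib, Finset.sum_add_distrib]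
    congr 1
    · congr 1
      · rw [Finset.sum_ite_eq' _ γ, if_pos hγs]
      · simp only [le2]
        have hpar' : (((d n).2.support.filter fun γ => S.r γ ≤ a2).card : ZMod 2) = k := hpar
        rw [← hpar', Finset.sum_ite, Finset.sum_const, Finset.sum_const_zero, add_zero,
          nsmul_eq_mul, mul_one]
    · rw [← Finset.sum_filter]
      have : (d n).2.support.filter (· ∈ C) = R.filter (· ∈ C) := by
        ext x
        simp only [Finset.mem_filter]
        exact ⟨fun h => ⟨hroot x h.1 h.2, h.2⟩, fun h => ⟨hsub h.1, h.2⟩⟩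
      rw [this]
  rw [hsum, hside, hφ] at hE
  simp only [bit] at hE
  -- parity contradiction
  have : ∀ A B D E F G : ZMod 2,
      A + B + (D + (A + D + (E + B + F + G + 1) + F + G)) = E → False := by decide
  exact this _ _ _ _ _ _ hE

end Setup

end Pool.Agent.Helper538.Sync
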