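import Pool.Agent.Helper538.SyncD

set_option autoImplicit false

namespace Pool.Agent.Helper538.Sync

open Cardinal Set

namespace Setup

variable {I : Type} [LinearOrder I] [WellFoundedLT I] (S : Setup I)

theorem exists_nbhd (F : Finset I) (β : I) (δ' : ℝ) (hδ' : 0 < δ') :
    ∃ a b : ℚ, (a : ℝ) < S.r β ∧ S.r β < b ∧ S.r β - δ' < a ∧ (b : ℝ) < S.r β + δ' ∧
      ∀ l ∈ F, l ≠ β → ¬ ((a : ℝ) < S.r l ∧ S.r l < b) := by
  classical
  obtain ⟨δ, hδ, hδR⟩ : ∃ δ > 0, ∀ l ∈ F.erase β, δ ≤ |S.r l - S.r β| := by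
    by_cases hne : (F.erase β).Nonempty
    · refine ⟨(F.erase β).inf' hne fun l => |S.r l - S.r β|, ?_,
        fun l hl => Finset.inf'_le _ hl⟩
      rw [gt_iff_lt, Finset.lt_inf'_iff]
      intro l hl
      rw [abs_pos, sub_ne_zero]
      exact fun h => (Finset.mem_erase.mp hl).1 (S.r_inj h)
    · exact ⟨1, one_pos, fun l hl => absurd ⟨l, hl⟩ hne⟩
  have hm : 0 < min δ δ' := lt_min hδ hδ'
  obtain ⟨a, ha, ha'⟩ := exists_rat_btwn (show S.r β - min δ δ' < S.r β by linarith)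
  obtain ⟨b, hb, hb'⟩ := exists_rat_btwn (show S.r β < S.r β + min δ δ' by linarith)
  have h1 := min_le_left δ δ'
  have h2 := min_le_right δ δ'
  refine ⟨a, b, ha', hb, by linarith, by linarith, ?_⟩
  rintro l hl hne ⟨h3, h4⟩
  have := hδR l (Finset.mem_erase.mpr ⟨hne, hl⟩)
  have h5 : |S.r l - S.r β| < δ := by
    rw [abs_lt]; constructor <;> linarith
  linarith

/-- The basis vector at `β`. -/
noncomputable abbrev e (β : I) : I →₀ ZMod 2 := Finsupp.single β 1

/-- Preservation of the pairs of type `ε`. -/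
def Pres (ε : ZMod 2) (f : (I →₀ ZMod 2) → (I →₀ ZMod 2)) : Prop :=
  ∀ x y, x ≠ y → qf S.N (x + y) = ε → f x ≠ f y ∧ qf S.N (f x + f y) = ε

theorem e_ne {α β : I} (h : α ≠ β) : (e α : I →₀ ZMod 2) ≠ e β := by
  intro heq
  have := DFunLike.congr_fun heq α
  simp [e, h] at this

theorem below_e {α β : I} (h : α < β) : Below β (e α) := by
  intro γ hγ
  have : γ = α := by
    by_contra hne
    rw [Finsupp.mem_support_iff] at hγ
    exact hγ (Finsupp.single_eq_of_ne hne)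
  rw [this]; exact h

theorem qf_e_add {α β : I} (h : α < β) : qf S.N (e α + e β) = S.N β α := by
  rw [qf_add, qf_single, qf_single, bf_single (below_e h), ev_single]
  simp

theorem step1 (ε : ZMod 2) (f : (I →₀ ZMod 2) → (I →₀ ZMod 2)) (hf : S.Pres ε f) :
    ∃ δ, ∀ β, δ ≤ β → Below δ (f (e β)) ∨
      (β ∈ (f (e β)).support ∧ ∀ γ ∈ (f (e β)).support, γ ≤ β) := by
  classical
  have hne : Nonempty I := by
    rw [← Cardinal.mk_ne_zero_iff, S.card]
    exact Cardinal.continuum_ne_zero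
  let D : CP → I := fun c => if h : ∃ i, InU S.r c i (f (e i)).support then h.choose
    else Classical.arbitrary I
  have hD : ∀ c, (∃ i, InU S.r c i (f (e i)).support) →
      InU S.r c (D c) (f (e (D c))).support := by
    intro c h
    simp only [D, dif_pos h]
    exact h.choose_spec
  have : Nonempty CP := ⟨⟨0, 0, 0, 0, 0, 0, 0, 0⟩⟩
  obtain ⟨en, hen⟩ := exists_surjective_nat CP
  obtain ⟨ξ, hξ⟩ := S.code_surj fun n => (D (en n), f (e (D (en n))))
  have hcode1 : ∀ n, (S.code ξ n).1 = D (en n) := fun n => by rw [hξ]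
  have hcode2 : ∀ n, (S.code ξ n).2 = f (e (D (en n))) := fun n => by rw [hξ]
  obtain ⟨δ, hδ⟩ := S.bounded (A := insert ξ ((Set.range fun n => D (en n)) ∪
    ⋃ n, ((f (e (D (en n)))).support : Set I))) (by
      refine Set.Countable.insert _ ((Set.countable_range _).union ?_)
      exact Set.countable_iUnion fun n => (Finset.finite_toSet _).countable)
  have hξδ : ξ < δ := hδ ξ (Set.mem_insert _ _)
  have hDδ : ∀ n, D (en n) < δ := fun n => hδ _ (Or.inr (Or.inl ⟨n, rfl⟩))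
  have hfδ : ∀ n, Below δ (f (e (D (en n)))) := fun n γ hγ =>
    hδ γ (Or.inr (Or.inr (Set.mem_iUnion.mpr ⟨n, hγ⟩)))
  refine ⟨δ, fun β hβ => ?_⟩
  by_cases hB : Below δ (f (e β))
  · exact Or.inl hB
  right
  have hB' : ∃ γ₀ ∈ (f (e β)).support, δ ≤ γ₀ := by
    by_contra hcon
    push Not at hcon
    exact hB fun γ hγ => hcon γ hγ
  obtain ⟨γ₀, hγ₀, hδγ₀⟩ := hB'
  let s := (f (e β)).support
  have hs : s.Nonempty := ⟨γ₀, hγ₀⟩
  let σ := s.max' hs
  have hσs : σ ∈ s := Finset.max'_mem _ _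
  have hσmax : ∀ γ ∈ s, γ ≤ σ := fun γ hγ => Finset.le_max' _ _ hγ
  have hδσ : δ ≤ σ := hδγ₀.trans (hσmax γ₀ hγ₀)
  have hbelow : ∀ γ ∈ s, γ ≠ σ → γ < σ := fun γ hγ hne => lt_of_le_of_ne (hσmax γ hγ) hne
  have hcg : ∀ τ, δ ≤ τ → ∀ n, Guard τ (S.code ξ n) := by
    intro τ hτ n
    refine ⟨?_, ?_⟩
    · rw [hcode1]; exact (hDδ n).trans_le hτ
    · rw [hcode2]; exact (hfδ n).mono hτ
  obtain ⟨a2, b2, ha2, hb2, -, -, hiso⟩ := S.exists_nbhd s σ 1 one_pos
  let K := s.card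
  let k : ZMod 2 := ((s.filter fun γ => S.r γ ≤ a2).card : ZMod 2)
  have hUβ : ∀ a b a1 b1 : ℚ, (a : ℝ) < S.r β → S.r β < b → (a1 : ℝ) < S.r σ → S.r σ < b1 →
      InU S.r ⟨a, b, a1, b1, a2, b2, k, K⟩ β s := by
    intro a b a1 b1 h1 h2 h3 h4
    refine ⟨h1, h2, rfl, rfl, σ, hσs, h3, h4, ha2, hb2, fun γ hγ h5 h6 => ?_⟩
    by_contra hne
    exact hiso γ hγ hne ⟨h5, h6⟩
  have hdense : ∀ a b a1 b1 : ℚ, (a : ℝ) < S.r β → S.r β < b → (a1 : ℝ) < S.r σ →
      S.r σ < b1 → ∃ n, InU S.r ⟨a, b, a1, b1, a2, b2, k, K⟩ (S.code ξ n).1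
        (S.code ξ n).2.support := by
    intro a b a1 b1 h1 h2 h3 h4
    obtain ⟨n, hn⟩ := hen ⟨a, b, a1, b1, a2, b2, k, K⟩
    refine ⟨n, ?_⟩
    rw [hcode1, hcode2, hn]
    exact hD _ ⟨β, hUβ a b a1 b1 h1 h2 h3 h4⟩
  have hprog : ∀ n, S.N β (S.code ξ n).1 = ε →
      (S.code ξ n).2 ≠ f (e β) ∧ qf S.N ((S.code ξ n).2 + f (e β)) = ε := by
    intro n hn
    have hlt : (S.code ξ n).1 < β := (hcg β hβ n).1
    have := hf (e (S.code ξ n).1) (e β) (e_ne hlt.ne) (by rw [S.qf_e_add hlt]; exact hn)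
    rwa [hcode1, ← hcode2] at this
  obtain ⟨-, -, C, -, hM, htests⟩ := S.good β
  have htr : ∀ γ < β, trc β S.r γ = S.r γ := fun γ hγ => trc_eq _ hγ
  have htN : ∀ γ < β, trc β S.N γ = S.N γ := fun γ hγ => trc_eq _ hγ
  have hξβ : ξ < β := hξδ.trans_le hβ
  rcases lt_trichotomy β σ with hlt | heq | hgt
  · exfalso
    obtain ⟨a0, ha0⟩ := exists_rat_lt (S.r β)
    obtain ⟨b0', hb0'⟩ := exists_rat_gt (S.r β)
    refine S.final_contra ε σ β (f (e β)) hσs hbelow ξ (hξδ.trans_le hδσ) (hcg σ hδσ)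
      (some β) (by rintro τ hτ; cases hτ; exact hlt) a2 b2 ha2 hb2 k K ?_ a0 b0' ha0 hb0' ?_
    · intro a b a1 b1 h1 h2 h3 h4
      let c : CP := ⟨a, b, a1, b1, a2, b2, k, K⟩
      let p : Par β := Sum.inl (⟨ξ, hξβ⟩, c, ε)
      have hhyp : Hyp (trc β S.r) (S.r β) (tests S.code β (trc β S.r) (trc β S.N) p) := by
        intro F _ δ' hδ'
        obtain ⟨a', b', ha', hb', ha'd, hb'd, hF⟩ := S.exists_nbhd F β δ' hδ'
        have hA : ((max a a' : ℚ) : ℝ) < S.r β := by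
          rw [Rat.cast_max]; exact max_lt h1 ha'
        have hB2 : S.r β < ((min b b' : ℚ) : ℝ) := by
          rw [Rat.cast_min]; exact lt_min h2 hb'
        obtain ⟨n, hn⟩ := hdense (max a a') (min b b') a1 b1 hA hB2 h3 h4
        have hg := hcg β hβ n
        have hr1 : (a' : ℝ) < S.r (S.code ξ n).1 :=
          lt_of_le_of_lt (by exact_mod_cast le_max_right a a') hn.1
        have hr2 : S.r (S.code ξ n).1 < b' :=
          lt_of_lt_of_le hn.2.1 (by exact_mod_cast min_le_right b b')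
        refine ⟨({(S.code ξ n).1}, (S.code ξ n).1, ε), ⟨n, hg, ?_, rfl⟩, ?_, ?_⟩
        · have hn' : InU S.r c (S.code ξ n).1 (S.code ξ n).2.support :=
            hn.mono (le_max_left _ _) (min_le_left _ _) le_rfl le_rfl rfl rfl rfl rfl
          exact hn'.congr (htr _ hg.1).symm fun γ hγ => (htr _ (hg.2 γ hγ)).symm
        · rw [Finset.disjoint_singleton_left]
          intro hmem
          exact hF _ hmem hg.1.ne ⟨hr1, hr2⟩
        · change |trc β S.r (S.code ξ n).1 - S.r β| < δ'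
          rw [htr _ hg.1, abs_lt]
          constructor <;> linarith
      obtain ⟨x, ⟨n, hg, hU, rfl⟩, hx1, hx2⟩ := htests p hhyp
      simp only at hx1 hx2
      refine ⟨n, ?_, hU.congr (htr _ hg.1) fun γ hγ => htr _ (hg.2 γ hγ)⟩
      intro τ hτ
      cases hτ
      have hnC : (S.code ξ n).1 ∉ C := fun h => by
        have := hx1 _ (Finset.mem_singleton_self _) h
        exact absurd this (Finset.notMem_empty _)
      rw [hM _ hnC]
      exact hx2
    · intro n hn _ _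
      exact (hprog n (hn β rfl)).2
  · refine ⟨?_, ?_⟩
    · have : β ∈ s := by rw [heq]; exact hσs
      exact this
    · intro γ hγ
      rw [heq]
      exact hσmax γ hγ
  · exfalso
    have hyβ : Below β (f (e β)) := fun γ hγ => (hσmax γ hγ).trans_lt hgt
    obtain ⟨a0, b0', ha0, hb0', hH2⟩ : ∃ a0 b0' : ℚ, (a0 : ℝ) < S.r β ∧ S.r β < b0' ∧
        ∀ n, (a0 : ℝ) < S.r (S.code ξ n).1 → S.r (S.code ξ n).1 < b0' →
          qf S.N ((S.code ξ n).2 + f (e β)) = ε := by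
      by_contra hcon
      push Not at hcon
      let p : Par β := Sum.inr (Sum.inl (⟨ξ, hξβ⟩, ⟨f (e β), hyβ⟩, ε))
      have hqc : ∀ n, qf (trc β S.N) ((S.code ξ n).2 + f (e β)) =
          qf S.N ((S.code ξ n).2 + f (e β)) := fun n =>
        qf_congr htN ((hcg β hβ n).2.add hyβ)
      have hhyp : Hyp (trc β S.r) (S.r β) (tests S.code β (trc β S.r) (trc β S.N) p) := by
        intro F _ δ' hδ'
        obtain ⟨a', b', ha', hb', ha'd, hb'd, hF⟩ := S.exists_nbhd F β δ' hδ'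
        obtain ⟨n, hr1, hr2, hne⟩ := hcon a' b' ha' hb'
        have hg := hcg β hβ n
        refine ⟨({(S.code ξ n).1}, (S.code ξ n).1, ε), ⟨n, hg, ?_, rfl⟩, ?_, ?_⟩
        · rintro ⟨-, h2⟩
          exact hne ((hqc n).symm.trans h2)
        · rw [Finset.disjoint_singleton_left]
          intro hmem
          exact hF _ hmem hg.1.ne ⟨hr1, hr2⟩
        · change |trc β S.r (S.code ξ n).1 - S.r β| < δ'
          rw [htr _ hg.1, abs_lt]
          constructor <;> linarith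
      obtain ⟨x, ⟨n, hg, hU, rfl⟩, hx1, hx2⟩ := htests p hhyp
      simp only at hx1 hx2
      have hnC : (S.code ξ n).1 ∉ C := fun h => by
        have := hx1 _ (Finset.mem_singleton_self _) h
        exact absurd this (Finset.notMem_empty _)
      have hN : S.N β (S.code ξ n).1 = ε := by
        rw [hM _ hnC]
        exact hx2
      have h3 := hprog n hN
      exact hU ⟨h3.1, (hqc n).trans h3.2⟩
    refine S.final_contra ε σ β (f (e β)) hσs hbelow ξ (hξδ.trans_le hδσ) (hcg σ hδσ)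
      none (by rintro τ hτ; cases hτ) a2 b2 ha2 hb2 k K ?_ a0 b0' ha0 hb0' ?_
    · intro a b a1 b1 h1 h2 h3 h4
      obtain ⟨n, hn⟩ := hdense a b a1 b1 h1 h2 h3 h4
      exact ⟨n, (fun τ hτ => by cases hτ), hn⟩
    · intro n _ h1 h2
      exact hH2 n h1 h2

end Setup

end Pool.Agent.Helper538.Sync
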