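import Pool.Agent.Helper538.SyncE

set_option autoImplicit false

namespace Pool.Agent.Helper538.Sync

open Cardinal Set

theorem add_self_vec {I : Type} (x : I →₀ ZMod 2) : x + x = 0 := by
  ext γ
  rw [Finsupp.add_apply, zmod2_add_self]
  rfl

theorem eq_of_add_eq_zero {I : Type} {x y : I →₀ ZMod 2} (h : x + y = 0) : x = y := by
  have : x = x + (y + y) := by rw [add_self_vec, add_zero]
  rw [this, ← add_assoc, h, zero_add]

namespace Setup

variable {I : Type} [LinearOrder I] [WellFoundedLT I] (S : Setup I)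

theorem fiber_countable (ε : ZMod 2) (f : (I →₀ ZMod 2) → (I →₀ ZMod 2)) (hf : S.Pres ε f)
    (v : I →₀ ZMod 2) : {β | f (e β) = v}.Countable := by
  by_contra hc
  obtain ⟨α, hα, β, hβ, hlt, hN⟩ := S.uncountable_pair _ hc ε
  have h := (hf (e α) (e β) (e_ne hlt.ne) (by rw [S.qf_e_add hlt]; exact hN)).1
  exact h (hα.trans hβ.symm)

theorem small_bad (ε : ZMod 2) (f : (I →₀ ZMod 2) → (I →₀ ZMod 2)) (hf : S.Pres ε f) (δ : I) :
    #{β | Below δ (f (e β))} < 𝔠 := by
  have hcov : {β | Below δ (f (e β))} ⊆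
      ⋃ v : {v : I →₀ ZMod 2 // Below δ v}, {β | f (e β) = v.1} := by
    intro β hβ
    exact Set.mem_iUnion.mpr ⟨⟨f (e β), hβ⟩, rfl⟩
  refine (Cardinal.mk_le_mk_of_subset hcov).trans_lt ?_
  refine (Cardinal.mk_iUnion_le _).trans_lt ?_
  refine Cardinal.mul_lt_of_lt Cardinal.aleph0_le_continuum (mk_below_lt (S.small δ)) ?_
  refine lt_of_le_of_lt (ciSup_le' fun v => ?_) Cardinal.aleph0_lt_continuum
  exact Cardinal.mk_le_aleph0_iff.mpr (S.fiber_countable ε f hf v.1).to_subtype

theorem supps_succ (z : ℕ → (I →₀ ZMod 2) × (I →₀ ZMod 2)) (n : ℕ) :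
    supps z (n + 1) = supps z n ∪ supp2 (z n) := by
  ext γ
  rw [mem_supps, Finset.mem_union, mem_supps]
  constructor
  · rintro ⟨m, hm, h⟩
    rcases Nat.lt_succ_iff_lt_or_eq.mp hm with h1 | h1
    · exact Or.inl ⟨m, h1, h⟩
    · exact Or.inr (h1 ▸ h)
  · rintro (⟨m, hm, h⟩ | h)
    · exact ⟨m, hm.trans (Nat.lt_succ_self n), h⟩
    · exact ⟨n, Nat.lt_succ_self n, h⟩

/-- A preserving map moves almost every vector by a vector with bounded finite support,
or has small value. -/
theorem step2 (ε : ZMod 2) (f : (I →₀ ZMod 2) → (I →₀ ZMod 2)) (hf : S.Pres ε f) :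
    ∃ F : Finset I, ∀ x, x.support ⊆ F ∨ (f x).support ⊆ F ∨ (x + f x).support ⊆ F := by
  classical
  by_contra hcon
  push Not at hcon
  choose x hx1 hx2 hx3 using hcon
  let Fs : ℕ → Finset I := fun n => Nat.rec ∅ (fun _ F => F ∪ supp2 (x F, f (x F))) n
  let z : ℕ → (I →₀ ZMod 2) × (I →₀ ZMod 2) := fun n => (x (Fs n), f (x (Fs n)))
  have hFs : ∀ n, supps z n = Fs n := by
    intro n
    induction n with
    | zero => rfl
    | succ n ih => rw [supps_succ, ih]
  have hfree : Free z := by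
    intro n
    rw [hFs]
    exact ⟨hx1 _, hx2 _, hx3 _⟩
  obtain ⟨δ, hδ⟩ := S.step1 ε f hf
  obtain ⟨δ', hδ'⟩ := S.bounded (A := insert δ (⋃ n, (supp2 (z n) : Set I))) (by
    refine Set.Countable.insert _ (Set.countable_iUnion fun n => (Finset.finite_toSet _).countable))
  have hB : #(Set.Iio δ' ∪ {β | Below δ (f (e β))} : Set I) < 𝔠 :=
    (Cardinal.mk_union_le _ _).trans_lt (Cardinal.add_lt_of_lt Cardinal.aleph0_le_continuum
      (S.small δ') (S.small_bad ε f hf δ))
  obtain ⟨β, hβt, hβB⟩ := S.exists_task_gt (Sum.inr (z, ε)) _ hB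
  have hβ' : δ' ≤ β := not_lt.mp fun h => hβB (Or.inl h)
  have hβδ : δ ≤ β := (hδ' δ (Set.mem_insert _ _)).le.trans hβ'
  have hz : ∀ n, Below β (z n).1 ∧ Below β (z n).2 := by
    intro n
    refine ⟨fun γ hγ => ?_, fun γ hγ => ?_⟩
    · exact (hδ' γ (Or.inr (Set.mem_iUnion.mpr ⟨n, Finset.mem_union_left _ hγ⟩))).trans_le hβ'
    · exact (hδ' γ (Or.inr (Set.mem_iUnion.mpr ⟨n, Finset.mem_union_right _ hγ⟩))).trans_le hβ'
  rcases hδ β hβδ with h | ⟨hβs, hβmax⟩
  · exact hβB (Or.inr h)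
  have hβ1 : f (e β) β = 1 := (zmod2_cases _).resolve_left (Finsupp.mem_support_iff.mp hβs)
  set w : I →₀ ZMod 2 := f (e β) + e β with hw
  have hwB : Below β w := by
    intro γ hγ
    by_cases hγβ : γ = β
    · exfalso
      rw [hγβ, Finsupp.mem_support_iff] at hγ
      apply hγ
      rw [hw, Finsupp.add_apply, hβ1, e, Finsupp.single_eq_same]
      exact zmod2_add_self 1
    · refine lt_of_le_of_ne (hβmax γ ?_) hγβ
      rw [Finsupp.mem_support_iff] at hγ ⊢
      rwa [hw, Finsupp.add_apply, e, Finsupp.single_eq_of_ne hγβ, add_zero] at hγ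
  have htask := (S.good β).2.1
  rw [hβt] at htask
  obtain ⟨A, hA1, hA2⟩ := htask hfree hz
  have htN : ∀ γ < β, trc β S.N γ = S.N γ := fun γ hγ => trc_eq _ hγ
  obtain ⟨n, hn, hne⟩ := hA2 w hwB (ε + qf S.N (w + e β))
  apply hne
  rw [bf_congr htN hwB (hz n).2, qf_congr htN (hz n).2]
  have h1 := hA1 n hn
  rw [qf_congr htN (hz n).1] at h1
  have hxne : (z n).1 ≠ e β := by
    intro heq
    have : β ∈ (z n).1.support := by
      rw [heq, Finsupp.mem_support_iff, e, Finsupp.single_eq_same]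
      exact one_ne_zero
    exact lt_irrefl _ ((hz n).1 β this)
  have h2 := (hf (z n).1 (e β) hxne (by
    rw [qf_add, qf_single, bf_single (hz n).1, h1]
    have : ∀ a b : ZMod 2, a + 0 + (b + a) = b := by decide
    exact this _ _)).2
  have hfe : f (e β) = w + e β := by
    rw [hw, add_assoc, add_self_vec, add_zero]
  have hzf : f (z n).1 = (z n).2 := rfl
  rw [hfe, hzf, qf_add, bf_add_right, bf_single (hz n).2, bf_comm] at h2
  have : ∀ a b c d e : ZMod 2, a + b + (c + d) = e → d = c + a + (e + b) := by decide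
  exact this _ _ _ _ _ h2

/-- Two fresh indices with prescribed values. -/
theorem pick (G : Finset I) (φ : I → ZMod 2) (κ : ZMod 2) :
    ∃ x : I × I, (∀ γ ∈ G, γ < x.1) ∧ x.1 < x.2 ∧ (∀ γ ∈ G, S.N x.1 γ = 0) ∧
      (∀ γ ∈ G, S.N x.2 γ = φ γ) ∧ S.N x.2 x.1 = κ := by
  classical
  obtain ⟨σ, hσ1, hσ2⟩ := S.finite_task G ∅
  obtain ⟨τ, hτ1, hτ2⟩ := S.finite_task (insert σ G)
    ((G.filter fun γ => φ γ = 1) ∪ (if κ = 1 then {σ} else ∅))
  have hσG : σ ∉ G := fun h => lt_irrefl _ (hσ1 σ h)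
  refine ⟨(σ, τ), hσ1, hτ1 σ (Finset.mem_insert_self _ _), ?_, ?_, ?_⟩
  · intro γ hγ
    rw [hσ2 γ hγ, if_neg (Finset.notMem_empty _)]
  · intro γ hγ
    have hγσ : γ ≠ σ := fun h => hσG (h ▸ hγ)
    rw [hτ2 γ (Finset.mem_insert_of_mem hγ)]
    rcases zmod2_cases (φ γ) with h | h
    · rw [if_neg, h]
      intro hmem
      rcases Finset.mem_union.mp hmem with h1 | h1
      · rw [Finset.mem_filter] at h1
        rw [h] at h1
        exact absurd h1.2 (by decide)
      · split_ifs at h1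
        · exact hγσ (Finset.mem_singleton.mp h1)
        · exact absurd h1 (Finset.notMem_empty _)
    · rw [if_pos, h]
      exact Finset.mem_union_left _ (Finset.mem_filter.mpr ⟨hγ, h⟩)
  · change S.N τ σ = κ
    rw [hτ2 σ (Finset.mem_insert_self _ _)]
    rcases zmod2_cases κ with h | h
    · rw [if_neg, h]
      intro hmem
      rcases Finset.mem_union.mp hmem with h1 | h1
      · exact hσG (Finset.mem_filter.mp h1).1
      · rw [if_neg (by rw [h]; decide)] at h1
        exact absurd h1 (Finset.notMem_empty _)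
    · rw [if_pos, h]
      refine Finset.mem_union_right _ ?_
      rw [if_pos h]
      exact Finset.mem_singleton_self _

/-- A sequence of pairwise adjacent vectors with prescribed types over `F`. -/
theorem exists_family (ε : ZMod 2) (F : Finset I) (t : ℕ → I → ZMod 2) (κ : ℕ → ZMod 2) :
    ∃ x : ℕ → (I →₀ ZMod 2), (∀ n, ∀ v : I →₀ ZMod 2, v.support ⊆ F →
        bf S.N (x n) v = ev (t n) v) ∧ (∀ n, qf S.N (x n) = κ n) ∧
      (∀ n, ¬ (x n).support ⊆ F) ∧ ∀ m n, m ≠ n → x m ≠ x n ∧ qf S.N (x m + x n) = ε := by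
  classical
  have hne : Nonempty I := by
    rw [← Cardinal.mk_ne_zero_iff, S.card]
    exact Cardinal.continuum_ne_zero
  haveI : Inhabited (I × I) := ⟨(Classical.arbitrary I, Classical.arbitrary I)⟩
  let G : ℕ → (ℕ → I × I) → Finset I := fun n prev =>
    F ∪ (Finset.range n).biUnion fun m => {(prev m).1, (prev m).2}
  let φ : ℕ → (ℕ → I × I) → I → ZMod 2 := fun n prev γ =>
    if γ ∈ F then t n γ else
      ∑ m ∈ Finset.range n, if γ = (prev m).1 then ε + κ m + κ n else 0
  obtain ⟨g, hg⟩ := rec_exists (I := ℕ) (X := I × I)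
    (fun n prev x => (∀ γ ∈ G n prev, γ < x.1) ∧ x.1 < x.2 ∧ (∀ γ ∈ G n prev, S.N x.1 γ = 0) ∧
      (∀ γ ∈ G n prev, S.N x.2 γ = φ n prev γ) ∧ S.N x.2 x.1 = κ n)
    (fun n prev => S.pick (G n prev) (φ n prev) (κ n))
  have hG : ∀ n, G n (fun τ => if τ < n then g τ else default) = G n g := by
    intro n
    simp only [G]
    congr 1
    refine Finset.biUnion_congr rfl fun m hm => ?_
    rw [if_pos (Finset.mem_range.mp hm)]
  have hφ : ∀ n, φ n (fun τ => if τ < n then g τ else default) = φ n g := by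
    intro n
    funext γ
    simp only [φ]
    split_ifs
    · rfl
    · refine Finset.sum_congr rfl fun m hm => ?_
      have hm' := Finset.mem_range.mp hm
      simp only [hm', if_true]
  simp only [hG, hφ] at hg
  have hmemF : ∀ n, ∀ γ ∈ F, γ ∈ G n g := fun n γ h => Finset.mem_union_left _ h
  have hmem1 : ∀ m n, m < n → (g m).1 ∈ G n g := fun m n h => Finset.mem_union_right _
    (Finset.mem_biUnion.mpr ⟨m, Finset.mem_range.mpr h, by simp⟩)
  have hmem2 : ∀ m n, m < n → (g m).2 ∈ G n g := fun m n h => Finset.mem_union_right _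
    (Finset.mem_biUnion.mpr ⟨m, Finset.mem_range.mpr h, by simp⟩)
  have h12 : ∀ n, (g n).1 < (g n).2 := fun n => (hg n).2.1
  have hlt1 : ∀ m n, m < n → (g m).1 < (g n).1 := fun m n h => (hg n).1 _ (hmem1 m n h)
  have hlt2 : ∀ m n, m < n → (g m).2 < (g n).1 := fun m n h => (hg n).1 _ (hmem2 m n h)
  have hF1 : ∀ n, (g n).1 ∉ F := fun n h => lt_irrefl _ ((hg n).1 _ (hmemF n _ h))
  have hF2 : ∀ n, (g n).2 ∉ F := fun n h =>
    lt_irrefl _ (((hg n).1 _ (hmemF n _ h)).trans (h12 n))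
  let x : ℕ → (I →₀ ZMod 2) := fun n => e (g n).1 + e (g n).2
  have hev : ∀ M : I → ZMod 2, ∀ n, ev M (x n) = M (g n).1 + M (g n).2 := by
    intro M n
    simp only [x, map_add, e, ev_single, one_mul]
  have hlow : ∀ m n, m < n → qf S.N (x m + x n) = ε := by
    intro m n hmn
    have hB1 : Below (g n).1 (x m) :=
      (below_e (hlt1 m n hmn)).add (below_e (hlt2 m n hmn))
    have hB2 : Below (g n).2 (x m) := hB1.mono (h12 n).le
    have hq : ∀ n, qf S.N (x n) = κ n := by
      intro n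
      rw [← (hg n).2.2.2.2]
      exact S.qf_e_add (h12 n)
    rw [qf_add, hq, hq]
    have hb : bf S.N (x m) (x n) = ev (S.N (g n).1) (x m) + ev (S.N (g n).2) (x m) := by
      conv_lhs => rw [show x n = e (g n).1 + e (g n).2 from rfl]
      rw [bf_add_right, bf_single hB1, bf_single hB2]
    rw [hb, hev, hev, (hg n).2.2.1 _ (hmem1 m n hmn), (hg n).2.2.1 _ (hmem2 m n hmn),
      (hg n).2.2.2.1 _ (hmem1 m n hmn), (hg n).2.2.2.1 _ (hmem2 m n hmn)]
    have e1 : φ n g (g m).1 = ε + κ m + κ n := by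
      simp only [φ]
      rw [if_neg (hF1 m), Finset.sum_eq_single m]
      · rw [if_pos rfl]
      · intro k _ hk
        rw [if_neg]
        intro heq
        rcases lt_or_gt_of_ne hk with h | h
        · exact (hlt1 k m h).ne heq.symm
        · exact (hlt1 m k h).ne heq
      · intro h
        exact absurd (Finset.mem_range.mpr hmn) h
    have e2 : φ n g (g m).2 = 0 := by
      simp only [φ]
      rw [if_neg (hF2 m)]
      refine Finset.sum_eq_zero fun k _ => ?_
      rw [if_neg]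
      intro heq
      rcases lt_trichotomy k m with h | h | h
      · exact ((hlt1 k m h).trans (h12 m)).ne heq.symm
      · rw [h] at heq
        exact (h12 m).ne heq.symm
      · exact (hlt2 m k h).ne heq
    rw [e1, e2]
    have : ∀ a b c : ZMod 2, b + c + (0 + 0 + (a + b + c + 0)) = a := by decide
    exact this _ _ _
  have hne' : ∀ m n, m < n → x m ≠ x n := by
    intro m n hmn heq
    have hB1 : Below (g n).1 (x m) :=
      (below_e (hlt1 m n hmn)).add (below_e (hlt2 m n hmn))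
    have : (g n).1 ∈ (x m).support := by
      rw [heq, Finsupp.mem_support_iff]
      simp only [x, e, Finsupp.add_apply, Finsupp.single_eq_same]
      rw [Finsupp.single_eq_of_ne (h12 n).ne, add_zero]
      exact one_ne_zero
    exact lt_irrefl _ (hB1 _ this)
  refine ⟨x, ?_, ?_, ?_, ?_⟩
  · intro n v hv
    have hB1 : Below (g n).1 v := fun γ hγ => (hg n).1 γ (hmemF n γ (hv hγ))
    have hB2 : Below (g n).2 v := hB1.mono (h12 n).le
    rw [bf_comm]
    simp only [x]
    rw [bf_add_right, bf_single hB1, bf_single hB2]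
    have e1 : ev (S.N (g n).1) v = 0 := by
      rw [ev_eq_sum]
      exact Finset.sum_eq_zero fun γ hγ => (hg n).2.2.1 γ (hmemF n γ (hv hγ))
    rw [e1, zero_add]
    refine ev_congr fun γ hγ => ?_
    rw [(hg n).2.2.2.1 γ (hmemF n γ (hv hγ))]
    simp only [φ]
    rw [if_pos (hv hγ)]
  · intro n
    rw [← (hg n).2.2.2.2]
    exact S.qf_e_add (h12 n)
  · intro n hsub
    apply hF1 n
    apply hsub
    rw [Finsupp.mem_support_iff]
    simp only [x, e, Finsupp.add_apply, Finsupp.single_eq_same]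
    rw [Finsupp.single_eq_of_ne (h12 n).ne, add_zero]
    exact one_ne_zero
  · intro m n hmn
    rcases lt_or_gt_of_ne hmn with h | h
    · exact ⟨hne' m n h, hlow m n h⟩
    · exact ⟨(hne' n m h).symm, by rw [add_comm]; exact hlow n m h⟩

end Setup

end Pool.Agent.Helper538.Sync
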