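import Pool.Agent.Helper538.SyncF

set_option autoImplicit false

namespace Pool.Agent.Helper538.Sync

open Cardinal Set Setup

section alg

variable {I : Type} [LinearOrder I]

/-- Extension by zero. -/
noncomputable def extF (F : Finset I) (t : F → ZMod 2) : I → ZMod 2 :=
  fun γ => if h : γ ∈ F then t ⟨γ, h⟩ else 0

theorem extF_mem {F : Finset I} (t : F → ZMod 2) {γ : I} (h : γ ∈ F) :
    extF F t γ = t ⟨γ, h⟩ := by
  rw [extF, dif_pos h]

theorem eq_zero_of_pr {F : Finset I} {v : I →₀ ZMod 2} (hv : v.support ⊆ F) (C : ZMod 2)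
    (h : ∀ t, ev (extF F t) v = C) : v = 0 := by
  have h0 : ∀ t, ev (extF F t) v = 0 := by
    intro t
    rw [h t, ← h 0, ev_eq_sum]
    refine Finset.sum_eq_zero fun γ hγ => ?_
    rw [extF_mem _ (hv hγ)]
    rfl
  by_contra hne
  obtain ⟨γ, hγ⟩ := Finsupp.support_nonempty_iff.mpr hne
  have h1 := h0 (fun δ => if (δ : I) = γ then 1 else 0)
  rw [ev_eq_sum, Finset.sum_eq_single γ] at h1
  · rw [extF_mem _ (hv hγ), if_pos rfl] at h1
    exact absurd h1 (by decide)
  · intro δ hδ hne
    rw [extF_mem _ (hv hδ), if_neg hne]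
  · intro h; exact absurd hγ h

theorem bf_eq_ev (N : I → I → ZMod 2) (w v : I →₀ ZMod 2) :
    bf N w v = ev (fun γ => bf N w (e γ)) v := by
  induction v using Finsupp.induction_linear with
  | zero => rw [bf_zero_right, map_zero]
  | add x y hx hy => rw [bf_add_right, map_add, hx, hy]
  | single γ c =>
    rcases zmod2_cases c with rfl | rfl
    · rw [Finsupp.single_zero, bf_zero_right, map_zero]
    · rw [ev_single, one_mul]

/-- Types over a finite set corrected by the form. -/
noncomputable def tau (N : I → I → ZMod 2) (F : Finset I)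
    (W : (F → ZMod 2) × Bool → (I →₀ ZMod 2)) (t : F → ZMod 2) : F → ZMod 2 :=
  fun γ => t γ + bf N (W (t, false)) (e γ)

theorem ev_tau (N : I → I → ZMod 2) (F : Finset I)
    (W : (F → ZMod 2) × Bool → (I →₀ ZMod 2)) (t : F → ZMod 2) {v : I →₀ ZMod 2}
    (hv : v.support ⊆ F) :
    ev (extF F (tau N F W t)) v = ev (extF F t) v + bf N (W (t, false)) v := by
  rw [bf_eq_ev N (W (t, false)) v, ← ev_add]
  refine ev_congr fun γ hγ => ?_
  rw [extF_mem _ (hv hγ), Pi.add_apply, extF_mem _ (hv hγ), tau]

theorem support_add_sub {F : Finset I} {x y : I →₀ ZMod 2} (hx : x.support ⊆ F)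
    (hy : y.support ⊆ F) : (x + y).support ⊆ F :=
  (Finsupp.support_add).trans (Finset.union_subset hx hy)

theorem alg (N : I → I → ZMod 2) (F : Finset I)
    (W : (F → ZMod 2) × Bool → (I →₀ ZMod 2)) (hW : ∀ θ, (W θ).support ⊆ F)
    (hR : ∀ θ θ', θ ≠ θ' → qf N (W θ + W θ') =
      ev (extF F θ.1) (W θ + W θ') + ev (extF F θ'.1) (W θ + W θ')) :
    ∀ t, W (t, false) = W (t, true) := by
  classical
  have hR' : ∀ θ θ', θ ≠ θ' → qf N (W θ) + qf N (W θ') + bf N (W θ) (W θ') =
      ev (extF F θ.1) (W θ) + ev (extF F θ.1) (W θ') +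
        (ev (extF F θ'.1) (W θ) + ev (extF F θ'.1) (W θ')) := by
    intro θ θ' h
    rw [← qf_add, ← map_add, ← map_add]
    exact hR θ θ' h
  -- injectivity of `tau`
  have hinj : Function.Injective (tau N F W) := by
    intro t1 t2 h12
    by_contra hne
    have hE : ∀ v : I →₀ ZMod 2, v.support ⊆ F → ev (extF F t1) v + bf N (W (t1, false)) v =
        ev (extF F t2) v + bf N (W (t2, false)) v := by
      intro v hv
      rw [← ev_tau N F W t1 hv, ← ev_tau N F W t2 hv, h12]
    have hd : W (t1, false) + W (t2, false) = 0 := by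
      refine eq_zero_of_pr (support_add_sub (hW _) (hW _))
        (qf N (W (t1, false)) + qf N (W (t2, false)) + ev (extF F t1) (W (t1, false)) +
          ev (extF F t2) (W (t2, false))) fun t => ?_
      have h13 := hR' (t1, false) (t, true) (by simp)
      have h23 := hR' (t2, false) (t, true) (by simp)
      have h3 := hE _ (hW (t, true))
      rw [map_add]
      simp only at h13 h23 h3
      clear hE hR' hR h12 hne
      grind
    have hWW := eq_of_add_eq_zero hd
    apply hne
    funext γ
    have hγ : (e (γ : I) : I →₀ ZMod 2).support ⊆ F := by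
      intro δ hδ
      have : δ = γ := by
        by_contra hne
        rw [Finsupp.mem_support_iff] at hδ
        exact hδ (Finsupp.single_eq_of_ne hne)
      rw [this]; exact γ.2
    have h3 := hE _ hγ
    rw [hWW, e, ev_single, ev_single, extF_mem _ γ.2, extF_mem _ γ.2] at h3
    simpa using h3
  have hsurj : Function.Surjective (tau N F W) := Finite.surjective_of_injective hinj
  intro t
  refine eq_of_add_eq_zero ?_
  have h12 := hR' (t, false) (t, true) (by simp)
  refine eq_zero_of_pr (support_add_sub (hW _) (hW _))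
    (qf N (W (t, false)) + qf N (W (t, true)) + ev (extF F t) (W (t, false)) +
      ev (extF F t) (W (t, true))) fun t' => ?_
  obtain ⟨t3, rfl⟩ := hsurj t'
  rw [ev_tau N F W t3 (support_add_sub (hW _) (hW _)), map_add, bf_add_right]
  by_cases h : t3 = t
  · subst h
    rw [bf_self]
    simp only at h12
    clear hR' hR hinj hsurj
    grind
  · have h13 := hR' (t, false) (t3, false) (by simpa using (fun h' => h h'.symm))
    have h23 := hR' (t, true) (t3, false) (by simp)
    rw [bf_comm N (W (t3, false)), bf_comm N (W (t3, false))]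
    simp only at h12 h13 h23
    clear hR' hR hinj hsurj
    grind

end alg

namespace Setup

variable {I : Type} [LinearOrder I] [WellFoundedLT I] (S : Setup I)

/-- A preserving map is injective. -/
theorem step3 (ε : ZMod 2) (f : (I →₀ ZMod 2) → (I →₀ ZMod 2)) (hf : S.Pres ε f) :
    Function.Injective f := by
  classical
  intro a b hab
  by_contra hne
  obtain ⟨F0, hF0⟩ := S.step2 ε f hf
  obtain ⟨F, hFdef⟩ : ∃ F, F = F0 ∪ (a.support ∪ b.support ∪ (f a).support) := ⟨_, rfl⟩
  have h0F : F0 ⊆ F := by rw [hFdef]; exact Finset.subset_union_left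
  have haF : a.support ⊆ F := by
    rw [hFdef]; intro γ hγ; simp only [Finset.mem_union]; tauto
  have hbF : b.support ⊆ F := by
    rw [hFdef]; intro γ hγ; simp only [Finset.mem_union]; tauto
  have hyF : (f a).support ⊆ F := by
    rw [hFdef]; intro γ hγ; simp only [Finset.mem_union]; tauto
  let s : Bool → (I →₀ ZMod 2) := fun c => if c then b else a
  have hsF : ∀ c, (s c).support ⊆ F := by
    intro c; cases c
    · exact haF
    · exact hbF
  have hfs : ∀ c, f (s c) = f a := by
    intro c; cases c
    · rfl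
    · exact hab.symm
  -- enumeration of types, each infinitely often
  haveI : Nonempty ((F → ZMod 2) × Bool) := ⟨(0, false)⟩
  obtain ⟨en, hen⟩ : ∃ en : ℕ → ((F → ZMod 2) × Bool) × ℕ, Function.Surjective en :=
    exists_surjective_nat _
  let θ : ℕ → (F → ZMod 2) × Bool := fun n => (en n).1
  obtain ⟨x, hx1, hx2, hx3, hx4⟩ := S.exists_family ε F (fun n => extF F (θ n).1)
    (fun n => ε + qf S.N (s (θ n).2) + ev (extF F (θ n).1) (s (θ n).2))
  have hVF : {v : I →₀ ZMod 2 | v.support ⊆ F}.Finite := by
    refine Set.Finite.of_finite_image (f := fun v : I →₀ ZMod 2 => v.support)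
      ((F.powerset.finite_toSet).subset ?_) ?_
    · rintro _ ⟨v, hv, rfl⟩
      exact Finset.mem_coe.mpr (Finset.mem_powerset.mpr hv)
    · intro v _ w _ hvw
      exact eq_of_support_eq hvw
  have hch : ∀ τ : (F → ZMod 2) × Bool, ∃ n, θ n = τ ∧ ¬ (f (x n)).support ⊆ F := by
    intro τ
    by_contra hcon
    push Not at hcon
    have hinf : {n | θ n = τ}.Infinite := by
      have : Function.Surjective (fun n : {n | θ n = τ} => (en n).2) := by
        intro k
        obtain ⟨n, hn⟩ := hen (τ, k)
        refine ⟨⟨n, ?_⟩, ?_⟩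
        · change (en n).1 = τ
          rw [hn]
        · change (en n).2 = k
          rw [hn]
      have hI : Infinite {n | θ n = τ} := Infinite.of_surjective _ this
      exact Set.infinite_coe_iff.mp hI
    refine hinf (Set.Finite.of_finite_image (f := fun n => f (x n)) (hVF.subset ?_) ?_)
    · rintro _ ⟨n, hn, rfl⟩
      exact hcon n hn
    · intro m _ n _ hmn
      by_contra hne'
      obtain ⟨h1, h2⟩ := hx4 m n hne'
      exact (hf _ _ h1 h2).1 hmn
  choose J hJ1 hJ2 using hch
  let X : (F → ZMod 2) × Bool → (I →₀ ZMod 2) := fun τ => x (J τ)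
  let W : (F → ZMod 2) × Bool → (I →₀ ZMod 2) := fun τ => X τ + f (X τ)
  have hW : ∀ τ, (W τ).support ⊆ F := by
    intro τ
    rcases hF0 (X τ) with h | h | h
    · exact absurd (h.trans h0F) (hx3 _)
    · exact absurd (h.trans h0F) (hJ2 _)
    · exact h.trans h0F
  have hfX : ∀ τ, f (X τ) = X τ + W τ := by
    intro τ
    simp only [W]
    rw [← add_assoc, add_self_vec, zero_add]
  have hB : ∀ τ, ∀ v : I →₀ ZMod 2, v.support ⊆ F → bf S.N (X τ) v = ev (extF F τ.1) v := by
    intro τ v hv
    have := hx1 (J τ) v hv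
    rw [hJ1] at this
    exact this
  have hq : ∀ τ, qf S.N (X τ) = ε + qf S.N (s τ.2) + ev (extF F τ.1) (s τ.2) := by
    intro τ
    have := hx2 (J τ)
    rw [hJ1] at this
    exact this
  have hadj : ∀ τ τ', τ ≠ τ' → X τ ≠ X τ' ∧ qf S.N (X τ + X τ') = ε := by
    intro τ τ' h
    refine hx4 _ _ fun h' => h ?_
    rw [← hJ1 τ, ← hJ1 τ', h']
  have hR : ∀ θ θ', θ ≠ θ' → qf S.N (W θ + W θ') =
      ev (extF F θ.1) (W θ + W θ') + ev (extF F θ'.1) (W θ + W θ') := by
    intro τ τ' h
    obtain ⟨h1, h2⟩ := hadj τ τ' h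
    have h3 := (hf _ _ h1 h2).2
    rw [hfX, hfX, show X τ + W τ + (X τ' + W τ') = (X τ + X τ') + (W τ + W τ') by abel,
      qf_add, h2, bf_add_left, hB τ _ (support_add_sub (hW _) (hW _)),
      hB τ' _ (support_add_sub (hW _) (hW _))] at h3
    clear_value W X
    grind
  have hWeq := alg S.N F W hW hR
  have hstar : ∀ τ, qf S.N (s τ.2) + ev (extF F τ.1) (s τ.2) +
      (qf S.N (W τ + f a) + ev (extF F τ.1) (W τ + f a)) = 0 := by
    intro τ
    have h1 : X τ ≠ s τ.2 := by
      intro h
      apply hx3 (J τ)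
      change (X τ).support ⊆ F
      rw [h]
      exact hsF _
    have h2 : qf S.N (X τ + s τ.2) = ε := by
      rw [qf_add, hq, hB τ _ (hsF _)]
      generalize qf S.N (s τ.2) = p
      generalize ev (extF F τ.1) (s τ.2) = r
      clear * - p r ε
      revert ε p r
      decide
    have h3 := (hf _ _ h1 h2).2
    rw [hfs, hfX, add_assoc, qf_add, hq, hB τ _ (support_add_sub (hW _) hyF)] at h3
    generalize qf S.N (s τ.2) = p at *
    generalize ev (extF F τ.1) (s τ.2) = r at *
    generalize qf S.N (W τ + f a) = u at *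
    generalize ev (extF F τ.1) (W τ + f a) = v at *
    clear * - h3
    revert ε p r u v
    decide
  apply hne
  refine eq_of_add_eq_zero (eq_zero_of_pr (support_add_sub haF hbF)
    (qf S.N a + qf S.N b) fun t => ?_)
  have h1 := hstar (t, false)
  have h2 := hstar (t, true)
  rw [hWeq t] at h1
  simp only [s] at h1 h2
  rw [map_add]
  simp only [Bool.false_eq_true, if_false, if_true] at h1 h2
  generalize qf S.N (W (t, true) + f a) + ev (extF F t) (W (t, true) + f a) = u at *
  generalize qf S.N a = p at *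
  generalize qf S.N b = q at *
  generalize ev (extF F t) a = r at *
  generalize ev (extF F t) b = w at *
  clear * - h1 h2
  revert p q r w u
  decide

end Setup

end Pool.Agent.Helper538.Sync
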