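import Pool.Agent.Helper538.SyncG

set_option autoImplicit false

namespace Pool.Agent.Helper538.Sync

open Cardinal Set

namespace Setup

variable {I : Type} [LinearOrder I] [WellFoundedLT I] (S : Setup I)

/-- The group of all permutations preserving the form of differences. -/
def grp : Subgroup (Equiv.Perm (I →₀ ZMod 2)) where
  carrier := {g | ∀ x y, qf S.N (g x + g y) = qf S.N (x + y)}
  mul_mem' := by
    intro g h hg hh x y
    rw [Equiv.Perm.mul_apply, Equiv.Perm.mul_apply, hg, hh]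
  one_mem' := by
    intro x y
    rfl
  inv_mem' := by
    intro g hg x y
    rw [← hg (g⁻¹ x) (g⁻¹ y)]
    simp

theorem mem_grp {g : Equiv.Perm (I →₀ ZMod 2)} :
    g ∈ S.grp ↔ ∀ x y, qf S.N (g x + g y) = qf S.N (x + y) := Iff.rfl

theorem trn_mem (a : I →₀ ZMod 2) : Equiv.addRight a ∈ S.grp := by
  intro x y
  simp only [Equiv.coe_addRight]
  rw [show x + a + (y + a) = (x + y) + (a + a) by abel, add_self_vec, add_zero]

theorem exists_tv {d d' : I →₀ ZMod 2} (hq : qf S.N d = qf S.N d') (hB : bf S.N d d' = 1) :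
    ∃ g ∈ S.grp, g 0 = 0 ∧ g d = d' := by
  obtain ⟨u, hu⟩ : ∃ u, u = d + d' := ⟨_, rfl⟩
  have hqu : qf S.N u = 1 := by
    rw [hu, qf_add, hq, hB, zmod2_add_self, zero_add]
  let T : (I →₀ ZMod 2) → (I →₀ ZMod 2) := fun x => x + bf S.N x u • u
  have hT : ∀ x, (bf S.N x u = 0 ∧ T x = x) ∨ (bf S.N x u = 1 ∧ T x = x + u) := by
    intro x
    rcases zmod2_cases (bf S.N x u) with h | h
    · exact Or.inl ⟨h, by simp only [T, h, zero_smul, add_zero]⟩
    · exact Or.inr ⟨h, by simp only [T, h, one_smul]⟩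
  have hadd : ∀ x y, T (x + y) = T x + T y := by
    intro x y
    simp only [T]
    rw [bf_add_left, add_smul]
    abel
  have hinv : Function.Involutive T := by
    intro x
    rcases hT x with ⟨h1, h2⟩ | ⟨h1, h2⟩
    · rw [h2, h2]
    · rw [h2]
      rcases hT (x + u) with ⟨h3, _⟩ | ⟨_, h4⟩
      · rw [bf_add_left, h1, bf_self] at h3
        exact absurd h3 (by decide)
      · rw [h4, add_assoc, add_self_vec, add_zero]
  have hqT : ∀ x, qf S.N (T x) = qf S.N x := by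
    intro x
    rcases hT x with ⟨h1, h2⟩ | ⟨h1, h2⟩
    · rw [h2]
    · rw [h2, qf_add, hqu, h1, add_assoc, zmod2_add_self, add_zero]
  refine ⟨hinv.toPerm T, ?_, ?_, ?_⟩
  · intro x y
    change qf S.N (T x + T y) = _
    rw [← hadd, hqT]
  · change T 0 = 0
    simp only [T, bf_zero_left, zero_smul, add_zero]
  · change T d = d'
    have h1 : bf S.N d u = 1 := by rw [hu, bf_add_right, bf_self, hB, zero_add]
    simp only [T]
    rw [h1, one_smul, hu, ← add_assoc, add_self_vec, zero_add]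

theorem exists_iso {d d' : I →₀ ZMod 2} (hd : d ≠ 0) (hd' : d' ≠ 0)
    (hq : qf S.N d = qf S.N d') : ∃ g ∈ S.grp, g 0 = 0 ∧ g d = d' := by
  classical
  rcases zmod2_cases (bf S.N d d') with hB | hB
  swap
  · exact S.exists_tv hq hB
  obtain ⟨φ, hφ1, hφ2⟩ : ∃ φ : I → ZMod 2, ev φ d = 1 ∧ ev φ d' = 1 := by
    obtain ⟨γ, hγ⟩ := Finsupp.support_nonempty_iff.mpr hd
    obtain ⟨γ', hγ'⟩ := Finsupp.support_nonempty_iff.mpr hd'
    have e1 : d γ = 1 := (zmod2_cases _).resolve_left (Finsupp.mem_support_iff.mp hγ)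
    have e2 : d' γ' = 1 := (zmod2_cases _).resolve_left (Finsupp.mem_support_iff.mp hγ')
    have key : ∀ (α : I) (v : I →₀ ZMod 2), ev (Pi.single α 1) v = v α := by
      intro α v
      rw [ev_piSingle, mul_one]
    rcases zmod2_cases (d' γ) with h1 | h1
    · rcases zmod2_cases (d γ') with h2 | h2
      · refine ⟨Pi.single γ 1 + Pi.single γ' 1, ?_, ?_⟩
        · rw [ev_add, key, key, e1, h2, add_zero]
        · rw [ev_add, key, key, e2, h1, zero_add]
      · exact ⟨Pi.single γ' 1, by rw [key, h2], by rw [key, e2]⟩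
    · exact ⟨Pi.single γ 1, by rw [key, e1], by rw [key, h1]⟩
  obtain ⟨x, hx1, hx2, -, -⟩ := S.exists_family 0 (d.support ∪ d'.support) (fun _ => φ)
    (fun _ => qf S.N d)
  have h1 : bf S.N d (x 0) = 1 := by
    rw [bf_comm, hx1 0 d Finset.subset_union_left, hφ1]
  have h2 : bf S.N (x 0) d' = 1 := by
    rw [hx1 0 d' Finset.subset_union_right, hφ2]
  obtain ⟨g, hg, hg0, hgd⟩ := S.exists_tv (hx2 0).symm h1
  obtain ⟨g', hg', hg0', hgd'⟩ := S.exists_tv ((hx2 0).trans hq) h2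
  refine ⟨g' * g, mul_mem hg' hg, ?_, ?_⟩
  · rw [Equiv.Perm.mul_apply, hg0, hg0']
  · rw [Equiv.Perm.mul_apply, hgd, hgd']

theorem exists_move {x y x' y' : I →₀ ZMod 2} (h : x ≠ y) (h' : x' ≠ y')
    (hq : qf S.N (x + y) = qf S.N (x' + y')) : ∃ g ∈ S.grp, g x = x' ∧ g y = y' := by
  obtain ⟨g, hg, h0, h1⟩ := S.exists_iso (d := y + x) (d' := y' + x')
    (fun h0 => h (eq_of_add_eq_zero h0).symm) (fun h0 => h' (eq_of_add_eq_zero h0).symm)
    (by rw [add_comm y x, add_comm y' x']; exact hq)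
  refine ⟨Equiv.addRight x' * (g * Equiv.addRight x), mul_mem (S.trn_mem _)
    (mul_mem hg (S.trn_mem _)), ?_, ?_⟩
  · simp only [Equiv.Perm.mul_apply, Equiv.coe_addRight]
    rw [add_self_vec, h0, zero_add]
  · simp only [Equiv.Perm.mul_apply, Equiv.coe_addRight]
    rw [h1, add_assoc, add_self_vec, add_zero]

/-- The group is synchronizing. -/
theorem sync (f : Function.End (I →₀ ZMod 2)) (hf : ¬ Function.Injective f)
    (v w : I →₀ ZMod 2) :
    ∃ h ∈ Submonoid.closure ({f} ∪ {k : Function.End (I →₀ ZMod 2) | ∃ g ∈ S.grp,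
      k = ((g : Equiv.Perm (I →₀ ZMod 2)) : (I →₀ ZMod 2) → (I →₀ ZMod 2))}),
      (h : (I →₀ ZMod 2) → (I →₀ ZMod 2)) v = (h : (I →₀ ZMod 2) → (I →₀ ZMod 2)) w := by
  obtain ⟨M, hM⟩ : ∃ M, M = Submonoid.closure ({f} ∪ {k : Function.End (I →₀ ZMod 2) |
      ∃ g ∈ S.grp, k = ((g : Equiv.Perm (I →₀ ZMod 2)) : (I →₀ ZMod 2) → (I →₀ ZMod 2))}) :=
    ⟨_, rfl⟩
  rw [← hM]
  have hfM : f ∈ M := by
    rw [hM]
    exact Submonoid.subset_closure (Or.inl rfl)
  have hgM : ∀ g ∈ S.grp, (show Function.End (I →₀ ZMod 2) from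
      ((g : Equiv.Perm (I →₀ ZMod 2)) : (I →₀ ZMod 2) → (I →₀ ZMod 2))) ∈ M := by
    intro g hg
    rw [hM]
    exact Submonoid.subset_closure (Or.inr ⟨g, hg, rfl⟩)
  have hstepf : ∀ x y, (∃ h ∈ M, (h : (I →₀ ZMod 2) → (I →₀ ZMod 2)) (f x) = h (f y)) →
      ∃ h ∈ M, (h : (I →₀ ZMod 2) → (I →₀ ZMod 2)) x = h y := by
    rintro x y ⟨h, hh, he⟩
    exact ⟨h * f, mul_mem hh hfM, he⟩
  have hstepg : ∀ g ∈ S.grp, ∀ x y,
      (∃ h ∈ M, (h : (I →₀ ZMod 2) → (I →₀ ZMod 2)) (g x) = h (g y)) →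
      ∃ h ∈ M, (h : (I →₀ ZMod 2) → (I →₀ ZMod 2)) x = h y := by
    rintro g hg x y ⟨h, hh, he⟩
    exact ⟨h * (show Function.End (I →₀ ZMod 2) from
      ((g : Equiv.Perm (I →₀ ZMod 2)) : (I →₀ ZMod 2) → (I →₀ ZMod 2))),
      mul_mem hh (hgM g hg), he⟩
  have hf' : ¬ ∀ a b, (f : (I →₀ ZMod 2) → (I →₀ ZMod 2)) a = f b → a = b :=
    fun h => hf fun a b => h a b
  push Not at hf'
  obtain ⟨a, b, hab, hne⟩ := hf'
  have claim1 : ∀ x y, x ≠ y → qf S.N (x + y) = qf S.N (a + b) →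
      ∃ h ∈ M, (h : (I →₀ ZMod 2) → (I →₀ ZMod 2)) x = h y := by
    intro x y hxy hq
    obtain ⟨g, hg, hgx, hgy⟩ := S.exists_move hxy hne hq
    refine hstepg g hg x y (hstepf _ _ ⟨1, one_mem _, ?_⟩)
    rw [hgx, hgy, hab]
  by_cases hvw : v = w
  · exact ⟨1, one_mem _, by rw [hvw]⟩
  by_cases hq : qf S.N (v + w) = qf S.N (a + b)
  · exact claim1 v w hvw hq
  have hnp : ¬ S.Pres (qf S.N (v + w)) f := fun hp => hne (S.step3 _ f hp hab)
  have hnp' : ¬ ∀ x y, x ≠ y → qf S.N (x + y) = qf S.N (v + w) →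
      f x ≠ f y ∧ qf S.N (f x + f y) = qf S.N (v + w) := fun h => hnp h
  push Not at hnp'
  obtain ⟨x, y, hxy, hqx, hnot⟩ := hnp'
  obtain ⟨g, hg, hgv, hgw⟩ := S.exists_move hvw hxy hqx.symm
  refine hstepg g hg v w (hstepf _ _ ?_)
  rw [hgv, hgw]
  by_cases hfxy : f x = f y
  · exact ⟨1, one_mem _, by rw [hfxy]⟩
  · refine claim1 _ _ hfxy ?_
    have h1 := hnot hfxy
    generalize qf S.N (f x + f y) = p at *
    generalize qf S.N (a + b) = q at *
    generalize qf S.N (v + w) = r at *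
    clear * - h1 hq
    revert p q r
    decide

/-- The group is not 2-homogeneous. -/
theorem not_homog : ¬ ∀ a b c d : I →₀ ZMod 2, a ≠ b → c ≠ d → ∃ g ∈ S.grp,
    (g : (I →₀ ZMod 2) → (I →₀ ZMod 2)) '' {a, b} = {c, d} := by
  intro h
  obtain ⟨x, -, hx, -, -, hx0⟩ := S.pick ∅ 0 0
  obtain ⟨y, -, hy, -, -, hy1⟩ := S.pick ∅ 0 1
  obtain ⟨g, hg, him⟩ := h _ _ _ _ (e_ne hx.ne) (e_ne hy.ne)
  rw [Set.image_pair] at him
  have hq : qf S.N (g (e x.1) + g (e x.2)) = qf S.N (e y.1 + e y.2) := by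
    rcases Set.pair_eq_pair_iff.mp him with ⟨h1, h2⟩ | ⟨h1, h2⟩
    · rw [h1, h2]
    · rw [h1, h2, add_comm]
  rw [hg, S.qf_e_add hx, S.qf_e_add hy, hx0, hy1] at hq
  exact absurd hq (by decide)

end Setup

end Pool.Agent.Helper538.Sync
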