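import Pool.Agent.Helper538.SyncH

set_option autoImplicit false

namespace Pool.Agent.Helper538.Sync

open Cardinal Set

theorem mk_vec {I : Type} (hI : #I = 𝔠) : #(I →₀ ZMod 2) = 𝔠 := by
  have : Infinite I := by
    rw [← Cardinal.aleph0_le_mk_iff, hI]
    exact Cardinal.aleph0_le_continuum
  rw [Cardinal.mk_finsupp_of_infinite, hI]
  refine max_eq_left ?_
  exact (Cardinal.mk_le_aleph0 (α := ZMod 2)).trans Cardinal.aleph0_le_continuum

theorem mk_seq {X : Type} (hX : #X = 𝔠) : #(ℕ → X) = 𝔠 := by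
  rw [← Cardinal.power_def, hX, Cardinal.mk_nat, Cardinal.continuum_power_aleph0]

theorem mk_prod' {X Y : Type} (hX : #X = 𝔠) (hY : #Y = 𝔠) : #(X × Y) = 𝔠 := by
  rw [Cardinal.mk_prod, Cardinal.lift_id, Cardinal.lift_id, hX, hY]
  exact Cardinal.continuum_mul_self

theorem mk_task {I : Type} (hI : #I = 𝔠) : #(TaskT I) = 𝔠 := by
  have : Infinite I := by
    rw [← Cardinal.aleph0_le_mk_iff, hI]
    exact Cardinal.aleph0_le_continuum
  have h1 : #(Finset I × Finset I) = 𝔠 :=
    mk_prod' (by rw [Cardinal.mk_finset_of_infinite, hI]) (by rw [Cardinal.mk_finset_of_infinite, hI])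
  have h2 : #(ℕ → (I →₀ ZMod 2) × (I →₀ ZMod 2)) = 𝔠 :=
    mk_seq (mk_prod' (mk_vec hI) (mk_vec hI))
  have h3 : #((ℕ → (I →₀ ZMod 2) × (I →₀ ZMod 2)) × ZMod 2) = 𝔠 := by
    rw [Cardinal.mk_prod, Cardinal.lift_id, Cardinal.lift_id, h2]
    refine Cardinal.mul_eq_left Cardinal.aleph0_le_continuum
      ((Cardinal.mk_le_aleph0 (α := ZMod 2)).trans Cardinal.aleph0_le_continuum) ?_
    exact Cardinal.mk_ne_zero _
  rw [TaskT, Cardinal.mk_sum, Cardinal.lift_id, Cardinal.lift_id, h1, h3]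
  exact Cardinal.continuum_add_self

theorem setup_of {I : Type} [LinearOrder I] [WellFoundedLT I] (hI : #I = 𝔠)
    (hsmall : ∀ σ : I, #(Set.Iio σ) < 𝔠) : Nonempty (Setup I) := by
  have hcode : #I = #(ℕ → I × (I →₀ ZMod 2)) := by
    rw [hI, mk_seq (mk_prod' hI (mk_vec hI))]
  obtain ⟨ecode⟩ := Cardinal.eq.mp hcode
  have htask : #I = #(TaskT I × I) := by
    rw [hI, mk_prod' (mk_task hI) hI]
  obtain ⟨etask⟩ := Cardinal.eq.mp htask
  have hbig : ∀ t, #{σ // (etask σ).1 = t} = 𝔠 := by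
    intro t
    rw [← hI]
    refine Cardinal.mk_congr ⟨fun σ => (etask σ.1).2, fun i => ⟨etask.symm (t, i), ?_⟩, ?_, ?_⟩
    · rw [Equiv.apply_symm_apply]
    · rintro ⟨σ, hσ⟩
      apply Subtype.ext
      change etask.symm (t, (etask σ).2) = σ
      rw [← hσ, Prod.mk.eta, Equiv.symm_apply_apply]
    · intro i
      change (etask (etask.symm (t, i))).2 = i
      rw [Equiv.apply_symm_apply]
  obtain ⟨r, N, hgood⟩ := exists_structure ecode (fun σ => (etask σ).1) hsmall
  exact ⟨{ code := ecode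
           task := fun σ => (etask σ).1
           r := r
           N := N
           small := hsmall
           card := hI
           code_surj := ecode.surjective
           task_big := hbig
           good := hgood }⟩

theorem exists_setup : ∃ (I : Type) (_ : LinearOrder I) (_ : WellFoundedLT I),
    Nonempty (Setup I) := by
  have hI : #(𝔠 : Cardinal.{0}).ord.ToType = 𝔠 := Cardinal.mk_ord_toType _
  have hsmall : ∀ σ : (𝔠 : Cardinal.{0}).ord.ToType, #(Set.Iio σ) < 𝔠 := by
    intro σ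
    have := Cardinal.mk_Iio_lt σ (by rw [hI]; simp)
    rwa [hI] at this
  exact ⟨_, _, _, setup_of hI hsmall⟩

theorem uncountable_vec {I : Type} [LinearOrder I] [WellFoundedLT I] (S : Setup I) :
    Uncountable (I →₀ ZMod 2) := by
  rw [← not_countable_iff, ← Cardinal.mk_le_aleph0_iff, mk_vec S.card]
  exact not_le.mpr Cardinal.aleph0_lt_continuum

end Pool.Agent.Helper538.Sync
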